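import Pool.Agent.R812.TC.Stm

/-! Project TC: assembly, first part: basic properties of Ex and union bounds. -/

namespace Pool.Agent.R812.TC
open Finset

lemma P_nonneg' (hP : S_P) {F : ℕ → ℝ} (hF : Good F) (x : V) (d : Fin 4) : 0 ≤ P F x d :=
  le_trans (by norm_num) ((hP F hF x).1 d)

lemma Ex_mono (hP : S_P) {F : ℕ → ℝ} (hF : Good F) : ∀ (t : ℕ) (Φ Ψ : List (Fin 4) → ℝ),
    (∀ w, Φ w ≤ Ψ w) → ∀ w, Ex F t Φ w ≤ Ex F t Ψ w
  | 0, Φ, Ψ, h, w => by simpa [Ex] using h w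
  | (t + 1), Φ, Ψ, h, w => by
      simp only [Ex]
      exact Finset.sum_le_sum fun d _ =>
        mul_le_mul_of_nonneg_left (Ex_mono hP hF t Φ Ψ h _) (P_nonneg' hP hF _ _)

lemma Ex_add (F : ℕ → ℝ) : ∀ (t : ℕ) (Φ Ψ : List (Fin 4) → ℝ) (w : List (Fin 4)),
    Ex F t (fun w => Φ w + Ψ w) w = Ex F t Φ w + Ex F t Ψ w
  | 0, Φ, Ψ, w => by simp [Ex]
  | (t + 1), Φ, Ψ, w => by
      simp only [Ex, Ex_add F t Φ Ψ, mul_add, Finset.sum_add_distrib]

lemma Ex_zero (F : ℕ → ℝ) : ∀ (t : ℕ) (w : List (Fin 4)), Ex F t (fun _ => 0) w = 0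
  | 0, w => by simp [Ex]
  | (t + 1), w => by simp only [Ex, Ex_zero F t, mul_zero, Finset.sum_const_zero]

lemma Ex_sum (F : ℕ → ℝ) {ι : Type*} (s : Finset ι) (f : ι → List (Fin 4) → ℝ) (t : ℕ)
    (w : List (Fin 4)) :
    Ex F t (fun w => ∑ i ∈ s, f i w) w = ∑ i ∈ s, Ex F t (f i) w := by
  classical
  induction s using Finset.induction_on with
  | empty => simp [Ex_zero]
  | insert a s ha ih =>
      simp only [Finset.sum_insert ha]
      rw [Ex_add, ih]

lemma ind_nonneg (p : Prop) : 0 ≤ ind p := by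
  unfold ind; split_ifs <;> norm_num

lemma ind_le_one (p : Prop) : ind p ≤ 1 := by
  unfold ind; split_ifs <;> norm_num

lemma ind_true {p : Prop} (h : p) : ind p = 1 := by
  unfold ind; simp [h]

lemma ind_false {p : Prop} (h : ¬ p) : ind p = 0 := by
  unfold ind; simp [h]

lemma ind_mono {p q : Prop} (h : p → q) : ind p ≤ ind q := by
  by_cases hp : p
  · rw [ind_true hp, ind_true (h hp)]
  · rw [ind_false hp]; exact ind_nonneg _

lemma crs_xrs (n : ℕ → ℕ) (J : ℕ) (v : V) (d0 : Fin 4) : ∀ w : List (Fin 4),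
    crs n J v d0 w → xrs v d0 w
  | [], h => h
  | (d :: w), h => by
      rcases h with h | h
      · exact Or.inl (crs_xrs n J v d0 w h)
      · exact Or.inr h.2

lemma ls_le (n : ℕ → ℕ) (J : ℕ) : ∀ w : List (Fin 4), (ls n J w).1 ≤ J
  | [] => by simp [ls]
  | (d :: w) => by
      have ih := ls_le n J w
      simp only [ls]
      split_ifs with h1 h2 h3
      · exact ih
      · show (ls n J w).1 + 1 ≤ J
        omega
      · show (ls n J w).1 - 1 ≤ J
        omega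
      · exact ih

/-- resistance bound for the zone of line i -/
noncomputable def rho (F : ℕ → ℝ) (n : ℕ → ℕ) (g : ℕ → ℝ) (i : ℕ) : ℝ :=
  40 * (1 + Real.log ((n (i + 1) - n i : ℕ) + 1)) / g i + 40 * n i / F (n i)

/-- number of passages needed at line i -/
noncomputable def kap (F : ℕ → ℝ) (n : ℕ → ℕ) (g : ℕ → ℝ) (i : ℕ) : ℕ :=
  ⌈64 * (rho F n g i * Cap F (n i) (n (i + 1)) + 1) * (5 * Real.log (n i) + 10)⌉₊

/-- the zone of line i -/
noncomputable def zone (n : ℕ → ℕ) (i : ℕ) : Finset V :=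
  (box (n (i + 1))).filter (fun v => n i ≤ nrm v ∧ nrm v < n (i + 1))

/-- union bound, pointwise -/
lemma union_pointwise (n e : ℕ → ℕ) (κ : ℕ → ℕ) (hn : StrictMono n) (he : StrictMono e)
    (he0 : e 0 = 1) (U : ℕ) (hU : U < n (e (U + 1))) (w : List (Fin 4)) :
    ind (∃ (v : V) (d : Fin 4), n 1 ≤ nrm v ∧ nrm v ≤ U ∧ ¬ xrs v d w) ≤
      ∑ u ∈ Finset.range (U + 1), (ind ((ls n (e (u + 2)) w).1 < e (u + 2)) +
        (ind ((ls n (e (u + 2)) w).1 = e (u + 2) ∧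
          (∃ i, e u ≤ i ∧ i ≤ e (u + 1) - 1 ∧ (ls n (e (u + 2)) w).2 i < κ i)) +
        ∑ i ∈ Finset.Ico (e u) (e (u + 1)), ∑ v ∈ zone n i, ∑ d : Fin 4,
          ind (κ i ≤ cnt n (e (u + 2)) i w ∧ ¬ crs n (e (u + 2)) v d w))) := by
  classical
  have hnn : ∀ u ∈ Finset.range (U + 1), 0 ≤ (ind ((ls n (e (u + 2)) w).1 < e (u + 2)) +
        (ind ((ls n (e (u + 2)) w).1 = e (u + 2) ∧
          (∃ i, e u ≤ i ∧ i ≤ e (u + 1) - 1 ∧ (ls n (e (u + 2)) w).2 i < κ i)) +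
        ∑ i ∈ Finset.Ico (e u) (e (u + 1)), ∑ v ∈ zone n i, ∑ d : Fin 4,
          ind (κ i ≤ cnt n (e (u + 2)) i w ∧ ¬ crs n (e (u + 2)) v d w))) := by
    intro u _
    have h1 := ind_nonneg ((ls n (e (u + 2)) w).1 < e (u + 2))
    have h2 := ind_nonneg ((ls n (e (u + 2)) w).1 = e (u + 2) ∧
          (∃ i, e u ≤ i ∧ i ≤ e (u + 1) - 1 ∧ (ls n (e (u + 2)) w).2 i < κ i))
    have h3 : 0 ≤ ∑ i ∈ Finset.Ico (e u) (e (u + 1)), ∑ v ∈ zone n i, ∑ d : Fin 4,
          ind (κ i ≤ cnt n (e (u + 2)) i w ∧ ¬ crs n (e (u + 2)) v d w) :=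
      Finset.sum_nonneg fun i _ => Finset.sum_nonneg fun v _ => Finset.sum_nonneg fun d _ =>
        ind_nonneg _
    linarith
  by_cases hex : ∃ (v : V) (d : Fin 4), n 1 ≤ nrm v ∧ nrm v ≤ U ∧ ¬ xrs v d w
  swap
  · rw [ind_false hex]
    exact Finset.sum_nonneg hnn
  rw [ind_true hex]
  obtain ⟨v, d, hv1, hv2, hx⟩ := hex
  -- find the line index i with n i ≤ nrm v < n (i+1)
  obtain ⟨i, hi1, hi2⟩ : ∃ i, n i ≤ nrm v ∧ nrm v < n (i + 1) := by
    have hex : ∃ k, nrm v < n k := ⟨nrm v + 1, lt_of_lt_of_le (Nat.lt_succ_self _) (hn.id_le _)⟩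
    have hs := Nat.find_spec hex
    have h0 : Nat.find hex ≠ 0 := by
      intro h0
      rw [h0] at hs
      have := hn.monotone (Nat.zero_le 1)
      omega
    refine ⟨Nat.find hex - 1, ?_, ?_⟩
    · have := Nat.find_min hex (m := Nat.find hex - 1) (by omega)
      omega
    · rw [Nat.sub_add_cancel (by omega)]; exact hs
  have hi3 : 1 ≤ i := by
    by_contra h
    have : i = 0 := by omega
    subst this
    have : n (0 + 1) = n 1 := rfl
    omega
  have hi4 : i < e (U + 1) := by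
    by_contra h
    push Not at h
    have := hn.monotone h
    omega
  -- find the epoch
  obtain ⟨u, hu1, hu2⟩ : ∃ u, e u ≤ i ∧ i < e (u + 1) := by
    have hex : ∃ k, i < e k := ⟨U + 1, hi4⟩
    have hs := Nat.find_spec hex
    have h0 : Nat.find hex ≠ 0 := by
      intro h0
      rw [h0, he0] at hs
      omega
    refine ⟨Nat.find hex - 1, ?_, ?_⟩
    · have := Nat.find_min hex (m := Nat.find hex - 1) (by omega)
      omega
    · rw [Nat.sub_add_cancel (by omega)]; exact hs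
  have hu3 : u < U + 1 := by
    by_contra h
    push Not at h
    have := he.monotone h
    omega
  refine le_trans ?_ (Finset.single_le_sum hnn (Finset.mem_range.mpr hu3))
  have h3nn : 0 ≤ ∑ i ∈ Finset.Ico (e u) (e (u + 1)), ∑ v ∈ zone n i, ∑ d : Fin 4,
          ind (κ i ≤ cnt n (e (u + 2)) i w ∧ ¬ crs n (e (u + 2)) v d w) :=
      Finset.sum_nonneg fun i _ => Finset.sum_nonneg fun v _ => Finset.sum_nonneg fun d _ =>
        ind_nonneg _
  by_cases hl : (ls n (e (u + 2)) w).1 < e (u + 2)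
  · rw [ind_true hl]
    have := ind_nonneg ((ls n (e (u + 2)) w).1 = e (u + 2) ∧
          (∃ i, e u ≤ i ∧ i ≤ e (u + 1) - 1 ∧ (ls n (e (u + 2)) w).2 i < κ i))
    linarith
  · have hl2 : (ls n (e (u + 2)) w).1 = e (u + 2) := le_antisymm (ls_le _ _ _) (not_lt.mp hl)
    by_cases hb : (∃ i, e u ≤ i ∧ i ≤ e (u + 1) - 1 ∧ (ls n (e (u + 2)) w).2 i < κ i)
    · rw [ind_true (p := (ls n (e (u + 2)) w).1 = e (u + 2) ∧ _) ⟨hl2, hb⟩]
      have := ind_nonneg ((ls n (e (u + 2)) w).1 < e (u + 2))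
      linarith
    · have hκ : κ i ≤ cnt n (e (u + 2)) i w := by
        by_contra h
        push Not at h
        apply hb
        refine ⟨i, hu1, by omega, ?_⟩
        unfold cnt at h
        omega
      have hc : κ i ≤ cnt n (e (u + 2)) i w ∧ ¬ crs n (e (u + 2)) v d w :=
        ⟨hκ, fun h => hx (crs_xrs _ _ _ _ _ h)⟩
      have hvz : v ∈ zone n i := by
        unfold zone
        rw [Finset.mem_filter]
        refine ⟨?_, hi1, hi2⟩
        unfold box
        rw [Finset.mem_product, Finset.mem_Icc, Finset.mem_Icc]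
        unfold nrm at hi2
        have h1 : v.1.natAbs < n (i + 1) := lt_of_le_of_lt (le_max_left _ _) hi2
        have h2 : v.2.natAbs < n (i + 1) := lt_of_le_of_lt (le_max_right _ _) hi2
        omega
      have h1 : ind (κ i ≤ cnt n (e (u + 2)) i w ∧ ¬ crs n (e (u + 2)) v d w) ≤
          ∑ d : Fin 4, ind (κ i ≤ cnt n (e (u + 2)) i w ∧ ¬ crs n (e (u + 2)) v d w) :=
        Finset.single_le_sum (f := fun d => ind (κ i ≤ cnt n (e (u + 2)) i w ∧
          ¬ crs n (e (u + 2)) v d w)) (fun d _ => ind_nonneg _) (Finset.mem_univ d)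
      have h2 : ∑ d : Fin 4, ind (κ i ≤ cnt n (e (u + 2)) i w ∧ ¬ crs n (e (u + 2)) v d w) ≤
          ∑ v ∈ zone n i, ∑ d : Fin 4,
            ind (κ i ≤ cnt n (e (u + 2)) i w ∧ ¬ crs n (e (u + 2)) v d w) :=
        Finset.single_le_sum (f := fun v => ∑ d : Fin 4, ind (κ i ≤ cnt n (e (u + 2)) i w ∧
          ¬ crs n (e (u + 2)) v d w))
          (fun v _ => Finset.sum_nonneg fun d _ => ind_nonneg _) hvz
      have h3 : ∑ v ∈ zone n i, ∑ d : Fin 4,
            ind (κ i ≤ cnt n (e (u + 2)) i w ∧ ¬ crs n (e (u + 2)) v d w) ≤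
          ∑ i ∈ Finset.Ico (e u) (e (u + 1)), ∑ v ∈ zone n i, ∑ d : Fin 4,
            ind (κ i ≤ cnt n (e (u + 2)) i w ∧ ¬ crs n (e (u + 2)) v d w) :=
        Finset.single_le_sum (f := fun i => ∑ v ∈ zone n i, ∑ d : Fin 4,
          ind (κ i ≤ cnt n (e (u + 2)) i w ∧ ¬ crs n (e (u + 2)) v d w))
          (fun i _ => Finset.sum_nonneg fun v _ => Finset.sum_nonneg fun d _ => ind_nonneg _)
          (Finset.mem_Ico.mpr ⟨hu1, hu2⟩)
      rw [ind_true hc] at h1
      have h4 := ind_nonneg ((ls n (e (u + 2)) w).1 < e (u + 2))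
      have h5 := ind_nonneg ((ls n (e (u + 2)) w).1 = e (u + 2) ∧
          (∃ i, e u ≤ i ∧ i ≤ e (u + 1) - 1 ∧ (ls n (e (u + 2)) w).2 i < κ i))
      linarith

end Pool.Agent.R812.TC
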