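import Pool.Agent.R812.TC.Asm1

/-! Project TC: assembly, second part: the main estimate. -/

namespace Pool.Agent.R812.TC
open Finset

/-- the design data -/
structure DD (F : ℕ → ℝ) (n e : ℕ → ℕ) (g η : ℕ → ℝ) : Prop where
  good : Good F
  nm : StrictMono n
  n0 : n 0 = 0
  em : StrictMono e
  e0 : e 0 = 1
  h100 : ∀ j, 1 ≤ j → 100 * j ≤ n j
  h4 : ∀ j, 1 ≤ j → 4 * (n (j + 1) - n j) ≤ n j
  hg : ∀ j, 1 ≤ j → 0 < g j ∧ ∀ m, n j ≤ m → m ≤ n (j + 1) → g j ≤ F m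
  hqr : ∀ j, 1 ≤ j → rr F n j / 4 ≤ qq F n j
  herr : ∀ j, 1 ≤ j → Real.sqrt (8 * n j / F (n j) / qq F n j) *
    (1 + rr F n j / qq F n (j - 1) + rr F n (j - 1) / qq F n j) ≤ 1 / (100 * (j : ℝ) ^ 2)
  hT : ∀ u, (1 / 2 : ℝ) ^ u ≤ ∑ j ∈ Finset.Ico (e u) (e (u + 1)), rr F n j ∧
    ∑ j ∈ Finset.Ico (e u) (e (u + 1)), rr F n j ≤ 2 * (1 / 2 : ℝ) ^ u
  hη : ∀ u, 0 < η u ∧ η u < Real.exp (-1) ∧
    (Real.log 64 + 1) / (Real.log (1 / η u) - 1) ≤ 1 / (16 * ((u : ℝ) + 1) ^ 2)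
  hcov : ∀ u j, e u ≤ j → j < e (u + 1) →
    64 * (40 * (1 + Real.log ((n (j + 1) - n j : ℕ) + 1)) / g j + 40 * n j / F (n j)) *
      (5 * Real.log (n j) + 10) ≤ 1 / 2 * η u * (4 * (1 / 2 : ℝ) ^ u) ∧
    (64 * (5 * Real.log (n j) + 10) + 1) * rr F n j ≤ 1 / 2 * η u * (4 * (1 / 2 : ℝ) ^ u)
  hnF : ∀ j, 1 ≤ j → (n j : ℝ) / F (n j) ≤ 1 / ((j : ℝ) + 1) ^ 2

variable {F : ℕ → ℝ} {n e : ℕ → ℕ} {g η : ℕ → ℝ}

lemma rr_pos (hF : Good F) (hn : StrictMono n) (j : ℕ) : 0 < rr F n j := by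
  unfold rr
  apply div_pos
  · apply Finset.sum_pos
    · intro m _
      exact div_pos one_pos (hF.1 _)
    · rw [Finset.nonempty_Ico]; exact hn (Nat.lt_succ_self j)
  · positivity

lemma cap_rr (hcap0 : S_cap0) (hcap3 : S_cap3) (hF : Good F) (hn : StrictMono n) (j : ℕ) :
    1 / Cap F (n j) (n (j + 1)) ≤ rr F n j := by
  have h0 := hcap0 F hF (n j) (n (j + 1)) (hn (Nat.lt_succ_self j))
  have h3 := hcap3 F hF (n j) (n (j + 1)) (hn (Nat.lt_succ_self j))
  unfold rr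
  rw [div_le_div_iff₀ h0 (by positivity)]
  linarith

lemma cap_qq (hcap0 : S_cap0) (hcap2 : S_cap2) (hF : Good F) (hn : StrictMono n) (j : ℕ) :
    qq F n j ≤ 1 / Cap F (n j) (n (j + 1)) := by
  have h0 := hcap0 F hF (n j) (n (j + 1)) (hn (Nat.lt_succ_self j))
  have h2 := hcap2 F hF (n j) (n (j + 1)) (hn (Nat.lt_succ_self j))
  unfold qq
  rw [le_div_iff₀ h0]
  linarith

lemma rho_nonneg (D : DD F n e g η) {i : ℕ} (hi : 1 ≤ i) : 0 ≤ rho F n g i := by
  unfold rho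
  have h1 := (D.hg i hi).1
  have h2 := D.good.1 (n i)
  have h3 : 0 ≤ Real.log ((n (i + 1) - n i : ℕ) + 1) := by
    apply Real.log_nonneg
    have : (0 : ℝ) ≤ ((n (i + 1) - n i : ℕ) : ℝ) := Nat.cast_nonneg _
    linarith
  positivity

lemma log_nonneg' (D : DD F n e g η) {i : ℕ} (hi : 1 ≤ i) : 0 ≤ Real.log (n i) := by
  apply Real.log_nonneg
  have := D.h100 i hi
  have h : (1 : ℕ) ≤ n i := by omega
  exact_mod_cast h

lemma kap_le (hcap0 : S_cap0) (hcap3 : S_cap3) (D : DD F n e g η) {u i : ℕ} (h1 : e u ≤ i)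
    (h2 : i < e (u + 1)) {Gi : ℝ} (hG : Cap F (n i) (n (i + 1)) ≤ Gi) :
    (kap F n g i : ℝ) ≤ η u * (4 * (1 / 2 : ℝ) ^ u) * Gi := by
  have hi : 1 ≤ i := by
    have := D.em.monotone (Nat.zero_le u)
    rw [D.e0] at this
    omega
  have hC0 := hcap0 F D.good (n i) (n (i + 1)) (D.nm (Nat.lt_succ_self i))
  have hCr := cap_rr hcap0 hcap3 D.good D.nm i
  have hρ := rho_nonneg D hi
  have hl := log_nonneg' D hi
  obtain ⟨c1, c2⟩ := D.hcov u i h1 h2
  have hη := (D.hη u).1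
  have hX : 0 ≤ 64 * (rho F n g i * Cap F (n i) (n (i + 1)) + 1) * (5 * Real.log (n i) + 10) := by
    positivity
  have hk : (kap F n g i : ℝ) ≤ 64 * (rho F n g i * Cap F (n i) (n (i + 1)) + 1) *
      (5 * Real.log (n i) + 10) + 1 := (Nat.ceil_lt_add_one hX).le
  set C := Cap F (n i) (n (i + 1)) with hC
  set L := 5 * Real.log (n i) + 10 with hL
  set X := 1 / 2 * η u * (4 * (1 / 2 : ℝ) ^ u) with hXX
  have c1' : 64 * rho F n g i * L ≤ X := c1
  have e1 : 64 * rho F n g i * L * C ≤ X * C := mul_le_mul_of_nonneg_right c1' hC0.le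
  have e2 : 64 * L + 1 ≤ X * C := by
    have hLpos : 0 < 64 * L + 1 := by positivity
    have : (64 * L + 1) * (1 / C) ≤ X := le_trans (mul_le_mul_of_nonneg_left hCr hLpos.le) c2
    rw [mul_one_div, div_le_iff₀ hC0] at this
    exact this
  have e3 : (kap F n g i : ℝ) ≤ 2 * X * C := by
    calc (kap F n g i : ℝ) ≤ 64 * (rho F n g i * C + 1) * L + 1 := hk
      _ = 64 * rho F n g i * L * C + (64 * L + 1) := by ring
      _ ≤ X * C + X * C := add_le_add e1 e2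
      _ = 2 * X * C := by ring
  have hXpos : 0 < 2 * X := by rw [hXX]; positivity
  calc (kap F n g i : ℝ) ≤ 2 * X * C := e3
    _ ≤ 2 * X * Gi := mul_le_mul_of_nonneg_left hG hXpos.le
    _ = η u * (4 * (1 / 2 : ℝ) ^ u) * Gi := by rw [hXX]; ring

/-- the bad event of an epoch has small probability -/
lemma epoch_bound (hcap0 : S_cap0) (hcap2 : S_cap2) (hcap3 : S_cap3) (hnb : S_nb)
    (hlink : S_link) (D : DD F n e g η) {p G : ℕ → ℝ}
    (hp : ∀ j, 1 ≤ j → 0 < p j ∧ p j < 1 ∧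
      ∀ x, nrm x = n j → uu F (n (j - 1)) (n (j + 1)) x ≤ p j) (hG0 : 0 < G 0)
    (hG : ∀ j, 1 ≤ j → G j * (1 - p j) = G (j - 1) * p j)
    (hGC : ∀ j, Cap F (n j) (n (j + 1)) ≤ G j ∧ G j ≤ 2 * Cap F (n j) (n (j + 1)))
    (u t : ℕ) :
    Ex F t (fun w => ind ((ls n (e (u + 2)) w).1 = e (u + 2) ∧
          (∃ i, e u ≤ i ∧ i ≤ e (u + 1) - 1 ∧ (ls n (e (u + 2)) w).2 i < kap F n g i))) [] ≤
      1 / (16 * ((u : ℝ) + 1) ^ 2) := by
  have hCpos : ∀ j, 0 < Cap F (n j) (n (j + 1)) := fun j =>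
    hcap0 F D.good (n j) (n (j + 1)) (D.nm (Nat.lt_succ_self j))
  have hGpos : ∀ j, 0 < G j := fun j => lt_of_lt_of_le (hCpos j) (hGC j).1
  have hu1 : e u < e (u + 1) := D.em (Nat.lt_succ_self u)
  have hu2 : e (u + 1) < e (u + 2) := D.em (Nat.lt_succ_self (u + 1))
  have he1 : 1 ≤ e u := by
    have := D.em.monotone (Nat.zero_le u)
    rw [D.e0] at this
    omega
  have hinv1 : ∀ j, 1 / G j ≤ rr F n j := fun j =>
    le_trans (one_div_le_one_div_of_le (hCpos j) (hGC j).1) (cap_rr hcap0 hcap3 D.good D.nm j)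
  have hinv2 : ∀ j, 1 ≤ j → rr F n j / 8 ≤ 1 / G j := by
    intro j hj
    have h1 := D.hqr j hj
    have h2 := cap_qq hcap0 hcap2 D.good D.nm j
    have h3 : 1 / (2 * Cap F (n j) (n (j + 1))) ≤ 1 / G j :=
      one_div_le_one_div_of_le (hGpos j) (hGC j).2
    have h4 : 1 / (2 * Cap F (n j) (n (j + 1))) = 1 / Cap F (n j) (n (j + 1)) / 2 := by
      rw [one_div, one_div, mul_inv]; ring
    rw [h4] at h3
    linarith
  have hT0 := D.hT u
  have hT1 := D.hT (u + 1)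
  have hpow : (1 / 2 : ℝ) ^ (u + 1) = (1 / 2 : ℝ) ^ u / 2 := by rw [pow_succ]; ring
  have hpp : 0 < (1 / 2 : ℝ) ^ u := by positivity
  rw [hpow] at hT1
  have hsum : ∑ i ∈ Finset.Ico (e u) (e (u + 2)), 1 / G i ≤ 4 * (1 / 2 : ℝ) ^ u := by
    rw [← Finset.sum_Ico_consecutive _ hu1.le hu2.le]
    have h1 : ∑ i ∈ Finset.Ico (e u) (e (u + 1)), 1 / G i ≤
        ∑ i ∈ Finset.Ico (e u) (e (u + 1)), rr F n i := Finset.sum_le_sum fun i _ => hinv1 i
    have h2 : ∑ i ∈ Finset.Ico (e (u + 1)) (e (u + 2)), 1 / G i ≤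
        ∑ i ∈ Finset.Ico (e (u + 1)) (e (u + 2)), rr F n i := Finset.sum_le_sum fun i _ => hinv1 i
    linarith [hT0.2, hT1.2]
  have hsum2 : 4 * (1 / 2 : ℝ) ^ u ≤
      64 * ∑ i ∈ Finset.Ico (e (u + 1) - 1) (e (u + 2)), 1 / G i := by
    have h1 : ∑ i ∈ Finset.Ico (e (u + 1)) (e (u + 2)), rr F n i / 8 ≤
        ∑ i ∈ Finset.Ico (e (u + 1)) (e (u + 2)), 1 / G i := by
      apply Finset.sum_le_sum
      intro i hi
      rw [Finset.mem_Ico] at hi
      exact hinv2 i (by omega)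
    have h2 : ∑ i ∈ Finset.Ico (e (u + 1)) (e (u + 2)), 1 / G i ≤
        ∑ i ∈ Finset.Ico (e (u + 1) - 1) (e (u + 2)), 1 / G i := by
      apply Finset.sum_le_sum_of_subset_of_nonneg
      · apply Finset.Ico_subset_Ico_left; omega
      · intro i _ _; exact (div_pos one_pos (hGpos i)).le
    rw [← Finset.sum_div] at h1
    linarith [hT1.1]
  obtain ⟨Ψ, hΨ1, hΨ2, hΨ3, hΨ4, hΨ5, hΨ6⟩ := hnb (e (u + 2)) (e u) (e (u + 1) - 1) p
    (kap F n g) G (4 * (1 / 2 : ℝ) ^ u) (η u) 64 (by omega) (by omega)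
    (fun i hi _ => ⟨(hp i hi).1, (hp i hi).2.1⟩) hG0 (fun i hi _ => hG i hi) (by positivity)
    hsum hsum2 (D.hη u).1 (D.hη u).2.1 (fun i h1 h2 => by
      have := kap_le hcap0 hcap3 D h1 (show i < e (u + 1) by omega) (hGC i).1
      exact this)
  have := hlink F D.good n D.nm D.n0 (e (u + 2)) p Ψ
    (fun z => ∃ i, e u ≤ i ∧ i ≤ e (u + 1) - 1 ∧ z i < kap F n g i) (by omega)
    (fun j hj _ x hx => (hp j hj).2.2 x hx) hΨ1 hΨ2 hΨ3 hΨ4 hΨ5 t
  exact le_trans this (le_trans hΨ6 (D.hη u).2.2)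

/-- the edges of a zone are crossed -/
lemma zone_bound (hcover : S_cover) (hpath : S_path) (hcap0 : S_cap0)
    (D : DD F n e g η) {J i : ℕ} (hi : 1 ≤ i) (hJ : i < J) (t : ℕ) {v : V} (hv : v ∈ zone n i)
    (d : Fin 4) :
    Ex F t (fun w => ind (kap F n g i ≤ cnt n J i w ∧ ¬ crs n J v d w)) [] ≤
      2 * Real.exp (-(5 * Real.log (n i) + 10)) := by
  unfold zone at hv
  rw [Finset.mem_filter] at hv
  obtain ⟨_, hv1, hv2⟩ := hv
  have hnJ : n (i + 1) ≤ n J := D.nm.monotone hJ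
  have hρ := rho_nonneg D hi
  have hC0 := hcap0 F D.good (n i) (n (i + 1)) (D.nm (Nat.lt_succ_self i))
  have hni : 100 ≤ n i := by have := D.h100 i hi; omega
  have hlt : n i < n (i + 1) := D.nm (Nat.lt_succ_self i)
  have h := hcover F D.good n D.nm D.n0 J i hi hJ v d (by omega) (rho F n g i) hρ
    (fun φ hφ x hx => by
      have := hpath F D.good (n i) (n (i + 1) - n i) (n J) (g i) φ v x (by omega) (D.h4 i hi)
        hv1 (by omega) (D.hg i hi).1 (fun m h1 h2 => (D.hg i hi).2 m h1 (by omega))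
        (by omega) hx
      exact this) t (kap F n g i)
  refine le_trans h ?_
  apply mul_le_mul_of_nonneg_left _ (by norm_num)
  apply Real.exp_le_exp.mpr
  have hpos : 0 < 64 * (rho F n g i * Cap F (n i) (n (i + 1)) + 1) := by positivity
  rw [neg_div]
  apply neg_le_neg
  rw [le_div_iff₀ hpos]
  have := Nat.le_ceil (64 * (rho F n g i * Cap F (n i) (n (i + 1)) + 1) *
    (5 * Real.log (n i) + 10))
  unfold kap
  linarith

lemma card_box (N : ℕ) : ((box N).card : ℝ) = (2 * (N : ℝ) + 1) ^ 2 := by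
  unfold box
  rw [Finset.card_product, Int.card_Icc]
  have : ((N : ℤ) + 1 - -(N : ℤ)).toNat = 2 * N + 1 := by omega
  rw [this]
  push_cast
  ring

lemma zone_sum (hcover : S_cover) (hpath : S_path) (hcap0 : S_cap0)
    (D : DD F n e g η) {J i : ℕ} (hi : 1 ≤ i) (hJ : i < J) (t : ℕ) :
    ∑ v ∈ zone n i, ∑ d : Fin 4,
      Ex F t (fun w => ind (kap F n g i ≤ cnt n J i w ∧ ¬ crs n J v d w)) [] ≤
      1 / (1000 * (i : ℝ) ^ 2) := by
  have h1 : ∑ v ∈ zone n i, ∑ d : Fin 4,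
      Ex F t (fun w => ind (kap F n g i ≤ cnt n J i w ∧ ¬ crs n J v d w)) [] ≤
      ∑ v ∈ zone n i, ∑ d : Fin 4, 2 * Real.exp (-(5 * Real.log (n i) + 10)) :=
    Finset.sum_le_sum fun v hv => Finset.sum_le_sum fun d _ =>
      zone_bound hcover hpath hcap0 D hi hJ t hv d
  refine le_trans h1 ?_
  rw [Finset.sum_const, Finset.sum_const]
  have hcard : ((zone n i).card : ℝ) ≤ (2 * (n (i + 1) : ℝ) + 1) ^ 2 := by
    rw [← card_box]
    exact_mod_cast Finset.card_filter_le _ _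
  have hni : 100 * i ≤ n i := D.h100 i hi
  have hni' : (100 : ℝ) * i ≤ n i := by exact_mod_cast hni
  have h4 := D.h4 i hi
  have hlt : n i < n (i + 1) := D.nm (Nat.lt_succ_self i)
  have hnn : 4 * n (i + 1) ≤ 5 * n i := by omega
  have hnn' : 4 * (n (i + 1) : ℝ) ≤ 5 * n i := by exact_mod_cast hnn
  have hi' : (1 : ℝ) ≤ i := by exact_mod_cast hi
  have hn1 : (100 : ℝ) ≤ n i := by linarith
  have hb : (2 * (n (i + 1) : ℝ) + 1) ≤ 3 * n i := by linarith
  have hb2 : (2 * (n (i + 1) : ℝ) + 1) ^ 2 ≤ (3 * n i) ^ 2 := by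
    apply pow_le_pow_left₀ (by positivity) hb
  have hexp : Real.exp (-(5 * Real.log (n i) + 10)) = ((n i : ℝ) ^ 5)⁻¹ * Real.exp (-10) := by
    rw [neg_add, Real.exp_add]
    congr 1
    rw [Real.exp_neg]
    congr 1
    have : (5 : ℝ) * Real.log (n i) = Real.log ((n i : ℝ) ^ 5) := by
      rw [Real.log_pow]; norm_num
    rw [this, Real.exp_log (by positivity)]
  have he10 : Real.exp (-10) ≤ 1 / 1000 := by
    rw [Real.exp_neg, ← one_div]
    apply one_div_le_one_div_of_le (by norm_num)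
    have h2 : (2 : ℝ) ≤ Real.exp 1 := by
      have := Real.add_one_le_exp (1 : ℝ)
      linarith
    have : (2 : ℝ) ^ 10 ≤ Real.exp 1 ^ 10 := pow_le_pow_left₀ (by norm_num) h2 10
    rw [← Real.exp_nat_mul] at this
    norm_num at this ⊢
    linarith
  rw [hexp]
  simp only [nsmul_eq_mul, Finset.card_univ, Fintype.card_fin]
  push_cast
  have hN : 0 < (n i : ℝ) := by linarith
  calc ((zone n i).card : ℝ) * (4 * (2 * (((n i : ℝ) ^ 5)⁻¹ * Real.exp (-10))))
      ≤ (3 * n i) ^ 2 * (4 * (2 * (((n i : ℝ) ^ 5)⁻¹ * (1 / 1000)))) := by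
        apply mul_le_mul (le_trans hcard hb2) _ (by positivity) (by positivity)
        have : 0 < ((n i : ℝ) ^ 5)⁻¹ := by positivity
        have := mul_le_mul_of_nonneg_left he10 this.le
        linarith
    _ = 72 / 1000 / (n i : ℝ) ^ 3 := by
        field_simp
        ring
    _ ≤ 72 / 1000 / (100 * (i : ℝ)) ^ 3 := by
        apply div_le_div_of_nonneg_left (by norm_num) (by positivity)
        apply pow_le_pow_left₀ (by positivity) hni'
    _ ≤ 1 / (1000 * (i : ℝ) ^ 2) := by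
        rw [div_div, div_le_div_iff₀ (by positivity) (by positivity)]
        have : (i : ℝ) ^ 2 ≤ (i : ℝ) ^ 3 := pow_le_pow_right₀ hi' (by norm_num)
        nlinarith [sq_nonneg (i : ℝ)]

lemma sum_sq_bound1 : ∀ k : ℕ, ∑ u ∈ Finset.range (k + 1), 1 / ((u : ℝ) + 1) ^ 2 ≤
    2 - 1 / ((k : ℝ) + 1)
  | 0 => by norm_num
  | (k + 1) => by
      rw [Finset.sum_range_succ]
      have ih := sum_sq_bound1 k
      have h1 : (0 : ℝ) < (k : ℝ) + 1 := by positivity
      have h2 : (0 : ℝ) < (k : ℝ) + 1 + 1 := by positivity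
      push_cast
      have h3 : 1 / ((k : ℝ) + 1 + 1) ^ 2 ≤ 1 / ((k : ℝ) + 1) - 1 / ((k : ℝ) + 1 + 1) := by
        rw [div_sub_div _ _ h1.ne' h2.ne', div_le_div_iff₀ (by positivity) (by positivity)]
        nlinarith
      linarith

lemma sum_sq_bound (k : ℕ) : ∑ u ∈ Finset.range k, 1 / ((u : ℝ) + 1) ^ 2 ≤ 2 := by
  rcases k with _ | k
  · simp
  · have := sum_sq_bound1 k
    have h : 0 < 1 / ((k : ℝ) + 1) := by positivity
    linarith

lemma sum_epochs (em : StrictMono e) (e0 : e 0 = 1) (f : ℕ → ℝ) : ∀ U : ℕ,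
    ∑ u ∈ Finset.range U, ∑ i ∈ Finset.Ico (e u) (e (u + 1)), f i =
      ∑ i ∈ Finset.Ico 1 (e U), f i
  | 0 => by simp [e0]
  | (U + 1) => by
      rw [Finset.sum_range_succ, sum_epochs em e0 f U]
      apply Finset.sum_Ico_consecutive
      · have := em.monotone (Nat.zero_le U); omega
      · exact (em (Nat.lt_succ_self U)).le

theorem asm_half (hP : S_P) (hcap0 : S_cap0) (hcap2 : S_cap2) (hcap3 : S_cap3)
    (hnb : S_nb) (hlink : S_link) (hcover : S_cover) (hpath : S_path) (htime : S_time)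
    (D : DD F n e g η) {p G : ℕ → ℝ}
    (hp : ∀ j, 1 ≤ j → 0 < p j ∧ p j < 1 ∧
      ∀ x, nrm x = n j → uu F (n (j - 1)) (n (j + 1)) x ≤ p j) (hG0 : 0 < G 0)
    (hG : ∀ j, 1 ≤ j → G j * (1 - p j) = G (j - 1) * p j)
    (hGC : ∀ j, Cap F (n j) (n (j + 1)) ≤ G j ∧ G j ≤ 2 * Cap F (n j) (n (j + 1)))
    (U : ℕ) : ∃ t : ℕ, Ex F t (fun w => ind (∃ (v : V) (d : Fin 4), n 1 ≤ nrm v ∧ nrm v ≤ U ∧
        ¬ xrs v d w)) [] ≤ 1 / 2 := by
  have hε : (0 : ℝ) < 1 / (16 * ((U : ℝ) + 1)) := by positivity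
  choose t0 ht0 using fun u : ℕ => htime F D.good n D.nm D.n0 (e (u + 2)) _ hε
  set t := ∑ u ∈ Finset.range (U + 1), t0 u with ht
  refine ⟨t, ?_⟩
  have hU : U < n (e (U + 1)) := by
    have h1 : U + 1 ≤ e (U + 1) := D.em.id_le _
    have h2 : e (U + 1) ≤ n (e (U + 1)) := D.nm.id_le _
    omega
  refine le_trans (Ex_mono hP D.good t _ _ (union_pointwise n e (kap F n g) D.nm D.em D.e0 U hU)
    []) ?_
  rw [Ex_sum]
  have hterm : ∀ u ∈ Finset.range (U + 1),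
      Ex F t (fun w => (ind ((ls n (e (u + 2)) w).1 < e (u + 2)) +
        (ind ((ls n (e (u + 2)) w).1 = e (u + 2) ∧
          (∃ i, e u ≤ i ∧ i ≤ e (u + 1) - 1 ∧ (ls n (e (u + 2)) w).2 i < kap F n g i)) +
        ∑ i ∈ Finset.Ico (e u) (e (u + 1)), ∑ v ∈ zone n i, ∑ d : Fin 4,
          ind (kap F n g i ≤ cnt n (e (u + 2)) i w ∧ ¬ crs n (e (u + 2)) v d w)))) [] ≤
      1 / (16 * ((U : ℝ) + 1)) + (1 / (16 * ((u : ℝ) + 1) ^ 2) +
        ∑ i ∈ Finset.Ico (e u) (e (u + 1)), 1 / (1000 * (i : ℝ) ^ 2)) := by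
    intro u hu
    rw [Ex_add, Ex_add, Ex_sum]
    have he1 : 1 ≤ e u := by
      have := D.em.monotone (Nat.zero_le u)
      rw [D.e0] at this
      omega
    have hu2 : e (u + 1) < e (u + 2) := D.em (Nat.lt_succ_self (u + 1))
    apply add_le_add
    · apply ht0 u
      exact Finset.single_le_sum (f := t0) (fun _ _ => Nat.zero_le _) hu
    · apply add_le_add
      · exact epoch_bound hcap0 hcap2 hcap3 hnb hlink D hp hG0 hG hGC u t
      · apply Finset.sum_le_sum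
        intro i hi
        rw [Finset.mem_Ico] at hi
        rw [Ex_sum]
        refine le_trans (le_of_eq ?_) (zone_sum hcover hpath hcap0 D (J := e (u + 2))
          (i := i) (by omega) (by omega) t)
        apply Finset.sum_congr rfl
        intro v _
        rw [Ex_sum]
  refine le_trans (Finset.sum_le_sum hterm) ?_
  rw [Finset.sum_add_distrib, Finset.sum_add_distrib, sum_epochs D.em D.e0]
  have h1 : ∑ _u ∈ Finset.range (U + 1), 1 / (16 * ((U : ℝ) + 1)) = 1 / 16 := by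
    rw [Finset.sum_const, Finset.card_range, nsmul_eq_mul]
    push_cast
    have : (U : ℝ) + 1 ≠ 0 := by positivity
    field_simp
  have h2 : ∑ u ∈ Finset.range (U + 1), 1 / (16 * ((u : ℝ) + 1) ^ 2) ≤ 2 / 16 := by
    have := sum_sq_bound (U + 1)
    have e1 : ∑ u ∈ Finset.range (U + 1), 1 / (16 * ((u : ℝ) + 1) ^ 2) =
        (∑ u ∈ Finset.range (U + 1), 1 / ((u : ℝ) + 1) ^ 2) / 16 := by
      rw [Finset.sum_div]
      apply Finset.sum_congr rfl
      intro u _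
      rw [div_div, mul_comm]
    rw [e1]
    linarith
  have h3 : ∑ i ∈ Finset.Ico 1 (e (U + 1)), 1 / (1000 * (i : ℝ) ^ 2) ≤ 2 / 1000 := by
    rw [Finset.sum_Ico_eq_sum_range]
    have := sum_sq_bound (e (U + 1) - 1)
    have e1 : ∑ k ∈ Finset.range (e (U + 1) - 1), 1 / (1000 * ((1 + k : ℕ) : ℝ) ^ 2) =
        (∑ u ∈ Finset.range (e (U + 1) - 1), 1 / ((u : ℝ) + 1) ^ 2) / 1000 := by
      rw [Finset.sum_div]
      apply Finset.sum_congr rfl
      intro u _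
      push_cast
      rw [div_div, mul_comm, add_comm (1 : ℝ) (u : ℝ)]
    rw [e1]
    linarith
  rw [h1]
  linarith

theorem summable_rr (D : DD F n e g η) : Summable (rr F n) := by
  apply summable_of_sum_range_le (c := rr F n 0 + 4) (fun j => (rr_pos D.good D.nm j).le)
  intro m
  have hsub : ∑ j ∈ Finset.range m, rr F n j ≤
      rr F n 0 + ∑ j ∈ Finset.Ico 1 (e m), rr F n j := by
    have h1 : ∑ j ∈ Finset.range m, rr F n j ≤ ∑ j ∈ Finset.range (e m), rr F n j := by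
      apply Finset.sum_le_sum_of_subset_of_nonneg
      · intro j hj
        rw [Finset.mem_range] at *
        exact lt_of_lt_of_le hj (D.em.id_le m)
      · intro j _ _; exact (rr_pos D.good D.nm j).le
    have h2 : ∑ j ∈ Finset.range (e m), rr F n j =
        rr F n 0 + ∑ j ∈ Finset.Ico 1 (e m), rr F n j := by
      have he1 : 1 ≤ e m := by
        have := D.em.monotone (Nat.zero_le m)
        rw [D.e0] at this
        omega
      rw [Finset.range_eq_Ico, ← Finset.sum_Ico_consecutive _ (Nat.zero_le 1) he1]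
      simp
    rw [← h2]; exact h1
  refine le_trans hsub ?_
  rw [← sum_epochs D.em D.e0]
  have h3 : ∑ u ∈ Finset.range m, ∑ i ∈ Finset.Ico (e u) (e (u + 1)), rr F n i ≤
      ∑ u ∈ Finset.range m, 2 * (1 / 2 : ℝ) ^ u :=
    Finset.sum_le_sum fun u _ => (D.hT u).2
  have h4 : ∑ u ∈ Finset.range m, 2 * (1 / 2 : ℝ) ^ u ≤ 4 := by
    rw [← Finset.mul_sum]
    have := geom_sum_eq (show (1 / 2 : ℝ) ≠ 1 by norm_num) m
    rw [this]
    have hp : 0 < (1 / 2 : ℝ) ^ m := by positivity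
    have : ((1 / 2 : ℝ) ^ m - 1) / (1 / 2 - 1) = 2 * (1 - (1 / 2 : ℝ) ^ m) := by ring
    rw [this]
    linarith
  linarith

theorem summable_line (D : DD F n e g η) : Summable (fun j => (n j : ℝ) / F (n j)) := by
  have hs : Summable (fun j : ℕ => 1 / ((j : ℝ) + 1) ^ 2) := by
    have := (summable_nat_add_iff 1).mpr (Real.summable_one_div_nat_pow.mpr one_lt_two)
    simpa using this
  apply Summable.of_nonneg_of_le _ _ hs
  · intro j
    have := D.good.1 (n j)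
    positivity
  · intro j
    rcases Nat.eq_zero_or_pos j with h | h
    · subst h
      rw [D.n0]
      norm_num
    · exact D.hnF j h

end Pool.Agent.R812.TC
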