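import Pool.Agent.R812.TC.Asm2

/-! Project TC: assembly, third part: properties of the kernel and the final statement. -/

namespace Pool.Agent.R812.TC
open Finset MeasureTheory

/-- nearest neighbours in the square lattice -/
def Nbr (x y : ℤ × ℤ) : Prop := |x.1 - y.1| + |x.2 - y.2| = 1

lemma nbr_iff (x y : V) : Nbr x y ↔ Adj x y := by
  unfold Nbr Adj
  constructor
  · intro h
    have h1 : x.1 - y.1 = 0 ∧ (x.2 - y.2 = 1 ∨ x.2 - y.2 = -1) ∨
        x.2 - y.2 = 0 ∧ (x.1 - y.1 = 1 ∨ x.1 - y.1 = -1) := by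
      rcases abs_cases (x.1 - y.1) with ⟨h1, _⟩ | ⟨h1, _⟩ <;>
      rcases abs_cases (x.2 - y.2) with ⟨h2, _⟩ | ⟨h2, _⟩ <;> omega
    rcases h1 with ⟨h1, h2 | h2⟩ | ⟨h1, h2 | h2⟩
    · exact ⟨3, by ext <;> simp [dir] <;> omega⟩
    · exact ⟨2, by ext <;> simp [dir] <;> omega⟩
    · exact ⟨1, by ext <;> simp [dir] <;> omega⟩
    · exact ⟨0, by ext <;> simp [dir] <;> omega⟩
  · rintro ⟨d, rfl⟩
    fin_cases d <;> simp [dir]

lemma dir_inj : ∀ d d' : Fin 4, dir d = dir d' → d = d' := by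
  decide

/-- the opposite direction -/
def oppA (d : Fin 4) : Fin 4 := ![1, 0, 3, 2] d

lemma dir_oppA (d : Fin 4) : dir (oppA d) = - dir d := by
  fin_cases d <;> simp [dir, oppA]

lemma pK_dir (F : ℕ → ℝ) (x : V) (d : Fin 4) : pK F x (x + dir d) = P F x d := by
  unfold pK
  rw [Finset.sum_eq_single d]
  · simp
  · intro b _ hb
    rw [if_neg]
    intro h
    exact hb (dir_inj _ _ (add_left_cancel h))
  · simp

lemma pK_nonneg (hP : S_P) {F : ℕ → ℝ} (hF : Good F) (x y : V) : 0 ≤ pK F x y := by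
  unfold pK
  apply Finset.sum_nonneg
  intro d _
  split_ifs
  · exact P_nonneg' hP hF x d
  · exact le_refl 0

lemma pK_zero (F : ℕ → ℝ) {x y : V} (h : ¬ Adj x y) : pK F x y = 0 := by
  unfold pK
  apply Finset.sum_eq_zero
  intro d _
  rw [if_neg]
  intro h'
  exact h ⟨d, h'⟩

lemma pK_hasSum (hP : S_P) {F : ℕ → ℝ} (hF : Good F) (x : V) : HasSum (pK F x) 1 := by
  have h1 : pK F x = fun y => ∑ d, if x + dir d = y then P F x d else 0 := rfl
  rw [h1, ← (hP F hF x).2.1]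
  apply hasSum_sum
  intro d _
  convert hasSum_ite_eq (x + dir d) (P F x d) using 2 with y
  simp [eq_comm]

lemma pK_rev (hP : S_P) {F : ℕ → ℝ} (hF : Good F) (x y : V) :
    piW F x * pK F x y = piW F y * pK F y x := by
  by_cases h : Adj x y
  · obtain ⟨d, rfl⟩ := h
    rw [pK_dir]
    have hx : x = (x + dir d) + dir (oppA d) := by rw [dir_oppA]; simp
    have h2 : pK F (x + dir d) x = P F (x + dir d) (oppA d) := by
      conv_lhs => rw [hx]
      have : x + dir d + dir (oppA d) + dir d = x + dir d := by rw [dir_oppA]; simp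
      rw [this]
      exact pK_dir F (x + dir d) (oppA d)
    rw [h2]
    unfold P
    have p1 := (hP F hF x).2.2
    have p2 := (hP F hF (x + dir d)).2.2
    rw [mul_div_cancel₀ _ p1.ne', mul_div_cancel₀ _ p2.ne']
    unfold cc
    rw [← hx, max_comm]
  · have h' : ¬ Adj y x := by
      intro h'
      apply h
      rw [← nbr_iff] at *
      unfold Nbr at *
      rw [abs_sub_comm x.1, abs_sub_comm x.2]
      exact h'
    rw [pK_zero F h, pK_zero F h']
    simp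

/-- the final theorem from the pieces -/
theorem asm_final (hP : S_P) (hcap0 : S_cap0) (hcap2 : S_cap2) (hcap3 : S_cap3)
    (hnum : S_num) (hnb : S_nb) (hlink : S_link) (hcover : S_cover) (hpath : S_path)
    (htime : S_time) (hdes : S_design) (htr1 : S_trans1) (htr2 : S_trans2) (htr3 : S_trans3)
    (hmeas : S_meas) (hex : S_exist) :
    ∃ p : ℤ × ℤ → ℤ × ℤ → ℝ,
      (∀ x y, 0 ≤ p x y) ∧ (∀ x, HasSum (p x) 1) ∧ (∀ x y, p x y ≠ 0 → Nbr x y) ∧
      (∃ c : ℝ, 0 < c ∧ ∀ x y, Nbr x y → c ≤ p x y) ∧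
      (∃ w : ℤ × ℤ → ℝ, (∀ x, 0 < w x) ∧ ∀ x y, w x * p x y = w y * p y x) ∧
      (∀ x0 : ℤ × ℤ, ∃ (Ω : Type) (_ : MeasurableSpace Ω) (μ : Measure Ω)
        (X : ℕ → Ω → ℤ × ℤ), IsProbabilityMeasure μ ∧ IsChain μ X p x0) ∧
      (∀ (x0 : ℤ × ℤ) (Ω : Type) [MeasurableSpace Ω] (μ : Measure Ω) (X : ℕ → Ω → ℤ × ℤ),
        IsProbabilityMeasure μ → IsChain μ X p x0 →
        (∀ᵐ ω ∂μ, ∀ y, {k | X k ω = y}.Finite) ∧
        0 < μ {ω | ∀ x y, Nbr x y → ∃ k, X k ω = x ∧ X (k + 1) ω = y}) := by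
  obtain ⟨F, n, e, g, η, hF, hn, hn0, he, he0, h100, h4, hg, hqr, herr, hT, hη, hcov, hnF⟩ := hdes
  have D : DD F n e g η := ⟨hF, hn, hn0, he, he0, h100, h4, hg, hqr, herr, hT, hη, hcov, hnF⟩
  obtain ⟨p, G, hp, hG0, hG, hGC⟩ := hnum F n hF hn hn0 herr
  refine ⟨pK F, pK_nonneg hP hF, pK_hasSum hP hF, ?_, ⟨1 / 8, by norm_num, ?_⟩,
    ⟨piW F, fun x => (hP F hF x).2.2, pK_rev hP hF⟩, hex F hF, ?_⟩
  · intro x y h
    rw [nbr_iff]
    by_contra h'
    exact h (pK_zero F h')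
  · intro x y h
    rw [nbr_iff] at h
    obtain ⟨d, rfl⟩ := h
    rw [pK_dir]
    exact (hP F hF x).1 d
  · intro x0 Ω _ μ X hμ hX
    constructor
    · exact htr3 F hF (htr2 F hF (htr1 F n hF hn hn0 (summable_rr D) (summable_line D))) Ω μ X x0
        hμ hX
    · have := hmeas F hF (n 1) (fun U => asm_half hP hcap0 hcap2 hcap3 hnb hlink hcover hpath
        htime D hp hG0 hG hGC U) Ω μ X x0 hμ hX
      simpa only [nbr_iff] using this

end Pool.Agent.R812.TC
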