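import Pool.Agent.R812.TC.Stm

/-! Project TC, piece CAP: bounds of the effective conductance between two radii. -/

namespace Pool.Agent.R812.TC
open Finset

theorem cap_mem_box {x : V} {N : ℕ} : x ∈ box N ↔ nrm x ≤ N := by
  simp only [box, mem_product, mem_Icc, nrm]
  omega

theorem cap_mem_rng {x : V} {n : ℕ} : x ∈ rng n ↔ nrm x = n := by
  rw [rng, mem_filter, cap_mem_box]
  constructor
  · exact fun h => h.2
  · intro h; exact ⟨h.le, h⟩

/-- the outgoing edges of the radius `m` -/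
noncomputable def cutS (m : ℕ) : Finset (V × Fin 4) :=
  ((rng m) ×ˢ (univ : Finset (Fin 4))).filter (fun p => nrm (p.1 + dir p.2) = m + 1)

theorem mem_cutS {m : ℕ} {p : V × Fin 4} :
    p ∈ cutS m ↔ nrm p.1 = m ∧ nrm (p.1 + dir p.2) = m + 1 := by
  rw [cutS, mem_filter, mem_product, cap_mem_rng]
  simp

theorem sum_cutS (m : ℕ) (f : V → Fin 4 → ℝ) :
    ∑ x ∈ rng m, ∑ d, (if nrm (x + dir d) = m + 1 then f x d else 0) =
      ∑ p ∈ cutS m, f p.1 p.2 := by
  rw [cutS, sum_filter, sum_product]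

/-- gradient -/
def gr (φ : V → ℝ) (p : V × Fin 4) : ℝ := φ (p.1 + dir p.2) - φ p.1

theorem cur_eq (F : ℕ → ℝ) (m : ℕ) (φ : V → ℝ) :
    Cur F m φ = ∑ p ∈ cutS m, F (m + 1) * gr φ p :=
  sum_cutS m (fun x d => F (m + 1) * (φ (x + dir d) - φ x))

/-- opposite direction -/
def opp (d : Fin 4) : Fin 4 := ![1, 0, 3, 2] d

theorem dir_opp (d : Fin 4) : dir (opp d) = -dir d := by
  fin_cases d <;> simp [dir, opp]

theorem opp_opp (d : Fin 4) : opp (opp d) = d := by
  fin_cases d <;> simp [opp]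

/-- the reversed edge -/
def tau (p : V × Fin 4) : V × Fin 4 := (p.1 + dir p.2, opp p.2)

theorem tau_fst (p : V × Fin 4) : (tau p).1 = p.1 + dir p.2 := rfl

theorem tau_end (p : V × Fin 4) : (tau p).1 + dir (tau p).2 = p.1 := by
  show p.1 + dir p.2 + dir (opp p.2) = p.1
  rw [dir_opp, add_neg_cancel_right]

theorem tau_tau (p : V × Fin 4) : tau (tau p) = p := by
  apply Prod.ext
  · exact tau_end p
  · exact opp_opp p.2

theorem tau_inj : Function.Injective tau := fun p q h => by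
  rw [← tau_tau p, h, tau_tau]

/-- energy of an edge -/
noncomputable def eg (F : ℕ → ℝ) (φ : V → ℝ) (p : V × Fin 4) : ℝ := cc F p.1 p.2 * gr φ p ^ 2

theorem eg_tau (F : ℕ → ℝ) (φ : V → ℝ) (p : V × Fin 4) : eg F φ (tau p) = eg F φ p := by
  unfold eg gr cc
  rw [tau_end, tau_fst, max_comm]
  ring

theorem eg_nonneg {F : ℕ → ℝ} (hF : Good F) (φ : V → ℝ) (p : V × Fin 4) : 0 ≤ eg F φ p :=
  mul_nonneg (hF.1 _).le (sq_nonneg _)

theorem eg_cut {F : ℕ → ℝ} {φ : V → ℝ} {m : ℕ} {p : V × Fin 4} (hp : p ∈ cutS m) :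
    eg F φ p = F (m + 1) * gr φ p ^ 2 := by
  obtain ⟨h1, h2⟩ := mem_cutS.1 hp
  unfold eg cc
  rw [h1, h2, max_eq_right (Nat.le_succ m)]

theorem cut_energy' {F : ℕ → ℝ} (hF : Good F) {a b : ℕ} (φ : V → ℝ) :
    2 * ∑ m ∈ Ico a b, ∑ p ∈ cutS m, F (m + 1) * gr φ p ^ 2 ≤ En F b φ := by
  classical
  have hEn : En F b φ = ∑ p ∈ box b ×ˢ (univ : Finset (Fin 4)), eg F φ p := by
    rw [sum_product]; rfl
  set S : Finset (V × Fin 4) := (Ico a b).biUnion cutS with hS
  have hmS : ∀ p, p ∈ S ↔ a ≤ nrm p.1 ∧ nrm p.1 < b ∧ nrm (p.1 + dir p.2) = nrm p.1 + 1 := by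
    intro p
    rw [hS, mem_biUnion]
    constructor
    · rintro ⟨m, hm, hp⟩
      obtain ⟨h1, h2⟩ := mem_cutS.1 hp
      have := mem_Ico.1 hm
      rw [h1]
      exact ⟨this.1, this.2, h2⟩
    · rintro ⟨h1, h2, h3⟩
      exact ⟨nrm p.1, mem_Ico.2 ⟨h1, h2⟩, mem_cutS.2 ⟨rfl, h3⟩⟩
  have h1 : ∑ m ∈ Ico a b, ∑ p ∈ cutS m, F (m + 1) * gr φ p ^ 2 = ∑ p ∈ S, eg F φ p := by
    rw [hS, sum_biUnion]
    · refine sum_congr rfl fun m _ => sum_congr rfl fun p hp => ?_
      rw [eg_cut hp]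
    · intro m _ m' _ hne
      refine Finset.disjoint_left.2 fun p hp hp' => hne ?_
      rw [← (mem_cutS.1 hp).1, ← (mem_cutS.1 hp').1]
  have h2 : ∑ p ∈ S.image tau, eg F φ p = ∑ p ∈ S, eg F φ p := by
    rw [sum_image (fun p _ q _ h => tau_inj h)]
    exact sum_congr rfl fun p _ => eg_tau F φ p
  have hdis : Disjoint S (S.image tau) := by
    refine Finset.disjoint_left.2 fun p hp hp' => ?_
    obtain ⟨q, hq, rfl⟩ := mem_image.1 hp'
    have e1 := ((hmS _).1 hp).2.2
    have e2 := ((hmS _).1 hq).2.2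
    rw [tau_end, tau_fst] at e1
    omega
  have hsub : S ∪ S.image tau ⊆ box b ×ˢ (univ : Finset (Fin 4)) := by
    intro p hp
    rw [mem_product, cap_mem_box]
    refine ⟨?_, mem_univ _⟩
    rcases mem_union.1 hp with h | h
    · have := (hmS _).1 h
      omega
    · obtain ⟨q, hq, rfl⟩ := mem_image.1 h
      have := (hmS _).1 hq
      rw [tau_fst]
      omega
  calc 2 * ∑ m ∈ Ico a b, ∑ p ∈ cutS m, F (m + 1) * gr φ p ^ 2
      = ∑ p ∈ S ∪ S.image tau, eg F φ p := by rw [sum_union hdis, h1, h2]; ring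
    _ ≤ ∑ p ∈ box b ×ˢ (univ : Finset (Fin 4)), eg F φ p :=
        sum_le_sum_of_subset_of_nonneg hsub fun p _ _ => eg_nonneg hF φ p
    _ = En F b φ := hEn.symm

theorem cut_energy : ∀ F, Good F → ∀ a b : ℕ, a < b → ∀ φ : V → ℝ,
    2 * ∑ m ∈ Ico a b, ∑ x ∈ rng m, ∑ d, (if nrm (x + dir d) = m + 1 then
      F (m + 1) * (φ (x + dir d) - φ x) ^ 2 else 0) ≤ En F b φ := by
  intro F hF a b _ φ
  have h := cut_energy' hF (a := a) (b := b) φ
  have e : ∀ m, ∑ x ∈ rng m, ∑ d, (if nrm (x + dir d) = m + 1 then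
      F (m + 1) * (φ (x + dir d) - φ x) ^ 2 else 0) = ∑ p ∈ cutS m, F (m + 1) * gr φ p ^ 2 :=
    fun m => sum_cutS m (fun x d => F (m + 1) * (φ (x + dir d) - φ x) ^ 2)
  rw [sum_congr rfl fun m _ => e m]
  exact h

/-- the current does not depend on the radius -/
theorem cur_const (huu : S_uu) (hflux : S_flux) : ∀ F, Good F → ∀ a b : ℕ, a < b →
    ∀ m, a ≤ m → m < b → Cur F m (uu F a b) = Cap F a b := by
  intro F hF a b hab m ham
  induction m, ham using Nat.le_induction with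
  | base => intro _; rfl
  | succ m ham ih =>
    intro hmb
    have ih := ih (by omega)
    have h := hflux F hF m (uu F a b)
    have h0 : ∑ x ∈ rng (m + 1), piW F x * (PP F (uu F a b) x - uu F a b x) = 0 := by
      refine sum_eq_zero fun x hx => ?_
      have hx' := cap_mem_rng.1 hx
      rw [(huu F hF a b hab).1.har x (by omega) (by omega), sub_self, mul_zero]
    rw [h0] at h
    linarith

theorem cap_piW_pos {F : ℕ → ℝ} (hF : Good F) (x : V) : 0 < piW F x :=
  sum_pos (fun d _ => hF.1 _) univ_nonempty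

theorem cap_P_sum {F : ℕ → ℝ} (hF : Good F) (x : V) : ∑ d, P F x d = 1 := by
  unfold P
  rw [← sum_div]
  exact div_self (cap_piW_pos hF x).ne'

theorem cap_nrm_dir (x : V) (d : Fin 4) : nrm (x + dir d) ≤ nrm x + 1 := by
  fin_cases d <;> simp [nrm, dir] <;> omega

theorem cap_rng_zero : rng 0 = {0} := by
  ext x
  rw [cap_mem_rng, mem_singleton]
  constructor
  · intro h
    apply Prod.ext
    · show x.1 = 0
      simp only [nrm] at h
      omega
    · show x.2 = 0
      simp only [nrm] at h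
      omega
  · rintro rfl
    simp [nrm]

/-- the energy of the potential -/
theorem en_uu (huu : S_uu) (hen : S_en) (hflux : S_flux) (hflux0 : S_flux0) : ∀ F, Good F →
    ∀ a b : ℕ, a < b → En F b (fun x => 1 - uu F a b x) = 2 * Cap F a b := by
  intro F hF a b hab
  obtain ⟨hU, -⟩ := huu F hF a b hab
  set u := uu F a b with hu
  rw [hen F hF b (fun x => 1 - u x) (fun x hx => by rw [hU.hi x hx, sub_self])]
  congr 1
  have hPP : ∀ x, PP F (fun x => 1 - u x) x = 1 - PP F u x := by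
    intro x
    unfold PP
    have : ∀ d, P F x d * (1 - u (x + dir d)) = P F x d - P F x d * u (x + dir d) := fun d => by ring
    rw [sum_congr rfl fun d _ => this d, sum_sub_distrib, cap_P_sum hF]
  have h1 : ∑ x ∈ box b, piW F x * ((1 - u x) * ((1 - u x) - PP F (fun x => 1 - u x) x)) =
      ∑ x ∈ rng a, piW F x * (PP F u x - u x) := by
    have hsub : rng a ⊆ box b := fun x hx => cap_mem_box.2 (by rw [cap_mem_rng.1 hx]; omega)
    rw [← sum_subset hsub]
    · refine sum_congr rfl fun x hx => ?_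
      rw [hPP, hU.lo x (cap_mem_rng.1 hx).le]
      ring
    · intro x _ hx
      rw [hPP]
      have hxa : nrm x ≠ a := fun h => hx (cap_mem_rng.2 h)
      rcases lt_or_gt_of_ne hxa with h | h
      · have h2 : PP F u x = 0 := by
          unfold PP
          refine sum_eq_zero fun d _ => ?_
          rw [hU.lo (x + dir d) (by have := cap_nrm_dir x d; omega), mul_zero]
        rw [h2, hU.lo x (by omega)]
        ring
      · rcases lt_or_ge (nrm x) b with h' | h'
        · rw [hU.har x h h']; ring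
        · rw [hU.hi x h']; ring
  rw [h1]
  show _ = Cur F a u
  rcases Nat.eq_zero_or_pos a with h0 | h0
  · subst h0
    rw [cap_rng_zero, sum_singleton]
    exact hflux0 F hF u
  · obtain ⟨m, rfl⟩ : ∃ m, a = m + 1 := ⟨a - 1, by omega⟩
    rw [hflux F hF m u]
    have : Cur F m u = 0 := by
      rw [cur_eq]
      refine sum_eq_zero fun p hp => ?_
      obtain ⟨e1, e2⟩ := mem_cutS.1 hp
      unfold gr
      rw [hU.lo _ e2.le, hU.lo _ (by omega), sub_zero, mul_zero]
    rw [this, sub_zero]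

theorem en_one_sub (F : ℕ → ℝ) (N : ℕ) (φ : V → ℝ) : En F N (fun x => 1 - φ x) = En F N φ := by
  unfold En
  refine sum_congr rfl fun x _ => sum_congr rfl fun d _ => ?_
  ring

/-- the sum of the energies of the cuts is at most the conductance -/
theorem cuts_le (huu : S_uu) (hen : S_en) (hflux : S_flux) (hflux0 : S_flux0) {F : ℕ → ℝ}
    (hF : Good F) {a b : ℕ} (hab : a < b) :
    ∑ m ∈ Ico a b, ∑ p ∈ cutS m, F (m + 1) * gr (uu F a b) p ^ 2 ≤ Cap F a b := by
  have h1 := cut_energy' hF (a := a) (b := b) (uu F a b)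
  have h2 := en_uu huu hen hflux hflux0 F hF a b hab
  rw [en_one_sub] at h2
  linarith

theorem cap_nonneg (huu : S_uu) (hen : S_en) (hflux : S_flux) (hflux0 : S_flux0) {F : ℕ → ℝ}
    (hF : Good F) {a b : ℕ} (hab : a < b) : 0 ≤ Cap F a b :=
  (sum_nonneg fun m _ => sum_nonneg fun p _ => mul_nonneg (hF.1 _).le (sq_nonneg _)).trans
    (cuts_le huu hen hflux hflux0 hF hab)

theorem card_cutS (hcut : S_cut) (m : ℕ) : ((cutS m).card : ℝ) = 8 * m + 4 := by
  rw [← hcut m, sum_cutS m (fun _ _ => 1), sum_const, nsmul_eq_mul, mul_one]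

theorem piece_cap2 (hmax : S_max) (huu : S_uu) (hen : S_en) (hflux : S_flux)
    (hflux0 : S_flux0) (hcut : S_cut) : S_cap2 := by
  intro F hF a b hab
  have hC := cap_nonneg huu hen hflux hflux0 hF hab
  have hle := cuts_le huu hen hflux hflux0 hF hab
  set C := Cap F a b with hCd
  set u := uu F a b with hu
  have h1 : ∀ m ∈ Ico a b, C ^ 2 * (1 / ((8 * (m : ℝ) + 4) * F (m + 1))) ≤
      ∑ p ∈ cutS m, F (m + 1) * gr u p ^ 2 := by
    intro m hm
    have hm' := mem_Ico.1 hm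
    have hcur : C = ∑ p ∈ cutS m, F (m + 1) * gr u p := by
      rw [← cur_eq]
      exact (cur_const huu hflux F hF a b hab m hm'.1 hm'.2).symm
    have hFm := hF.1 (m + 1)
    have hcs := sq_sum_le_card_mul_sum_sq (s := cutS m) (f := fun p => gr u p)
    rw [card_cutS hcut] at hcs
    rw [← mul_sum] at hcur
    rw [← mul_sum, mul_one_div, div_le_iff₀ (by positivity), hcur]
    calc (F (m + 1) * ∑ p ∈ cutS m, gr u p) ^ 2
        = F (m + 1) ^ 2 * (∑ p ∈ cutS m, gr u p) ^ 2 := by ring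
      _ ≤ F (m + 1) ^ 2 * ((8 * m + 4) * ∑ p ∈ cutS m, gr u p ^ 2) := by gcongr
      _ = _ := by ring
  have h2 : C * (C * ∑ m ∈ Ico a b, 1 / ((8 * (m : ℝ) + 4) * F (m + 1))) ≤ C * 1 := by
    calc C * (C * ∑ m ∈ Ico a b, 1 / ((8 * (m : ℝ) + 4) * F (m + 1)))
        = ∑ m ∈ Ico a b, C ^ 2 * (1 / ((8 * (m : ℝ) + 4) * F (m + 1))) := by
          rw [← mul_sum]; ring
      _ ≤ ∑ m ∈ Ico a b, ∑ p ∈ cutS m, F (m + 1) * gr u p ^ 2 := sum_le_sum h1
      _ ≤ C := hle
      _ = C * 1 := by ring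
  rcases hC.eq_or_lt with h0 | h0
  · rw [← h0, zero_mul]; norm_num
  · exact le_of_mul_le_mul_left h2 h0

/-- along an outgoing direction the norm increases by one at each step -/
theorem nrm_col {x : V} {d : Fin 4} (h : nrm (x + dir d) = nrm x + 1) (k : ℕ) :
    nrm (x + k • dir d) = nrm x + k := by
  fin_cases d <;> simp [nrm, dir] at h ⊢ <;> omega

theorem piece_cap3 (hmax : S_max) (huu : S_uu) (hen : S_en) (hflux : S_flux)
    (hflux0 : S_flux0) (hcut : S_cut) : S_cap3 := by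
  classical
  intro F hF a b hab
  have hle := cuts_le huu hen hflux hflux0 hF hab
  obtain ⟨hU, -⟩ := huu F hF a b hab
  set C := Cap F a b with hCd
  set u := uu F a b with hu
  have hIco : ∀ f : ℕ → ℝ, ∑ m ∈ Ico a b, f m = ∑ k ∈ range (b - a), f (a + k) :=
    fun f => sum_Ico_eq_sum_range f a b
  -- the columns
  have hcol : ∀ p ∈ cutS a, (1 : ℝ) ≤ (∑ k ∈ range (b - a), 1 / F (a + k + 1)) *
      ∑ k ∈ range (b - a), F (a + k + 1) * gr u (p.1 + k • dir p.2, p.2) ^ 2 := by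
    intro p hp
    obtain ⟨hp1, hp2⟩ := mem_cutS.1 hp
    have htel : ∑ k ∈ range (b - a), gr u (p.1 + k • dir p.2, p.2) = 1 := by
      have h1 := sum_range_sub (fun k : ℕ => u (p.1 + k • dir p.2)) (b - a)
      have h2 : ∀ k : ℕ, gr u (p.1 + k • dir p.2, p.2) =
          u (p.1 + (k + 1) • dir p.2) - u (p.1 + k • dir p.2) := by
        intro k
        unfold gr
        rw [add_smul, one_smul, add_assoc]
      rw [sum_congr rfl fun k _ => h2 k, h1]
      have e1 : u (p.1 + (b - a) • dir p.2) = 1 := by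
        apply hU.hi
        rw [nrm_col (by rw [hp1]; exact hp2), hp1]
        omega
      have e2 : u (p.1 + 0 • dir p.2) = 0 := by
        apply hU.lo
        rw [zero_smul, add_zero, hp1]
      rw [e1, e2, sub_zero]
    have hcs := sum_sq_le_sum_mul_sum_of_sq_eq_mul (range (b - a))
      (r := fun k => gr u (p.1 + k • dir p.2, p.2))
      (f := fun k => 1 / F (a + k + 1))
      (g := fun k => F (a + k + 1) * gr u (p.1 + k • dir p.2, p.2) ^ 2)
      (fun k _ => (one_div_pos.2 (hF.1 _)).le)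
      (fun k _ => mul_nonneg (hF.1 _).le (sq_nonneg _))
      (fun k _ => by
        have := (hF.1 (a + k + 1)).ne'
        field_simp)
    rw [htel] at hcs
    simpa using hcs
  have hinj : ∀ k : ℕ, ∑ p ∈ cutS a, F (a + k + 1) * gr u (p.1 + k • dir p.2, p.2) ^ 2 ≤
      ∑ p ∈ cutS (a + k), F (a + k + 1) * gr u p ^ 2 := by
    intro k
    have h1 : ∑ p ∈ cutS a, F (a + k + 1) * gr u (p.1 + k • dir p.2, p.2) ^ 2 =
        ∑ p ∈ (cutS a).image (fun p => (p.1 + k • dir p.2, p.2)), F (a + k + 1) * gr u p ^ 2 := by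
      rw [sum_image]
      intro p _ q _ h
      have h2 := (Prod.mk.inj h).2
      have h1 := (Prod.mk.inj h).1
      rw [h2] at h1
      exact Prod.ext (add_right_cancel h1) h2
    rw [h1]
    refine sum_le_sum_of_subset_of_nonneg ?_ fun p _ _ => mul_nonneg (hF.1 _).le (sq_nonneg _)
    intro q hq
    obtain ⟨p, hp, rfl⟩ := mem_image.1 hq
    obtain ⟨hp1, hp2⟩ := mem_cutS.1 hp
    have hp3 : nrm (p.1 + dir p.2) = nrm p.1 + 1 := by rw [hp1]; exact hp2
    refine mem_cutS.2 ⟨?_, ?_⟩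
    · show nrm (p.1 + k • dir p.2) = a + k
      rw [nrm_col hp3, hp1]
    · show nrm (p.1 + k • dir p.2 + dir p.2) = a + k + 1
      have : p.1 + k • dir p.2 + dir p.2 = p.1 + (k + 1) • dir p.2 := by
        rw [add_smul, one_smul, add_assoc]
      rw [this, nrm_col hp3, hp1]
      ring
  have hS : 0 ≤ ∑ k ∈ range (b - a), 1 / F (a + k + 1) :=
    sum_nonneg fun k _ => (one_div_pos.2 (hF.1 _)).le
  rw [hIco (fun m => 1 / F (m + 1))]
  rw [hIco (fun m => ∑ p ∈ cutS m, F (m + 1) * gr u p ^ 2)] at hle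
  calc 8 * (a : ℝ) + 4 = ∑ p ∈ cutS a, (1 : ℝ) := by
        rw [sum_const, nsmul_eq_mul, mul_one, card_cutS hcut]
    _ ≤ ∑ p ∈ cutS a, (∑ k ∈ range (b - a), 1 / F (a + k + 1)) *
          ∑ k ∈ range (b - a), F (a + k + 1) * gr u (p.1 + k • dir p.2, p.2) ^ 2 :=
        sum_le_sum hcol
    _ = (∑ k ∈ range (b - a), 1 / F (a + k + 1)) * ∑ k ∈ range (b - a),
          ∑ p ∈ cutS a, F (a + k + 1) * gr u (p.1 + k • dir p.2, p.2) ^ 2 := by
        rw [← mul_sum, sum_comm]
    _ ≤ (∑ k ∈ range (b - a), 1 / F (a + k + 1)) * ∑ k ∈ range (b - a),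
          ∑ p ∈ cutS (a + k), F (a + k + 1) * gr u p ^ 2 :=
        mul_le_mul_of_nonneg_left (sum_le_sum fun k _ => hinj k) hS
    _ ≤ (∑ k ∈ range (b - a), 1 / F (a + k + 1)) * C := mul_le_mul_of_nonneg_left hle hS

theorem piece_cap0 (hmax : S_max) (huu : S_uu) (hen : S_en) (hflux : S_flux)
    (hflux0 : S_flux0) (hcut : S_cut) : S_cap0 := by
  intro F hF a b hab
  have h3 := piece_cap3 hmax huu hen hflux hflux0 hcut F hF a b hab
  have h0 : 0 < (∑ m ∈ Ico a b, 1 / F (m + 1)) * Cap F a b := by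
    have : (0 : ℝ) < 8 * a + 4 := by positivity
    linarith
  have h1 : 0 ≤ ∑ m ∈ Ico a b, 1 / F (m + 1) :=
    sum_nonneg fun k _ => (one_div_pos.2 (hF.1 _)).le
  exact pos_of_mul_pos_right h0 h1

end Pool.Agent.R812.TC
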