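import Pool.Agent.R812.TC.CAP

/-! Project TC, piece COND: almost constant escape probability on a line. -/

set_option autoImplicit false

namespace Pool.Agent.R812.TC
open Finset

namespace Cond

lemma nrm_dir' (x : V) (d : Fin 4) : nrm x ≤ nrm (x + dir d) + 1 := by
  fin_cases d <;> simp [nrm, dir] <;> omega

/-- comparison in an annulus -/
lemma ann (hmax : S_max) {F : ℕ → ℝ} (hF : Good F) (r s : ℕ) (f : V → ℝ)
    (h1 : ∀ x, nrm x = r → f x ≤ 0) (h2 : ∀ x, nrm x = s → f x ≤ 0)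
    (h3 : ∀ x, r < nrm x → nrm x < s → PP F f x = f x) (x : V) (hr : r ≤ nrm x)
    (hs : nrm x ≤ s) : f x ≤ 0 := by
  classical
  let φ : V → ℝ := fun x => if r ≤ nrm x ∧ nrm x ≤ s then f x else 0
  let B : Finset V := (box s).filter fun x => r < nrm x ∧ nrm x < s
  have hB : ∀ x, x ∈ B ↔ r < nrm x ∧ nrm x < s := by
    intro x
    simp only [B, mem_filter, cap_mem_box]
    constructor
    · exact fun h => h.2
    · exact fun h => ⟨h.2.le, h⟩
  have key := hmax F hF B φ 0 (fun x hx => ?_) (fun x hx => ?_) x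
  · simp only [φ] at key
    rw [if_pos ⟨hr, hs⟩] at key
    exact key
  · rw [hB] at hx
    simp only [φ]
    split_ifs with h
    · rcases eq_or_lt_of_le h.1 with h4 | h4
      · exact h1 x h4.symm
      · exact h2 x (by omega)
    · exact le_rfl
  · rw [hB] at hx
    have h5 : PP F φ x = PP F f x := by
      unfold PP
      refine sum_congr rfl fun d _ => ?_
      simp only [φ]
      rw [if_pos]
      have e1 := cap_nrm_dir x d
      have e2 := nrm_dir' x d
      omega
    rw [h5, h3 x hx.1 hx.2]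
    simp only [φ]
    rw [if_pos ⟨hx.1.le, hx.2.le⟩]

lemma PP_comb {F : ℕ → ℝ} (hF : Good F) (α β γ : ℝ) (f g : V → ℝ) (x : V) :
    PP F (fun y => α * f y + β * g y + γ) x = α * PP F f x + β * PP F g x + γ := by
  have h := cap_P_sum hF x
  unfold PP
  have : ∀ d, P F x d * (α * f (x + dir d) + β * g (x + dir d) + γ) =
      α * (P F x d * f (x + dir d)) + β * (P F x d * g (x + dir d)) + P F x d * γ :=
    fun d => by ring
  rw [sum_congr rfl fun d _ => this d, sum_add_distrib, sum_add_distrib, ← mul_sum, ← mul_sum,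
    ← sum_mul, h, one_mul]

lemma cur_le {F : ℕ → ℝ} (hF : Good F) (m : ℕ) (f g : V → ℝ) (κ : ℝ)
    (h : ∀ p ∈ cutS m, gr f p ≤ κ * gr g p) : Cur F m f ≤ κ * Cur F m g := by
  rw [cur_eq, cur_eq, mul_sum]
  refine sum_le_sum fun p hp => ?_
  have := mul_le_mul_of_nonneg_left (h p hp) (hF.1 (m + 1)).le
  linarith

lemma cur_ge {F : ℕ → ℝ} (hF : Good F) (m : ℕ) (f g : V → ℝ) (κ : ℝ)
    (h : ∀ p ∈ cutS m, κ * gr g p ≤ gr f p) : κ * Cur F m g ≤ Cur F m f := by
  rw [cur_eq, cur_eq, mul_sum]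
  refine sum_le_sum fun p hp => ?_
  have := mul_le_mul_of_nonneg_left (h p hp) (hF.1 (m + 1)).le
  linarith

end Cond

open Cond

theorem piece_cond (hP : S_P) (hmax : S_max) (huu : S_uu) (hen : S_en) (hflux : S_flux)
    (hflux0 : S_flux0) (hline : S_line) : S_cond := by
  intro F hF a b c hab hbc
  have hac : a < c := hab.trans hbc
  obtain ⟨hH, hH01⟩ := huu F hF a c hac
  obtain ⟨h1U, h1U01⟩ := huu F hF a b hab
  obtain ⟨h2U, h2U01⟩ := huu F hF b c hbc
  have hne : (rng b).Nonempty := ⟨((b : ℤ), 0), cap_mem_rng.2 (by simp [nrm])⟩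
  obtain ⟨xM, hxM, hM⟩ := exists_max_image (rng b) (uu F a c) hne
  obtain ⟨xm, hxm, hm⟩ := exists_min_image (rng b) (uu F a c) hne
  have hI := cur_const huu hflux F hF a c hac
  have hI2 := cur_const huu hflux F hF b c hbc
  have hEn := en_uu huu hen hflux hflux0 F hF a c hac
  have hC2 := cap_nonneg huu hen hflux hflux0 hF hbc
  set h := uu F a c with hh
  set u1 := uu F a b with hu1
  set u2 := uu F b c with hu2
  set pp := h xM with hpp
  set pm := h xm with hpm
  have hM' : ∀ x, nrm x = b → h x ≤ pp := fun x hx => hM x (cap_mem_rng.2 hx)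
  have hm' : ∀ x, nrm x = b → pm ≤ h x := fun x hx => hm x (cap_mem_rng.2 hx)
  have hpm0 : 0 ≤ pm := (hH01 xm).1
  have hpp1 : pp ≤ 1 := (hH01 xM).2
  -- comparison inside
  have hin1 : ∀ x, a ≤ nrm x → nrm x ≤ b → h x ≤ pp * u1 x := by
    intro x hx1 hx2
    have := ann hmax hF a b (fun y => 1 * h y + (-pp) * u1 y + 0) (fun y hy => ?_) (fun y hy => ?_)
      (fun y hy1 hy2 => ?_) x hx1 hx2
    · linarith
    · beta_reduce
      rw [hH.lo y hy.le, h1U.lo y hy.le]
      norm_num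
    · beta_reduce
      rw [h1U.hi y hy.ge]
      linarith [hM' y hy]
    · rw [PP_comb hF, hH.har y hy1 (by omega), h1U.har y hy1 hy2]
  have hin2 : ∀ x, a ≤ nrm x → nrm x ≤ b → pm * u1 x ≤ h x := by
    intro x hx1 hx2
    have := ann hmax hF a b (fun y => (-1) * h y + pm * u1 y + 0) (fun y hy => ?_)
      (fun y hy => ?_) (fun y hy1 hy2 => ?_) x hx1 hx2
    · linarith
    · beta_reduce
      rw [hH.lo y hy.le, h1U.lo y hy.le]
      norm_num
    · beta_reduce
      rw [h1U.hi y hy.ge]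
      linarith [hm' y hy]
    · rw [PP_comb hF, hH.har y hy1 (by omega), h1U.har y hy1 hy2]
  -- comparison outside
  have hout1 : ∀ x, b ≤ nrm x → nrm x ≤ c → (1 - pp) * (1 - u2 x) ≤ 1 - h x := by
    intro x hx1 hx2
    have := ann hmax hF b c (fun y => 1 * h y + (-(1 - pp)) * u2 y + (-pp)) (fun y hy => ?_)
      (fun y hy => ?_) (fun y hy1 hy2 => ?_) x hx1 hx2
    · linarith
    · beta_reduce
      rw [h2U.lo y hy.le]
      linarith [hM' y hy]
    · beta_reduce
      rw [h2U.hi y hy.ge, hH.hi y hy.ge]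
      linarith
    · rw [PP_comb hF, hH.har y (by omega) hy2, h2U.har y hy1 hy2]
  have hout2 : ∀ x, b ≤ nrm x → nrm x ≤ c → 1 - h x ≤ (1 - pm) * (1 - u2 x) := by
    intro x hx1 hx2
    have := ann hmax hF b c (fun y => (-1) * h y + (1 - pm) * u2 y + pm) (fun y hy => ?_)
      (fun y hy => ?_) (fun y hy1 hy2 => ?_) x hx1 hx2
    · linarith
    · beta_reduce
      rw [h2U.lo y hy.le]
      linarith [hm' y hy]
    · beta_reduce
      rw [h2U.hi y hy.ge, hH.hi y hy.ge]
      linarith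
    · rw [PP_comb hF, hH.har y (by omega) hy2, h2U.har y hy1 hy2]
  -- currents
  have c1 : Cap F a c ≤ pp * Cap F a b := by
    refine cur_le hF a h u1 pp fun p hp => ?_
    obtain ⟨e1, e2⟩ := mem_cutS.1 hp
    unfold gr
    rw [hH.lo _ e1.le, h1U.lo _ e1.le, sub_zero, sub_zero]
    exact hin1 _ (by omega) (by omega)
  have c2 : pm * Cap F a b ≤ Cap F a c := by
    refine cur_ge hF a h u1 pm fun p hp => ?_
    obtain ⟨e1, e2⟩ := mem_cutS.1 hp
    unfold gr
    rw [hH.lo _ e1.le, h1U.lo _ e1.le, sub_zero, sub_zero]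
    exact hin2 _ (by omega) (by omega)
  have e3 := hI (c - 1) (by omega) (by omega)
  have e4 := hI2 (c - 1) (by omega) (by omega)
  have c3 : (1 - pp) * Cap F b c ≤ Cap F a c := by
    rw [← e3, ← e4]
    refine cur_ge hF (c - 1) h u2 (1 - pp) fun p hp => ?_
    obtain ⟨e1, e2⟩ := mem_cutS.1 hp
    unfold gr
    rw [hH.hi _ (by omega), h2U.hi _ (by omega)]
    exact hout1 _ (by omega) (by omega)
  have c4 : Cap F a c ≤ (1 - pm) * Cap F b c := by
    rw [← e3, ← e4]
    refine cur_le hF (c - 1) h u2 (1 - pm) fun p hp => ?_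
    obtain ⟨e1, e2⟩ := mem_cutS.1 hp
    unfold gr
    rw [hH.hi _ (by omega), h2U.hi _ (by omega)]
    exact hout2 _ (by omega) (by omega)
  refine ⟨pp, pm, hpm0, hpp1, fun x hx => ⟨hm' x hx, hM' x hx⟩, by linarith, by linarith, ?_⟩
  have hl := hline F hF b c (fun x => 1 - h x) xM xm (by omega) hbc.le (cap_mem_rng.1 hxM)
    (cap_mem_rng.1 hxm)
  rw [hEn] at hl
  have h8 : (pp - pm) ^ 2 = (1 - h xM - (1 - h xm)) ^ 2 := by
    rw [← hpp, ← hpm]
    ring
  rw [h8]
  refine hl.trans ?_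
  have hFb := hF.1 b
  have h9 : Cap F a c ≤ Cap F b c := by nlinarith
  calc 4 * (b : ℝ) / F b * (2 * Cap F a c) ≤ 4 * (b : ℝ) / F b * (2 * Cap F b c) := by
        refine mul_le_mul_of_nonneg_left (by linarith) (by positivity)
    _ = 8 * b / F b * Cap F b c := by ring

end Pool.Agent.R812.TC
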