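import Pool.Agent.R812.TC.Stm

/-! Project TC: piece COVER. -/

namespace Pool.Agent.R812.TC
open Finset

namespace Cov

lemma nrm_step (x : V) (d : Fin 4) :
    nrm (x + dir d) ≤ nrm x + 1 ∧ nrm x ≤ nrm (x + dir d) + 1 := by
  obtain ⟨p, q⟩ := x
  fin_cases d <;> simp [nrm, dir] <;> omega

lemma mem_box {N : ℕ} {x : V} : x ∈ box N ↔ nrm x ≤ N := by
  obtain ⟨p, q⟩ := x
  simp only [box, nrm, Finset.mem_product, Finset.mem_Icc]
  omega

lemma mem_rng {a : ℕ} {x : V} : x ∈ rng a ↔ nrm x = a := by
  simp only [rng, Finset.mem_filter, mem_box]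
  omega

lemma ls_abs {n : ℕ → ℕ} {J : ℕ} {w : List (Fin 4)} (d : Fin 4) (h : J ≤ (ls n J w).1) :
    ls n J (d :: w) = ls n J w := by
  rw [ls, if_pos h]

lemma ls_up {n : ℕ → ℕ} {J : ℕ} {w : List (Fin 4)} (d : Fin 4) (h : (ls n J w).1 < J)
    (hu : nrm (pos w + dir d) = n ((ls n J w).1 + 1)) :
    ls n J (d :: w) = ((ls n J w).1 + 1, (ls n J w).2) := by
  rw [ls, if_neg (not_le.mpr h), if_pos (show nrm (pos (d :: w)) = _ from hu)]

lemma ls_down {n : ℕ → ℕ} {J : ℕ} {w : List (Fin 4)} (d : Fin 4) (h : (ls n J w).1 < J)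
    (hu : nrm (pos w + dir d) ≠ n ((ls n J w).1 + 1)) (h1 : 1 ≤ (ls n J w).1)
    (hd : nrm (pos w + dir d) = n ((ls n J w).1 - 1)) :
    ls n J (d :: w) = ((ls n J w).1 - 1, Function.update (ls n J w).2 ((ls n J w).1 - 1)
          ((ls n J w).2 ((ls n J w).1 - 1) + 1)) := by
  rw [ls, if_neg (not_le.mpr h), if_neg (show ¬ nrm (pos (d :: w)) = _ from hu),
    if_pos (show _ ∧ nrm (pos (d :: w)) = _ from ⟨h1, hd⟩)]

lemma ls_stay {n : ℕ → ℕ} {J : ℕ} {w : List (Fin 4)} (d : Fin 4) (h : (ls n J w).1 < J)
    (hu : nrm (pos w + dir d) ≠ n ((ls n J w).1 + 1))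
    (hd : ¬ (1 ≤ (ls n J w).1 ∧ nrm (pos w + dir d) = n ((ls n J w).1 - 1))) :
    ls n J (d :: w) = ls n J w := by
  rw [ls, if_neg (not_le.mpr h), if_neg (show ¬ nrm (pos (d :: w)) = _ from hu),
    if_neg (show ¬ (_ ∧ nrm (pos (d :: w)) = _) from hd)]

lemma ls_inv {n : ℕ → ℕ} (hn : StrictMono n) (hn0 : n 0 = 0) (J : ℕ) (w : List (Fin 4)) :
    (ls n J w).1 ≤ J ∧ ((ls n J w).1 < J → nrm (pos w) < n ((ls n J w).1 + 1) ∧
      (1 ≤ (ls n J w).1 → n ((ls n J w).1 - 1) < nrm (pos w))) := by
  induction w with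
  | nil =>
    have h01 := hn (Nat.zero_lt_one)
    refine ⟨by simp [ls], fun h => ⟨?_, by simp [ls]⟩⟩
    simp only [ls, pos, nrm]
    simp
    omega
  | cons d w ih =>
    obtain ⟨h1, h2⟩ := ih
    have hs := nrm_step (pos w) d
    have hpos : pos (d :: w) = pos w + dir d := rfl
    by_cases hJ : J ≤ (ls n J w).1
    · rw [ls_abs d hJ]
      exact ⟨h1, fun h => absurd h (by omega)⟩
    · have hlt : (ls n J w).1 < J := by omega
      obtain ⟨h3, h4⟩ := h2 hlt
      by_cases hu : nrm (pos w + dir d) = n ((ls n J w).1 + 1)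
      · rw [ls_up d hlt hu, hpos]
        refine ⟨by simpa using hlt, fun _ => ⟨?_, fun _ => ?_⟩⟩
        · simp only [hu]; exact hn (by omega)
        · simp only [hu]; exact hn (by omega)
      · by_cases hd : 1 ≤ (ls n J w).1 ∧ nrm (pos w + dir d) = n ((ls n J w).1 - 1)
        · rw [ls_down d hlt hu hd.1 hd.2, hpos]
          have h5 := hd.1
          refine ⟨by simp; omega, fun _ => ⟨?_, fun h6 => ?_⟩⟩
          · simp only [hd.2]; exact hn (by omega)
          · simp only [hd.2]; exact hn (by simp at h6; omega)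
        · rw [ls_stay d hlt hu hd, hpos]
          refine ⟨h1, fun _ => ⟨by omega, fun h5 => ?_⟩⟩
          have h6 := h4 h5
          have h7 : nrm (pos w + dir d) ≠ n ((ls n J w).1 - 1) := fun h => hd ⟨h5, h⟩
          omega

lemma Ex_mono {F : ℕ → ℝ} (hPn : ∀ x d, 0 ≤ P F x d) (t : ℕ) {Φ Ψ : List (Fin 4) → ℝ}
    (h : ∀ w, Φ w ≤ Ψ w) (w : List (Fin 4)) : Ex F t Φ w ≤ Ex F t Ψ w := by
  induction t generalizing w with
  | zero => exact h w
  | succ t ih =>
    simp only [Ex]
    exact Finset.sum_le_sum fun d _ => mul_le_mul_of_nonneg_left (ih _) (hPn _ _)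

lemma Ex_smul (F : ℕ → ℝ) (t : ℕ) (c : ℝ) (Φ : List (Fin 4) → ℝ) (w : List (Fin 4)) :
    Ex F t (fun w => c * Φ w) w = c * Ex F t Φ w := by
  induction t generalizing w with
  | zero => rfl
  | succ t ih =>
    simp only [Ex]
    rw [Finset.mul_sum]
    refine Finset.sum_congr rfl fun d _ => ?_
    rw [ih]; ring

lemma Ex_super {F : ℕ → ℝ} (hPn : ∀ x d, 0 ≤ P F x d) (t : ℕ) {Φ : List (Fin 4) → ℝ}
    (h : ∀ w, ∑ d, P F (pos w) d * Φ (d :: w) ≤ Φ w) (w : List (Fin 4)) :
    Ex F t Φ w ≤ Φ w := by
  induction t generalizing w with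
  | zero => exact le_refl _
  | succ t ih =>
    simp only [Ex]
    refine le_trans ?_ (h w)
    exact Finset.sum_le_sum fun d _ => mul_le_mul_of_nonneg_left (ih _) (hPn _ _)

lemma pot (hP : S_P) (hmax : S_max) (hdir : S_dir) (huu : S_uu) (hen : S_en) (hflux : S_flux)
    {F : ℕ → ℝ} (hF : Good F) {a b N : ℕ} (ha : 1 ≤ a) (hab : a < b) (hbN : b ≤ N) (v : V)
    (ρ : ℝ) (hρ : 0 ≤ ρ)
    (hr : ∀ φ : V → ℝ, (∀ x, N ≤ nrm x → φ x = 0) → ∀ x, nrm x = a →
      (φ v - φ x) ^ 2 ≤ ρ * En F N φ) :
    ∃ (u g0 esc : V → ℝ) (gm : ℝ), (∀ x, nrm x ≤ a → u x = 0) ∧ (∀ x, b ≤ nrm x → u x = 1) ∧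
      (∀ x, 0 ≤ u x ∧ u x ≤ 1) ∧ 0 ≤ gm ∧ gm ≤ 2 * (ρ * Cap F a b) ∧
      (∀ x, 0 ≤ g0 x ∧ g0 x ≤ gm) ∧ g0 v = 0 ∧ (∀ x, 0 ≤ esc x ∧ esc x ≤ 1) ∧
      (∀ x, nrm x < N → x ≠ v → PP F g0 x = g0 x - esc x) ∧
      (∀ x, PP F u x ≤ u x + esc x) ∧ 0 ≤ Cap F a b := by
  classical
  have hPn : ∀ x d, 0 ≤ P F x d := fun x d => le_trans (by norm_num) ((hP F hF x).1 d)
  have hP1 : ∀ x, ∑ d, P F x d = 1 := fun x => (hP F hF x).2.1
  have hpi : ∀ x, 0 < piW F x := fun x => (hP F hF x).2.2
  obtain ⟨hU, hu01⟩ := huu F hF a b hab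
  have hCap : Cap F a b = Cur F a (uu F a b) := rfl
  set u := uu F a b with hu
  have hPPu0 : ∀ x, 0 ≤ PP F u x := fun x =>
    Finset.sum_nonneg fun d _ => mul_nonneg (hPn _ _) (hu01 _).1
  have hPPu1 : ∀ x, PP F u x ≤ 1 := fun x => by
    have : PP F u x ≤ ∑ d, P F x d := Finset.sum_le_sum fun d _ => by
      have := mul_le_mul_of_nonneg_left (hu01 (x + dir d)).2 (hPn x d)
      linarith
    rw [hP1] at this
    exact this
  set esc : V → ℝ := fun x => if nrm x = a then PP F u x else 0 with hesc
  have hesc0 : ∀ x, 0 ≤ esc x := fun x => by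
    simp only [hesc]; split_ifs
    · exact hPPu0 x
    · exact le_refl _
  have hesc1 : ∀ x, esc x ≤ 1 := fun x => by
    simp only [hesc]; split_ifs
    · exact hPPu1 x
    · norm_num
  set B : Finset V := (box N).filter (fun x => nrm x < N ∧ x ≠ v) with hB
  have memB : ∀ x, x ∈ B ↔ nrm x < N ∧ x ≠ v := fun x => by
    simp only [hB, Finset.mem_filter, mem_box]
    constructor
    · exact fun h => h.2
    · exact fun h => ⟨by omega, h⟩
  obtain ⟨g0, hg0, hg1⟩ := hdir F hF B (fun _ => 0) esc
  have hg0n : ∀ x, 0 ≤ g0 x := by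
    intro x
    have h := hmax F hF B (fun y => - g0 y) 0 (by intro y hy; simp [hg0 y hy]) (by
      intro y hy
      have h1 := hg1 y hy
      have h2 : PP F (fun z => - g0 z) y = - PP F g0 y := by
        simp [PP, Finset.sum_neg_distrib]
      rw [h2]
      have := hesc0 y
      linarith) x
    linarith
  obtain ⟨xs, hxs, hxsm⟩ := Finset.exists_max_image (rng a) g0
    ⟨((a : ℤ), (0 : ℤ)), mem_rng.mpr (by simp [nrm])⟩
  have hxsa : nrm xs = a := mem_rng.mp hxs
  have hgm0 : 0 ≤ g0 xs := hg0n xs
  have hgle : ∀ x, g0 x ≤ g0 xs := by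
    refine hmax F hF (B.filter (fun x => nrm x ≠ a)) g0 (g0 xs) ?_ ?_
    · intro x hx
      by_cases hxB : x ∈ B
      · have hxa : nrm x = a := by
          by_contra h
          exact hx (Finset.mem_filter.mpr ⟨hxB, h⟩)
        exact hxsm x (mem_rng.mpr hxa)
      · rw [hg0 x hxB]; exact hgm0
    · intro x hx
      obtain ⟨hxB, hxa⟩ := Finset.mem_filter.mp hx
      have h1 := hg1 x hxB
      have h2 : esc x = 0 := by simp only [hesc, if_neg hxa]
      rw [h2] at h1
      linarith
  have hgv : g0 v = 0 := hg0 v (by rw [memB]; exact fun h => h.2 rfl)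
  have hgN : ∀ x, N ≤ nrm x → g0 x = 0 := fun x hx => hg0 x (by rw [memB]; omega)
  -- the capacity
  obtain ⟨a', rfl⟩ : ∃ a', a = a' + 1 := ⟨a - 1, by omega⟩
  have hfl := hflux F hF a' u
  have hcur0 : Cur F a' u = 0 := by
    unfold Cur
    refine Finset.sum_eq_zero fun x hx => Finset.sum_eq_zero fun d _ => ?_
    split_ifs with h
    · rw [hU.lo _ (le_of_eq h), hU.lo x (by rw [mem_rng.mp hx]; omega)]
      ring
    · rfl
  have hcapsum : ∑ x ∈ rng (a' + 1), piW F x * PP F u x = Cap F (a' + 1) b := by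
    rw [hCap]
    rw [hcur0, sub_zero] at hfl
    rw [← hfl]
    refine Finset.sum_congr rfl fun x hx => ?_
    rw [hU.lo x (le_of_eq (mem_rng.mp hx)), sub_zero]
  have hcap0 : 0 ≤ Cap F (a' + 1) b := by
    rw [← hcapsum]
    exact Finset.sum_nonneg fun x _ => mul_nonneg (hpi x).le (hPPu0 x)
  have hsum2 : ∑ x ∈ box N, piW F x * esc x = Cap F (a' + 1) b := by
    rw [← hcapsum]
    symm
    rw [← Finset.sum_subset (s₁ := rng (a' + 1)) (s₂ := box N)
      (f := fun x => piW F x * esc x)]
    · refine Finset.sum_congr rfl fun x hx => ?_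
      simp only [hesc, if_pos (mem_rng.mp hx)]
    · intro x hx
      rw [mem_box, mem_rng.mp hx]; omega
    · intro x _ hx
      have : nrm x ≠ a' + 1 := fun h => hx (mem_rng.mpr h)
      simp only [hesc, if_neg this, mul_zero]
  have hE : En F N g0 ≤ 2 * (g0 xs * Cap F (a' + 1) b) := by
    rw [hen F hF N g0 hgN, ← hsum2]
    refine mul_le_mul_of_nonneg_left ?_ (by norm_num : (0 : ℝ) ≤ 2)
    rw [Finset.mul_sum]
    refine Finset.sum_le_sum fun x _ => ?_
    by_cases hxB : x ∈ B
    · have h1 := hg1 x hxB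
      have h2 : g0 x - PP F g0 x = esc x := by linarith
      rw [h2]
      have h3 : piW F x * (g0 x * esc x) = g0 x * (piW F x * esc x) := by ring
      rw [h3]
      exact mul_le_mul_of_nonneg_right (hgle x) (mul_nonneg (hpi x).le (hesc0 x))
    · rw [hg0 x hxB]
      have h5 := mul_nonneg hgm0 (mul_nonneg (hpi x).le (hesc0 x))
      rw [zero_mul, mul_zero]
      exact h5
  have hsq := hr g0 hgN xs hxsa
  rw [hgv] at hsq
  have hsq2 : g0 xs * g0 xs ≤ (2 * (ρ * Cap F (a' + 1) b)) * g0 xs := by
    have := mul_le_mul_of_nonneg_left hE hρ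
    nlinarith
  have hgmle : g0 xs ≤ 2 * (ρ * Cap F (a' + 1) b) := by
    rcases eq_or_lt_of_le hgm0 with h | h
    · rw [← h]
      have := mul_nonneg hρ hcap0
      linarith
    · exact le_of_mul_le_mul_right hsq2 h
  refine ⟨u, g0, esc, g0 xs, hU.lo, hU.hi, hu01, hgm0, hgmle, fun x => ⟨hg0n x, hgle x⟩, hgv,
    fun x => ⟨hesc0 x, hesc1 x⟩, ?_, ?_, hcap0⟩
  · intro x hx hxv
    have := hg1 x ((memB x).mpr ⟨hx, hxv⟩)
    linarith
  · intro x
    have h0 := hesc0 x
    rcases lt_trichotomy (nrm x) (a' + 1) with h | h | h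
    · have : PP F u x = 0 := by
        unfold PP
        refine Finset.sum_eq_zero fun d _ => ?_
        rw [hU.lo _ (by have := (nrm_step x d).1; omega), mul_zero]
      rw [this]
      have := (hu01 x).1
      linarith
    · have h1 : esc x = PP F u x := by simp only [hesc, if_pos h]
      have := (hu01 x).1
      linarith
    · by_cases hb : nrm x < b
      · rw [hU.har x h hb]; linarith
      · rw [hU.hi x (by omega)]
        have := hPPu1 x
        linarith

end Cov

lemma Cov.exp_le {lam : ℝ} (h0 : 0 ≤ lam) (h1 : lam ≤ 1) : Real.exp lam ≤ 1 + 2 * lam := by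
  have h := Real.abs_exp_sub_one_sub_id_le (x := lam) (by rw [abs_of_nonneg h0]; exact h1)
  have h2 := (abs_le.mp h).2
  nlinarith

theorem piece_cover (hP : S_P) (hmax : S_max) (hdir : S_dir) (huu : S_uu) (hen : S_en)
    (hflux : S_flux) : S_cover := by
  classical
  intro F hF n hn hn0 J j hj hjJ v d0 hv ρ hρ hr t K
  have hP8 : ∀ x d, 1 / 8 ≤ P F x d := fun x d => (hP F hF x).1 d
  have hPn : ∀ x d, 0 ≤ P F x d := fun x d => le_trans (by norm_num) (hP8 x d)
  have hP1 : ∀ x, ∑ d, P F x d = 1 := fun x => (hP F hF x).2.1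
  obtain ⟨u, g0, esc, gm, hulo, huhi, hu01, hgm0, hgm1, hg0, hg0v, hesc, hPg, hPu, hC0⟩ :=
    Cov.pot hP hmax hdir huu hen hflux hF (a := n j) (b := n (j + 1)) (N := n J)
      (le_trans hj hn.le_apply) (hn (by omega)) (hn.monotone (by omega)) v ρ hρ hr
  set C := Cap F (n j) (n (j + 1)) with hC
  obtain ⟨lam, hlam⟩ : ∃ lam : ℝ, lam = 1 / (32 * gm + 34) := ⟨_, rfl⟩
  obtain ⟨l, hl⟩ : ∃ l : ℝ, l = 1 / (8 * gm + 9) := ⟨_, rfl⟩
  have hlam0 : 0 < lam := by rw [hlam]; positivity
  have hlam1 : lam ≤ 1 := by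
    rw [hlam, div_le_one (by positivity)]; linarith
  have hl0 : 0 < l := by rw [hl]; positivity
  have hl9 : l * (8 * gm + 9) = 1 := by rw [hl]; field_simp
  have hkey : 2 * lam * (1 + l * (8 * gm + 8)) = l := by
    rw [hlam, hl]; field_simp; ring
  obtain ⟨G, hG⟩ : ∃ G : V → ℝ, G = fun x => g0 x + (7 * gm + 8) := ⟨_, rfl⟩
  have hGx : ∀ x, G x = g0 x + (7 * gm + 8) := fun x => by rw [hG]
  have hG0 : ∀ x, 0 ≤ G x := fun x => by have := (hg0 x).1; rw [hGx]; linarith
  have hG1 : ∀ x, G x ≤ 8 * gm + 8 := fun x => by have := (hg0 x).2; rw [hGx]; linarith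
  obtain ⟨Φ, hΦ⟩ : ∃ Φ : List (Fin 4) → ℝ, Φ = fun w => if crs n J v d0 w then 0 else
    if J ≤ (ls n J w).1 then Real.exp (lam * cnt n J j w) else
      Real.exp (lam * cnt n J j w) *
        (1 + l * (G (pos w) + if (ls n J w).1 ≤ j then u (pos w) else 0)) := ⟨_, rfl⟩
  have hΦ1 : ∀ w, crs n J v d0 w → Φ w = 0 := fun w h => by rw [hΦ]; simp only [if_pos h]
  have hΦ2 : ∀ w, ¬ crs n J v d0 w → J ≤ (ls n J w).1 → Φ w = Real.exp (lam * cnt n J j w) :=
    fun w h h2 => by rw [hΦ]; simp only [if_neg h, if_pos h2]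
  have hΦ3 : ∀ w, ¬ crs n J v d0 w → (ls n J w).1 < J → Φ w = Real.exp (lam * cnt n J j w) *
      (1 + l * (G (pos w) + if (ls n J w).1 ≤ j then u (pos w) else 0)) :=
    fun w h h2 => by rw [hΦ]; simp only [if_neg h, if_neg (not_le.mpr h2)]
  have hexp := Cov.exp_le hlam0.le hlam1
  -- one step
  have step : ∀ (w : List (Fin 4)) (d : Fin 4), ¬ crs n J v d0 w → (ls n J w).1 < J →
      ¬ (pos w = v ∧ d = d0) → Φ (d :: w) ≤ Real.exp (lam * cnt n J j w) *
        (1 + l * (G (pos w + dir d) + if (ls n J w).1 ≤ j then u (pos w + dir d) else 0)) := by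
    intro w d hc hi hd
    have hc' : ¬ crs n J v d0 (d :: w) := by
      rw [crs]; rintro (h | h)
      · exact hc h
      · exact hd h.2
    have hpos : pos (d :: w) = pos w + dir d := rfl
    by_cases hup : nrm (pos w + dir d) = n ((ls n J w).1 + 1)
    · have hls := Cov.ls_up d hi hup
      rcases lt_trichotomy (ls n J w).1 j with hij | hij | hij
      · have h1 : (ls n J (d :: w)).1 < J := by rw [hls]; simp only; omega
        have hcn : cnt n J j (d :: w) = cnt n J j w := by
          rw [cnt, cnt, hls]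
          simp only
          rw [if_neg (by omega), if_neg (by omega)]
        rw [hΦ3 _ hc' h1, hcn, hpos, hls]
        simp only
        rw [if_pos (by omega), if_pos (by omega)]
      · have hcn : cnt n J j (d :: w) = cnt n J j w + 1 := by
          rw [cnt, cnt, hls]
          simp only
          rw [if_pos (by omega), if_neg (by omega)]
        have hu1 : u (pos w + dir d) = 1 := huhi _ (by rw [hup, hij])
        have hexp2 : Real.exp (lam * cnt n J j (d :: w)) =
            Real.exp (lam * cnt n J j w) * Real.exp lam := by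
          rw [hcn, ← Real.exp_add]; push_cast; ring_nf
        rw [if_pos (by omega), hu1]
        by_cases hJ1 : J ≤ (ls n J (d :: w)).1
        · rw [hΦ2 _ hc' hJ1, hexp2]
          refine mul_le_mul_of_nonneg_left ?_ (Real.exp_pos _).le
          have h5 := hG0 (pos w + dir d)
          have h6 : 2 * lam ≤ l := by
            have : 0 ≤ 2 * lam * (l * (8 * gm + 8)) := by positivity
            nlinarith
          nlinarith
        · rw [hΦ3 _ hc' (by omega), hexp2, hpos, mul_assoc]
          refine mul_le_mul_of_nonneg_left ?_ (Real.exp_pos _).le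
          rw [if_neg (by rw [hls]; simp only; omega), add_zero]
          have h5 := hG0 (pos w + dir d)
          have h6 := hG1 (pos w + dir d)
          have h7 : 0 ≤ 1 + l * G (pos w + dir d) := by positivity
          have h8 : 2 * lam * (1 + l * G (pos w + dir d)) ≤ l := by
            rw [← hkey]
            refine mul_le_mul_of_nonneg_left ?_ (by positivity)
            have := mul_le_mul_of_nonneg_left h6 hl0.le
            rw [hkey]
            linarith
          have h9 := mul_le_mul_of_nonneg_right hexp h7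
          nlinarith
      · have hcn : cnt n J j (d :: w) = cnt n J j w := by
          rw [cnt, cnt, hls]
          simp only
          rw [if_pos (by omega), if_pos (by omega)]
        rw [if_neg (by omega), add_zero]
        by_cases hJ1 : J ≤ (ls n J (d :: w)).1
        · rw [hΦ2 _ hc' hJ1, hcn]
          have h5 := hG0 (pos w + dir d)
          have h6 : 0 ≤ l * G (pos w + dir d) := by positivity
          nlinarith [Real.exp_pos (lam * cnt n J j w)]
        · rw [hΦ3 _ hc' (by omega), hcn, hpos, hls]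
          simp only
          rw [if_neg (by omega), add_zero]
    · by_cases hdn : 1 ≤ (ls n J w).1 ∧ nrm (pos w + dir d) = n ((ls n J w).1 - 1)
      · obtain ⟨h1, hdn⟩ := hdn
        have hls := Cov.ls_down d hi hup h1 hdn
        have hJ1 : (ls n J (d :: w)).1 < J := by rw [hls]; simp only; omega
        rw [hΦ3 _ hc' hJ1, hpos]
        rcases lt_trichotomy (ls n J w).1 (j + 1) with hij | hij | hij
        · have hcn : cnt n J j (d :: w) = cnt n J j w := by
            rw [cnt, cnt, hls]
            simp only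
            rw [if_neg (by omega), if_neg (by omega), Function.update_of_ne (by omega)]
          rw [hcn, hls]
          simp only
          rw [if_pos (by omega), if_pos (by omega)]
        · have hcn : cnt n J j (d :: w) = cnt n J j w := by
            have h9 : (ls n J w).1 - 1 = j := by omega
            rw [cnt, cnt, hls]
            simp only
            rw [h9, if_neg (by omega), if_pos (by omega), Function.update_self]
          have hu0 : u (pos w + dir d) = 0 := hulo _ (by rw [hdn, hij]; simp)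
          rw [hcn, hls]
          simp only
          rw [if_pos (by omega), if_neg (by omega), hu0]
        · have hcn : cnt n J j (d :: w) = cnt n J j w := by
            rw [cnt, cnt, hls]
            simp only
            rw [if_pos (by omega), if_pos (by omega), Function.update_of_ne (by omega)]
          rw [hcn, hls]
          simp only
          rw [if_neg (by omega), if_neg (by omega)]
      · have hls := Cov.ls_stay d hi hup hdn
        have hcn : cnt n J j (d :: w) = cnt n J j w := by rw [cnt, cnt, hls]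
        rw [hΦ3 _ hc' (by rw [hls]; exact hi), hcn, hls, hpos]
  -- supermartingale
  have super : ∀ w, ∑ d, P F (pos w) d * Φ (d :: w) ≤ Φ w := by
    intro w
    by_cases hc : crs n J v d0 w
    · rw [hΦ1 w hc]
      refine le_of_eq (Finset.sum_eq_zero fun d _ => ?_)
      rw [hΦ1 (d :: w) (by rw [crs]; exact Or.inl hc), mul_zero]
    · by_cases hJ : J ≤ (ls n J w).1
      · have : ∀ d, Φ (d :: w) = Φ w := fun d => by
          have hls := Cov.ls_abs d hJ
          have hc' : ¬ crs n J v d0 (d :: w) := by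
            rw [crs]; rintro (h | h)
            · exact hc h
            · exact absurd h.1 (by omega)
          rw [hΦ2 _ hc' (by rw [hls]; exact hJ), hΦ2 _ hc hJ, cnt, cnt, hls]
        simp only [this]
        rw [← Finset.sum_mul, hP1, one_mul]
      · have hi : (ls n J w).1 < J := by omega
        obtain ⟨hxN, -⟩ := (Cov.ls_inv hn hn0 J w).2 hi
        have hxN2 : nrm (pos w) < n J := lt_of_lt_of_le hxN (hn.monotone (by omega))
        obtain ⟨U, hU⟩ : ∃ U : V → ℝ, U = fun y => if (ls n J w).1 ≤ j then u y else 0 :=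
          ⟨_, rfl⟩
        have hUy : ∀ y, (if (ls n J w).1 ≤ j then u y else 0) = U y := fun y => by rw [hU]
        have hU0 : ∀ y, 0 ≤ U y := fun y => by
          rw [← hUy]; split_ifs
          · exact (hu01 y).1
          · exact le_refl _
        have hPU : ∑ d, P F (pos w) d * U (pos w + dir d) ≤ U (pos w) + esc (pos w) := by
          by_cases h : (ls n J w).1 ≤ j
          · have := hPu (pos w)
            rw [hU]
            simp only [if_pos h]
            exact this
          · rw [hU]
            simp only [if_neg h, mul_zero, Finset.sum_const_zero]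
            have := (hesc (pos w)).1
            linarith
        rw [hΦ3 w hc hi, hUy]
        have hE0 := Real.exp_pos (lam * cnt n J j w)
        by_cases hxv : pos w = v
        · have hterm : ∀ d, P F (pos w) d * Φ (d :: w) ≤ Real.exp (lam * cnt n J j w) *
              (P F (pos w) d + l * (P F (pos w) d * U (pos w + dir d)) +
              l * (8 * gm + 8) * (P F (pos w) d - if d = d0 then P F (pos w) d else 0)) := by
            intro d
            by_cases hd : d = d0
            · rw [hΦ1 (d :: w) (by rw [crs]; exact Or.inr ⟨hi, hxv, hd⟩), if_pos hd]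
              have h1 := hPn (pos w) d
              have h2 := hU0 (pos w + dir d)
              rw [mul_zero, sub_self, mul_zero, add_zero]
              positivity
            · have h3 := step w d hc hi (fun h => hd h.2)
              rw [hUy] at h3
              rw [if_neg hd, sub_zero]
              have h4 := hG1 (pos w + dir d)
              have h5 := mul_le_mul_of_nonneg_left h3 (hPn (pos w) d)
              refine le_trans h5 ?_
              have h6 : 0 ≤ P F (pos w) d * l * Real.exp (lam * cnt n J j w) := by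
                have := hPn (pos w) d
                positivity
              have h7 := mul_le_mul_of_nonneg_left h4 h6
              nlinarith
          refine le_trans (Finset.sum_le_sum fun d _ => hterm d) ?_
          rw [← Finset.mul_sum]
          refine mul_le_mul_of_nonneg_left ?_ hE0.le
          rw [Finset.sum_add_distrib, Finset.sum_add_distrib, ← Finset.mul_sum, ← Finset.mul_sum,
            Finset.sum_sub_distrib, hP1, Finset.sum_ite_eq' Finset.univ d0]
          simp only [Finset.mem_univ, if_true]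
          have h1 := hP8 (pos w) d0
          have h2 := (hesc (pos w)).2
          have h3 := mul_le_mul_of_nonneg_left hPU hl0.le
          have h4 : l * (8 * gm + 8) * (1 - P F (pos w) d0) ≤ l * (8 * gm + 8) * (7 / 8) :=
            mul_le_mul_of_nonneg_left (by linarith) (by positivity)
          have h5 : G (pos w) = 7 * gm + 8 := by rw [hGx, hxv, hg0v]; ring
          rw [h5]
          nlinarith
        · have hterm : ∀ d, P F (pos w) d * Φ (d :: w) ≤ Real.exp (lam * cnt n J j w) *
              (P F (pos w) d + l * (P F (pos w) d * U (pos w + dir d)) +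
              l * (P F (pos w) d * g0 (pos w + dir d) + P F (pos w) d * (7 * gm + 8))) := by
            intro d
            have h3 := step w d hc hi (fun h => hxv h.1)
            rw [hUy, hGx] at h3
            have h5 := mul_le_mul_of_nonneg_left h3 (hPn (pos w) d)
            refine le_trans h5 (le_of_eq ?_)
            ring
          refine le_trans (Finset.sum_le_sum fun d _ => hterm d) ?_
          rw [← Finset.mul_sum]
          refine mul_le_mul_of_nonneg_left ?_ hE0.le
          rw [Finset.sum_add_distrib, Finset.sum_add_distrib, ← Finset.mul_sum, ← Finset.mul_sum,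
            Finset.sum_add_distrib, ← Finset.sum_mul, hP1]
          have h1 := hPg (pos w) hxN2 hxv
          have h2 : ∑ d, P F (pos w) d * g0 (pos w + dir d) = g0 (pos w) - esc (pos w) := h1
          have h3 := mul_le_mul_of_nonneg_left hPU hl0.le
          rw [h2, hGx]
          nlinarith
  -- conclusion
  have hstart : Φ [] ≤ 2 := by
    have hc : ¬ crs n J v d0 [] := by rw [crs]; exact id
    have hls : ls n J [] = (0, fun _ => 0) := rfl
    have hcn : cnt n J j [] = 0 := by rw [cnt, hls]; simp
    rw [hΦ3 [] hc (by rw [hls]; simp only; omega), hcn]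
    have h1 := hG1 (pos [])
    have h2 : (if (ls n J []).1 ≤ j then u (pos []) else 0) ≤ 1 := by
      split_ifs
      · exact (hu01 _).2
      · norm_num
    have h3 : l * (G (pos []) + if (ls n J []).1 ≤ j then u (pos []) else 0) ≤
        l * (8 * gm + 9) := mul_le_mul_of_nonneg_left (by linarith) hl0.le
    rw [Nat.cast_zero, mul_zero, Real.exp_zero, one_mul]
    linarith
  have hexpK : 0 < Real.exp (-(lam * K)) := Real.exp_pos _
  have hind : ∀ w, ind (K ≤ cnt n J j w ∧ ¬ crs n J v d0 w) ≤ Real.exp (-(lam * K)) * Φ w := by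
    intro w
    have hΦn : ¬ crs n J v d0 w → Real.exp (lam * cnt n J j w) ≤ Φ w := by
      intro hc
      by_cases hJ : J ≤ (ls n J w).1
      · rw [hΦ2 w hc hJ]
      · rw [hΦ3 w hc (by omega)]
        have h5 := hG0 (pos w)
        have h6 : 0 ≤ (if (ls n J w).1 ≤ j then u (pos w) else 0) := by
          split_ifs
          · exact (hu01 _).1
          · exact le_refl _
        have h7 : 0 ≤ l * (G (pos w) + if (ls n J w).1 ≤ j then u (pos w) else 0) := by
          positivity
        nlinarith [Real.exp_pos (lam * cnt n J j w)]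
    by_cases hc : crs n J v d0 w
    · rw [hΦ1 w hc, mul_zero, ind, if_neg (fun h => h.2 hc)]
    · by_cases hK : K ≤ cnt n J j w
      · rw [ind, if_pos ⟨hK, hc⟩]
        have h1 := hΦn hc
        have h2 := mul_le_mul_of_nonneg_left h1 hexpK.le
        refine le_trans ?_ h2
        rw [← Real.exp_add]
        refine Real.one_le_exp ?_
        have h3 : (K : ℝ) ≤ cnt n J j w := by exact_mod_cast hK
        nlinarith
      · rw [ind, if_neg (fun h => hK h.1)]
        have := le_trans (Real.exp_pos _).le (hΦn hc)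
        positivity
  have h1 := Cov.Ex_mono hPn t hind []
  rw [Cov.Ex_smul] at h1
  have h2 := Cov.Ex_super hPn t super []
  refine le_trans h1 ?_
  have h3 : Ex F t Φ [] ≤ 2 := le_trans h2 hstart
  have h4 : Real.exp (-(lam * K)) ≤ Real.exp (-(K : ℝ) / (64 * (ρ * C + 1))) := by
    refine Real.exp_le_exp.mpr ?_
    have hρC : 0 ≤ ρ * C := mul_nonneg hρ hC0
    have h5 : 1 / (64 * (ρ * C + 1)) ≤ lam := by
      rw [hlam]
      exact one_div_le_one_div_of_le (by positivity) (by linarith)
    have h6 : (0 : ℝ) ≤ K := Nat.cast_nonneg K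
    have h7 : -(K : ℝ) / (64 * (ρ * C + 1)) = -(1 / (64 * (ρ * C + 1)) * K) := by ring
    rw [h7]
    have := mul_le_mul_of_nonneg_right h5 h6
    linarith
  calc Real.exp (-(lam * K)) * Ex F t Φ [] ≤ Real.exp (-(lam * K)) * 2 :=
        mul_le_mul_of_nonneg_left h3 hexpK.le
    _ = 2 * Real.exp (-(lam * K)) := by ring
    _ ≤ _ := mul_le_mul_of_nonneg_left h4 (by norm_num)

end Pool.Agent.R812.TC
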