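import Pool.Agent.R812.TC.Stm

/-! Project TC (MP_e14847_pr), piece DESIGN: choice of the lines and of the conductances. -/

namespace Pool.Agent.R812.TC
namespace DES
open Finset

/-- the radii of the lines -/
def nn : ℕ → ℕ
  | 0 => 0
  | 1 => 2 ^ 200
  | (j + 2) => nn (j + 1) + 80 * (Nat.log 2 (nn (j + 1)) + 1)

/-- binary logarithm of the radius -/
def la (j : ℕ) : ℕ := Nat.log 2 (nn j)

theorem nn_zero : nn 0 = 0 := by rw [nn]
theorem nn_one : nn 1 = 2 ^ 200 := by rw [nn]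
theorem nn_succ {j : ℕ} (hj : 1 ≤ j) : nn (j + 1) = nn j + 80 * (la j + 1) := by
  obtain ⟨i, rfl⟩ : ∃ i, j = i + 1 := ⟨j - 1, by omega⟩
  rw [nn, la]

theorem nn_ge {j : ℕ} (hj : 1 ≤ j) : 2 ^ 200 ≤ nn j := by
  induction j, hj using Nat.le_induction with
  | base => exact le_of_eq nn_one.symm
  | succ j hj ih => rw [nn_succ hj]; omega

theorem nn_pos {j : ℕ} (hj : 1 ≤ j) : 0 < nn j := lt_of_lt_of_le (by positivity) (nn_ge hj)

theorem la_zero : la 0 = 0 := by rw [la, nn_zero]; simp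
theorem la_one : la 1 = 200 := by
  rw [la, nn_one]; exact Nat.log_pow (by norm_num) 200

theorem la_ge {j : ℕ} (hj : 1 ≤ j) : 200 ≤ la j := by
  rw [la]
  exact (Nat.le_log_iff_pow_le (by norm_num) (nn_pos hj).ne').2 (nn_ge hj)

theorem two_la_le {j : ℕ} (hj : 1 ≤ j) : 2 ^ la j ≤ nn j := Nat.pow_log_le_self 2 (nn_pos hj).ne'
theorem lt_two_la (j : ℕ) : nn j < 2 ^ (la j + 1) := Nat.lt_pow_succ_log_self (by norm_num) _

theorem pow_b1 {l : ℕ} (hl : 200 ≤ l) : 640 * (l + 3) + 1 ≤ 2 ^ l := by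
  induction l, hl using Nat.le_induction with
  | base => norm_num
  | succ l hl ih => rw [pow_succ]; omega

theorem pow_b2 {l : ℕ} (hl : 200 ≤ l) : (l + 3) * (80 * l + 81) ≤ 2 ^ l := by
  induction l, hl using Nat.le_induction with
  | base => norm_num
  | succ l hl ih =>
    rw [pow_succ]
    nlinarith

theorem nn_mono : StrictMono nn := by
  refine strictMono_nat_of_lt_succ fun j => ?_
  rcases Nat.eq_zero_or_pos j with rfl | hj
  · rw [nn_zero, zero_add, nn_one]; positivity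
  · rw [nn_succ hj]; omega

theorem w4 {j : ℕ} (hj : 1 ≤ j) : 4 * (nn (j + 1) - nn j) ≤ nn j := by
  have h1 := two_la_le hj
  have h2 := pow_b1 (la_ge hj)
  rw [nn_succ hj]
  omega

theorem nn_le_two {j : ℕ} (hj : 1 ≤ j) : 4 * nn (j + 1) ≤ 5 * nn j := by
  have h1 := w4 hj
  have h2 := nn_mono (Nat.lt_succ_self j)
  simp only [Nat.succ_eq_add_one] at h2
  omega

theorem nn_100 {j : ℕ} (hj : 1 ≤ j) : 100 * j ≤ nn j := by
  induction j, hj using Nat.le_induction with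
  | base => rw [nn_one]; norm_num
  | succ j hj ih =>
    rw [nn_succ hj]
    have := la_ge hj
    omega

theorem la_mono : Monotone la := fun _ _ h => Nat.log_mono_right (nn_mono.monotone h)

theorem la_succ_le {j : ℕ} (hj : 1 ≤ j) : la (j + 1) ≤ la j + 1 := by
  have h1 := lt_two_la j
  have h2 := nn_le_two hj
  have h3 : nn (j + 1) < 2 ^ (la j + 1 + 1) := by
    rw [pow_succ 2 (la j + 1)]; omega
  have h5 : nn (j + 1) ≠ 0 := (nn_pos (Nat.le_succ_of_le hj)).ne'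
  have h4 : Nat.log 2 (nn (j + 1)) < la j + 1 + 1 := Nat.log_lt_of_lt_pow h5 h3
  exact Nat.lt_succ_iff.1 h4

/-- the dyadic radius -/
noncomputable def Mr (j : ℕ) : ℝ := (2 : ℝ) ^ la j

theorem Mr_pos (j : ℕ) : 0 < Mr j := by unfold Mr; positivity
theorem Mr_one_le (j : ℕ) : 1 ≤ Mr j := by unfold Mr; exact one_le_pow₀ (by norm_num)
theorem Mr_le {j : ℕ} (hj : 1 ≤ j) : Mr j ≤ nn j := by
  unfold Mr; exact_mod_cast two_la_le hj
theorem le_Mr (j : ℕ) : (nn j : ℝ) ≤ 2 * Mr j := by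
  unfold Mr
  have h : nn j ≤ 2 ^ la j * 2 := by rw [← pow_succ]; exact (lt_two_la j).le
  have h2 : (nn j : ℝ) ≤ 2 ^ la j * 2 := by exact_mod_cast h
  linarith
theorem Mr_mono {i j : ℕ} (h : i ≤ j) : Mr i ≤ Mr j := by
  unfold Mr; exact pow_le_pow_right₀ (by norm_num) (la_mono h)
theorem Mr_big {j : ℕ} (hj : 1 ≤ j) : (1000000 : ℝ) ≤ Mr j := by
  unfold Mr
  calc (1000000 : ℝ) ≤ 2 ^ 20 := by norm_num
    _ ≤ 2 ^ la j := pow_le_pow_right₀ (by norm_num) (by have := la_ge hj; omega)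

/-- the values at the lines -/
noncomputable def Lv (j : ℕ) : ℝ := (2 : ℝ) ^ (20 * la j)

theorem Lv_eq (j : ℕ) : Lv j = Mr j ^ 20 := by
  unfold Lv Mr; rw [← pow_mul, mul_comm]

theorem Lv_pos (j : ℕ) : 0 < Lv j := by unfold Lv; positivity
theorem Lv_one_le (j : ℕ) : 1 ≤ Lv j := by unfold Lv; exact one_le_pow₀ (by norm_num)

theorem Lv_div (j k : ℕ) (h : 20 * la j ≤ k) : Lv j / 2 ^ k ≤ 1 := by
  unfold Lv
  rw [div_le_one (by positivity)]
  exact pow_le_pow_right₀ (by norm_num) h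

/-- the conductance in the annulus j as a function of the floor value -/
noncomputable def Fm (γ : ℝ) (j m : ℕ) : ℝ :=
  max γ (max (Lv j / 2 ^ (m - nn j)) (Lv (j + 1) / 2 ^ (nn (j + 1) - m)))

theorem Fm_flat {γ : ℝ} (hγ : 1 ≤ γ) (j m : ℕ) (h1 : nn j + 20 * la j ≤ m)
    (h2 : m + 20 * la (j + 1) ≤ nn (j + 1)) : Fm γ j m = γ := by
  unfold Fm
  apply max_eq_left
  apply max_le
  · exact (Lv_div j _ (by omega)).trans hγ
  · exact (Lv_div (j + 1) _ (by omega)).trans hγ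

theorem le_Fm (γ : ℝ) (j m : ℕ) : γ ≤ Fm γ j m := le_max_left _ _

/-- width condition in a uniform form -/
theorem wid (j : ℕ) : 20 * la j + 20 * la (j + 1) + 2 ≤ nn (j + 1) - nn j := by
  rcases Nat.eq_zero_or_pos j with rfl | hj
  · rw [zero_add, la_zero, la_one, nn_zero, nn_one]; norm_num
  · rw [nn_succ hj]
    have := la_succ_le hj
    omega

theorem Fm_left {γ : ℝ} (j : ℕ) (h : γ ≤ Lv j) : Fm γ j (nn j) = Lv j := by
  unfold Fm
  have h1 : Lv j / 2 ^ (nn j - nn j) = Lv j := by simp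
  have h2 : Lv (j + 1) / 2 ^ (nn (j + 1) - nn j) ≤ Lv j :=
    (Lv_div (j + 1) _ (by have := wid j; omega)).trans (Lv_one_le j)
  rw [h1, max_eq_left h2, max_eq_right h]

theorem Fm_right {γ : ℝ} (j : ℕ) (h : γ ≤ Lv (j + 1)) : Fm γ j (nn (j + 1)) = Lv (j + 1) := by
  unfold Fm
  have h1 : Lv (j + 1) / 2 ^ (nn (j + 1) - nn (j + 1)) = Lv (j + 1) := by simp
  have h2 : Lv j / 2 ^ (nn (j + 1) - nn j) ≤ Lv (j + 1) :=
    (Lv_div j _ (by have := wid j; omega)).trans (Lv_one_le (j + 1))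
  rw [h1, max_eq_right h2, max_eq_right h]

theorem Fm_step {γ : ℝ} (hγ : 0 < γ) (j m : ℕ) (h1 : nn j ≤ m) (h2 : m < nn (j + 1)) :
    Fm γ j (m + 1) ≤ 2 * Fm γ j m ∧ Fm γ j m ≤ 2 * Fm γ j (m + 1) := by
  unfold Fm
  have e1 : m + 1 - nn j = (m - nn j) + 1 := by omega
  have e2 : nn (j + 1) - m = (nn (j + 1) - (m + 1)) + 1 := by omega
  rw [e1, e2]
  set a := m - nn j
  set b := nn (j + 1) - (m + 1)
  have pa : 0 < Lv j / 2 ^ a := div_pos (Lv_pos j) (by positivity)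
  have pb : 0 < Lv (j + 1) / 2 ^ b := div_pos (Lv_pos (j + 1)) (by positivity)
  have ea : Lv j / 2 ^ (a + 1) = Lv j / 2 ^ a / 2 := by rw [pow_succ, div_div]
  have eb : Lv (j + 1) / 2 ^ (b + 1) = Lv (j + 1) / 2 ^ b / 2 := by rw [pow_succ, div_div]
  rw [ea, eb]
  set A := Lv j / 2 ^ a
  set B := Lv (j + 1) / 2 ^ b
  constructor
  · have h1 := le_max_left γ (max A (B / 2))
    have h2 := le_max_right γ (max A (B / 2))
    have h3 := le_max_left A (B / 2)
    have h4 := le_max_right A (B / 2)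
    exact max_le (by linarith) (max_le (by linarith) (by linarith))
  · have h1 := le_max_left γ (max (A / 2) B)
    have h2 := le_max_right γ (max (A / 2) B)
    have h3 := le_max_left (A / 2) B
    have h4 := le_max_right (A / 2) B
    exact max_le (by linarith) (max_le (by linarith) (by linarith))

/-- 1 + log of the width + 1 -/
noncomputable def mu (j : ℕ) : ℝ := 1 + Real.log ((nn (j + 1) - nn j : ℕ) + 1)

theorem mu_ge (j : ℕ) : 1 ≤ mu j := by
  unfold mu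
  have : 0 ≤ Real.log (((nn (j + 1) - nn j : ℕ) : ℝ) + 1) :=
    Real.log_nonneg (by have : (0:ℝ) ≤ ((nn (j + 1) - nn j : ℕ) : ℝ) := Nat.cast_nonneg _
                        linarith)
  linarith

/-- the floor value up to the constant of the epoch -/
noncomputable def ell (j : ℕ) : ℝ := ((la j : ℝ) + 3) * mu j

theorem ell_ge (j : ℕ) : (la j : ℝ) + 3 ≤ ell j := by
  unfold ell
  have h1 := mu_ge j
  have h2 : (0:ℝ) ≤ la j := Nat.cast_nonneg _
  nlinarith

theorem ell_one (j : ℕ) : 1 ≤ ell j := by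
  have h1 := ell_ge j
  have h2 : (0:ℝ) ≤ la j := Nat.cast_nonneg _
  linarith

theorem ell_le {j : ℕ} (hj : 1 ≤ j) : ell j ≤ Mr j := by
  unfold ell mu Mr
  have hw : ((nn (j + 1) - nn j : ℕ) : ℝ) = 80 * (la j + 1) := by
    rw [nn_succ hj, Nat.add_sub_cancel_left]; push_cast; ring
  rw [hw]
  have h1 : Real.log (80 * ((la j : ℝ) + 1) + 1) ≤ 80 * ((la j : ℝ) + 1) := by
    have := Real.log_le_sub_one_of_pos (x := 80 * ((la j : ℝ) + 1) + 1) (by positivity)
    linarith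
  have h2 : (((la j + 3) * (80 * la j + 81) : ℕ) : ℝ) ≤ ((2 ^ la j : ℕ) : ℝ) := by
    exact_mod_cast pow_b2 (la_ge hj)
  push_cast at h2
  have h3 : (0:ℝ) ≤ (la j : ℝ) + 3 := by positivity
  calc ((la j : ℝ) + 3) * (1 + Real.log (80 * ((la j : ℝ) + 1) + 1))
      ≤ ((la j : ℝ) + 3) * (1 + 80 * ((la j : ℝ) + 1)) := by gcongr
    _ = ((la j : ℝ) + 3) * (80 * la j + 81) := by ring
    _ ≤ 2 ^ la j := h2


/-! resistances -/

/-- the resistance of the annulus j when the epoch constant is Γ -/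
noncomputable def RR (Γ : ℝ) (j : ℕ) : ℝ :=
  (∑ m ∈ Finset.Ico (nn j) (nn (j + 1)), 1 / Fm (Γ * ell j) j (m + 1)) / (8 * (nn j : ℝ) + 4)

theorem fl_ge {Γ : ℝ} (hΓ : 1 ≤ Γ) (j : ℕ) : 1 ≤ Γ * ell j := by
  have := ell_one j; nlinarith

theorem log_lower {a b : ℝ} (ha : 0 < a) (hb : 0 < b) :
    Real.log b - Real.log a ≤ (b - a) / a := by
  rw [← Real.log_div hb.ne' ha.ne']
  have := Real.log_le_sub_one_of_pos (x := b / a) (by positivity)
  have e : b / a - 1 = (b - a) / a := by field_simp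
  linarith

theorem log_upper {a b : ℝ} (ha : 0 < a) (hb : 0 < b) :
    (b - a) / b ≤ Real.log b - Real.log a := by
  have h := log_lower hb ha
  have e : (a - b) / b = - ((b - a) / b) := by ring
  rw [e] at h; linarith

theorem w_cast {j : ℕ} (hj : 1 ≤ j) : (nn (j + 1) : ℝ) - nn j = 80 * ((la j : ℝ) + 1) := by
  rw [nn_succ hj]; push_cast; ring

theorem w_cast' {j : ℕ} (hj : 1 ≤ j) :
    ((nn (j + 1) - nn j : ℕ) : ℝ) = 80 * ((la j : ℝ) + 1) := by
  rw [nn_succ hj, Nat.add_sub_cancel_left]; push_cast; ring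

theorem RR_le {Γ : ℝ} (hΓ : 1 ≤ Γ) {j : ℕ} (hj : 1 ≤ j) :
    RR Γ j ≤ ((nn (j + 1) : ℝ) - nn j) / (8 * (Γ * ell j) * nn j) := by
  unfold RR
  have h1 := fl_ge hΓ j
  have hn : (0:ℝ) < nn j := by exact_mod_cast nn_pos hj
  have h2 : ∑ m ∈ Finset.Ico (nn j) (nn (j + 1)), 1 / Fm (Γ * ell j) j (m + 1) ≤
      ∑ m ∈ Finset.Ico (nn j) (nn (j + 1)), 1 / (Γ * ell j) := by
    refine Finset.sum_le_sum fun m _ => ?_
    exact one_div_le_one_div_of_le (by linarith) (le_Fm _ _ _)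
  rw [Finset.sum_const, Nat.card_Ico, nsmul_eq_mul, w_cast' hj, ← w_cast hj] at h2
  have hw : (0:ℝ) ≤ (nn (j + 1) : ℝ) - nn j := by rw [w_cast hj]; positivity
  calc (∑ m ∈ Finset.Ico (nn j) (nn (j + 1)), 1 / Fm (Γ * ell j) j (m + 1)) / (8 * (nn j : ℝ) + 4)
      ≤ (((nn (j + 1) : ℝ) - nn j) * (1 / (Γ * ell j))) / (8 * (nn j : ℝ) + 4) := by gcongr
    _ ≤ (((nn (j + 1) : ℝ) - nn j) * (1 / (Γ * ell j))) / (8 * (nn j : ℝ)) := by
        apply div_le_div_of_nonneg_left _ (by positivity) (by linarith)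
        positivity
    _ = ((nn (j + 1) : ℝ) - nn j) / (8 * (Γ * ell j) * nn j) := by
        field_simp

theorem RR_nonneg {Γ : ℝ} (hΓ : 1 ≤ Γ) (j : ℕ) : 0 ≤ RR Γ j := by
  unfold RR
  have h1 := fl_ge hΓ j
  apply div_nonneg _ (by positivity)
  refine Finset.sum_nonneg fun m _ => ?_
  have := le_Fm (Γ * ell j) j (m + 1)
  apply div_nonneg (by norm_num) (by linarith)

theorem RR_ge {Γ : ℝ} (hΓ : 1 ≤ Γ) {j : ℕ} (hj : 1 ≤ j) :
    4 / (Γ * nn j * mu j) ≤ RR Γ j := by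
  have h1 := fl_ge hΓ j
  have hn : (0:ℝ) < nn j := by exact_mod_cast nn_pos hj
  have hn2 : (36:ℝ) ≤ nn j := by
    have h := nn_ge hj
    have h36 : 36 ≤ nn j := le_trans (by norm_num) h
    exact_mod_cast h36
  have hsub : Finset.Ico (nn j + 20 * (la j + 1)) (nn (j + 1) - 20 * (la j + 1)) ⊆
      Finset.Ico (nn j) (nn (j + 1)) := Finset.Ico_subset_Ico (by omega) (by omega)
  have h2 : ∑ m ∈ Finset.Ico (nn j + 20 * (la j + 1)) (nn (j + 1) - 20 * (la j + 1)),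
      1 / (Γ * ell j) ≤ ∑ m ∈ Finset.Ico (nn j) (nn (j + 1)), 1 / Fm (Γ * ell j) j (m + 1) := by
    calc ∑ m ∈ Finset.Ico (nn j + 20 * (la j + 1)) (nn (j + 1) - 20 * (la j + 1)),
          1 / (Γ * ell j)
        = ∑ m ∈ Finset.Ico (nn j + 20 * (la j + 1)) (nn (j + 1) - 20 * (la j + 1)),
          1 / Fm (Γ * ell j) j (m + 1) := by
          refine Finset.sum_congr rfl fun m hm => ?_
          rw [Finset.mem_Ico] at hm
          have h3 := la_succ_le hj
          rw [Fm_flat h1 j (m + 1) (by omega) (by omega)]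
      _ ≤ ∑ m ∈ Finset.Ico (nn j) (nn (j + 1)), 1 / Fm (Γ * ell j) j (m + 1) := by
          refine Finset.sum_le_sum_of_subset_of_nonneg hsub fun m _ _ => ?_
          have := le_Fm (Γ * ell j) j (m + 1)
          apply div_nonneg (by norm_num) (by linarith)
  have hc : nn (j + 1) - 20 * (la j + 1) - (nn j + 20 * (la j + 1)) = 40 * (la j + 1) := by
    rw [nn_succ hj]; omega
  rw [Finset.sum_const, Nat.card_Ico, hc, nsmul_eq_mul] at h2
  push_cast at h2
  unfold RR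
  have hmu := mu_ge j
  have hl : (200:ℝ) ≤ la j := by exact_mod_cast la_ge hj
  have hΓ0 : 0 < Γ := by linarith
  calc 4 / (Γ * nn j * mu j) ≤ (40 * ((la j : ℝ) + 1) * (1 / (Γ * ell j))) / (8 * (nn j : ℝ) + 4) := by
        unfold ell
        rw [div_le_div_iff₀ (by positivity) (by positivity)]
        have e : 40 * ((la j : ℝ) + 1) * (1 / (Γ * (((la j : ℝ) + 3) * mu j))) * (Γ * nn j * mu j)
          = 40 * ((la j : ℝ) + 1) * nn j / ((la j : ℝ) + 3) := by
          field_simp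
        rw [e, le_div_iff₀ (by positivity)]
        nlinarith
    _ ≤ _ := by gcongr

theorem log_le (j : ℕ) (hj : 1 ≤ j) : Real.log (nn j) ≤ (la j : ℝ) + 1 := by
  have hn : (0:ℝ) < nn j := by exact_mod_cast nn_pos hj
  have h1 : (nn j : ℝ) ≤ 2 ^ (la j + 1) := by exact_mod_cast (lt_two_la j).le
  have h2 := Real.log_le_log hn h1
  rw [Real.log_pow] at h2
  push_cast at h2
  have h3 : Real.log 2 ≤ 1 := by have := Real.log_two_lt_d9; linarith
  have h4 : (0:ℝ) ≤ (la j : ℝ) + 1 := by positivity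
  nlinarith

theorem le_log (j : ℕ) (hj : 1 ≤ j) : 69 / 100 * (la j : ℝ) ≤ Real.log (nn j) := by
  have h1 := Mr_le hj
  have h2 := Real.log_le_log (Mr_pos j) h1
  unfold Mr at h2
  rw [Real.log_pow] at h2
  have h3 : (69 / 100 : ℝ) ≤ Real.log 2 := by have := Real.log_two_gt_d9; linarith
  have h4 : (0:ℝ) ≤ (la j : ℝ) := by positivity
  nlinarith

/-- triple logarithm -/
noncomputable def L3 (j : ℕ) : ℝ := Real.log (Real.log (Real.log (nn j)))

theorem mu_le {j : ℕ} (hj : 1 ≤ j) : mu j ≤ 3 * Real.log (Real.log (nn j)) := by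
  have hl : (200:ℝ) ≤ la j := by exact_mod_cast la_ge hj
  have h1 := le_log j hj
  have h2 : (3:ℝ) ≤ Real.log (nn j) := by linarith
  have h3 : 1 ≤ Real.log (Real.log (nn j)) := by
    rw [Real.le_log_iff_exp_le (by linarith)]
    have := Real.exp_one_lt_d9
    linarith
  unfold mu
  rw [w_cast' hj]
  have h4 : 80 * ((la j : ℝ) + 1) + 1 ≤ Real.log (nn j) ^ 2 := by nlinarith
  have h5 := Real.log_le_log (by positivity) h4
  rw [Real.log_pow] at h5
  push_cast at h5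
  linarith

theorem L3_step {j : ℕ} (hj : 1 ≤ j) : L3 (j + 1) - L3 j ≤ 480 / (nn j * mu j) := by
  have hl : (200:ℝ) ≤ la j := by exact_mod_cast la_ge hj
  have hn : (0:ℝ) < nn j := by exact_mod_cast nn_pos hj
  have hn' : (nn j : ℝ) ≤ nn (j + 1) := by exact_mod_cast nn_mono.monotone (Nat.le_succ j)
  have h1 := le_log j hj
  have x0 : (3:ℝ) ≤ Real.log (nn j) := by linarith
  have x1 : Real.log (nn j) ≤ Real.log (nn (j + 1)) := Real.log_le_log hn hn'
  have y0 : 1 ≤ Real.log (Real.log (nn j)) := by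
    rw [Real.le_log_iff_exp_le (by linarith)]
    have := Real.exp_one_lt_d9
    linarith
  have y1 : Real.log (Real.log (nn j)) ≤ Real.log (Real.log (nn (j + 1))) :=
    Real.log_le_log (by linarith) x1
  have s1 := log_lower hn (lt_of_lt_of_le hn hn')
  have s2 := log_lower (a := Real.log (nn j)) (b := Real.log (nn (j + 1))) (by linarith)
    (by linarith)
  have s3 := log_lower (a := Real.log (Real.log (nn j))) (b := Real.log (Real.log (nn (j + 1))))
    (by linarith) (by linarith)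
  unfold L3
  rw [w_cast hj] at s1
  set x := Real.log (nn j) with hx
  set x' := Real.log (nn (j + 1)) with hx'
  set y := Real.log x with hy
  set y' := Real.log x' with hy'
  have hmu := mu_le hj
  rw [← hx, ← hy] at hmu
  have hmu1 := mu_ge j
  have hx0 : 0 < x := by linarith
  have hy0 : 0 < y := by linarith
  calc Real.log y' - Real.log y ≤ (y' - y) / y := s3
    _ ≤ ((x' - x) / x) / y := by gcongr
    _ ≤ ((80 * ((la j : ℝ) + 1) / nn j) / x) / y := by gcongr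
    _ ≤ ((80 * (2 * x) / nn j) / x) / y := by gcongr; linarith
    _ = 160 / (nn j * y) := by field_simp; ring
    _ ≤ 480 / (nn j * mu j) := by
        rw [div_le_div_iff₀ (by positivity) (by positivity)]
        nlinarith

theorem RR_ge' {Γ : ℝ} (hΓ : 1 ≤ Γ) {j : ℕ} (hj : 1 ≤ j) :
    (L3 (j + 1) - L3 j) / (120 * Γ) ≤ RR Γ j := by
  have h1 := RR_ge hΓ hj
  have h2 := L3_step hj
  have hn : (0:ℝ) < nn j := by exact_mod_cast nn_pos hj
  have hmu := mu_ge j
  have e : 4 / (Γ * nn j * mu j) = (480 / (nn j * mu j)) / (120 * Γ) := by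
    field_simp; norm_num
  rw [e] at h1
  refine le_trans ?_ h1
  gcongr

theorem sum_RR_ge {Γ : ℝ} (hΓ : 1 ≤ Γ) {a : ℕ} (ha : 1 ≤ a) (k : ℕ) :
    (L3 (a + k) - L3 a) / (120 * Γ) ≤ ∑ j ∈ Finset.Ico a (a + k), RR Γ j := by
  induction k with
  | zero => simp
  | succ k ih =>
    rw [← Nat.add_assoc, Finset.sum_Ico_succ_top (by omega)]
    have h := RR_ge' hΓ (j := a + k) (by omega)
    have e : (L3 (a + k + 1) - L3 a) / (120 * Γ) = (L3 (a + k) - L3 a) / (120 * Γ) +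
      (L3 (a + k + 1) - L3 (a + k)) / (120 * Γ) := by ring
    rw [e]; linarith

theorem L3_tendsto : Filter.Tendsto L3 Filter.atTop Filter.atTop := by
  unfold L3
  exact Real.tendsto_log_atTop.comp (Real.tendsto_log_atTop.comp (Real.tendsto_log_atTop.comp
    (tendsto_natCast_atTop_atTop.comp nn_mono.tendsto_atTop)))

theorem exists_big {Γ : ℝ} (hΓ : 1 ≤ Γ) {a : ℕ} (ha : 1 ≤ a) (C : ℝ) :
    ∃ k, C ≤ ∑ j ∈ Finset.Ico a (a + k), RR Γ j := by
  have hΓ0 : 0 < Γ := by linarith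
  obtain ⟨N, hN⟩ := Filter.eventually_atTop.1
    (L3_tendsto.eventually_ge_atTop (L3 a + 120 * Γ * C))
  refine ⟨N, le_trans ?_ (sum_RR_ge hΓ ha N)⟩
  rw [le_div_iff₀ (by positivity)]
  have := hN (a + N) (by omega)
  linarith

theorem RR_small {Γ : ℝ} (hΓ : 1 ≤ Γ) {j : ℕ} (hj : 1 ≤ j) : RR Γ j ≤ 10 / (Γ * nn j) := by
  have hn : (0:ℝ) < nn j := by exact_mod_cast nn_pos hj
  have hl : (0:ℝ) ≤ la j := Nat.cast_nonneg _
  refine (RR_le hΓ hj).trans ?_
  rw [w_cast hj]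
  have he := ell_ge j
  have hΓ0 : 0 < Γ := by linarith
  have he0 : 0 < ell j := by linarith
  rw [div_le_div_iff₀ (by positivity) (by positivity)]
  have e1 : 80 * ((la j : ℝ) + 1) * (Γ * nn j) = (Γ * nn j) * (80 * ((la j : ℝ) + 1)) := by ring
  have e2 : 10 * (8 * (Γ * ell j) * nn j) = (Γ * nn j) * (80 * ell j) := by ring
  rw [e1, e2]
  apply mul_le_mul_of_nonneg_left _ (by positivity)
  linarith


/-! epochs -/

/-- the constant of the epoch u -/
noncomputable def Gam (u : ℕ) : ℝ := Real.exp (100 * ((u : ℝ) + 1) ^ 2)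

theorem Gam_one (u : ℕ) : 1 ≤ Gam u := by
  unfold Gam; exact Real.one_le_exp (by positivity)

theorem Gam_ge (u : ℕ) : 12801 * (2 : ℝ) ^ u * Real.exp (84 * ((u : ℝ) + 1) ^ 2) ≤ 2 * Gam u := by
  have e : Gam u = Real.exp (16 * ((u : ℝ) + 1) ^ 2) * Real.exp (84 * ((u : ℝ) + 1) ^ 2) := by
    unfold Gam; rw [← Real.exp_add]; congr 1; ring
  rw [e]
  have h1 : (2 : ℝ) ^ (16 * (u + 1)) ≤ Real.exp (16 * ((u : ℝ) + 1) ^ 2) := by
    have h2 : (2 : ℝ) ≤ Real.exp 1 := by have := Real.exp_one_gt_d9; linarith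
    calc (2 : ℝ) ^ (16 * (u + 1)) ≤ (Real.exp 1) ^ (16 * (u + 1)) :=
          pow_le_pow_left₀ (by norm_num) h2 _
      _ = Real.exp (16 * ((u : ℝ) + 1)) := by
          rw [← Real.exp_nat_mul]; push_cast; ring_nf
      _ ≤ Real.exp (16 * ((u : ℝ) + 1) ^ 2) := by
          apply Real.exp_le_exp.2
          have : (0:ℝ) ≤ u := Nat.cast_nonneg _
          nlinarith
  have h3 : (12801 : ℝ) * 2 ^ u ≤ 2 * 2 ^ (16 * (u + 1)) := by
    have e2 : (2 : ℝ) ^ (16 * (u + 1)) = 2 ^ u * 2 ^ (15 * u) * 65536 := by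
      rw [← pow_add]
      have : 16 * (u + 1) = (u + 15 * u) + 16 := by ring
      rw [this, pow_add]; norm_num
    rw [e2]
    have h4 : (1 : ℝ) ≤ 2 ^ (15 * u) := one_le_pow₀ (by norm_num)
    have h5 : (0 : ℝ) < 2 ^ u := by positivity
    nlinarith
  have hE := Real.exp_pos (84 * ((u : ℝ) + 1) ^ 2)
  calc 12801 * (2 : ℝ) ^ u * Real.exp (84 * ((u : ℝ) + 1) ^ 2)
      ≤ (2 * 2 ^ (16 * (u + 1))) * Real.exp (84 * ((u : ℝ) + 1) ^ 2) := by gcongr
    _ ≤ (2 * Real.exp (16 * ((u : ℝ) + 1) ^ 2)) * Real.exp (84 * ((u : ℝ) + 1) ^ 2) := by gcongr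
    _ = _ := by ring

theorem Gam_inv (u : ℕ) : 1 / Gam u ≤ (1 / 2 : ℝ) ^ u := by
  have h := Gam_ge u
  have h1 : (1 : ℝ) ≤ Real.exp (84 * ((u : ℝ) + 1) ^ 2) := Real.one_le_exp (by positivity)
  have h2 : (0 : ℝ) < 2 ^ u := by positivity
  have h3 : (2 : ℝ) ^ u ≤ Gam u := by nlinarith
  rw [div_pow, one_pow]
  exact one_div_le_one_div_of_le h2 h3

/-- the condition on the end of an epoch -/
def Ep (u a b : ℕ) : Prop := a < b ∧ (1 / 2 : ℝ) ^ u ≤ ∑ j ∈ Finset.Ico a b, RR (Gam u) j ∧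
  ∑ j ∈ Finset.Ico a b, RR (Gam u) j ≤ 2 * (1 / 2 : ℝ) ^ u

theorem RR_small' (u : ℕ) {j : ℕ} (hj : 1 ≤ j) : RR (Gam u) j ≤ (1 / 2 : ℝ) ^ u := by
  refine le_trans (RR_small (Gam_one u) hj) (le_trans ?_ (Gam_inv u))
  have hn : (1000000:ℝ) ≤ nn j := (Mr_big hj).trans (Mr_le hj)
  have hG := Gam_one u
  rw [div_le_div_iff₀ (by positivity) (by positivity)]
  nlinarith

theorem Ep_exists (u : ℕ) {a : ℕ} (ha : 1 ≤ a) : ∃ b, Ep u a b := by
  classical
  have hex := exists_big (Gam_one u) ha ((1 / 2 : ℝ) ^ u)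
  set k := Nat.find hex with hk
  have h1 : (1 / 2 : ℝ) ^ u ≤ ∑ j ∈ Finset.Ico a (a + k), RR (Gam u) j := Nat.find_spec hex
  have hk0 : k ≠ 0 := by
    intro h0
    rw [h0] at h1
    simp only [add_zero, Finset.Ico_self, Finset.sum_empty] at h1
    have : (0 : ℝ) < (1 / 2) ^ u := by positivity
    linarith
  obtain ⟨i, hi⟩ : ∃ i, k = i + 1 := ⟨k - 1, by omega⟩
  have h2 : ¬ (1 / 2 : ℝ) ^ u ≤ ∑ j ∈ Finset.Ico a (a + i), RR (Gam u) j :=
    Nat.find_min hex (by omega)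
  refine ⟨a + k, by omega, h1, ?_⟩
  rw [hi, ← Nat.add_assoc, Finset.sum_Ico_succ_top (by omega)]
  have h3 := RR_small' u (j := a + i) (by omega)
  push Not at h2
  linarith

open Classical in
/-- the ends of the epochs -/
noncomputable def ee : ℕ → ℕ
  | 0 => 1
  | (u + 1) => if h : ∃ b, Ep u (ee u) b then h.choose else ee u + 1

theorem ee_zero : ee 0 = 1 := by rw [ee]

theorem ee_pos (u : ℕ) : 1 ≤ ee u := by
  induction u with
  | zero => rw [ee_zero]
  | succ u ih =>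
    rw [ee]
    split
    · next h => exact le_trans ih h.choose_spec.1.le
    · omega

theorem ee_spec (u : ℕ) : Ep u (ee u) (ee (u + 1)) := by
  have h := Ep_exists u (ee_pos u)
  rw [ee, dif_pos h]
  exact h.choose_spec

theorem ee_mono : StrictMono ee := strictMono_nat_of_lt_succ fun u => (ee_spec u).1

theorem sum_RR_le {Γ : ℝ} (hΓ : 1 ≤ Γ) {a : ℕ} (ha : 1 ≤ a) (k : ℕ) :
    ∑ j ∈ Finset.Ico a (a + k), RR Γ j ≤
      (Real.log (nn (a + k)) - Real.log (nn a)) / (6 * Γ) := by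
  induction k with
  | zero => simp
  | succ k ih =>
    rw [← Nat.add_assoc, Finset.sum_Ico_succ_top (by omega)]
    have hj : 1 ≤ a + k := by omega
    have hj' : 1 ≤ a + k + 1 := by omega
    have hn : (0:ℝ) < nn (a + k) := by exact_mod_cast nn_pos hj
    have hn' : (0:ℝ) < nn (a + k + 1) := by exact_mod_cast nn_pos hj'
    have h1 := RR_le hΓ hj
    have h2 := log_upper hn hn'
    have h3 : 4 * (nn (a + k + 1) : ℝ) ≤ 5 * nn (a + k) := by exact_mod_cast nn_le_two hj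
    have h4 : (0:ℝ) ≤ (nn (a + k + 1) : ℝ) - nn (a + k) := by rw [w_cast hj]; positivity
    have h5 := ell_one (a + k)
    have hΓ0 : 0 < Γ := by linarith
    have h6 : ((nn (a + k + 1) : ℝ) - nn (a + k)) / (8 * (Γ * ell (a + k)) * nn (a + k)) ≤
        (((nn (a + k + 1) : ℝ) - nn (a + k)) / nn (a + k + 1)) / (6 * Γ) := by
      rw [div_div, ]
      apply div_le_div_of_nonneg_left h4 (by positivity)
      have h7 : 6 * (nn (a + k + 1) : ℝ) ≤ 8 * nn (a + k) := by linarith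
      calc (nn (a + k + 1) : ℝ) * (6 * Γ) = Γ * (6 * nn (a + k + 1)) := by ring
        _ ≤ Γ * (8 * nn (a + k)) := by gcongr
        _ ≤ Γ * (8 * nn (a + k)) * ell (a + k) := by
            apply le_mul_of_one_le_right (by positivity) h5
        _ = _ := by ring
    have h8 : (((nn (a + k + 1) : ℝ) - nn (a + k)) / nn (a + k + 1)) / (6 * Γ) ≤
        (Real.log (nn (a + k + 1)) - Real.log (nn (a + k))) / (6 * Γ) := by gcongr
    have e : (Real.log (nn (a + k + 1)) - Real.log (nn a)) / (6 * Γ) =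
      (Real.log (nn (a + k)) - Real.log (nn a)) / (6 * Γ) +
      (Real.log (nn (a + k + 1)) - Real.log (nn (a + k))) / (6 * Γ) := by ring
    rw [e]; linarith

theorem growth (u : ℕ) : Gam u ≤ Mr (ee u) := by
  rcases Nat.eq_zero_or_pos u with rfl | hu
  · rw [ee_zero]; unfold Gam Mr
    rw [la_one]
    have h2 : Real.exp 1 ≤ 4 := by have := Real.exp_one_lt_d9; linarith
    calc Real.exp (100 * (((0:ℕ) : ℝ) + 1) ^ 2) = (Real.exp 1) ^ 100 := by
          rw [← Real.exp_nat_mul]; norm_num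
      _ ≤ 4 ^ 100 := pow_le_pow_left₀ (Real.exp_pos 1).le h2 _
      _ = 2 ^ 200 := by norm_num
  · obtain ⟨v, rfl⟩ : ∃ v, u = v + 1 := ⟨u - 1, by omega⟩
    obtain ⟨hlt, h1, -⟩ := ee_spec v
    obtain ⟨k, hk⟩ : ∃ k, ee (v + 1) = ee v + k := ⟨ee (v + 1) - ee v, by omega⟩
    have h2 := sum_RR_le (Gam_one v) (ee_pos v) k
    rw [← hk] at h2
    have hG := Gam_one v
    have h3 : (1 / 2 : ℝ) ^ v ≤ Real.log (nn (ee (v + 1))) / (6 * Gam v) := by
      refine h1.trans (h2.trans ?_)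
      have : 0 ≤ Real.log (nn (ee v)) := Real.log_natCast_nonneg _
      gcongr
      linarith
    rw [le_div_iff₀ (by positivity)] at h3
    have h4 : 6 * Real.exp (99 * ((v : ℝ) + 1) ^ 2) ≤ (1 / 2 : ℝ) ^ v * (6 * Gam v) := by
      have e : Gam v = Real.exp (((v : ℝ) + 1) ^ 2) * Real.exp (99 * ((v : ℝ) + 1) ^ 2) := by
        unfold Gam; rw [← Real.exp_add]; congr 1; ring
      have h5 : (2 : ℝ) ^ v ≤ Real.exp (((v : ℝ) + 1) ^ 2) := by
        have h6 : (2 : ℝ) ≤ Real.exp 1 := by have := Real.exp_one_gt_d9; linarith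
        calc (2 : ℝ) ^ v ≤ (Real.exp 1) ^ v := pow_le_pow_left₀ (by norm_num) h6 _
          _ = Real.exp (v : ℝ) := by rw [← Real.exp_nat_mul]; simp
          _ ≤ Real.exp (((v : ℝ) + 1) ^ 2) := by
              apply Real.exp_le_exp.2
              have : (0:ℝ) ≤ v := Nat.cast_nonneg _
              nlinarith
      rw [e]
      have h7 : (1 : ℝ) ≤ (1 / 2 : ℝ) ^ v * Real.exp (((v : ℝ) + 1) ^ 2) := by
        calc (1 : ℝ) = (1 / 2 : ℝ) ^ v * 2 ^ v := by rw [← mul_pow]; norm_num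
          _ ≤ _ := by gcongr
      have hE := Real.exp_pos (99 * ((v : ℝ) + 1) ^ 2)
      nlinarith
    have h5 := Real.add_one_le_exp (99 * ((v : ℝ) + 1) ^ 2)
    have h6 := log_le (ee (v + 1)) (ee_pos (v + 1))
    have hlt2 := lt_two_la (ee (v + 1))
    have hlog2 : Real.log (nn (ee (v + 1))) ≤ ((la (ee (v + 1)) : ℝ) + 1) * Real.log 2 := by
      have hn : (0:ℝ) < nn (ee (v + 1)) := by exact_mod_cast nn_pos (ee_pos (v + 1))
      have h1 : (nn (ee (v + 1)) : ℝ) ≤ 2 ^ (la (ee (v + 1)) + 1) := by exact_mod_cast hlt2.le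
      have h2 := Real.log_le_log hn h1
      rw [Real.log_pow] at h2
      push_cast at h2
      exact h2
    have hl2 : Real.log 2 ≤ 1 := by have := Real.log_two_lt_d9; linarith
    have h7 : 100 * ((v : ℝ) + 1 + 1) ^ 2 ≤ (la (ee (v + 1)) : ℝ) * Real.log 2 := by
      have hv : (0:ℝ) ≤ v := Nat.cast_nonneg _
      nlinarith
    unfold Gam Mr
    push_cast
    calc Real.exp (100 * ((v : ℝ) + 1 + 1) ^ 2)
        ≤ Real.exp ((la (ee (v + 1)) : ℝ) * Real.log 2) := Real.exp_le_exp.2 h7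
      _ = 2 ^ la (ee (v + 1)) := by
          rw [Real.exp_nat_mul, Real.exp_log (by norm_num)]

/-- the epoch of a line -/
noncomputable def ui (j : ℕ) : ℕ := Nat.findGreatest (fun u => ee u ≤ j) j

theorem ui_eq {u j : ℕ} (h1 : ee u ≤ j) (h2 : j < ee (u + 1)) : ui j = u := by
  unfold ui
  rw [Nat.findGreatest_eq_iff]
  have h3 : u ≤ ee u := ee_mono.le_apply
  refine ⟨by omega, fun _ => h1, fun {k} hk _ => ?_⟩
  have : ee (u + 1) ≤ ee k := ee_mono.monotone hk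
  omega

theorem ui_spec {j : ℕ} (hj : 1 ≤ j) : ee (ui j) ≤ j ∧ j < ee (ui j + 1) := by
  have h0 : ee 0 ≤ j := by rw [ee_zero]; exact hj
  refine ⟨Nat.findGreatest_spec (P := fun u => ee u ≤ j) (Nat.zero_le j) h0, ?_⟩
  by_contra hcon
  push Not at hcon
  have h3 : ui j + 1 ≤ ee (ui j + 1) := ee_mono.le_apply
  have h4 := Nat.le_findGreatest (P := fun u => ee u ≤ j) (h3.trans hcon) hcon
  change ui j + 1 ≤ ui j at h4
  omega

/-- floor values -/
noncomputable def gg (j : ℕ) : ℝ := if j = 0 then 1 else Gam (ui j) * ell j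

theorem gg_eq {u j : ℕ} (h1 : ee u ≤ j) (h2 : j < ee (u + 1)) : gg j = Gam u * ell j := by
  have hj : j ≠ 0 := by have := ee_pos u; omega
  rw [gg, if_neg hj, ui_eq h1 h2]

theorem gg_zero : gg 0 = 1 := by rw [gg, if_pos rfl]

theorem gg_one (j : ℕ) : 1 ≤ gg j := by
  unfold gg
  split
  · exact le_rfl
  · exact fl_ge (Gam_one _) j

theorem gg_le (j : ℕ) : gg j ≤ Mr j ^ 2 := by
  rcases Nat.eq_zero_or_pos j with rfl | hj
  · rw [gg_zero]; exact one_le_pow₀ (Mr_one_le 0)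
  · rw [gg, if_neg (by omega), pow_two]
    have h1 := (growth (ui j)).trans (Mr_mono (ui_spec hj).1)
    have h2 := ell_le hj
    have h3 := ell_one j
    have h4 := Mr_pos j
    gcongr

theorem gg_le_Lv (j : ℕ) : gg j ≤ Lv j := by
  rw [Lv_eq]
  exact (gg_le j).trans (pow_le_pow_right₀ (Mr_one_le j) (by norm_num))

theorem gg_le_Lv' (j : ℕ) : gg j ≤ Lv (j + 1) := by
  rw [Lv_eq]
  calc gg j ≤ Mr j ^ 2 := gg_le j
    _ ≤ Mr j ^ 20 := pow_le_pow_right₀ (Mr_one_le j) (by norm_num)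
    _ ≤ Mr (j + 1) ^ 20 := pow_le_pow_left₀ (Mr_pos j).le (Mr_mono (Nat.le_succ j)) _

/-- the annulus of a radius -/
noncomputable def ix (m : ℕ) : ℕ := Nat.findGreatest (fun j => nn j ≤ m) m

theorem ix_eq {j m : ℕ} (h1 : nn j ≤ m) (h2 : m < nn (j + 1)) : ix m = j := by
  unfold ix
  rw [Nat.findGreatest_eq_iff]
  have h3 : j ≤ nn j := nn_mono.le_apply
  refine ⟨by omega, fun _ => h1, fun {k} hk _ => ?_⟩
  have : nn (j + 1) ≤ nn k := nn_mono.monotone hk
  omega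

theorem ix_spec (m : ℕ) : nn (ix m) ≤ m ∧ m < nn (ix m + 1) := by
  have h0 : nn 0 ≤ m := by rw [nn_zero]; exact Nat.zero_le m
  refine ⟨Nat.findGreatest_spec (P := fun j => nn j ≤ m) (Nat.zero_le m) h0, ?_⟩
  by_contra hcon
  push Not at hcon
  have h3 : ix m + 1 ≤ nn (ix m + 1) := nn_mono.le_apply
  have h4 := Nat.le_findGreatest (P := fun j => nn j ≤ m) (h3.trans hcon) hcon
  change ix m + 1 ≤ ix m at h4
  omega

/-- the conductances -/
noncomputable def FF (m : ℕ) : ℝ := Fm (gg (ix m)) (ix m) m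

theorem FF_eq {j m : ℕ} (h1 : nn j ≤ m) (h2 : m ≤ nn (j + 1)) : FF m = Fm (gg j) j m := by
  rcases Nat.lt_or_eq_of_le h2 with h | h
  · rw [FF, ix_eq h1 h]
  · subst h
    rw [FF, ix_eq le_rfl (nn_mono (Nat.lt_succ_self _)), Fm_right j (gg_le_Lv' j),
      Fm_left (j + 1) (gg_le_Lv (j + 1))]

theorem FF_line (j : ℕ) : FF (nn j) = Lv j := by
  rw [FF_eq le_rfl (nn_mono (Nat.lt_succ_self _)).le, Fm_left j (gg_le_Lv j)]

theorem FF_ge {j m : ℕ} (h1 : nn j ≤ m) (h2 : m ≤ nn (j + 1)) : gg j ≤ FF m := by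
  rw [FF_eq h1 h2]; exact le_Fm _ _ _

theorem FF_pos (m : ℕ) : 0 < FF m := by
  have h := ix_spec m
  have h1 := FF_ge h.1 h.2.le
  have h2 := gg_one (ix m)
  linarith

theorem FF_good : Good FF := by
  refine ⟨FF_pos, fun m => ?_⟩
  have h := ix_spec m
  rw [FF_eq (j := ix m) (m := m + 1) (by omega) (by omega), FF_eq (j := ix m) h.1 h.2.le]
  exact Fm_step (by have := gg_one (ix m); linarith) _ _ h.1 h.2

theorem rr_eq {u j : ℕ} (h1 : ee u ≤ j) (h2 : j < ee (u + 1)) : rr FF nn j = RR (Gam u) j := by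
  unfold rr RR
  congr 1
  refine Finset.sum_congr rfl fun m hm => ?_
  rw [Finset.mem_Ico] at hm
  rw [FF_eq (j := j) (m := m + 1) (by omega) (by omega), gg_eq h1 h2]

theorem rr_small {j : ℕ} (hj : 1 ≤ j) : rr FF nn j ≤ 10 / (Gam (ui j) * nn j) := by
  obtain ⟨h1, h2⟩ := ui_spec hj
  rw [rr_eq h1 h2]
  exact RR_small (Gam_one _) hj

theorem rr_nonneg (j : ℕ) : 0 ≤ rr FF nn j := by
  unfold rr
  apply div_nonneg _ (by positivity)
  exact Finset.sum_nonneg fun m _ => (one_div_pos.2 (FF_pos _)).le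

theorem rr_one {j : ℕ} (hj : 1 ≤ j) : rr FF nn j ≤ 1 := by
  refine (rr_small hj).trans ?_
  have hn : (1000000:ℝ) ≤ nn j := (Mr_big hj).trans (Mr_le hj)
  have hG := Gam_one (ui j)
  rw [div_le_one (by positivity)]
  nlinarith

theorem rr_le_Mr (j : ℕ) : rr FF nn j ≤ Mr (j + 1) := by
  rcases Nat.eq_zero_or_pos j with rfl | hj
  · unfold rr
    rw [zero_add, nn_zero, nn_one]
    have h1 : ∑ m ∈ Finset.Ico 0 (2 ^ 200), 1 / FF (m + 1) ≤ ∑ m ∈ Finset.Ico 0 (2 ^ 200), (1:ℝ) := by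
      refine Finset.sum_le_sum fun m hm => ?_
      rw [Finset.mem_Ico] at hm
      have h2 : gg 0 ≤ FF (m + 1) := FF_ge (j := 0) (by rw [nn_zero]; omega)
        (by rw [zero_add, nn_one]; omega)
      rw [gg_zero] at h2
      rw [div_le_one (by linarith)]; exact h2
    rw [Finset.sum_const, Nat.card_Ico, nsmul_eq_mul, mul_one] at h1
    unfold Mr
    rw [la_one]
    push_cast at h1 ⊢
    rw [div_le_iff₀ (by norm_num)]
    refine h1.trans ?_
    norm_num
  · exact (rr_one hj).trans (Mr_one_le _)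

theorem qq_ge {j m : ℕ} (h1 : nn j ≤ m) (h2 : m < nn (j + 1)) :
    1 / ((8 * (m : ℝ) + 4) * FF (m + 1)) ≤ qq FF nn j := by
  unfold qq
  refine Finset.single_le_sum (f := fun m : ℕ => 1 / ((8 * (m : ℝ) + 4) * FF (m + 1)))
    (fun i _ => ?_) (Finset.mem_Ico.2 ⟨h1, h2⟩)
  have := FF_pos (i + 1)
  positivity

theorem qq_ge' (j : ℕ) : 1 / (32 * Mr j ^ 3) ≤ qq FF nn j := by
  rcases Nat.eq_zero_or_pos j with rfl | hj
  · have h := qq_ge (j := 0) (m := 0) (by rw [nn_zero]) (by rw [zero_add, nn_one]; positivity)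
    refine le_trans ?_ h
    have h1 : FF (0 + 1) = 1 := by
      rw [FF_eq (j := 0) (m := 0 + 1) (by rw [nn_zero]; omega)
        (by rw [zero_add, nn_one]; norm_num), gg_zero]
      apply Fm_flat le_rfl
      · rw [nn_zero, la_zero]; norm_num
      · rw [zero_add, la_one, nn_one]; norm_num
    rw [h1]
    have h2 : (1:ℝ) ≤ Mr 0 ^ 3 := one_le_pow₀ (Mr_one_le 0)
    apply one_div_le_one_div_of_le (by norm_num)
    push_cast
    linarith
  · have hw := wid j
    have h3 := la_succ_le hj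
    have hs := nn_succ hj
    have h := qq_ge (j := j) (m := nn j + 20 * la j) (by omega) (by omega)
    refine le_trans ?_ h
    have h1 : FF (nn j + 20 * la j + 1) = gg j := by
      rw [FF_eq (j := j) (by omega) (by omega)]
      exact Fm_flat (gg_one j) _ _ (by omega) (by omega)
    rw [h1]
    have hg := gg_one j
    have hg2 := gg_le j
    have hM := Mr_pos j
    have h4 : 8 * ((nn j + 20 * la j : ℕ) : ℝ) + 4 ≤ 32 * Mr j := by
      have h5 := le_Mr j
      have h6 : 8 * (nn j + 20 * la j) + 4 ≤ 16 * nn j := by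
        have := pow_b1 (la_ge hj)
        have := two_la_le hj
        omega
      have h7 : 8 * ((nn j + 20 * la j : ℕ) : ℝ) + 4 ≤ 16 * nn j := by exact_mod_cast h6
      linarith
    apply one_div_le_one_div_of_le (by positivity)
    calc (8 * ((nn j + 20 * la j : ℕ) : ℝ) + 4) * gg j ≤ (32 * Mr j) * Mr j ^ 2 := by gcongr
      _ = 32 * Mr j ^ 3 := by ring


/-- the parameters of the epochs -/
noncomputable def et (u : ℕ) : ℝ := Real.exp (-(84 * ((u : ℝ) + 1) ^ 2))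

theorem et_bound (u : ℕ) : 12801 / Gam u ≤ 1 / 2 * et u * (4 * (1 / 2 : ℝ) ^ u) := by
  have h := Gam_ge u
  have hG := Gam_one u
  unfold et
  rw [Real.exp_neg, div_le_iff₀ (by linarith)]
  have hE := Real.exp_pos (84 * ((u : ℝ) + 1) ^ 2)
  have h2 : (0 : ℝ) < 2 ^ u := by positivity
  have e : 1 / 2 * (Real.exp (84 * ((u : ℝ) + 1) ^ 2))⁻¹ * (4 * (1 / 2 : ℝ) ^ u) * Gam u =
    (2 * Gam u) / (2 ^ u * Real.exp (84 * ((u : ℝ) + 1) ^ 2)) := by
    rw [div_pow, one_pow]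
    field_simp
    norm_num
  rw [e, le_div_iff₀ (by positivity)]
  linarith

theorem cov {u j : ℕ} (h1 : ee u ≤ j) (h2 : j < ee (u + 1)) :
    64 * (40 * (1 + Real.log ((nn (j + 1) - nn j : ℕ) + 1)) / gg j + 40 * nn j / FF (nn j)) *
      (5 * Real.log (nn j) + 10) ≤ 1 / 2 * et u * (4 * (1 / 2 : ℝ) ^ u) := by
  have hj : 1 ≤ j := (ee_pos u).trans h1
  refine le_trans ?_ (et_bound u)
  rw [gg_eq h1 h2, FF_line, Lv_eq]
  have hlog := log_le j hj
  have hlog0 : 0 ≤ Real.log (nn j) := Real.log_natCast_nonneg _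
  have hG := Gam_one u
  have hG0 : 0 < Gam u := by linarith
  have hmu := mu_ge j
  have hl : (0:ℝ) ≤ la j := Nat.cast_nonneg _
  have hM := Mr_big hj
  have hM0 := Mr_pos j
  have hGM : Gam u ≤ Mr j := (growth u).trans (Mr_mono h1)
  have hn := le_Mr j
  have hl3 : (la j : ℝ) + 3 ≤ Mr j := by
    unfold Mr
    have := pow_b1 (la_ge hj)
    have h5 : la j + 3 ≤ 2 ^ la j := by omega
    exact_mod_cast h5
  have hA : 5 * Real.log (nn j) + 10 ≤ 5 * ((la j : ℝ) + 3) := by linarith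
  have t1 : 64 * (40 * mu j / (Gam u * ell j)) * (5 * ((la j : ℝ) + 3)) = 12800 / Gam u := by
    unfold ell; field_simp; norm_num
  have t2 : 64 * (40 * nn j / Mr j ^ 20) * (5 * ((la j : ℝ) + 3)) ≤ 1 / Gam u := by
    calc 64 * (40 * nn j / Mr j ^ 20) * (5 * ((la j : ℝ) + 3))
        ≤ 64 * (40 * (2 * Mr j) / Mr j ^ 20) * (5 * Mr j) := by gcongr
      _ = 25600 / Mr j ^ 18 := by field_simp; norm_num
      _ ≤ 1 / Gam u := by
          rw [div_le_div_iff₀ (by positivity) hG0]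
          calc 25600 * Gam u ≤ Mr j * Mr j := by
                apply mul_le_mul _ hGM hG0.le hM0.le
                linarith
            _ = Mr j ^ 2 := by ring
            _ ≤ Mr j ^ 18 := pow_le_pow_right₀ (Mr_one_le j) (by norm_num)
            _ = 1 * Mr j ^ 18 := by ring
  change 64 * (40 * mu j / (Gam u * ell j) + 40 * nn j / Mr j ^ 20) *
      (5 * Real.log (nn j) + 10) ≤ _
  have hell := ell_one j
  calc 64 * (40 * mu j / (Gam u * ell j) + 40 * nn j / Mr j ^ 20) * (5 * Real.log (nn j) + 10)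
      ≤ 64 * (40 * mu j / (Gam u * ell j) + 40 * nn j / Mr j ^ 20) * (5 * ((la j : ℝ) + 3)) := by
        apply mul_le_mul_of_nonneg_left hA
        positivity
    _ = 64 * (40 * mu j / (Gam u * ell j)) * (5 * ((la j : ℝ) + 3)) +
        64 * (40 * nn j / Mr j ^ 20) * (5 * ((la j : ℝ) + 3)) := by ring
    _ ≤ 12800 / Gam u + 1 / Gam u := by rw [t1]; linarith
    _ = 12801 / Gam u := by ring

theorem cov2 {u j : ℕ} (h1 : ee u ≤ j) (h2 : j < ee (u + 1)) :
    (64 * (5 * Real.log (nn j) + 10) + 1) * rr FF nn j ≤ 1 / 2 * et u * (4 * (1 / 2 : ℝ) ^ u) := by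
  have hj : 1 ≤ j := (ee_pos u).trans h1
  refine le_trans ?_ (et_bound u)
  have h3 := rr_small hj
  rw [ui_eq h1 h2] at h3
  have hlog := log_le j hj
  have hG := Gam_one u
  have hn : (0:ℝ) < nn j := by exact_mod_cast nn_pos hj
  have h4 : 64 * (5 * Real.log (nn j) + 10) + 1 ≤ nn j := by
    have h5 : 640 * (la j + 3) + 1 ≤ nn j := (pow_b1 (la_ge hj)).trans (two_la_le hj)
    have h6 : 640 * ((la j : ℝ) + 3) + 1 ≤ nn j := by exact_mod_cast h5
    have hl : (0:ℝ) ≤ la j := Nat.cast_nonneg _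
    linarith
  calc (64 * (5 * Real.log (nn j) + 10) + 1) * rr FF nn j
      ≤ nn j * (10 / (Gam u * nn j)) := by
        apply mul_le_mul h4 h3 (rr_nonneg j) hn.le
    _ = 10 / Gam u := by field_simp
    _ ≤ 12801 / Gam u := by gcongr; norm_num

theorem err {j : ℕ} (hj : 1 ≤ j) : Real.sqrt (8 * nn j / FF (nn j) / qq FF nn j) *
    (1 + rr FF nn j / qq FF nn (j - 1) + rr FF nn (j - 1) / qq FF nn j) ≤
      1 / (100 * (j : ℝ) ^ 2) := by
  obtain ⟨i, rfl⟩ : ∃ i, j = i + 1 := ⟨j - 1, by omega⟩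
  rw [Nat.add_sub_cancel, FF_line, Lv_eq]
  have hM0 := Mr_pos (i + 1)
  have hM := Mr_big hj
  have hM1 := Mr_one_le (i + 1)
  have hn := le_Mr (i + 1)
  have hn0 : (0:ℝ) < nn (i + 1) := by exact_mod_cast nn_pos hj
  have q1 := qq_ge' (i + 1)
  have q0 : 1 / (32 * Mr (i + 1) ^ 3) ≤ qq FF nn i := by
    refine le_trans ?_ (qq_ge' i)
    have := Mr_pos i
    have h2 : Mr i ≤ Mr (i + 1) := Mr_mono (Nat.le_succ i)
    apply one_div_le_one_div_of_le (by positivity)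
    gcongr
  have r1 := rr_one hj
  have r0 := rr_le_Mr i
  have r1' := rr_nonneg (i + 1)
  have r0' := rr_nonneg i
  set M := Mr (i + 1) with hMdef
  have hc : 0 < 1 / (32 * M ^ 3) := by positivity
  have hq1 : 0 < qq FF nn (i + 1) := lt_of_lt_of_le hc q1
  have hq0 : 0 < qq FF nn i := lt_of_lt_of_le hc q0
  have a1 : Real.sqrt (8 * nn (i + 1) / M ^ 20 / qq FF nn (i + 1)) ≤ 23 / M ^ 8 := by
    rw [Real.sqrt_le_left (by positivity)]
    calc 8 * nn (i + 1) / M ^ 20 / qq FF nn (i + 1) ≤ 8 * (2 * M) / M ^ 20 / (1 / (32 * M ^ 3)) := by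
          gcongr
      _ = 512 / M ^ 16 := by field_simp; norm_num
      _ ≤ 529 / M ^ 16 := by gcongr; norm_num
      _ = (23 / M ^ 8) ^ 2 := by field_simp; norm_num
  have a2 : rr FF nn (i + 1) / qq FF nn i ≤ 32 * M ^ 3 := by
    calc rr FF nn (i + 1) / qq FF nn i ≤ 1 / (1 / (32 * M ^ 3)) := by gcongr
      _ = 32 * M ^ 3 := by field_simp
  have a3 : rr FF nn i / qq FF nn (i + 1) ≤ 32 * M ^ 4 := by
    calc rr FF nn i / qq FF nn (i + 1) ≤ M / (1 / (32 * M ^ 3)) := by gcongr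
      _ = 32 * M ^ 4 := by field_simp
  have a4 : 1 + rr FF nn (i + 1) / qq FF nn i + rr FF nn i / qq FF nn (i + 1) ≤ 65 * M ^ 4 := by
    have p1 : M ^ 3 ≤ M ^ 4 := pow_le_pow_right₀ hM1 (by norm_num)
    have p2 : 1 ≤ M ^ 4 := one_le_pow₀ hM1
    linarith
  have a5 : 0 ≤ 1 + rr FF nn (i + 1) / qq FF nn i + rr FF nn i / qq FF nn (i + 1) := by positivity
  have hj1 : ((i + 1 : ℕ) : ℝ) ≤ M := by
    have h1 : 100 * (((i + 1 : ℕ)) : ℝ) ≤ nn (i + 1) := by exact_mod_cast nn_100 hj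
    linarith
  have hj0 : (0:ℝ) < ((i + 1 : ℕ) : ℝ) := by positivity
  calc _ ≤ 23 / M ^ 8 * (65 * M ^ 4) := by
        apply mul_le_mul a1 a4 a5 (by positivity)
    _ = 1495 / M ^ 4 := by field_simp; norm_num
    _ ≤ 1 / (100 * ((i + 1 : ℕ) : ℝ) ^ 2) := by
        rw [div_le_div_iff₀ (by positivity) (by positivity)]
        have b1 : ((i + 1 : ℕ) : ℝ) ^ 2 ≤ M ^ 2 := by gcongr
        have b2 : (1000000 : ℝ) ^ 2 ≤ M ^ 2 := by gcongr
        have b3 : M ^ 4 = M ^ 2 * M ^ 2 := by ring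
        rw [b3]
        have b4 : 0 ≤ M ^ 2 := by positivity
        nlinarith

theorem quart {j : ℕ} (hj : 1 ≤ j) : rr FF nn j / 4 ≤ qq FF nn j := by
  unfold rr qq
  rw [Finset.sum_div, Finset.sum_div]
  refine Finset.sum_le_sum fun m hm => ?_
  rw [Finset.mem_Ico] at hm
  have hF := FF_pos (m + 1)
  rw [div_div, div_div]
  apply one_div_le_one_div_of_le (by positivity)
  have h1 : 8 * m + 4 ≤ (8 * nn j + 4) * 4 := by
    have := nn_le_two hj
    omega
  have h2 : 8 * (m : ℝ) + 4 ≤ (8 * nn j + 4) * 4 := by exact_mod_cast h1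
  calc (8 * (m : ℝ) + 4) * FF (m + 1) ≤ ((8 * nn j + 4) * 4) * FF (m + 1) := by gcongr
    _ = FF (m + 1) * ((8 * (nn j : ℝ) + 4) * 4) := by ring

theorem line_big {j : ℕ} (hj : 1 ≤ j) : (nn j : ℝ) / FF (nn j) ≤ 1 / ((j : ℝ) + 1) ^ 2 := by
  rw [FF_line, Lv_eq]
  have hM := Mr_big hj
  have hM0 := Mr_pos j
  have hn := le_Mr j
  have h100 : 100 * (j : ℝ) ≤ nn j := by exact_mod_cast nn_100 hj
  have hj1 : (1:ℝ) ≤ j := by exact_mod_cast hj
  have h1 : (j : ℝ) + 1 ≤ Mr j := by linarith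
  rw [div_le_div_iff₀ (by positivity) (by positivity), one_mul]
  calc (nn j : ℝ) * ((j : ℝ) + 1) ^ 2 ≤ (2 * Mr j) * (Mr j) ^ 2 := by gcongr
    _ = 2 * Mr j ^ 3 := by ring
    _ ≤ Mr j * Mr j ^ 3 := by
        apply mul_le_mul_of_nonneg_right _ (by positivity)
        linarith
    _ = Mr j ^ 4 := by ring
    _ ≤ Mr j ^ 20 := pow_le_pow_right₀ (Mr_one_le j) (by norm_num)

theorem et_cond (u : ℕ) : 0 < et u ∧ et u < Real.exp (-1) ∧
    (Real.log 64 + 1) / (Real.log (1 / et u) - 1) ≤ 1 / (16 * ((u : ℝ) + 1) ^ 2) := by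
  have hu : (0:ℝ) ≤ u := Nat.cast_nonneg _
  refine ⟨Real.exp_pos _, ?_, ?_⟩
  · unfold et
    apply Real.exp_lt_exp.2
    nlinarith
  · unfold et
    rw [one_div, ← Real.exp_neg, neg_neg, Real.log_exp]
    have h1 : Real.log 64 = 6 * Real.log 2 := by
      have : (64:ℝ) = 2 ^ 6 := by norm_num
      rw [this, Real.log_pow]; norm_num
    have h2 := Real.log_two_lt_d9
    rw [h1]
    have h3 : (1:ℝ) ≤ ((u : ℝ) + 1) ^ 2 := by nlinarith
    rw [div_le_div_iff₀ (by nlinarith) (by positivity)]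
    nlinarith

end DES

open DES in
theorem piece_design : S_design := by
  refine ⟨FF, nn, ee, gg, et, FF_good, nn_mono, nn_zero, ee_mono, ee_zero,
    fun j hj => nn_100 hj, fun j hj => w4 hj, fun j _ => ⟨?_, fun m h1 h2 => FF_ge h1 h2⟩,
    fun j hj => quart hj, fun j hj => err hj, fun u => ?_, fun u => et_cond u,
    fun u j h1 h2 => ⟨cov h1 h2, cov2 h1 h2⟩, fun j hj => line_big hj⟩
  · have := gg_one j; linarith
  · have h : ∑ j ∈ Finset.Ico (ee u) (ee (u + 1)), rr FF nn j =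
        ∑ j ∈ Finset.Ico (ee u) (ee (u + 1)), RR (Gam u) j := by
      refine Finset.sum_congr rfl fun j hj => ?_
      rw [Finset.mem_Ico] at hj
      exact rr_eq hj.1 hj.2
    rw [h]
    exact ⟨(ee_spec u).2.1, (ee_spec u).2.2⟩

end Pool.Agent.R812.TC
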