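import Pool.Agent.R812.TC.Stm

/-! Project TC, piece DIR (helper91): transition probabilities, maximum principle, Dirichlet problem,
potentials. -/

set_option autoImplicit false

namespace Pool.Agent.R812.TC
open Finset

namespace DIR

lemma nrm_dir (x : V) (d : Fin 4) : nrm (x + dir d) ≤ nrm x + 1 := by
  obtain ⟨a, b⟩ := x
  fin_cases d <;> simp [nrm, dir] <;> omega

lemma cc_cases (F : ℕ → ℝ) (x : V) (d : Fin 4) : cc F x d = F (nrm x) ∨ cc F x d = F (nrm x + 1) := by
  have h := nrm_dir x d
  unfold cc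
  rcases Nat.lt_or_ge (nrm x) (nrm (x + dir d)) with h1 | h1
  · right; congr 1; omega
  · left; congr 1; omega

lemma mem_box {N : ℕ} {x : V} : x ∈ box N ↔ nrm x ≤ N := by
  obtain ⟨a, b⟩ := x
  simp only [box, Finset.mem_product, Finset.mem_Icc, nrm]
  omega

/-- extension by zero -/
noncomputable def ext0 (B : Finset V) (φ : B → ℝ) : V → ℝ := fun y => if h : y ∈ B then φ ⟨y, h⟩ else 0

lemma ext0_add (B : Finset V) (φ ψ : B → ℝ) (y : V) : ext0 B (φ + ψ) y = ext0 B φ y + ext0 B ψ y := by
  unfold ext0; split_ifs <;> simp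

lemma ext0_smul (B : Finset V) (c : ℝ) (φ : B → ℝ) (y : V) : ext0 B (c • φ) y = c * ext0 B φ y := by
  unfold ext0; split_ifs <;> simp

/-- the linear map of the Dirichlet problem -/
noncomputable def Lm (F : ℕ → ℝ) (B : Finset V) : (B → ℝ) →ₗ[ℝ] (B → ℝ) where
  toFun φ := fun x => φ x - PP F (ext0 B φ) x.1
  map_add' φ ψ := by
    funext x
    simp only [PP, ext0_add, mul_add, Finset.sum_add_distrib, Pi.add_apply]
    ring
  map_smul' c φ := by
    funext x
    simp only [PP, ext0_smul, Pi.smul_apply, smul_eq_mul, RingHom.id_apply, mul_sub, Finset.mul_sum]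
    congr 1
    refine Finset.sum_congr rfl fun d _ => ?_
    ring

end DIR

open DIR

theorem piece_P : S_P := by
  intro F hF x
  have hpos : ∀ d, 0 < cc F x d := fun d => hF.1 _
  have h2 : ∀ d d', cc F x d' ≤ 2 * cc F x d := by
    intro d d'
    have h1 := (hF.2 (nrm x)).1
    have h2 := (hF.2 (nrm x)).2
    have h3 := hF.1 (nrm x)
    have h4 := hF.1 (nrm x + 1)
    rcases cc_cases F x d with h | h <;> rcases cc_cases F x d' with h' | h' <;> rw [h, h'] <;> linarith
  have hpi : 0 < piW F x := Finset.sum_pos (fun d _ => hpos d) ⟨0, Finset.mem_univ _⟩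
  refine ⟨fun d => ?_, ?_, hpi⟩
  · rw [P, le_div_iff₀ hpi]
    have : piW F x ≤ ∑ d' : Fin 4, 2 * cc F x d := Finset.sum_le_sum fun d' _ => h2 d d'
    rw [Finset.sum_const, Finset.card_univ, Fintype.card_fin, nsmul_eq_mul] at this
    push_cast at this
    linarith
  · simp only [P]
    rw [← Finset.sum_div]
    exact div_self hpi.ne'

theorem piece_max : S_max := by
  intro F hF B φ M hout hin
  by_contra hcon
  push Not at hcon
  obtain ⟨x, hx⟩ := hcon
  have hxB : x ∈ B := by
    by_contra h
    exact absurd (hout x h) (not_le.2 hx)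
  obtain ⟨x0, hx0, hmax⟩ := Finset.exists_max_image B φ ⟨x, hxB⟩
  have hm : M < φ x0 := lt_of_lt_of_le hx (hmax x hxB)
  have hall : ∀ y, φ y ≤ φ x0 := by
    intro y
    by_cases hy : y ∈ B
    · exact hmax y hy
    · exact (hout y hy).trans hm.le
  obtain ⟨y, hy, hymax⟩ := Finset.exists_max_image (B.filter fun y => φ y = φ x0) (fun y => y.1)
    ⟨x0, Finset.mem_filter.2 ⟨hx0, rfl⟩⟩
  obtain ⟨hyB, hyφ⟩ := Finset.mem_filter.1 hy
  obtain ⟨hP, hsum, -⟩ := piece_P F hF y
  have h1 : PP F φ y ≤ φ x0 - P F y 0 * (φ x0 - φ (y + dir 0)) := by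
    have h2 : φ x0 = ∑ d, P F y d * φ x0 := by rw [← Finset.sum_mul, hsum, one_mul]
    have h3 : ∑ d, P F y d * (φ x0 - φ (y + dir d)) = φ x0 - PP F φ y := by
      conv_rhs => rw [h2]
      rw [PP, ← Finset.sum_sub_distrib]
      exact Finset.sum_congr rfl fun d _ => by ring
    have h4 : P F y 0 * (φ x0 - φ (y + dir 0)) ≤ ∑ d, P F y d * (φ x0 - φ (y + dir d)) :=
      Finset.single_le_sum (f := fun d => P F y d * (φ x0 - φ (y + dir d)))
        (fun d _ => mul_nonneg (by have := hP d; linarith) (sub_nonneg.2 (hall _)))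
        (Finset.mem_univ 0)
    linarith
  have h5 := hin y hyB
  rw [hyφ] at h5
  have h6 : P F y 0 * (φ x0 - φ (y + dir 0)) ≤ 0 := by linarith
  have h7 : φ x0 ≤ φ (y + dir 0) := by
    by_contra hc
    push Not at hc
    have : 0 < P F y 0 * (φ x0 - φ (y + dir 0)) :=
      mul_pos (by have := hP 0; linarith) (sub_pos.2 hc)
    linarith
  have h8 : φ (y + dir 0) = φ x0 := le_antisymm (hall _) h7
  have h9 : y + dir 0 ∈ B := by
    by_contra h
    have := hout _ h
    linarith
  have h10 := hymax (y + dir 0) (Finset.mem_filter.2 ⟨h9, h8⟩)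
  simp [dir] at h10

theorem piece_dir : S_dir := by
  intro F hF B bd f
  classical
  have hinj : Function.Injective (Lm F B) := by
    rw [← LinearMap.ker_eq_bot, LinearMap.ker_eq_bot']
    intro φ hφ
    have hh : ∀ x ∈ B, ext0 B φ x = PP F (ext0 B φ) x := by
      intro x hx
      have h1 := congrFun hφ ⟨x, hx⟩
      have h2 : ext0 B φ x = φ ⟨x, hx⟩ := by simp [ext0, hx]
      simp only [Lm, LinearMap.coe_mk, AddHom.coe_mk, Pi.zero_apply] at h1
      linarith
    have hout : ∀ x, x ∉ B → ext0 B φ x = 0 := fun x hx => by simp [ext0, hx]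
    have h1 := piece_max F hF B (ext0 B φ) 0 (fun x hx => (hout x hx).le) (fun x hx => (hh x hx).le)
    have h2 := piece_max F hF B (fun x => -ext0 B φ x) 0 (fun x hx => by rw [hout x hx, neg_zero])
      (fun x hx => by
        have h3 : PP F (fun x => -ext0 B φ x) x = -PP F (ext0 B φ) x := by
          simp only [PP, mul_neg, Finset.sum_neg_distrib]
        rw [h3, ← hh x hx])
    funext x
    have h3 : ext0 B φ x.1 = φ x := by simp [ext0]
    have h4 := h1 x.1
    have h5 := h2 x.1
    rw [h3] at h4 h5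
    rw [Pi.zero_apply]
    linarith
  have hsurj := LinearMap.injective_iff_surjective.1 hinj
  obtain ⟨ψ, hψ⟩ := hsurj (fun x => f x.1 + PP F (fun y => if y ∈ B then 0 else bd y) x.1)
  refine ⟨fun y => if y ∈ B then ext0 B ψ y else bd y, fun x hx => by simp [hx], fun x hx => ?_⟩
  have h1 := congrFun hψ ⟨x, hx⟩
  simp only [Lm, LinearMap.coe_mk, AddHom.coe_mk] at h1
  have h2 : ext0 B ψ x = ψ ⟨x, hx⟩ := by simp [ext0, hx]
  have h3 : PP F (fun y => if y ∈ B then ext0 B ψ y else bd y) x =
      PP F (ext0 B ψ) x + PP F (fun y => if y ∈ B then 0 else bd y) x := by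
    simp only [PP]
    rw [← Finset.sum_add_distrib]
    refine Finset.sum_congr rfl fun d _ => ?_
    rw [← mul_add]
    congr 1
    by_cases h : x + dir d ∈ B
    · simp [h]
    · have : ext0 B ψ (x + dir d) = 0 := by simp [ext0, h]
      simp [h, this]
  simp only [hx, if_true]
  rw [h2, h3]
  linarith

theorem piece_uu : S_uu := by
  intro F hF a b hab
  classical
  set B : Finset V := (box b).filter fun x => a < nrm x ∧ nrm x < b with hB
  have hmB : ∀ x, x ∈ B ↔ a < nrm x ∧ nrm x < b := by
    intro x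
    rw [hB, Finset.mem_filter, mem_box]
    constructor
    · exact fun h => h.2
    · exact fun h => ⟨by omega, h⟩
  have hex : ∃ u, IsU F a b u := by
    obtain ⟨u, hu1, hu2⟩ := piece_dir F hF B (fun x => if nrm x ≤ a then 0 else 1) (fun _ => 0)
    refine ⟨u, ⟨fun x hx => ?_, fun x hx => ?_, fun x hx hx' => ?_⟩⟩
    · rw [hu1 x (by rw [hmB]; omega), if_pos hx]
    · rw [hu1 x (by rw [hmB]; omega), if_neg (by omega)]
    · have := hu2 x ((hmB x).2 ⟨hx, hx'⟩)
      rw [add_zero] at this
      exact this.symm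
  have hU : IsU F a b (uu F a b) := by
    unfold uu
    rw [dif_pos hex]
    exact hex.choose_spec
  refine ⟨hU, fun x => ?_⟩
  have hout : ∀ x, x ∉ B → uu F a b x = 0 ∨ uu F a b x = 1 := by
    intro x hx
    rw [hmB] at hx
    rcases Nat.lt_or_ge a (nrm x) with h | h
    · right; exact hU.hi x (by omega)
    · left; exact hU.lo x h
  have hin : ∀ x ∈ B, PP F (uu F a b) x = uu F a b x := fun x hx =>
    hU.har x ((hmB x).1 hx).1 ((hmB x).1 hx).2
  constructor
  · have h2 := piece_max F hF B (fun x => -uu F a b x) 0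
      (fun x hx => by rcases hout x hx with h | h <;> simp only [h] <;> norm_num)
      (fun x hx => by
        have h3 : PP F (fun x => -uu F a b x) x = -PP F (uu F a b) x := by
          simp only [PP, mul_neg, Finset.sum_neg_distrib]
        rw [h3, hin x hx]) x
    linarith
  · exact piece_max F hF B (uu F a b) 1
      (fun x hx => by rcases hout x hx with h | h <;> rw [h] <;> norm_num)
      (fun x hx => (hin x hx).ge) x

end Pool.Agent.R812.TC
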