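import Mathlib

/-! Project TC (MP_e14847_pr): a transient reversible elliptic chain on the square lattice
crossing all edges with positive probability. Common definitions. -/

namespace Pool.Agent.R812.TC

/-- vertices of the square lattice -/
abbrev V := ℤ × ℤ

/-- the sup norm -/
def nrm (x : V) : ℕ := max x.1.natAbs x.2.natAbs

/-- the four directions: right, left, up, down -/
def dir (d : Fin 4) : V := ![(1, 0), (-1, 0), (0, 1), (0, -1)] d

/-- conductance of the edge at x in direction d -/
noncomputable def cc (F : ℕ → ℝ) (x : V) (d : Fin 4) : ℝ := F (max (nrm x) (nrm (x + dir d)))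

/-- total conductance at x -/
noncomputable def piW (F : ℕ → ℝ) (x : V) : ℝ := ∑ d, cc F x d

/-- transition probability from x in direction d -/
noncomputable def P (F : ℕ → ℝ) (x : V) (d : Fin 4) : ℝ := cc F x d / piW F x

/-- the transition operator on functions -/
noncomputable def PP (F : ℕ → ℝ) (φ : V → ℝ) (x : V) : ℝ := ∑ d, P F x d * φ (x + dir d)

/-- admissible conductance functions -/
def Good (F : ℕ → ℝ) : Prop := (∀ n, 0 < F n) ∧ ∀ n, F (n + 1) ≤ 2 * F n ∧ F n ≤ 2 * F (n + 1)

/-- the box of sup norm at most N -/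
noncomputable def box (N : ℕ) : Finset V := Finset.Icc (-(N : ℤ)) N ×ˢ Finset.Icc (-(N : ℤ)) N

/-- the vertices of sup norm exactly n -/
noncomputable def rng (n : ℕ) : Finset V := (box n).filter (fun x => nrm x = n)

/-- Dirichlet energy in the box; edges inside the box are counted twice -/
noncomputable def En (F : ℕ → ℝ) (N : ℕ) (φ : V → ℝ) : ℝ :=
  ∑ x ∈ box N, ∑ d, cc F x d * (φ (x + dir d) - φ x) ^ 2

/-- current of the function φ through the edges between norm m and norm m+1 -/
noncomputable def Cur (F : ℕ → ℝ) (m : ℕ) (φ : V → ℝ) : ℝ :=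
  ∑ x ∈ rng m, ∑ d, if nrm (x + dir d) = m + 1 then F (m + 1) * (φ (x + dir d) - φ x) else 0

/-- u is the potential: 0 inside radius a, 1 outside radius b, harmonic in between -/
structure IsU (F : ℕ → ℝ) (a b : ℕ) (u : V → ℝ) : Prop where
  lo : ∀ x, nrm x ≤ a → u x = 0
  hi : ∀ x, b ≤ nrm x → u x = 1
  har : ∀ x, a < nrm x → nrm x < b → PP F u x = u x

open Classical in
/-- the potential between radius a and radius b -/
noncomputable def uu (F : ℕ → ℝ) (a b : ℕ) : V → ℝ :=
  if h : ∃ u, IsU F a b u then h.choose else 0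

/-- effective conductance between radius a and radius b -/
noncomputable def Cap (F : ℕ → ℝ) (a b : ℕ) : ℝ := Cur F a (uu F a b)

/-- position after a history of steps (most recent step first), started at the origin -/
def pos : List (Fin 4) → V
  | [] => 0
  | (d :: w) => pos w + dir d

/-- expectation of Φ(history) after t further steps, the current history being w -/
noncomputable def Ex (F : ℕ → ℝ) : ℕ → (List (Fin 4) → ℝ) → List (Fin 4) → ℝ
  | 0, Φ, w => Φ w
  | (t + 1), Φ, w => ∑ d, P F (pos w) d * Ex F t Φ (d :: w)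

/-- line state of a history: index of the last visited line (the line of index j consists of
the vertices of norm n j; absorbed at index J), and the numbers of passages from line j+1 to
line j -/
def ls (n : ℕ → ℕ) (J : ℕ) : List (Fin 4) → ℕ × (ℕ → ℕ)
  | [] => (0, fun _ => 0)
  | (d :: w) =>
      if J ≤ (ls n J w).1 then ls n J w
      else if nrm (pos (d :: w)) = n ((ls n J w).1 + 1) then
        ((ls n J w).1 + 1, (ls n J w).2)
      else if 1 ≤ (ls n J w).1 ∧ nrm (pos (d :: w)) = n ((ls n J w).1 - 1) then
        ((ls n J w).1 - 1, Function.update (ls n J w).2 ((ls n J w).1 - 1)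
          ((ls n J w).2 ((ls n J w).1 - 1) + 1))
      else ls n J w

/-- number of passages from line j to line j+1 -/
def cnt (n : ℕ → ℕ) (J j : ℕ) (w : List (Fin 4)) : ℕ :=
  (ls n J w).2 j + (if j < (ls n J w).1 then 1 else 0)

/-- the history crosses from v in direction d0 before absorption -/
def crs (n : ℕ → ℕ) (J : ℕ) (v : V) (d0 : Fin 4) : List (Fin 4) → Prop
  | [] => False
  | (d :: w) => crs n J v d0 w ∨ ((ls n J w).1 < J ∧ pos w = v ∧ d = d0)

/-- the history crosses from v in direction d0 -/
def xrs (v : V) (d0 : Fin 4) : List (Fin 4) → Prop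
  | [] => False
  | (d :: w) => xrs v d0 w ∨ (pos w = v ∧ d = d0)

open Classical in
/-- indicator -/
noncomputable def ind (p : Prop) : ℝ := if p then 1 else 0

/-- upper bound of the resistance between two lines -/
noncomputable def rr (F : ℕ → ℝ) (n : ℕ → ℕ) (j : ℕ) : ℝ :=
  (∑ m ∈ Finset.Ico (n j) (n (j + 1)), 1 / F (m + 1)) / (8 * (n j : ℝ) + 4)

/-- lower bound of the resistance between two lines -/
noncomputable def qq (F : ℕ → ℝ) (n : ℕ → ℕ) (j : ℕ) : ℝ :=
  ∑ m ∈ Finset.Ico (n j) (n (j + 1)), 1 / ((8 * (m : ℝ) + 4) * F (m + 1))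

/-- the transition kernel as a function of two vertices -/
noncomputable def pK (F : ℕ → ℝ) (x y : V) : ℝ := ∑ d, if x + dir d = y then P F x d else 0

/-- X is a Markov chain with transition probabilities p started at x0 -/
def IsChain {Ω : Type} [MeasurableSpace Ω] (μ : MeasureTheory.Measure Ω) (X : ℕ → Ω → V)
    (p : V → V → ℝ) (x0 : V) : Prop :=
  (∀ k, Measurable (X k)) ∧
  ∀ (k : ℕ) (x : ℕ → V), μ {ω | ∀ i ≤ k, X i ω = x i} =
    if x 0 = x0 then ENNReal.ofReal (∏ i ∈ Finset.range k, p (x i) (x (i + 1))) else 0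

/-- adjacency in the square lattice -/
def Adj (x y : V) : Prop := ∃ d, x + dir d = y

end Pool.Agent.R812.TC
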