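import Pool.Agent.R812.TC.Stm

set_option autoImplicit false

namespace Pool.Agent.R812.TC
open Finset

namespace Energy

theorem mem_box (x : V) (N : ℕ) : x ∈ box N ↔ nrm x ≤ N := by
  simp only [box, nrm, Finset.mem_product, Finset.mem_Icc]
  omega

theorem nrm_add_dir (x : V) (d : Fin 4) : nrm (x + dir d) ≤ nrm x + 1 := by
  fin_cases d <;> simp only [nrm, dir, Prod.fst_add, Prod.snd_add] <;> simp <;> omega

theorem nrm_le_add_dir (x : V) (d : Fin 4) : nrm x ≤ nrm (x + dir d) + 1 := by
  fin_cases d <;> simp only [nrm, dir, Prod.fst_add, Prod.snd_add] <;> simp <;> omega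

/-- the opposite direction -/
def opp (d : Fin 4) : Fin 4 := ![1, 0, 3, 2] d

theorem add_opp (x : V) (d : Fin 4) : x + dir d + dir (opp d) = x := by
  obtain ⟨a, b⟩ := x
  fin_cases d <;> simp [dir, opp]

theorem cc_symm (F : ℕ → ℝ) (x : V) (d : Fin 4) : cc F (x + dir d) (opp d) = cc F x d := by
  unfold cc
  rw [add_opp, max_comm]

theorem sum_opp (f : Fin 4 → ℝ) : ∑ d, f (opp d) = ∑ d, f d := by
  simp only [Fin.sum_univ_four]
  show f 1 + f 0 + f 3 + f 2 = f 0 + f 1 + f 2 + f 3
  ring

theorem opp_opp (d : Fin 4) : opp (opp d) = d := by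
  fin_cases d <;> rfl

theorem swap (N : ℕ) (f : V → Fin 4 → ℝ) (h1 : ∀ x, x ∉ box N → ∀ d, f x d = 0)
    (h2 : ∀ x, x ∉ box N → ∀ d, f (x + dir d) (opp d) = 0) :
    ∑ x ∈ box N, ∑ d, f x d = ∑ x ∈ box N, ∑ d, f (x + dir d) (opp d) := by
  rw [Finset.sum_comm, Finset.sum_comm (s := box N) (t := Finset.univ)]
  have key : ∀ d, ∑ x ∈ box N, f x (opp d) = ∑ x ∈ box N, f (x + dir d) (opp d) := by
    intro d
    have t1 : ∑' x, f x (opp d) = ∑ x ∈ box N, f x (opp d) :=
      tsum_eq_sum fun x hx => h1 x hx _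
    have t2 : ∑' x, f (x + dir d) (opp d) = ∑ x ∈ box N, f (x + dir d) (opp d) :=
      tsum_eq_sum fun x hx => h2 x hx _
    rw [← t1, ← t2]
    exact ((Equiv.addRight (dir d)).tsum_eq (fun x => f x (opp d))).symm
  rw [← sum_opp (fun d => ∑ x ∈ box N, f x d)]
  exact Finset.sum_congr rfl fun d _ => key d

theorem box_filter (M m : ℕ) (h : m ≤ M) :
    (box M).filter (fun x => nrm x = m) = rng m := by
  ext x
  simp only [rng, Finset.mem_filter, mem_box]
  omega

theorem sum_rng (M m : ℕ) (h : m ≤ M) (g : V → ℝ) :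
    ∑ x ∈ rng m, g x = ∑ x ∈ box M, if nrm x = m then g x else 0 := by
  rw [← box_filter M m h, Finset.sum_filter]

theorem cc_pos {F : ℕ → ℝ} (hF : Good F) (x : V) (d : Fin 4) : 0 < cc F x d := hF.1 _

theorem piW_pos {F : ℕ → ℝ} (hF : Good F) (x : V) : 0 < piW F x :=
  Finset.sum_pos (fun d _ => cc_pos hF x d) Finset.univ_nonempty

theorem piW_PP {F : ℕ → ℝ} (hF : Good F) (φ : V → ℝ) (x : V) :
    piW F x * PP F φ x = ∑ d, cc F x d * φ (x + dir d) := by
  unfold PP P
  rw [Finset.mul_sum]
  refine Finset.sum_congr rfl fun d _ => ?_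
  have := (piW_pos hF x).ne'
  field_simp

theorem piW_diff {F : ℕ → ℝ} (hF : Good F) (φ : V → ℝ) (x : V) :
    piW F x * (PP F φ x - φ x) = ∑ d, cc F x d * (φ (x + dir d) - φ x) := by
  rw [mul_sub, piW_PP hF, piW, Finset.sum_mul, ← Finset.sum_sub_distrib]
  exact Finset.sum_congr rfl fun d _ => by ring

theorem mem_rng (x : V) (m : ℕ) : x ∈ rng m ↔ nrm x = m := by
  rw [rng, Finset.mem_filter, mem_box]
  exact ⟨fun h => h.2, fun h => ⟨h.le, h⟩⟩

/-- part of the boundary flux -/
noncomputable def TT (φ : V → ℝ) (m k : ℕ) (G : ℝ) : ℝ :=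
  ∑ x ∈ box (m + 1), (if nrm x = m + 1 then
    ∑ d, (if nrm (x + dir d) = k then G * (φ (x + dir d) - φ x) else 0) else 0)

theorem card_right (m : ℕ) : ∀ d : Fin 4,
    ((rng m).filter (fun x => nrm (x + dir d) = m + 1)).card = 2 * m + 1 := by
  have hc : ∀ a : ℤ, (({a} : Finset ℤ) ×ˢ Finset.Icc (-(m : ℤ)) m).card = 2 * m + 1 := by
    intro a
    rw [Finset.card_product, Finset.card_singleton, Int.card_Icc]
    omega
  have hc' : ∀ a : ℤ, ((Finset.Icc (-(m : ℤ)) m) ×ˢ ({a} : Finset ℤ)).card = 2 * m + 1 := by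
    intro a
    rw [Finset.card_product, Finset.card_singleton, Int.card_Icc]
    omega
  intro d
  fin_cases d
  · rw [← hc m]
    congr 1
    ext ⟨a, b⟩
    rw [Finset.mem_filter, mem_rng, Finset.mem_product, Finset.mem_singleton, Finset.mem_Icc]
    simp only [nrm, dir, Prod.fst_add, Prod.snd_add]
    simp
    omega
  · rw [← hc (-m)]
    congr 1
    ext ⟨a, b⟩
    rw [Finset.mem_filter, mem_rng, Finset.mem_product, Finset.mem_singleton, Finset.mem_Icc]
    simp only [nrm, dir, Prod.fst_add, Prod.snd_add]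
    simp
    omega
  · rw [← hc' m]
    congr 1
    ext ⟨a, b⟩
    rw [Finset.mem_filter, mem_rng, Finset.mem_product, Finset.mem_singleton, Finset.mem_Icc]
    simp only [nrm, dir, Prod.fst_add, Prod.snd_add]
    simp
    omega
  · rw [← hc' (-m)]
    congr 1
    ext ⟨a, b⟩
    rw [Finset.mem_filter, mem_rng, Finset.mem_product, Finset.mem_singleton, Finset.mem_Icc]
    simp only [nrm, dir, Prod.fst_add, Prod.snd_add]
    simp
    omega

end Energy

open Energy

theorem piece_en : S_en := by
  intro F hF N φ hφ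
  have hsw := swap N (fun x d => cc F x d * φ (x + dir d) ^ 2)
    (fun x hx d => by
      rw [mem_box] at hx
      rw [hφ (x + dir d) (by have := nrm_le_add_dir x d; omega)]
      ring)
    (fun x hx d => by
      rw [mem_box] at hx
      simp only [add_opp]
      rw [hφ x (by omega)]
      ring)
  simp only [add_opp, cc_symm] at hsw
  have e1 : En F N φ = ∑ x ∈ box N, ∑ d, cc F x d * φ (x + dir d) ^ 2 +
      ∑ x ∈ box N, ∑ d, (cc F x d * φ x ^ 2 - 2 * (cc F x d * φ (x + dir d) * φ x)) := by
    unfold En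
    rw [← Finset.sum_add_distrib]
    refine Finset.sum_congr rfl fun x _ => ?_
    rw [← Finset.sum_add_distrib]
    exact Finset.sum_congr rfl fun d _ => by ring
  rw [e1, hsw, ← Finset.sum_add_distrib, Finset.mul_sum]
  refine Finset.sum_congr rfl fun x _ => ?_
  have e2 : piW F x * (φ x * (φ x - PP F φ x)) = -(φ x * (piW F x * (PP F φ x - φ x))) := by ring
  rw [e2, piW_diff hF, ← Finset.sum_add_distrib, Finset.mul_sum, ← Finset.sum_neg_distrib,
    Finset.mul_sum]
  exact Finset.sum_congr rfl fun d _ => by ring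

theorem piece_flux : S_flux := by
  intro F hF m φ
  -- third part
  have h3 : Cur F m φ = -TT φ m m (F (m + 1)) := by
    have hsw := swap (m + 1) (fun x d => if nrm x = m ∧ nrm (x + dir d) = m + 1 then
        F (m + 1) * (φ (x + dir d) - φ x) else 0)
      (fun x hx d => by
        rw [mem_box] at hx
        rw [if_neg (by omega)])
      (fun x hx d => by
        rw [mem_box] at hx
        simp only [add_opp]
        rw [if_neg (by omega)])
    simp only [add_opp] at hsw
    have e1 : Cur F m φ = ∑ x ∈ box (m + 1), ∑ d, (if nrm x = m ∧ nrm (x + dir d) = m + 1 then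
        F (m + 1) * (φ (x + dir d) - φ x) else 0) := by
      unfold Cur
      rw [sum_rng (m + 1) m (by omega)]
      refine Finset.sum_congr rfl fun x _ => ?_
      split_ifs with h
      · exact Finset.sum_congr rfl fun d _ => by simp [h]
      · symm
        exact Finset.sum_eq_zero fun d _ => by simp [h]
    rw [e1, hsw, TT, ← Finset.sum_neg_distrib]
    refine Finset.sum_congr rfl fun x _ => ?_
    split_ifs with h
    · rw [← Finset.sum_neg_distrib]
      refine Finset.sum_congr rfl fun d _ => ?_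
      by_cases h' : nrm (x + dir d) = m
      · rw [if_pos ⟨h', h⟩, if_pos h']
        ring
      · rw [if_neg (fun hh => h' hh.1), if_neg h', neg_zero]
    · rw [neg_zero]
      exact Finset.sum_eq_zero fun d _ => by simp [h]
  -- second part
  have h2 : TT φ m (m + 1) (F (m + 1)) = 0 := by
    have hsw := swap (m + 1) (fun x d => if nrm x = m + 1 ∧ nrm (x + dir d) = m + 1 then
        F (m + 1) * (φ (x + dir d) - φ x) else 0)
      (fun x hx d => by
        rw [mem_box] at hx
        rw [if_neg (by omega)])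
      (fun x hx d => by
        rw [mem_box] at hx
        simp only [add_opp]
        rw [if_neg (by omega)])
    simp only [add_opp] at hsw
    have e1 : ∑ x ∈ box (m + 1), ∑ d, (if nrm (x + dir d) = m + 1 ∧ nrm x = m + 1 then
        F (m + 1) * (φ x - φ (x + dir d)) else 0) =
      -∑ x ∈ box (m + 1), ∑ d, (if nrm x = m + 1 ∧ nrm (x + dir d) = m + 1 then
        F (m + 1) * (φ (x + dir d) - φ x) else 0) := by
      rw [← Finset.sum_neg_distrib]
      refine Finset.sum_congr rfl fun x _ => ?_
      rw [← Finset.sum_neg_distrib]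
      refine Finset.sum_congr rfl fun d _ => ?_
      by_cases h : nrm x = m + 1 ∧ nrm (x + dir d) = m + 1
      · rw [if_pos h, if_pos ⟨h.2, h.1⟩]
        ring
      · rw [if_neg h, if_neg (fun hh => h ⟨hh.2, hh.1⟩), neg_zero]
    have e2 : TT φ m (m + 1) (F (m + 1)) =
        ∑ x ∈ box (m + 1), ∑ d, (if nrm x = m + 1 ∧ nrm (x + dir d) = m + 1 then
        F (m + 1) * (φ (x + dir d) - φ x) else 0) := by
      unfold TT
      refine Finset.sum_congr rfl fun x _ => ?_
      split_ifs with h
      · exact Finset.sum_congr rfl fun d _ => by simp [h]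
      · symm
        exact Finset.sum_eq_zero fun d _ => by simp [h]
    rw [e2]
    linarith
  have h1 : Cur F (m + 1) φ = TT φ m (m + 1 + 1) (F (m + 1 + 1)) := by
    unfold Cur TT
    rw [sum_rng (m + 1) (m + 1) le_rfl]
  have h4 : ∑ x ∈ rng (m + 1), piW F x * (PP F φ x - φ x) =
      TT φ m (m + 1 + 1) (F (m + 1 + 1)) + TT φ m (m + 1) (F (m + 1)) + TT φ m m (F (m + 1)) := by
    unfold TT
    rw [sum_rng (m + 1) (m + 1) le_rfl, ← Finset.sum_add_distrib, ← Finset.sum_add_distrib]
    refine Finset.sum_congr rfl fun x _ => ?_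
    by_cases h : nrm x = m + 1
    · simp only [h, if_true]
      rw [piW_diff hF, ← Finset.sum_add_distrib, ← Finset.sum_add_distrib]
      refine Finset.sum_congr rfl fun d _ => ?_
      have g1 := nrm_add_dir x d
      have g2 := nrm_le_add_dir x d
      rw [h] at g1 g2
      have g3 : nrm (x + dir d) = m ∨ nrm (x + dir d) = m + 1 ∨ nrm (x + dir d) = m + 1 + 1 := by
        omega
      unfold cc
      rcases g3 with g | g | g
      · rw [h, g, if_neg (by omega), if_neg (by omega), if_pos rfl, max_eq_left (by omega)]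
        ring
      · rw [h, g, if_neg (by omega), if_pos rfl, if_neg (by omega), max_eq_left (by omega)]
        ring
      · rw [h, g, if_pos rfl, if_neg (by omega), if_neg (by omega), max_eq_right (by omega)]
        ring
    · simp [h]
  rw [h4, h1, h3, h2]
  ring

theorem piece_flux0 : S_flux0 := by
  intro F hF φ
  have e0 : rng 0 = {(0 : V)} := by
    ext ⟨a, b⟩
    rw [mem_rng, Finset.mem_singleton, Prod.mk_eq_zero]
    simp only [nrm]
    omega
  rw [piW_diff hF]
  unfold Cur
  rw [e0, Finset.sum_singleton]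
  refine Finset.sum_congr rfl fun d _ => ?_
  have e1 : nrm (0 + dir d) = 1 := by
    fin_cases d <;> simp [nrm, dir]
  have e2 : nrm (0 : V) = 0 := by simp [nrm]
  unfold cc
  rw [e1, e2, if_pos rfl]
  simp

theorem piece_cut : S_cut := by
  intro m
  rw [Finset.sum_comm]
  have : ∀ d : Fin 4, ∑ x ∈ rng m, (if nrm (x + dir d) = m + 1 then (1 : ℝ) else 0) =
      2 * m + 1 := by
    intro d
    rw [← Finset.sum_filter, Finset.sum_const, card_right]
    simp
  simp only [this, Fin.sum_univ_four]
  ring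

end Pool.Agent.R812.TC
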