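import Pool.Agent.R812.TC.Stm

/-! Project TC, piece EXIST: existence of the Markov chain. The construction of a chain on a
countable type is copied from `Pool.Agent.TH996.Urn.Exist`. -/

set_option autoImplicit false

open MeasureTheory

namespace Pool.Agent.R812.TC

namespace EXIST

open Finset ProbabilityTheory Preorder
open scoped ENNReal

/-- Markov chains on a countable type -/
theorem chain {S : Type} [Countable S] (p : S → S → ℝ≥0∞) (hp : ∀ x, ∑' y, p x y = 1) (o : S) :
    ∃ (Ω : Type) (_ : MeasurableSpace Ω) (P : Measure Ω) (X : ℕ → Ω → S),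
      IsProbabilityMeasure P ∧ (∀ n y, MeasurableSet {ω | X n ω = y}) ∧
      P {ω | X 0 ω = o} = 1 ∧
      ∀ (t : ℕ) (x : ℕ → S) (y : S), P {ω | (∀ i ≤ t, X i ω = x i) ∧ X (t + 1) ω = y} =
        P {ω | ∀ i ≤ t, X i ω = x i} * p (x t) y := by
  classical
  let mV : MeasurableSpace S := ⊤
  have : DiscreteMeasurableSpace S := ⟨fun _ => trivial⟩
  let κf : (n : ℕ) → ((i : Finset.Iic n) → S) → Measure S := fun n z =>
    Measure.sum (fun y => p (z ⟨n, Finset.mem_Iic.mpr le_rfl⟩) y • Measure.dirac y)
  have κf_single : ∀ n z y, κf n z {y} = p (z ⟨n, Finset.mem_Iic.mpr le_rfl⟩) y := by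
    intro n z y
    simp only [κf]
    rw [Measure.sum_apply _ (MeasurableSet.singleton y)]
    rw [tsum_eq_single y]
    · simp
    · intro b hb
      simp [hb]
  have κf_prob : ∀ n z, IsProbabilityMeasure (κf n z) := by
    intro n z
    refine ⟨?_⟩
    simp only [κf]
    rw [Measure.sum_apply _ MeasurableSet.univ]
    simp only [Measure.smul_apply, measure_univ, smul_eq_mul, mul_one]
    exact hp _
  let κ : (n : ℕ) → Kernel ((i : Finset.Iic n) → S) S := fun n =>
    { toFun := κf n
      measurable' := measurable_of_countable _ }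
  have : ∀ n, IsMarkovKernel (κ n) := fun n => ⟨fun z => κf_prob n z⟩
  let P : Measure ((n : ℕ) → S) := Kernel.trajMeasure (X := fun _ => S) (Measure.dirac o) κ
  have : IsProbabilityMeasure P := by
    show IsProbabilityMeasure (Kernel.trajMeasure (X := fun _ => S) (Measure.dirac o) κ)
    infer_instance
  refine ⟨ℕ → S, inferInstance, P, fun n ω => ω n, inferInstance, ?_, ?_, ?_⟩
  · intro t v
    exact (measurable_pi_apply (X := fun _ : ℕ => S) t) (MeasurableSet.singleton v)
  · have hmap : P.map (fun ω => ω 0) = Measure.dirac o := by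
      have h1 : P.map (frestrictLe 0) = (Measure.dirac o).map (MeasurableEquiv.piUnique
          ((fun i : Finset.Iic 0 ↦ S))).symm := by
        show (Kernel.trajMeasure (X := fun _ => S) (Measure.dirac o) κ).map (frestrictLe 0) = _
        rw [Kernel.trajMeasure, Measure.map_comp _ _ (by fun_prop), Kernel.traj_map_frestrictLe,
          Kernel.partialTraj_self, Measure.id_comp]
      have h2 : (fun ω : ℕ → S => ω 0) = (fun z : (i : Finset.Iic 0) → S =>
          z ⟨0, Finset.mem_Iic.mpr le_rfl⟩) ∘ (frestrictLe 0) := rfl
      rw [h2, ← Measure.map_map (by fun_prop) (by fun_prop), h1, Measure.map_map (by fun_prop)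
        (by fun_prop)]
      convert Measure.map_id using 2
      funext v
      rfl
    have : {ω : ℕ → S | ω 0 = o} = (fun ω => ω 0) ⁻¹' {o} := by ext; simp
    rw [this, ← Measure.map_apply (by fun_prop) (MeasurableSet.singleton o), hmap]
    simp
  · intro t x y
    have hk := Kernel.map_frestrictLe_trajMeasure_compProd_eq_map_trajMeasure
      (X := fun _ => S) (μ₀ := Measure.dirac o) (κ := κ) (a := t)
    have e1 : {ω : ℕ → S | (∀ s ≤ t, ω s = x s) ∧ ω (t + 1) = y} =
        (fun ω : ℕ → S => (frestrictLe (π := fun _ => S) t ω, ω (t + 1))) ⁻¹'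
          ({frestrictLe (π := fun _ => S) t x} ×ˢ {y}) := by
      ext ω
      simp only [Set.mem_ofPred_eq, Set.mem_preimage, Set.mem_prod, Set.mem_singleton_iff]
      constructor
      · rintro ⟨h1, h2⟩
        refine ⟨?_, h2⟩
        funext i
        exact h1 i (Finset.mem_Iic.mp i.2)
      · rintro ⟨h1, h2⟩
        refine ⟨fun s hs => ?_, h2⟩
        exact congrFun h1 ⟨s, Finset.mem_Iic.mpr hs⟩
    have e2 : {ω : ℕ → S | ∀ s ≤ t, ω s = x s} =
        (frestrictLe (π := fun _ => S) t) ⁻¹' {frestrictLe (π := fun _ => S) t x} := by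
      ext ω
      simp only [Set.mem_ofPred_eq, Set.mem_preimage, Set.mem_singleton_iff]
      constructor
      · intro h1
        funext i
        exact h1 i (Finset.mem_Iic.mp i.2)
      · intro h1 s hs
        exact congrFun h1 ⟨s, Finset.mem_Iic.mpr hs⟩
    have hm1 : MeasurableSet ({frestrictLe (π := fun _ => S) t x} :
      Set ((i : Finset.Iic t) → S)) := MeasurableSet.singleton _
    rw [e1, ← Measure.map_apply (by fun_prop) (hm1.prod (MeasurableSet.singleton y))]
    show (Measure.map _ (Kernel.trajMeasure (X := fun _ => S) (Measure.dirac o) κ)) _ = _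
    rw [← hk, Measure.compProd_apply_prod hm1 (MeasurableSet.singleton y)]
    rw [e2, ← Measure.map_apply (by fun_prop) hm1]
    rw [lintegral_singleton]
    have : (κ t) (frestrictLe (π := fun _ => S) t x) {y} = p (x t) y := by
      show κf t _ {y} = _
      rw [κf_single]
      rfl
    rw [this, mul_comm]


end EXIST

open EXIST in
theorem piece_exist (hP : S_P) : S_exist := by
  intro F hF x0
  have hP0 : ∀ x d, 0 ≤ P F x d := fun x d => by
    have := (hP F hF x).1 d
    linarith
  have hsum : ∀ x, ∑' y, ENNReal.ofReal (pK F x y) = 1 := by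
    intro x
    have e1 : ∀ y, ENNReal.ofReal (pK F x y) =
        ∑ d, ENNReal.ofReal (if x + dir d = y then P F x d else 0) := by
      intro y
      unfold pK
      rw [ENNReal.ofReal_sum_of_nonneg]
      intro d _
      split_ifs
      · exact hP0 x d
      · exact le_rfl
    simp_rw [e1]
    rw [Summable.tsum_finsetSum (fun d _ => ENNReal.summable)]
    have e2 : ∀ d : Fin 4, ∑' y, ENNReal.ofReal (if x + dir d = y then P F x d else 0) =
        ENNReal.ofReal (P F x d) := by
      intro d
      rw [tsum_eq_single (x + dir d)]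
      · rw [if_pos rfl]
      · intro y hy
        rw [if_neg (Ne.symm hy), ENNReal.ofReal_zero]
    simp_rw [e2]
    rw [← ENNReal.ofReal_sum_of_nonneg (fun d _ => hP0 x d), (hP F hF x).2.1, ENNReal.ofReal_one]
  obtain ⟨Ω, mΩ, μ, X, hμ, hX, h0, hstep⟩ := chain (fun x y => ENNReal.ofReal (pK F x y)) hsum x0
  refine ⟨Ω, mΩ, μ, X, hμ, ?_, ?_⟩
  · intro k
    apply measurable_to_countable'
    intro y
    exact hX k y
  · intro k x
    have hpK : ∀ x y, 0 ≤ pK F x y := by
      intro x y
      unfold pK
      apply Finset.sum_nonneg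
      intro d _
      split_ifs
      · exact hP0 x d
      · exact le_rfl
    induction k with
    | zero =>
      have e : {ω | ∀ i ≤ 0, X i ω = x i} = {ω | X 0 ω = x 0} := by
        ext ω
        simp only [Set.mem_ofPred_eq]
        constructor
        · intro h
          exact h 0 le_rfl
        · intro h i hi
          have : i = 0 := Nat.le_zero.1 hi
          rw [this]
          exact h
      rw [e]
      by_cases hx : x 0 = x0
      · rw [if_pos hx, hx, h0]
        simp
      · rw [if_neg hx]
        have hsub : {ω | X 0 ω = x 0} ⊆ {ω | X 0 ω = x0}ᶜ := by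
          intro ω hω hω'
          have h1 : X 0 ω = x 0 := hω
          have h2 : X 0 ω = x0 := hω'
          exact hx (h1.symm.trans h2)
        apply measure_mono_null hsub
        rw [prob_compl_eq_one_sub (hX 0 x0), h0]
        simp
    | succ k ih =>
      have e : {ω | ∀ i ≤ k + 1, X i ω = x i} =
          {ω | (∀ i ≤ k, X i ω = x i) ∧ X (k + 1) ω = x (k + 1)} := by
        ext ω
        simp only [Set.mem_ofPred_eq]
        constructor
        · intro h
          exact ⟨fun i hi => h i (by omega), h (k + 1) le_rfl⟩
        · rintro ⟨h1, h2⟩ i hi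
          rcases Nat.lt_or_ge i (k + 1) with h | h
          · exact h1 i (by omega)
          · have : i = k + 1 := by omega
            rw [this]
            exact h2
      rw [e, hstep, ih]
      by_cases hx : x 0 = x0
      · rw [if_pos hx, if_pos hx, Finset.prod_range_succ, ENNReal.ofReal_mul
          (Finset.prod_nonneg (fun i _ => hpK _ _))]
      · rw [if_neg hx, if_neg hx, zero_mul]

end Pool.Agent.R812.TC
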