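import Pool.Agent.R812.TC.Stm

/-! Project TC, piece LINE: oscillation of a function on one line in terms of the energy. -/

namespace Pool.Agent.R812.TC
open Finset

/-- first coordinate of the walk around the ring -/
def lgx (a k : ℕ) : ℤ :=
  if k ≤ 2 * a then a else if k ≤ 4 * a then 3 * a - k else if k ≤ 6 * a then -a else k - 7 * a

/-- second coordinate of the walk around the ring -/
def lgy (a k : ℕ) : ℤ :=
  if k ≤ 2 * a then k - a else if k ≤ 4 * a then a else if k ≤ 6 * a then 5 * a - k else -a

/-- the walk around the ring -/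
def lgam (a k : ℕ) : V := (lgx a k, lgy a k)

/-- its directions -/
def ldr (a k : ℕ) : Fin 4 :=
  if k < 2 * a then 2 else if k < 4 * a then 1 else if k < 6 * a then 3 else 0

/-- the opposite direction -/
def lopp (d : Fin 4) : Fin 4 := ![1, 0, 3, 2] d

lemma dir_lopp (d : Fin 4) : dir (lopp d) = - dir d := by
  fin_cases d <;> simp [dir, lopp]

lemma lgam_succ {a k : ℕ} (hk : k < 8 * a) : lgam a (k + 1) = lgam a k + dir (ldr a k) := by
  unfold lgam ldr
  rcases lt_or_ge k (2 * a) with h1 | h1
  · rw [if_pos h1]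
    ext
    · simp only [lgx, dir, Prod.fst_add]
      rw [if_pos (by omega), if_pos (by omega)]
      simp
    · simp only [lgy, dir, Prod.snd_add]
      rw [if_pos (by omega), if_pos (by omega)]
      simp
      ring
  · rw [if_neg (by omega)]
    rcases lt_or_ge k (4 * a) with h2 | h2
    · rw [if_pos h2]
      ext
      · simp only [lgx, dir, Prod.fst_add]
        simp
        split_ifs <;> omega
      · simp only [lgy, dir, Prod.snd_add]
        simp
        split_ifs <;> omega
    · rw [if_neg (by omega)]
      rcases lt_or_ge k (6 * a) with h3 | h3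
      · rw [if_pos h3]
        ext
        · simp only [lgx, dir, Prod.fst_add]
          simp
          split_ifs <;> omega
        · simp only [lgy, dir, Prod.snd_add]
          simp
          split_ifs <;> omega
      · rw [if_neg (by omega)]
        ext
        · simp only [lgx, dir, Prod.fst_add]
          simp
          split_ifs <;> omega
        · simp only [lgy, dir, Prod.snd_add]
          simp
          split_ifs <;> omega

lemma nrm_lgam {a k : ℕ} (hk : k ≤ 8 * a) : nrm (lgam a k) = a := by
  simp only [nrm, lgam, lgx, lgy]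
  split_ifs <;> omega

lemma exists_lgam {a : ℕ} {x : V} (hx : nrm x = a) : ∃ k ≤ 8 * a, lgam a k = x := by
  obtain ⟨u, v⟩ := x
  simp only [nrm] at hx
  have h : (u = a) ∨ (v = a) ∨ (u = -a) ∨ (v = -a) := by omega
  rcases h with h | h | h | h
  · refine ⟨(v + a).toNat, by omega, ?_⟩
    simp only [lgam, lgx, lgy, Prod.mk.injEq]
    constructor
    · split_ifs <;> omega
    · split_ifs <;> omega
  · refine ⟨(3 * a - u).toNat, by omega, ?_⟩
    simp only [lgam, lgx, lgy, Prod.mk.injEq]
    constructor
    · split_ifs <;> omega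
    · split_ifs <;> omega
  · refine ⟨(5 * a - v).toNat, by omega, ?_⟩
    simp only [lgam, lgx, lgy, Prod.mk.injEq]
    constructor
    · split_ifs <;> omega
    · split_ifs <;> omega
  · refine ⟨(7 * a + u).toNat, by omega, ?_⟩
    simp only [lgam, lgx, lgy, Prod.mk.injEq]
    constructor
    · split_ifs <;> omega
    · split_ifs <;> omega

/-- the edges of the ring in both orientations -/
def ledge (a : ℕ) (z : Bool × ℕ) : V × Fin 4 :=
  if z.1 then (lgam a (z.2 + 1), lopp (ldr a z.2)) else (lgam a z.2, ldr a z.2)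

lemma lgam_r1 {a k : ℕ} (h : k ≤ 2 * a) : lgam a k = ((a : ℤ), (k : ℤ) - a) := by
  simp only [lgam, lgx, lgy, Prod.mk.injEq]
  constructor
  · split_ifs <;> omega
  · split_ifs <;> omega

lemma lgam_r2 {a k : ℕ} (h : 2 * a ≤ k) (h' : k ≤ 4 * a) :
    lgam a k = (3 * (a : ℤ) - k, (a : ℤ)) := by
  simp only [lgam, lgx, lgy, Prod.mk.injEq]
  constructor
  · split_ifs <;> omega
  · split_ifs <;> omega

lemma lgam_r3 {a k : ℕ} (h : 4 * a ≤ k) (h' : k ≤ 6 * a) :
    lgam a k = (-(a : ℤ), 5 * (a : ℤ) - k) := by
  simp only [lgam, lgx, lgy, Prod.mk.injEq]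
  constructor
  · split_ifs <;> omega
  · split_ifs <;> omega

lemma lgam_r4 {a k : ℕ} (h : 6 * a ≤ k) (h' : k ≤ 8 * a) :
    lgam a k = ((k : ℤ) - 7 * a, -(a : ℤ)) := by
  simp only [lgam, lgx, lgy, Prod.mk.injEq]
  constructor
  · split_ifs <;> omega
  · split_ifs <;> omega

/-- left inverse of the parametrization of the edges -/
def lback (a : ℕ) (q : V × Fin 4) : Bool × ℕ :=
  if q.2 = 2 then
    (if q.1.1 = a then (false, (q.1.2 + a).toNat) else (true, (5 * a - q.1.2 - 1).toNat))
  else if q.2 = 1 then
    (if q.1.2 = a then (false, (3 * a - q.1.1).toNat) else (true, (q.1.1 + 7 * a - 1).toNat))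
  else if q.2 = 3 then
    (if q.1.1 = -a then (false, (5 * a - q.1.2).toNat) else (true, (q.1.2 + a - 1).toNat))
  else
    (if q.1.2 = -a then (false, (q.1.1 + 7 * a).toNat) else (true, (3 * a - q.1.1 - 1).toNat))

lemma lback_ledge {a : ℕ} (ha : 1 ≤ a) {z : Bool × ℕ} (hz : z.2 < 8 * a) :
    lback a (ledge a z) = z := by
  obtain ⟨b, k⟩ := z
  simp only at hz
  have hreg : k < 2 * a ∨ (2 * a ≤ k ∧ k < 4 * a) ∨ (4 * a ≤ k ∧ k < 6 * a) ∨ 6 * a ≤ k := by
    omega
  rcases hreg with h | h | h | h
  · have hd : ldr a k = 2 := by simp only [ldr]; rw [if_pos (by omega)]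
    cases b
    · simp only [ledge, hd, Bool.false_eq_true, if_false, lgam_r1 h.le, lback]
      simp
    · have h3 : lopp 2 = 3 := rfl
      simp only [ledge, hd, if_true, lgam_r1 (Nat.succ_le_of_lt h), lback, h3]
      repeat rw [if_neg (by first | decide | omega)]
      simp only [Prod.mk.injEq, true_and]
      push_cast
      omega
  · have hd : ldr a k = 1 := by
      simp only [ldr]; rw [if_neg (by omega), if_pos (by omega)]
    cases b
    · simp only [ledge, hd, Bool.false_eq_true, if_false, if_true, lgam_r2 h.1 h.2.le, lback]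
      repeat rw [if_neg (by first | decide | omega)]
      simp only [Prod.mk.injEq, true_and]
      omega
    · have h3 : lopp 1 = 0 := rfl
      simp only [ledge, hd, if_true, lgam_r2 (a := a) (k := k + 1) (by omega) (by omega), lback, h3]
      repeat rw [if_neg (by first | decide | omega)]
      simp only [Prod.mk.injEq, true_and]
      push_cast
      omega
  · have hd : ldr a k = 3 := by
      simp only [ldr]; rw [if_neg (by omega), if_neg (by omega), if_pos (by omega)]
    cases b
    · simp only [ledge, hd, Bool.false_eq_true, if_false, if_true, lgam_r3 h.1 h.2.le, lback]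
      repeat rw [if_neg (by first | decide | omega)]
      simp only [Prod.mk.injEq, true_and]
      omega
    · have h3 : lopp 3 = 2 := rfl
      simp only [ledge, hd, if_true, lgam_r3 (a := a) (k := k + 1) (by omega) (by omega), lback, h3]
      repeat rw [if_neg (by first | decide | omega)]
      simp only [Prod.mk.injEq, true_and]
      push_cast
      omega
  · have hd : ldr a k = 0 := by
      simp only [ldr]; rw [if_neg (by omega), if_neg (by omega), if_neg (by omega)]
    cases b
    · simp only [ledge, hd, Bool.false_eq_true, if_false, if_true, lgam_r4 h hz.le, lback]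
      repeat rw [if_neg (by first | decide | omega)]
      simp only [Prod.mk.injEq, true_and]
      omega
    · have h3 : lopp 0 = 1 := rfl
      simp only [ledge, hd, if_true, lgam_r4 (a := a) (k := k + 1) (by omega) (by omega), lback, h3]
      repeat rw [if_neg (by first | decide | omega)]
      simp only [Prod.mk.injEq, true_and]
      push_cast
      omega

lemma line_energy {F : ℕ → ℝ} (hF : Good F) {a N : ℕ} (ha : 1 ≤ a) (haN : a ≤ N) (φ : V → ℝ) :
    2 * ∑ k ∈ range (8 * a), F a * (φ (lgam a (k + 1)) - φ (lgam a k)) ^ 2 ≤ En F N φ := by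
  classical
  let T : V × Fin 4 → ℝ := fun q => cc F q.1 q.2 * (φ (q.1 + dir q.2) - φ q.1) ^ 2
  have hEn : En F N φ = ∑ q ∈ box N ×ˢ (univ : Finset (Fin 4)), T q := by
    rw [En, Finset.sum_product]
  have hT0 : ∀ q, 0 ≤ T q := fun q => mul_nonneg (hF.1 _).le (sq_nonneg _)
  have hinj : Set.InjOn (ledge a) ((univ : Finset Bool) ×ˢ range (8 * a) : Finset (Bool × ℕ)) := by
    intro z hz z' hz' h
    rw [Finset.mem_coe, Finset.mem_product, Finset.mem_range] at hz hz'
    rw [← lback_ledge ha hz.2, ← lback_ledge ha hz'.2, h]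
  have hsub : ((univ : Finset Bool) ×ˢ range (8 * a)).image (ledge a) ⊆
      box N ×ˢ (univ : Finset (Fin 4)) := by
    intro q hq
    obtain ⟨z, hz, rfl⟩ := Finset.mem_image.1 hq
    rw [Finset.mem_product, Finset.mem_range] at hz
    rw [Finset.mem_product]
    refine ⟨?_, Finset.mem_univ _⟩
    have hbox : ∀ x : V, nrm x = a → x ∈ box N := by
      intro x hx
      simp only [nrm] at hx
      simp only [box, Finset.mem_product, Finset.mem_Icc]
      omega
    apply hbox
    obtain ⟨b, k⟩ := z
    cases b
    · exact nrm_lgam (by have := hz.2; simp only at this; omega)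
    · exact nrm_lgam (by have := hz.2; simp only at this; omega)
  have hccf : ∀ k < 8 * a, T (ledge a (false, k)) =
      F a * (φ (lgam a (k + 1)) - φ (lgam a k)) ^ 2 := by
    intro k hk
    simp only [T, ledge, Bool.false_eq_true, if_false, cc]
    rw [← lgam_succ hk, nrm_lgam hk.le, nrm_lgam (Nat.succ_le_of_lt hk), max_self]
  have hcct : ∀ k < 8 * a, T (ledge a (true, k)) =
      F a * (φ (lgam a (k + 1)) - φ (lgam a k)) ^ 2 := by
    intro k hk
    have he : lgam a (k + 1) + dir (lopp (ldr a k)) = lgam a k := by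
      rw [lgam_succ hk, dir_lopp]
      simp
    simp only [T, ledge, if_true, cc]
    rw [he, nrm_lgam hk.le, nrm_lgam (Nat.succ_le_of_lt hk), max_self]
    ring
  have hsum : ∑ z ∈ (univ : Finset Bool) ×ˢ range (8 * a), T (ledge a z) =
      2 * ∑ k ∈ range (8 * a), F a * (φ (lgam a (k + 1)) - φ (lgam a k)) ^ 2 := by
    rw [Finset.sum_product, Fintype.sum_bool,
      Finset.sum_congr rfl (fun k hk => hccf k (Finset.mem_range.1 hk)),
      Finset.sum_congr rfl (fun k hk => hcct k (Finset.mem_range.1 hk))]
    ring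
  rw [← hsum, hEn, ← Finset.sum_image (f := T) hinj]
  exact Finset.sum_le_sum_of_subset_of_nonneg hsub fun q _ _ => hT0 q

theorem piece_line : S_line := by
  intro F hF a N φ x y ha haN hx hy
  have hFa := hF.1 a
  have ha' : (0 : ℝ) < a := by exact_mod_cast ha
  have hE := line_energy hF ha haN φ
  rw [← Finset.mul_sum] at hE
  set S := ∑ k ∈ range (8 * a), (φ (lgam a (k + 1)) - φ (lgam a k)) ^ 2 with hS
  have key : ∀ i j : ℕ, i ≤ j → j ≤ 8 * a →
      (φ (lgam a j) - φ (lgam a i)) ^ 2 ≤ 8 * a * S := by
    intro i j hij hj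
    have h1 : φ (lgam a j) - φ (lgam a i) =
        ∑ k ∈ Ico i j, (φ (lgam a (k + 1)) - φ (lgam a k)) := by
      rw [Finset.sum_Ico_sub (fun k => φ (lgam a k)) hij]
    rw [h1]
    refine (sq_sum_le_card_mul_sum_sq).trans ?_
    rw [Nat.card_Ico]
    have h2 : ∑ k ∈ Ico i j, (φ (lgam a (k + 1)) - φ (lgam a k)) ^ 2 ≤ S := by
      apply Finset.sum_le_sum_of_subset_of_nonneg
      · intro k hk
        rw [Finset.mem_Ico] at hk
        rw [Finset.mem_range]
        omega
      · intro _ _ _
        positivity
    have h3 : ((j - i : ℕ) : ℝ) ≤ 8 * a := by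
      have : j - i ≤ 8 * a := by omega
      exact_mod_cast this
    have h4 : 0 ≤ ∑ k ∈ Ico i j, (φ (lgam a (k + 1)) - φ (lgam a k)) ^ 2 :=
      Finset.sum_nonneg fun _ _ => sq_nonneg _
    exact mul_le_mul h3 h2 h4 (by positivity)
  have key2 : (φ x - φ y) ^ 2 ≤ 8 * a * S := by
    obtain ⟨i, hi, rfl⟩ := exists_lgam hx
    obtain ⟨j, hj, rfl⟩ := exists_lgam hy
    rcases le_total i j with h | h
    · have := key i j h hj
      calc (φ (lgam a i) - φ (lgam a j)) ^ 2 = (φ (lgam a j) - φ (lgam a i)) ^ 2 := by ring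
        _ ≤ _ := this
    · exact key j i h hi
  refine key2.trans ?_
  rw [div_mul_eq_mul_div, le_div_iff₀ hFa]
  nlinarith

end Pool.Agent.R812.TC
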