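import Pool.Agent.R812.TC.Stm

set_option autoImplicit false

/-! Project TC: piece LINK. -/

namespace Pool.Agent.R812.TC
open Finset

/-- the norm changes by at most one in a step -/
theorem LINK_nrm (x : V) (d : Fin 4) : nrm (x + dir d) ≤ nrm x + 1 ∧ nrm x ≤ nrm (x + dir d) + 1 := by
  obtain ⟨a, b⟩ := x
  fin_cases d <;> simp [nrm, dir] <;> omega

/-- the invariants of the line process -/
theorem LINK_inv (n : ℕ → ℕ) (hn : StrictMono n) (h0 : n 0 = 0) (J : ℕ) (hJ : 1 ≤ J)
    (w : List (Fin 4)) : (ls n J w).1 ≤ J ∧ ((ls n J w).1 < J →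
      nrm (pos w) < n ((ls n J w).1 + 1) ∧
      (1 ≤ (ls n J w).1 → n ((ls n J w).1 - 1) < nrm (pos w))) := by
  induction w with
  | nil =>
    have h1 : n 0 < n 1 := hn (by norm_num)
    refine ⟨by simp [ls], fun _ => ⟨?_, fun h => by simp [ls] at h⟩⟩
    simp only [ls, pos]
    simp only [nrm]
    simpa [h0] using h1
  | cons d w ih =>
    obtain ⟨i1, i2⟩ := ih
    have hd := LINK_nrm (pos w) d
    have hp : pos (d :: w) = pos w + dir d := rfl
    generalize hi : (ls n J w).1 = i at *
    unfold ls
    rw [hi]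
    split_ifs with c1 c2 c3
    · rw [hi]; exact ⟨i1, fun h => by omega⟩
    · refine ⟨by simp only; omega, fun h => ?_⟩
      simp only at h ⊢
      rw [c2]
      refine ⟨hn (by omega), fun _ => ?_⟩
      exact hn (by omega)
    · refine ⟨by simp only; omega, fun h => ?_⟩
      simp only at h ⊢
      rw [c3.2]
      refine ⟨hn (by omega), fun _ => ?_⟩
      exact hn (by omega)
    · rw [hi]
      refine ⟨i1, fun h => ?_⟩
      obtain ⟨j1, j2⟩ := i2 h
      rw [hp] at c2 c3 ⊢
      refine ⟨by omega, fun h1 => ?_⟩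
      have := j2 h1
      have c4 : nrm (pos w + dir d) ≠ n (i - 1) := fun e => c3 ⟨h1, e⟩
      omega

/-- monotonicity of the expectation -/
theorem LINK_mono (hP : S_P) (F : ℕ → ℝ) (hF : Good F) (Φ Φ' : List (Fin 4) → ℝ)
    (h : ∀ w, Φ w ≤ Φ' w) (t : ℕ) : ∀ w, Ex F t Φ w ≤ Ex F t Φ' w := by
  induction t with
  | zero => intro w; exact h w
  | succ t ih =>
    intro w
    unfold Ex
    apply Finset.sum_le_sum
    intro d _
    have := (hP F hF (pos w)).1 d
    exact mul_le_mul_of_nonneg_left (ih _) (by linarith)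

/-- supermartingales -/
theorem LINK_super (hP : S_P) (F : ℕ → ℝ) (hF : Good F) (Φ : List (Fin 4) → ℝ)
    (h : ∀ w, ∑ d, P F (pos w) d * Φ (d :: w) ≤ Φ w) (t : ℕ) : ∀ w, Ex F t Φ w ≤ Φ w := by
  induction t with
  | zero => intro w; exact le_refl _
  | succ t ih =>
    intro w
    unfold Ex
    refine le_trans (Finset.sum_le_sum ?_) (h w)
    intro d _
    have := (hP F hF (pos w)).1 d
    exact mul_le_mul_of_nonneg_left (ih _) (by linarith)

/-- the supermartingale in terms of the line state and of the position -/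
noncomputable def LINK_Phi (F : ℕ → ℝ) (n : ℕ → ℕ) (J : ℕ) (Ψ : ℕ → (ℕ → ℕ) → ℝ)
    (i : ℕ) (z : ℕ → ℕ) (x : V) : ℝ :=
  if J ≤ i then Ψ J z
  else if i = 0 then Ψ 1 z
  else uu F (n (i - 1)) (n (i + 1)) x * Ψ (i + 1) z +
    (1 - uu F (n (i - 1)) (n (i + 1)) x) *
      Ψ (i - 1) (Function.update z (i - 1) (z (i - 1) + 1))

theorem piece_link (hP : S_P) (huu : S_uu) : S_link := by
  intro F hF n hn h0 J p Ψ bad hJ hp hnn h10 hsup hmon hbad t
  have hlt : ∀ i, 1 ≤ i → n (i - 1) < n (i + 1) := fun i hi => hn (by omega)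
  -- entering a line
  have hA : ∀ j z x, j ≤ J → nrm x = n j → LINK_Phi F n J Ψ j z x ≤ Ψ j z := by
    intro j z x hj hx
    unfold LINK_Phi
    split_ifs with c1 c2
    · have : j = J := by omega
      rw [this]
    · rw [c2]; exact h10 z
    · have h1 := hp j (by omega) (by omega) x hx
      have h2 := hmon j (by omega) (by omega) z
      have h3 := hsup j (by omega) (by omega) z
      nlinarith
  -- one step
  have hstep : ∀ w : List (Fin 4), ∑ d, P F (pos w) d *
      LINK_Phi F n J Ψ (ls n J (d :: w)).1 (ls n J (d :: w)).2 (pos (d :: w)) ≤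
      LINK_Phi F n J Ψ (ls n J w).1 (ls n J w).2 (pos w) := by
    intro w
    obtain ⟨i1, i2⟩ := LINK_inv n hn h0 J hJ w
    obtain ⟨q1, q2, q3⟩ := hP F hF (pos w)
    have hls : ∀ d, ls n J (d :: w) = if J ≤ (ls n J w).1 then ls n J w
      else if nrm (pos (d :: w)) = n ((ls n J w).1 + 1) then
        ((ls n J w).1 + 1, (ls n J w).2)
      else if 1 ≤ (ls n J w).1 ∧ nrm (pos (d :: w)) = n ((ls n J w).1 - 1) then
        ((ls n J w).1 - 1, Function.update (ls n J w).2 ((ls n J w).1 - 1)
          ((ls n J w).2 ((ls n J w).1 - 1) + 1))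
      else ls n J w := fun d => rfl
    generalize hi : (ls n J w).1 = i at *
    generalize hz : (ls n J w).2 = z at *
    have hpair : ls n J w = (i, z) := by rw [← hi, ← hz]
    rw [hpair] at hls
    have hpos : ∀ d, pos (d :: w) = pos w + dir d := fun d => rfl
    by_cases c1 : J ≤ i
    · have e : ∀ d, P F (pos w) d *
          LINK_Phi F n J Ψ (ls n J (d :: w)).1 (ls n J (d :: w)).2 (pos (d :: w)) =
          P F (pos w) d * Ψ J z := by
        intro d
        rw [hls d, if_pos c1]
        simp only [LINK_Phi, if_pos c1]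
      rw [Finset.sum_congr rfl (fun d _ => e d), ← Finset.sum_mul, q2, one_mul]
      simp only [LINK_Phi, if_pos c1, le_refl]
    · by_cases c2 : i = 0
      · have e : ∀ d, P F (pos w) d *
          LINK_Phi F n J Ψ (ls n J (d :: w)).1 (ls n J (d :: w)).2 (pos (d :: w)) ≤
          P F (pos w) d * Ψ 1 z := by
          intro d
          apply mul_le_mul_of_nonneg_left _ (by linarith [q1 d])
          rw [hls d, if_neg c1]
          split_ifs with c3 c4
          · have := hA (i + 1) z (pos (d :: w)) (by omega) c3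
            rw [c2] at this ⊢
            exact this
          · omega
          · simp only [LINK_Phi, if_neg c1, if_pos c2, le_refl]
        refine (Finset.sum_le_sum (fun d _ => e d)).trans ?_
        rw [← Finset.sum_mul, q2, one_mul]
        simp only [LINK_Phi, if_neg c1, if_pos c2, le_refl]
      · have hi1 : 1 ≤ i := by omega
        obtain ⟨j1, j2⟩ := i2 (by omega)
        obtain ⟨hU, hb⟩ := huu F hF (n (i - 1)) (n (i + 1)) (hlt i hi1)
        have hhar := hU.har (pos w) (j2 hi1) j1
        unfold PP at hhar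
        have e : ∀ d, P F (pos w) d *
          LINK_Phi F n J Ψ (ls n J (d :: w)).1 (ls n J (d :: w)).2 (pos (d :: w)) ≤
          P F (pos w) d * (uu F (n (i - 1)) (n (i + 1)) (pos w + dir d) * Ψ (i + 1) z +
            (1 - uu F (n (i - 1)) (n (i + 1)) (pos w + dir d)) *
              Ψ (i - 1) (Function.update z (i - 1) (z (i - 1) + 1))) := by
          intro d
          apply mul_le_mul_of_nonneg_left _ (by linarith [q1 d])
          rw [hls d, if_neg c1, hpos d]
          split_ifs with c3 c4
          · have h1 := hA (i + 1) z (pos w + dir d) (by omega) c3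
            have h2 := hU.hi (pos w + dir d) (by rw [c3])
            rw [h2]
            simp only at h1 ⊢
            linarith
          · have h1 := hA (i - 1) (Function.update z (i - 1) (z (i - 1) + 1)) (pos w + dir d)
              (by omega) c4.2
            have h2 := hU.lo (pos w + dir d) (by rw [c4.2])
            rw [h2]
            simp only at h1 ⊢
            linarith
          · simp only [LINK_Phi, if_neg c1, if_neg c2, le_refl]
        refine (Finset.sum_le_sum (fun d _ => e d)).trans (le_of_eq ?_)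
        simp only [LINK_Phi, if_neg c1, if_neg c2]
        generalize Ψ (i - 1) (Function.update z (i - 1) (z (i - 1) + 1)) = B
        generalize Ψ (i + 1) z = A
        have e2 : ∀ d, P F (pos w) d * (uu F (n (i - 1)) (n (i + 1)) (pos w + dir d) * A +
            (1 - uu F (n (i - 1)) (n (i + 1)) (pos w + dir d)) * B) =
            P F (pos w) d * uu F (n (i - 1)) (n (i + 1)) (pos w + dir d) * (A - B) +
            P F (pos w) d * B := fun d => by ring
        rw [Finset.sum_congr rfl (fun d _ => e2 d), Finset.sum_add_distrib, ← Finset.sum_mul,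
          ← Finset.sum_mul, hhar, q2]
        ring
  have hfin := LINK_super hP F hF
    (fun w => LINK_Phi F n J Ψ (ls n J w).1 (ls n J w).2 (pos w)) hstep t []
  have hle : ∀ w : List (Fin 4), ind ((ls n J w).1 = J ∧ bad (ls n J w).2) ≤
      LINK_Phi F n J Ψ (ls n J w).1 (ls n J w).2 (pos w) := by
    intro w
    by_cases c : (ls n J w).1 = J ∧ bad (ls n J w).2
    · have e : ind ((ls n J w).1 = J ∧ bad (ls n J w).2) = 1 := by
        unfold ind; rw [if_pos c]
      rw [e]
      unfold LINK_Phi
      rw [if_pos (by omega)]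
      exact hbad _ c.2
    · have e : ind ((ls n J w).1 = J ∧ bad (ls n J w).2) = 0 := by
        unfold ind; rw [if_neg c]
      rw [e]
      unfold LINK_Phi
      split_ifs with c1 c2
      · exact hnn _ _
      · exact hnn _ _
      · obtain ⟨-, hb⟩ := huu F hF _ _ (hlt (ls n J w).1 (by omega))
        obtain ⟨b1, b2⟩ := hb (pos w)
        exact add_nonneg (mul_nonneg b1 (hnn _ _)) (mul_nonneg (by linarith) (hnn _ _))
  refine (LINK_mono hP F hF _ _ hle t []).trans (hfin.trans ?_)
  have e : ls n J [] = (0, fun _ => 0) := rfl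
  simp only [e, LINK_Phi]
  rw [if_neg (by omega)]
  simp only [if_true]
  exact h10 _

end Pool.Agent.R812.TC
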