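import Pool.Agent.R812.TC.Defs

/-! Project TC: statements of the pieces. -/

namespace Pool.Agent.R812.TC
open Finset

/-! piece DIR -/

def S_P : Prop := ∀ F, Good F → ∀ x, (∀ d, 1 / 8 ≤ P F x d) ∧ ∑ d, P F x d = 1 ∧ 0 < piW F x

def S_max : Prop := ∀ F, Good F → ∀ (B : Finset V) (φ : V → ℝ) (M : ℝ),
  (∀ x, x ∉ B → φ x ≤ M) → (∀ x ∈ B, φ x ≤ PP F φ x) → ∀ x, φ x ≤ M

def S_dir : Prop := ∀ F, Good F → ∀ (B : Finset V) (bd f : V → ℝ),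
  ∃ φ : V → ℝ, (∀ x, x ∉ B → φ x = bd x) ∧ ∀ x ∈ B, φ x = PP F φ x + f x

def S_uu : Prop := ∀ F, Good F → ∀ a b, a < b →
  IsU F a b (uu F a b) ∧ ∀ x, 0 ≤ uu F a b x ∧ uu F a b x ≤ 1

/-! piece EN -/

def S_en : Prop := ∀ F, Good F → ∀ (N : ℕ) (φ : V → ℝ), (∀ x, N ≤ nrm x → φ x = 0) →
  En F N φ = 2 * ∑ x ∈ box N, piW F x * (φ x * (φ x - PP F φ x))

def S_flux : Prop := ∀ F, Good F → ∀ (m : ℕ) (φ : V → ℝ),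
  ∑ x ∈ rng (m + 1), piW F x * (PP F φ x - φ x) = Cur F (m + 1) φ - Cur F m φ

def S_flux0 : Prop := ∀ F, Good F → ∀ φ : V → ℝ,
  piW F 0 * (PP F φ 0 - φ 0) = Cur F 0 φ

def S_cut : Prop := ∀ m : ℕ,
  ∑ x ∈ rng m, ∑ d : Fin 4, (if nrm (x + dir d) = m + 1 then (1 : ℝ) else 0) = 8 * m + 4

/-! piece LINE -/

def S_line : Prop := ∀ F, Good F → ∀ (a N : ℕ) (φ : V → ℝ) (x y : V), 1 ≤ a → a ≤ N →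
  nrm x = a → nrm y = a → (φ x - φ y) ^ 2 ≤ 4 * a / F a * En F N φ

/-! piece PATH -/

def S_path : Prop := ∀ F, Good F → ∀ (a D N : ℕ) (g : ℝ) (φ : V → ℝ) (v x : V), 1 ≤ a →
  4 * D ≤ a → a ≤ nrm v → nrm v ≤ a + D → 0 < g → (∀ m, a ≤ m → m ≤ nrm v → g ≤ F m) →
  nrm v < N → nrm x = a →
  (φ v - φ x) ^ 2 ≤ (40 * (1 + Real.log (D + 1)) / g + 40 * a / F a) * En F N φ

/-! piece COND -/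

def S_cond : Prop := ∀ F, Good F → ∀ a b c : ℕ, a < b → b < c →
  ∃ pp pm : ℝ, 0 ≤ pm ∧ pp ≤ 1 ∧
    (∀ x, nrm x = b → pm ≤ uu F a c x ∧ uu F a c x ≤ pp) ∧
    (1 - pp) * Cap F b c ≤ pp * Cap F a b ∧
    pm * Cap F a b ≤ (1 - pm) * Cap F b c ∧
    (pp - pm) ^ 2 ≤ 8 * b / F b * Cap F b c

def S_cap0 : Prop := ∀ F, Good F → ∀ a b : ℕ, a < b → 0 < Cap F a b

def S_cap2 : Prop := ∀ F, Good F → ∀ a b : ℕ, a < b →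
  Cap F a b * ∑ m ∈ Finset.Ico a b, 1 / ((8 * (m : ℝ) + 4) * F (m + 1)) ≤ 1

def S_cap3 : Prop := ∀ F, Good F → ∀ a b : ℕ, a < b →
  8 * (a : ℝ) + 4 ≤ (∑ m ∈ Finset.Ico a b, 1 / F (m + 1)) * Cap F a b

/-! piece NUM -/

def S_num : Prop := ∀ (F : ℕ → ℝ) (n : ℕ → ℕ), Good F → StrictMono n → n 0 = 0 →
  (∀ j, 1 ≤ j → Real.sqrt (8 * n j / F (n j) / qq F n j) *
    (1 + rr F n j / qq F n (j - 1) + rr F n (j - 1) / qq F n j) ≤ 1 / (100 * (j : ℝ) ^ 2)) →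
  ∃ p G : ℕ → ℝ, (∀ j, 1 ≤ j → 0 < p j ∧ p j < 1 ∧
      ∀ x, nrm x = n j → uu F (n (j - 1)) (n (j + 1)) x ≤ p j) ∧ 0 < G 0 ∧
    (∀ j, 1 ≤ j → G j * (1 - p j) = G (j - 1) * p j) ∧
    (∀ j, Cap F (n j) (n (j + 1)) ≤ G j ∧ G j ≤ 2 * Cap F (n j) (n (j + 1)))

/-! piece COVER -/

def S_cover : Prop := ∀ F, Good F → ∀ (n : ℕ → ℕ), StrictMono n → n 0 = 0 →
  ∀ (J j : ℕ), 1 ≤ j → j < J → ∀ (v : V) (d0 : Fin 4), nrm v < n J → ∀ ρ : ℝ, 0 ≤ ρ →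
  (∀ φ : V → ℝ, (∀ x, n J ≤ nrm x → φ x = 0) → ∀ x, nrm x = n j →
    (φ v - φ x) ^ 2 ≤ ρ * En F (n J) φ) →
  ∀ t K : ℕ, Ex F t (fun w => ind (K ≤ cnt n J j w ∧ ¬ crs n J v d0 w)) [] ≤
    2 * Real.exp (-(K : ℝ) / (64 * (ρ * Cap F (n j) (n (j + 1)) + 1)))

/-! piece NB -/

def S_nb : Prop := ∀ (J a b : ℕ) (p : ℕ → ℝ) (κ : ℕ → ℕ) (G : ℕ → ℝ) (S η θ : ℝ),
  a ≤ b → b < J → (∀ i, 1 ≤ i → i < J → 0 < p i ∧ p i < 1) → 0 < G 0 →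
  (∀ i, 1 ≤ i → i < J → G i * (1 - p i) = G (i - 1) * p i) →
  0 < S → ∑ i ∈ Finset.Ico a J, 1 / G i ≤ S → S ≤ θ * ∑ i ∈ Finset.Ico b J, 1 / G i →
  0 < η → η < Real.exp (-1) → (∀ i, a ≤ i → i ≤ b → (κ i : ℝ) ≤ η * S * G i) →
  ∃ Ψ : ℕ → (ℕ → ℕ) → ℝ,
    (∀ j z, 0 ≤ Ψ j z) ∧
    (∀ z, Ψ 1 z ≤ Ψ 0 z) ∧
    (∀ j, 1 ≤ j → j < J → ∀ z,
      p j * Ψ (j + 1) z + (1 - p j) * Ψ (j - 1) (Function.update z (j - 1) (z (j - 1) + 1))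
        ≤ Ψ j z) ∧
    (∀ j, 1 ≤ j → j < J → ∀ z,
      Ψ (j - 1) (Function.update z (j - 1) (z (j - 1) + 1)) ≤ Ψ (j + 1) z) ∧
    (∀ z : ℕ → ℕ, (∃ i, a ≤ i ∧ i ≤ b ∧ z i < κ i) → 1 ≤ Ψ J z) ∧
    Ψ 0 (fun _ => 0) ≤ (Real.log θ + 1) / (Real.log (1 / η) - 1)

/-! piece LINK -/

def S_link : Prop := ∀ F, Good F → ∀ (n : ℕ → ℕ), StrictMono n → n 0 = 0 →
  ∀ (J : ℕ) (p : ℕ → ℝ) (Ψ : ℕ → (ℕ → ℕ) → ℝ) (bad : (ℕ → ℕ) → Prop), 1 ≤ J →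
  (∀ j, 1 ≤ j → j < J → ∀ x, nrm x = n j → uu F (n (j - 1)) (n (j + 1)) x ≤ p j) →
  (∀ j z, 0 ≤ Ψ j z) →
  (∀ z, Ψ 1 z ≤ Ψ 0 z) →
  (∀ j, 1 ≤ j → j < J → ∀ z,
      p j * Ψ (j + 1) z + (1 - p j) * Ψ (j - 1) (Function.update z (j - 1) (z (j - 1) + 1))
        ≤ Ψ j z) →
  (∀ j, 1 ≤ j → j < J → ∀ z,
      Ψ (j - 1) (Function.update z (j - 1) (z (j - 1) + 1)) ≤ Ψ (j + 1) z) →
  (∀ z : ℕ → ℕ, bad z → 1 ≤ Ψ J z) →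
  ∀ t : ℕ, Ex F t (fun w => ind ((ls n J w).1 = J ∧ bad (ls n J w).2)) [] ≤ Ψ 0 (fun _ => 0)

/-! piece TIME -/

def S_time : Prop := ∀ F, Good F → ∀ (n : ℕ → ℕ), StrictMono n → n 0 = 0 → ∀ (J : ℕ) (ε : ℝ),
  0 < ε → ∃ t0 : ℕ, ∀ t, t0 ≤ t → Ex F t (fun w => ind ((ls n J w).1 < J)) [] ≤ ε

/-! piece DESIGN -/

def S_design : Prop := ∃ (F : ℕ → ℝ) (n e : ℕ → ℕ) (g η : ℕ → ℝ),
  Good F ∧ StrictMono n ∧ n 0 = 0 ∧ StrictMono e ∧ e 0 = 1 ∧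
  (∀ j, 1 ≤ j → 100 * j ≤ n j) ∧
  (∀ j, 1 ≤ j → 4 * (n (j + 1) - n j) ≤ n j) ∧
  (∀ j, 1 ≤ j → 0 < g j ∧ ∀ m, n j ≤ m → m ≤ n (j + 1) → g j ≤ F m) ∧
  (∀ j, 1 ≤ j → rr F n j / 4 ≤ qq F n j) ∧
  (∀ j, 1 ≤ j → Real.sqrt (8 * n j / F (n j) / qq F n j) *
    (1 + rr F n j / qq F n (j - 1) + rr F n (j - 1) / qq F n j) ≤ 1 / (100 * (j : ℝ) ^ 2)) ∧
  (∀ u, (1 / 2 : ℝ) ^ u ≤ ∑ j ∈ Finset.Ico (e u) (e (u + 1)), rr F n j ∧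
    ∑ j ∈ Finset.Ico (e u) (e (u + 1)), rr F n j ≤ 2 * (1 / 2 : ℝ) ^ u) ∧
  (∀ u, 0 < η u ∧ η u < Real.exp (-1) ∧
    (Real.log 64 + 1) / (Real.log (1 / η u) - 1) ≤ 1 / (16 * ((u : ℝ) + 1) ^ 2)) ∧
  (∀ u j, e u ≤ j → j < e (u + 1) →
    64 * (40 * (1 + Real.log ((n (j + 1) - n j : ℕ) + 1)) / g j + 40 * n j / F (n j)) *
      (5 * Real.log (n j) + 10) ≤ 1 / 2 * η u * (4 * (1 / 2 : ℝ) ^ u) ∧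
    (64 * (5 * Real.log (n j) + 10) + 1) * rr F n j ≤ 1 / 2 * η u * (4 * (1 / 2 : ℝ) ^ u)) ∧
  (∀ j, 1 ≤ j → (n j : ℝ) / F (n j) ≤ 1 / ((j : ℝ) + 1) ^ 2)

/-! piece TRANS -/

def S_trans1 : Prop := ∀ (F : ℕ → ℝ) (n : ℕ → ℕ), Good F → StrictMono n → n 0 = 0 →
  Summable (rr F n) → Summable (fun j => (n j : ℝ) / F (n j)) →
  ∀ y : V, ∃ R : ℝ, ∀ (N : ℕ) (φ : V → ℝ), (∀ x, N ≤ nrm x → φ x = 0) →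
    (φ y) ^ 2 ≤ R * En F N φ

def S_trans2 : Prop := ∀ F, Good F → (∀ y : V, ∃ R : ℝ, ∀ (N : ℕ) (φ : V → ℝ),
    (∀ x, N ≤ nrm x → φ x = 0) → (φ y) ^ 2 ≤ R * En F N φ) →
  ∀ y : V, ∃ M : ℝ, ∀ (x : V) (T : ℕ),
    ∑ t ∈ Finset.range T, (PP F)^[t] (fun z => if z = y then 1 else 0) x ≤ M

def S_trans3 : Prop := ∀ F, Good F →
  (∀ y : V, ∃ M : ℝ, ∀ (x : V) (T : ℕ),
    ∑ t ∈ Finset.range T, (PP F)^[t] (fun z => if z = y then 1 else 0) x ≤ M) →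
  ∀ (Ω : Type) [MeasurableSpace Ω] (μ : MeasureTheory.Measure Ω) (X : ℕ → Ω → V) (x0 : V),
    MeasureTheory.IsProbabilityMeasure μ → IsChain μ X (pK F) x0 →
    ∀ᵐ ω ∂μ, ∀ y, {k | X k ω = y}.Finite

/-! piece MEAS -/

def S_meas : Prop := ∀ F, Good F → ∀ (n1 : ℕ),
  (∀ U : ℕ, ∃ t : ℕ, Ex F t (fun w => ind (∃ (v : V) (d : Fin 4), n1 ≤ nrm v ∧ nrm v ≤ U ∧
    ¬ xrs v d w)) [] ≤ 1 / 2) →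
  ∀ (Ω : Type) [MeasurableSpace Ω] (μ : MeasureTheory.Measure Ω) (X : ℕ → Ω → V) (x0 : V),
    MeasureTheory.IsProbabilityMeasure μ → IsChain μ X (pK F) x0 →
    0 < μ {ω | ∀ x y, Adj x y → ∃ k, (X k ω = x ∧ X (k + 1) ω = y)}

/-! piece EXIST -/

def S_exist : Prop := ∀ F, Good F → ∀ x0 : V,
  ∃ (Ω : Type) (_ : MeasurableSpace Ω) (μ : MeasureTheory.Measure Ω) (X : ℕ → Ω → V),
    MeasureTheory.IsProbabilityMeasure μ ∧ IsChain μ X (pK F) x0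

end Pool.Agent.R812.TC
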