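import Mathlib
import Pool.Agent.R812.TC.Stm

set_option autoImplicit false

/-! Project TC: piece MEAS. -/

namespace Pool.Agent.R812.TC
open Finset MeasureTheory

namespace MEAS

theorem dir_inj : ∀ d d' : Fin 4, dir d = dir d' → d = d' := by decide

theorem pK_dir (F : ℕ → ℝ) (x : V) (d : Fin 4) : pK F x (x + dir d) = P F x d := by
  unfold pK
  rw [Finset.sum_eq_single d]
  · simp
  · intro b _ hb
    rw [if_neg]
    intro h
    exact hb (dir_inj _ _ (add_left_cancel h))
  · intro h; exact absurd (mem_univ d) h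

theorem pos_append (u w : List (Fin 4)) : pos (u ++ w) = pos u + pos w := by
  induction u with
  | nil => simp [pos]
  | cons d u ih =>
    rw [List.cons_append, pos, pos, ih]
    abel

/-- crossing for a path started at x -/
def xr (x v : V) (d0 : Fin 4) : List (Fin 4) → Prop
  | [] => False
  | (d :: w) => xr x v d0 w ∨ (x + pos w = v ∧ d = d0)

theorem xr_append (x v : V) (d0 : Fin 4) (u w : List (Fin 4)) (h : xr x v d0 w) :
    xr x v d0 (u ++ w) := by
  induction u with
  | nil => exact h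
  | cons d u ih => exact Or.inl ih

theorem xrs_append (x v : V) (d0 : Fin 4) (u w : List (Fin 4)) (hx : x + pos w = 0)
    (h : xrs v d0 u) : xr x v d0 (u ++ w) := by
  induction u with
  | nil => exact h.elim
  | cons d u ih =>
    rcases h with h | ⟨h1, h2⟩
    · exact Or.inl (ih h)
    · refine Or.inr ⟨?_, h2⟩
      change x + pos (u ++ w) = v
      rw [pos_append, add_comm (pos u), ← add_assoc, hx, zero_add, h1]

theorem pos_rep (d : Fin 4) (n : ℕ) : pos (List.replicate n d) = n • dir d := by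
  induction n with
  | zero => simp [pos]
  | succ n ih => rw [List.replicate_succ, pos, ih, succ_nsmul]

theorem reach0 (y : V) : ∃ w : List (Fin 4), pos w = y := by
  obtain ⟨a, b⟩ := y
  have h1 : ∃ u : List (Fin 4), pos u = (a, 0) := by
    rcases Int.eq_nat_or_neg a with ⟨n, rfl | rfl⟩
    · exact ⟨List.replicate n 0, by rw [pos_rep]; simp [dir]⟩
    · exact ⟨List.replicate n 1, by rw [pos_rep]; simp [dir]⟩
  have h2 : ∃ u : List (Fin 4), pos u = (0, b) := by
    rcases Int.eq_nat_or_neg b with ⟨n, rfl | rfl⟩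
    · exact ⟨List.replicate n 2, by rw [pos_rep]; simp [dir]⟩
    · exact ⟨List.replicate n 3, by rw [pos_rep]; simp [dir]⟩
  obtain ⟨u, hu⟩ := h1
  obtain ⟨v, hv⟩ := h2
  exact ⟨u ++ v, by rw [pos_append, hu, hv]; simp⟩

theorem reach (x y : V) : ∃ w : List (Fin 4), x + pos w = y := by
  obtain ⟨w, hw⟩ := reach0 (y - x)
  exact ⟨w, by rw [hw]; abel⟩

theorem exists_path (x0 : V) (T : Finset (V × Fin 4)) :
    ∃ l : List (Fin 4), ∀ e ∈ T, xr x0 e.1 e.2 l := by
  classical
  induction T using Finset.induction_on with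
  | empty => exact ⟨[], by simp⟩
  | insert e T he ih =>
    obtain ⟨l, hl⟩ := ih
    obtain ⟨w, hw⟩ := reach (x0 + pos l) e.1
    refine ⟨e.2 :: (w ++ l), ?_⟩
    intro e' he'
    rcases Finset.mem_insert.1 he' with rfl | h
    · refine Or.inr ⟨?_, rfl⟩
      rw [pos_append, ← hw]
      abel
    · exact Or.inl (xr_append _ _ _ _ _ (hl e' h))

theorem exists_path0 (x0 : V) (n1 : ℕ) :
    ∃ l : List (Fin 4), x0 + pos l = 0 ∧ ∀ v d, nrm v < n1 → xr x0 v d l := by
  obtain ⟨l, hl⟩ := exists_path x0 (box n1 ×ˢ (univ : Finset (Fin 4)))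
  obtain ⟨w, hw⟩ := reach (x0 + pos l) 0
  refine ⟨w ++ l, ?_, ?_⟩
  · rw [pos_append, ← hw]; abel
  · intro v d hv
    apply xr_append
    refine hl (v, d) ?_
    rw [mem_product]
    refine ⟨?_, mem_univ _⟩
    unfold nrm at hv
    unfold box
    rw [mem_product, mem_Icc, mem_Icc]
    dsimp only
    omega

/-- weight of a path -/
noncomputable def wt (F : ℕ → ℝ) (x : V) : List (Fin 4) → ℝ
  | [] => 1
  | (d :: w) => wt F x w * P F (x + pos w) d

/-- the event that the chain follows the path -/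
def Ev {Ω : Type} (X : ℕ → Ω → V) (x0 : V) : List (Fin 4) → Set Ω
  | [] => {ω | X 0 ω = x0}
  | (d :: w) => Ev X x0 w ∩ {ω | X (w.length + 1) ω = x0 + pos (d :: w)}

/-- the positions of the path -/
def path (x0 : V) (w : List (Fin 4)) (i : ℕ) : V := x0 + pos (w.drop (w.length - i))

theorem path_cons_le (x0 : V) (d : Fin 4) (w : List (Fin 4)) (i : ℕ) (h : i ≤ w.length) :
    path x0 (d :: w) i = path x0 w i := by
  unfold path
  have : (d :: w).length - i = (w.length - i) + 1 := by rw [List.length_cons]; omega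
  rw [this, List.drop_succ_cons]

theorem path_len (x0 : V) (w : List (Fin 4)) : path x0 w w.length = x0 + pos w := by
  unfold path; simp

theorem path_zero (x0 : V) (w : List (Fin 4)) : path x0 w 0 = x0 := by
  unfold path; simp [pos]

theorem Ev_eq {Ω : Type} (X : ℕ → Ω → V) (x0 : V) (w : List (Fin 4)) :
    Ev X x0 w = {ω | ∀ i ≤ w.length, X i ω = path x0 w i} := by
  induction w with
  | nil => ext ω; simp [Ev, path, pos]
  | cons d w ih =>
    ext ω
    simp only [Ev, ih, Set.mem_inter_iff, Set.mem_setOf_eq, List.length_cons]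
    constructor
    · rintro ⟨h1, h2⟩ i hi
      rcases Nat.lt_or_ge w.length i with h | h
      · have : i = w.length + 1 := by omega
        subst this; rw [h2]; exact (path_len x0 (d :: w)).symm
      · rw [path_cons_le _ _ _ _ h]; exact h1 i h
    · intro h
      refine ⟨fun i hi => ?_, ?_⟩
      · rw [← path_cons_le x0 d w i hi]; exact h i (by omega)
      · rw [h (w.length + 1) le_rfl]; exact path_len x0 (d :: w)

theorem prod_path (F : ℕ → ℝ) (x0 : V) (w : List (Fin 4)) :
    ∏ i ∈ range w.length, pK F (path x0 w i) (path x0 w (i + 1)) = wt F x0 w := by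
  induction w with
  | nil => simp [wt]
  | cons d w ih =>
    rw [List.length_cons, prod_range_succ]
    have h1 : ∏ i ∈ range w.length, pK F (path x0 (d :: w) i) (path x0 (d :: w) (i + 1)) =
        ∏ i ∈ range w.length, pK F (path x0 w i) (path x0 w (i + 1)) := by
      apply prod_congr rfl
      intro i hi
      rw [mem_range] at hi
      rw [path_cons_le _ _ _ _ (by omega), path_cons_le _ _ _ _ (by omega)]
    rw [h1, ih, path_cons_le _ _ _ _ le_rfl, path_len]
    have h2 : path x0 (d :: w) (w.length + 1) = x0 + pos w + dir d := by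
      have := path_len x0 (d :: w)
      rw [List.length_cons] at this
      rw [this, pos, add_assoc]
    rw [h2, pK_dir]
    rfl

section
variable {Ω : Type} [MeasurableSpace Ω] {μ : Measure Ω} {X : ℕ → Ω → V} {x0 : V} {F : ℕ → ℝ}

theorem mu_Ev (hc : IsChain μ X (pK F) x0) (w : List (Fin 4)) :
    μ (Ev X x0 w) = ENNReal.ofReal (wt F x0 w) := by
  rw [Ev_eq, hc.2 w.length (path x0 w), if_pos (path_zero x0 w), prod_path]

theorem meas_Ev (hc : IsChain μ X (pK F) x0) (w : List (Fin 4)) : MeasurableSet (Ev X x0 w) := by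
  induction w with
  | nil => exact (hc.1 0) (measurableSet_singleton x0)
  | cons d w ih => exact ih.inter ((hc.1 (w.length + 1)) (measurableSet_singleton _))

theorem wt_pos (hP : ∀ x d, 0 < P F x d) (x : V) (w : List (Fin 4)) : 0 < wt F x w := by
  induction w with
  | nil => exact one_pos
  | cons d w ih => exact mul_pos ih (hP _ _)

theorem Ex_nonneg (hP : ∀ x d, 0 < P F x d) (Φ : List (Fin 4) → ℝ) (hΦ : ∀ w, 0 ≤ Φ w) (t : ℕ) :
    ∀ w, 0 ≤ Ex F t Φ w := by
  induction t with
  | zero => exact hΦ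
  | succ t ih =>
    intro w
    exact sum_nonneg fun d _ => mul_nonneg (hP _ _).le (ih _)

theorem Ex_compl (hP : ∀ x, ∑ d, P F x d = 1) (A : List (Fin 4) → Prop) (t : ℕ) :
    ∀ w, Ex F t (fun v => ind (A v)) w + Ex F t (fun v => ind (¬ A v)) w = 1 := by
  induction t with
  | zero =>
    intro w
    simp only [Ex, ind]
    by_cases h : A w <;> simp [h]
  | succ t ih =>
    intro w
    simp only [Ex]
    rw [← sum_add_distrib, ← hP (pos w)]
    apply sum_congr rfl
    intro d _
    rw [← mul_add, ih, mul_one]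

theorem ind_nonneg (p : Prop) : 0 ≤ ind p := by
  unfold ind; split_ifs <;> norm_num

theorem lower (hP : ∀ x d, 0 < P F x d) (hc : IsChain μ X (pK F) x0) (l : List (Fin 4))
    (hl : x0 + pos l = 0) (S : Set Ω) (hS : MeasurableSet S) (A : List (Fin 4) → Prop) (t : ℕ)
    (hA : ∀ v, v.length = t → A v → Ev X x0 (v ++ l) ⊆ S) (s : ℕ) :
    ∀ w : List (Fin 4), w.length + s = t →
      ENNReal.ofReal (wt F x0 (w ++ l) * Ex F s (fun v => ind (A v)) w) ≤
        μ (S ∩ Ev X x0 (w ++ l)) := by
  induction s with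
  | zero =>
    intro w hw
    simp only [Ex, ind]
    by_cases h : A w
    · rw [if_pos h, mul_one, Set.inter_eq_right.2 (hA w hw h), mu_Ev hc]
    · rw [if_neg h, mul_zero, ENNReal.ofReal_zero]; exact zero_le
  | succ s ih =>
    intro w hw
    have hx : x0 + pos (w ++ l) = pos w := by
      rw [pos_append, add_comm (pos w), ← add_assoc, hl, zero_add]
    have h1 : (⋃ d : Fin 4, S ∩ Ev X x0 (d :: (w ++ l))) ⊆ S ∩ Ev X x0 (w ++ l) := by
      apply Set.iUnion_subset
      intro d ω hω
      exact ⟨hω.1, hω.2.1⟩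
    have h2 : μ (⋃ d : Fin 4, S ∩ Ev X x0 (d :: (w ++ l))) =
        ∑ d : Fin 4, μ (S ∩ Ev X x0 (d :: (w ++ l))) := by
      rw [measure_iUnion, tsum_fintype]
      · intro d d' hdd
        rw [Function.onFun, Set.disjoint_left]
        rintro ω ⟨_, _, h3⟩ ⟨_, _, h4⟩
        apply hdd
        rw [Set.mem_setOf_eq] at h3 h4
        rw [h3] at h4
        exact dir_inj _ _ (add_left_cancel (add_left_cancel h4))
      · intro d
        exact hS.inter (meas_Ev hc _)
    refine le_trans ?_ (measure_mono h1)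
    rw [h2]
    have h3 : wt F x0 (w ++ l) * Ex F (s + 1) (fun v => ind (A v)) w =
        ∑ d : Fin 4, wt F x0 ((d :: w) ++ l) * Ex F s (fun v => ind (A v)) (d :: w) := by
      simp only [Ex]
      rw [mul_sum]
      apply sum_congr rfl
      intro d _
      rw [List.cons_append, wt, hx]
      ring
    rw [h3, ENNReal.ofReal_sum_of_nonneg]
    · apply sum_le_sum
      intro d _
      exact ih (d :: w) (by rw [List.length_cons]; omega)
    · intro d _
      exact mul_nonneg (wt_pos hP _ _).le (Ex_nonneg hP _ (fun _ => ind_nonneg _) _ _)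

theorem cross_of_Ev (v : V) (d : Fin 4) (u : List (Fin 4)) (h : xr x0 v d u) (ω : Ω)
    (hω : ω ∈ Ev X x0 u) : ∃ k, X k ω = v ∧ X (k + 1) ω = v + dir d := by
  induction u with
  | nil => exact h.elim
  | cons d' u ih =>
    rcases h with h | ⟨h1, h2⟩
    · exact ih h hω.1
    · subst h2
      have h3 : ω ∈ {ω | ∀ i ≤ u.length, X i ω = path x0 u i} := by
        rw [← Ev_eq]; exact hω.1
      have h4 := h3 u.length le_rfl
      rw [path_len, h1] at h4
      refine ⟨u.length, h4, ?_⟩
      have h5 := hω.2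
      rw [Set.mem_setOf_eq, pos, ← add_assoc, h1] at h5
      exact h5

end

end MEAS

open MEAS

theorem piece_meas (hP : S_P) : S_meas := by
  intro F hF n1 hU Ω _ μ X x0 hμ hc
  have hpos : ∀ x d, 0 < P F x d := fun x d => lt_of_lt_of_le (by norm_num) ((hP F hF x).1 d)
  have hsum : ∀ x, ∑ d, P F x d = 1 := fun x => (hP F hF x).2.1
  obtain ⟨l, hl, hlx⟩ := exists_path0 x0 n1
  let D : ℕ → Set Ω := fun U =>
    {ω | ∀ (v : V) (d : Fin 4), nrm v ≤ U → ∃ k, X k ω = v ∧ X (k + 1) ω = v + dir d}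
  have hDm : ∀ U, MeasurableSet (D U) := by
    intro U
    have : D U = ⋂ (v : V), ⋂ (d : Fin 4), ⋂ (_ : nrm v ≤ U), ⋃ k : ℕ,
        ((X k) ⁻¹' {v} ∩ (X (k + 1)) ⁻¹' {v + dir d}) := by
      ext ω; simp [D]
    rw [this]
    refine MeasurableSet.iInter fun v => MeasurableSet.iInter fun d => MeasurableSet.iInter
      fun _ => MeasurableSet.iUnion fun k => ?_
    exact ((hc.1 k) (measurableSet_singleton _)).inter ((hc.1 (k + 1)) (measurableSet_singleton _))
  have hDa : Antitone D := by
    intro U U' hUU ω hω v d hv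
    exact hω v d (hv.trans hUU)
  have hlow : ∀ U, ENNReal.ofReal (wt F x0 l * (1 / 2)) ≤ μ (D U) := by
    intro U
    obtain ⟨t, ht⟩ := hU U
    have hcomp := Ex_compl (F := F) hsum (fun w => ∃ (v : V) (d : Fin 4), n1 ≤ nrm v ∧ nrm v ≤ U ∧
      ¬ xrs v d w) t []
    have h1 : 1 / 2 ≤ Ex F t (fun w => ind (¬ ∃ (v : V) (d : Fin 4), n1 ≤ nrm v ∧ nrm v ≤ U ∧
      ¬ xrs v d w)) [] := by linarith
    have h2 := lower hpos hc l hl (D U) (hDm U)
      (fun w => ¬ ∃ (v : V) (d : Fin 4), n1 ≤ nrm v ∧ nrm v ≤ U ∧ ¬ xrs v d w) t (by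
        intro w _ hA ω hω v d hv
        refine cross_of_Ev v d (w ++ l) ?_ ω hω
        rcases Nat.lt_or_ge (nrm v) n1 with h | h
        · exact xr_append _ _ _ _ _ (hlx v d h)
        · apply xrs_append _ _ _ _ _ hl
          by_contra hx
          exact hA ⟨v, d, h, hv, hx⟩) t [] (by simp)
    rw [List.nil_append] at h2
    calc ENNReal.ofReal (wt F x0 l * (1 / 2)) ≤ _ :=
          ENNReal.ofReal_le_ofReal (mul_le_mul_of_nonneg_left h1 (wt_pos hpos _ _).le)
      _ ≤ _ := h2
      _ ≤ μ (D U) := measure_mono Set.inter_subset_left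
  have hEq : {ω | ∀ x y, Adj x y → ∃ k, (X k ω = x ∧ X (k + 1) ω = y)} = ⋂ U, D U := by
    ext ω
    simp only [Set.mem_setOf_eq, Set.mem_iInter, D]
    constructor
    · intro h U v d _
      exact h v (v + dir d) ⟨d, rfl⟩
    · rintro h x y ⟨d, rfl⟩
      exact h (nrm x) x d le_rfl
  rw [hEq, hDa.measure_iInter (fun U => (hDm U).nullMeasurableSet) ⟨0, measure_ne_top _ _⟩]
  refine lt_of_lt_of_le ?_ (le_iInf hlow)
  rw [ENNReal.ofReal_pos]
  exact mul_pos (wt_pos hpos _ _) (by norm_num)

end Pool.Agent.R812.TC
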