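import Pool.Agent.R812.TC.Stm

/-! Piece NB: the chain of negative binomial laws and its potential. -/

set_option autoImplicit false

namespace Pool.Agent.R812.TC

open Finset

namespace NB

/-- weights of the negative binomial law -/
noncomputable def nb (p : ℝ) (r y : ℕ) : ℝ := (Nat.multichoose r y : ℝ) * p ^ r * (1 - p) ^ y

/-- expectation under the negative binomial law -/
noncomputable def NE (p : ℝ) (r : ℕ) (f : ℕ → ℝ) : ℝ := ∑' y, nb p r y * f y

/-- at most linear growth -/
def LG (f : ℕ → ℝ) : Prop := ∃ C : ℝ, ∀ y : ℕ, |f y| ≤ C * (y + 1)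

variable {p : ℝ}

theorem nb_nonneg (h0 : 0 < p) (h1 : p < 1) (r y : ℕ) : 0 ≤ nb p r y := by
  unfold nb
  have : 0 < 1 - p := by linarith
  positivity

theorem mc_le (r y : ℕ) : Nat.multichoose r y ≤ (y + r).choose r := by
  rw [Nat.multichoose_eq]
  calc (r + y - 1).choose y ≤ (y + r).choose y := Nat.choose_le_choose y (by omega)
    _ = (y + r).choose r := Nat.choose_symm_add

theorem mc_le' (r y : ℕ) :
    Nat.multichoose r y * (y + 1) ≤ (r + 1) * (y + (r + 1)).choose (r + 1) := by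
  have h1 := mc_le r y
  have h3 : (y + (r + 1)).choose (r + 1) * (r + 1) = (y + r + 1) * (y + r).choose r :=
    (Nat.add_one_mul_choose_eq (y + r) r).symm
  calc Nat.multichoose r y * (y + 1) ≤ (y + r).choose r * (y + r + 1) :=
        Nat.mul_le_mul h1 (by omega)
    _ = (r + 1) * (y + (r + 1)).choose (r + 1) := by rw [mul_comm (r + 1), h3, mul_comm]

theorem summ (h0 : 0 < p) (h1 : p < 1) (r : ℕ) {f : ℕ → ℝ} (hf : LG f) :
    Summable fun y => nb p r y * f y := by
  obtain ⟨C, hC⟩ := hf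
  have hC0 : 0 ≤ C := by
    have := hC 0
    have h2 := abs_nonneg (f 0)
    norm_num at this
    linarith
  have hq0 : 0 < 1 - p := by linarith
  have hs : Summable fun y : ℕ => ((y + (r + 1)).choose (r + 1) : ℝ) * (1 - p) ^ y :=
    summable_choose_mul_geometric_of_norm_lt_one (r + 1)
      (by rw [Real.norm_eq_abs, abs_of_pos hq0]; linarith)
  refine Summable.of_norm_bounded (hs.mul_left (C * p ^ r * (r + 1))) fun y => ?_
  rw [Real.norm_eq_abs, abs_mul, abs_of_nonneg (nb_nonneg h0 h1 r y)]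
  have h2 : ((Nat.multichoose r y : ℕ) : ℝ) * (y + 1) ≤
      (r + 1) * ((y + (r + 1)).choose (r + 1) : ℝ) := by exact_mod_cast mc_le' r y
  calc nb p r y * |f y| ≤ nb p r y * (C * (y + 1)) :=
        mul_le_mul_of_nonneg_left (hC y) (nb_nonneg h0 h1 r y)
    _ = (C * p ^ r * (1 - p) ^ y) * (((Nat.multichoose r y : ℕ) : ℝ) * (y + 1)) := by
        unfold nb; ring
    _ ≤ (C * p ^ r * (1 - p) ^ y) * ((r + 1) * ((y + (r + 1)).choose (r + 1) : ℝ)) :=
        mul_le_mul_of_nonneg_left h2 (by positivity)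
    _ = _ := by ring

theorem LG.shift {f : ℕ → ℝ} (hf : LG f) : LG fun y => f (y + 1) := by
  obtain ⟨C, hC⟩ := hf
  have hC0 : 0 ≤ C := by
    have := hC 0
    have h2 := abs_nonneg (f 0)
    norm_num at this
    linarith
  refine ⟨2 * C, fun y => (hC (y + 1)).trans ?_⟩
  push_cast
  have : (0 : ℝ) ≤ y := Nat.cast_nonneg y
  nlinarith

theorem LG.add {f g : ℕ → ℝ} (hf : LG f) (hg : LG g) : LG fun y => f y + g y := by
  obtain ⟨C, hC⟩ := hf
  obtain ⟨D, hD⟩ := hg
  refine ⟨C + D, fun y => (abs_add_le _ _).trans ?_⟩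
  have h1 := hC y
  have h2 := hD y
  rw [add_mul]
  linarith

theorem LG.smul {f : ℕ → ℝ} (c : ℝ) (hf : LG f) : LG fun y => c * f y := by
  obtain ⟨C, hC⟩ := hf
  refine ⟨|c| * C, fun y => ?_⟩
  rw [abs_mul, mul_assoc]
  exact mul_le_mul_of_nonneg_left (hC y) (abs_nonneg c)

theorem LG.const (c : ℝ) : LG fun _ => c := by
  refine ⟨|c|, fun y => ?_⟩
  have : (0 : ℝ) ≤ y := Nat.cast_nonneg y
  nlinarith [abs_nonneg c]

theorem LG.id : LG fun y => (y : ℝ) := by
  refine ⟨1, fun y => ?_⟩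
  have : (0 : ℝ) ≤ y := Nat.cast_nonneg y
  rw [abs_of_nonneg this]
  linarith

theorem LG.of_le {f : ℕ → ℝ} (h0 : ∀ y, 0 ≤ f y) (h1 : ∀ y, f y ≤ 1) : LG f := by
  refine ⟨1, fun y => ?_⟩
  have : (0 : ℝ) ≤ y := Nat.cast_nonneg y
  rw [abs_of_nonneg (h0 y)]
  linarith [h1 y]

theorem NE_add (h0 : 0 < p) (h1 : p < 1) (r : ℕ) {f g : ℕ → ℝ} (hf : LG f) (hg : LG g) :
    NE p r (fun y => f y + g y) = NE p r f + NE p r g := by
  unfold NE
  rw [← (summ h0 h1 r hf).tsum_add (summ h0 h1 r hg)]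
  exact tsum_congr fun y => by ring

theorem NE_smul (r : ℕ) (c : ℝ) (f : ℕ → ℝ) : NE p r (fun y => c * f y) = c * NE p r f := by
  unfold NE
  rw [← tsum_mul_left]
  exact tsum_congr fun y => by ring

theorem NE_mono (h0 : 0 < p) (h1 : p < 1) (r : ℕ) {f g : ℕ → ℝ} (hf : LG f) (hg : LG g)
    (h : ∀ y, f y ≤ g y) : NE p r f ≤ NE p r g :=
  (summ h0 h1 r hf).tsum_le_tsum (fun y => mul_le_mul_of_nonneg_left (h y) (nb_nonneg h0 h1 r y))
    (summ h0 h1 r hg)

theorem NE_nonneg (h0 : 0 < p) (h1 : p < 1) (r : ℕ) {f : ℕ → ℝ} (h : ∀ y, 0 ≤ f y) :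
    0 ≤ NE p r f :=
  tsum_nonneg fun y => mul_nonneg (nb_nonneg h0 h1 r y) (h y)

theorem NE_zero (f : ℕ → ℝ) : NE p 0 f = f 0 := by
  unfold NE
  rw [tsum_eq_single 0]
  · simp [nb]
  · intro y hy
    obtain ⟨y, rfl⟩ := Nat.exists_eq_succ_of_ne_zero hy
    simp [nb]

/-- the recursion -/
theorem NE_succ (h0 : 0 < p) (h1 : p < 1) (r : ℕ) {f : ℕ → ℝ} (hf : LG f) :
    NE p (r + 1) f = p * NE p r f + (1 - p) * NE p (r + 1) (fun y => f (y + 1)) := by
  have s1 := summ h0 h1 (r + 1) hf
  have s2 := summ h0 h1 r hf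
  have s3 := summ h0 h1 (r + 1) hf.shift
  have s2' : Summable fun y => nb p r (y + 1) * f (y + 1) := (summable_nat_add_iff 1).2 s2
  unfold NE
  rw [s1.tsum_eq_zero_add, s2.tsum_eq_zero_add]
  have e1 : nb p (r + 1) 0 * f 0 = p * (nb p r 0 * f 0) := by
    simp only [nb, Nat.multichoose_zero_right, pow_zero, pow_succ]
    ring
  have e2 : ∀ y, nb p (r + 1) (y + 1) * f (y + 1) =
      p * (nb p r (y + 1) * f (y + 1)) + (1 - p) * (nb p (r + 1) y * f (y + 1)) := by
    intro y
    simp only [nb, Nat.multichoose_succ_succ]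
    push_cast
    ring
  rw [e1, tsum_congr e2, (s2'.mul_left p).tsum_add (s3.mul_left (1 - p)), tsum_mul_left,
    tsum_mul_left]
  ring

/-- generating function -/
theorem gen (h0 : 0 < p) (h1 : p < 1) (r : ℕ) {s : ℝ} (hs0 : 0 ≤ s) (hs1 : s ≤ 1) :
    HasSum (fun y => nb p r y * s ^ y) ((p / (1 - (1 - p) * s)) ^ r) := by
  have hq0 : 0 < 1 - p := by linarith
  have hqs : (1 - p) * s < 1 := by nlinarith
  have hqs0 : 0 ≤ (1 - p) * s := by positivity
  rcases r with _ | r
  · rw [pow_zero]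
    have := hasSum_single (f := fun y => nb p 0 y * s ^ y) 0 (by
      intro y hy
      obtain ⟨y, rfl⟩ := Nat.exists_eq_succ_of_ne_zero hy
      simp [nb])
    simpa [nb] using this
  · have h2 := (hasSum_choose_mul_geometric_of_norm_lt_one r (r := (1 - p) * s) (by
      rw [Real.norm_eq_abs, abs_of_nonneg hqs0]; exact hqs)).mul_left (p ^ (r + 1))
    have e1 : p ^ (r + 1) * (1 / (1 - (1 - p) * s) ^ (r + 1)) =
        (p / (1 - (1 - p) * s)) ^ (r + 1) := by
      rw [div_pow]; ring
    rw [e1] at h2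
    have e3 : (fun y => nb p (r + 1) y * s ^ y) =
        fun y => p ^ (r + 1) * (((y + r).choose r : ℝ) * ((1 - p) * s) ^ y) := by
      funext y
      have e2 : Nat.multichoose (r + 1) y = (y + r).choose r := by
        rw [Nat.multichoose_eq]
        have : r + 1 + y - 1 = y + r := by omega
        rw [this]
        exact Nat.choose_symm_add
      rw [nb, e2, mul_pow]
      ring
    rw [e3]
    exact h2

theorem NE_one (h0 : 0 < p) (h1 : p < 1) (r : ℕ) : NE p r (fun _ => 1) = 1 := by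
  have h2 := (gen h0 h1 r zero_le_one le_rfl).tsum_eq
  simp only [one_pow] at h2
  unfold NE
  rw [h2]
  have : p / (1 - (1 - p) * 1) = 1 := by
    have : 1 - (1 - p) * 1 = p := by ring
    rw [this, div_self h0.ne']
  rw [this, one_pow]

theorem NE_const (h0 : 0 < p) (h1 : p < 1) (r : ℕ) (c : ℝ) : NE p r (fun _ => c) = c := by
  calc NE p r (fun _ => c) = NE p r (fun _ => c * 1) := by simp only [mul_one]
    _ = c * NE p r (fun _ => 1) := NE_smul r c (fun _ => 1)
    _ = c := by rw [NE_one h0 h1, mul_one]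

theorem NE_pow (h0 : 0 < p) (h1 : p < 1) (r : ℕ) {s : ℝ} (hs0 : 0 ≤ s) (hs1 : s ≤ 1) :
    NE p r (fun y => s ^ y) = (p / (1 - (1 - p) * s)) ^ r :=
  (gen h0 h1 r hs0 hs1).tsum_eq

/-- difference form of the recursion -/
theorem NE_diff (h0 : 0 < p) (h1 : p < 1) (r : ℕ) {f : ℕ → ℝ} (hf : LG f) :
    p * (NE p (r + 1) f - NE p r f) = (1 - p) * NE p (r + 1) (fun y => f (y + 1) - f y) := by
  have h2 := NE_succ h0 h1 r hf
  have h3 : NE p (r + 1) (fun y => f (y + 1) - f y) =
      NE p (r + 1) (fun y => f (y + 1)) + -1 * NE p (r + 1) f := by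
    rw [← NE_smul, ← NE_add h0 h1 _ hf.shift (hf.smul (-1))]
    congr 1
    funext y
    ring
  rw [h3]
  linear_combination h2

theorem NE_id (h0 : 0 < p) (h1 : p < 1) (r : ℕ) : p * NE p r (fun y => (y : ℝ)) = r * (1 - p) := by
  induction r with
  | zero => rw [NE_zero]; simp
  | succ r ih =>
    have h2 := NE_diff h0 h1 r LG.id
    have h3 : (fun y : ℕ => ((y + 1 : ℕ) : ℝ) - y) = fun _ => (1 : ℝ) := by
      funext y; push_cast; ring
    rw [h3, NE_one h0 h1] at h2
    push_cast
    linarith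

/-- truncated logarithmic sum -/
noncomputable def ff (x : ℝ) (n : ℕ) : ℝ := ∑ k ∈ range n, (1 - x ^ (k + 1)) / (k + 1)

theorem ff_succ (x : ℝ) (n : ℕ) : ff x (n + 1) = ff x n + (1 - x ^ (n + 1)) / (n + 1) := by
  rw [ff, sum_range_succ]; rfl

theorem ff_zero (x : ℝ) : ff x 0 = 0 := by simp [ff]

theorem ff_LG {x : ℝ} (hx0 : 0 ≤ x) (hx1 : x ≤ 1) : LG (ff x) := by
  refine ⟨1, fun y => ?_⟩
  have h1 : ∀ k : ℕ, 0 ≤ (1 - x ^ (k + 1)) / (k + 1) ∧ (1 - x ^ (k + 1)) / ((k : ℝ) + 1) ≤ 1 := by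
    intro k
    have h2 : x ^ (k + 1) ≤ 1 := pow_le_one₀ hx0 hx1
    have h3 : 0 ≤ x ^ (k + 1) := pow_nonneg hx0 _
    have h4 : (0 : ℝ) < (k : ℝ) + 1 := by positivity
    refine ⟨div_nonneg (by linarith) h4.le, ?_⟩
    rw [div_le_one h4]
    have : (0 : ℝ) ≤ k := Nat.cast_nonneg k
    linarith
  have h2 : 0 ≤ ff x y := sum_nonneg fun k _ => (h1 k).1
  have h3 : ff x y ≤ y := by
    calc ff x y ≤ ∑ k ∈ range y, (1 : ℝ) := sum_le_sum fun k _ => (h1 k).2
      _ = y := by simp
  rw [abs_of_nonneg h2]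
  linarith

/-- expectation of the logarithmic sum -/
theorem NE_ff (h0 : 0 < p) (h1 : p < 1) {x : ℝ} (hx0 : 0 ≤ x) (hx1 : x < 1) (r : ℕ) :
    NE p (r + 1) (ff x) = ff (p / (1 - (1 - p) * x)) r - Real.log (p / (1 - (1 - p) * x)) := by
  have hq0 : 0 < 1 - p := by linarith
  have hqx : (1 - p) * x < 1 - p := by nlinarith
  have hqx0 : 0 ≤ (1 - p) * x := by positivity
  have hd : 0 < 1 - (1 - p) * x := by linarith
  induction r with
  | zero =>
    have h2 := NE_diff h0 h1 0 (ff_LG hx0 hx1.le)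
    rw [NE_zero, ff_zero, sub_zero] at h2
    have h3 := Real.hasSum_pow_div_log_of_abs_lt_one (x := 1 - p)
      (by rw [abs_of_pos hq0]; linarith)
    have h4 := Real.hasSum_pow_div_log_of_abs_lt_one (x := (1 - p) * x)
      (by rw [abs_of_nonneg hqx0]; linarith)
    have h5 := (h3.sub h4).mul_left p
    have e1 : (1 - p) * NE p (0 + 1) (fun y => ff x (y + 1) - ff x y) =
        ∑' n : ℕ, p * ((1 - p) ^ (n + 1) / ((n : ℝ) + 1) - ((1 - p) * x) ^ (n + 1) / ((n : ℝ) + 1)) := by
      unfold NE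
      rw [← tsum_mul_left]
      refine tsum_congr fun y => ?_
      beta_reduce
      rw [ff_succ, nb, zero_add, Nat.multichoose_one, mul_pow]
      push_cast
      ring
    rw [e1, h5.tsum_eq] at h2
    have h6 := mul_left_cancel₀ h0.ne' h2
    rw [zero_add] at h6 ⊢
    rw [h6, ff_zero, Real.log_div h0.ne' hd.ne']
    have : 1 - (1 - p) = p := by ring
    rw [this]
    ring
  | succ r ih =>
    have hm : NE p (r + 1) (fun y => x ^ y) = (p / (1 - (1 - p) * x)) ^ (r + 1) :=
      NE_pow h0 h1 (r + 1) hx0 hx1.le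
    have h2 := NE_diff h0 h1 (r + 1) (ff_LG hx0 hx1.le)
    have hL : LG fun y : ℕ => 1 - x ^ y := by
      refine LG.of_le (fun y => ?_) fun y => ?_
      · have := pow_le_one₀ hx0 hx1.le (n := y)
        linarith
      · have := pow_nonneg hx0 y
        linarith
    have e1 : (1 - p) * NE p (r + 1 + 1) (fun y => ff x (y + 1) - ff x y) =
        p / (r + 1) * ∑' y, nb p (r + 1) (y + 1) * (1 - x ^ (y + 1)) := by
      unfold NE
      rw [← tsum_mul_left, ← tsum_mul_left]
      refine tsum_congr fun y => ?_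
      beta_reduce
      rw [ff_succ]
      have e2 : (Nat.multichoose (r + 1 + 1) y : ℝ) * (r + 1) =
          (Nat.multichoose (r + 1) (y + 1) : ℝ) * (y + 1) := by
        have : Nat.multichoose (r + 1 + 1) y * (r + 1) =
            Nat.multichoose (r + 1) (y + 1) * (y + 1) := by
          rw [Nat.multichoose_eq, Nat.multichoose_eq]
          have a1 : r + 1 + 1 + y - 1 = r + y + 1 := by omega
          have a2 : r + 1 + (y + 1) - 1 = r + y + 1 := by omega
          rw [a1, a2, Nat.choose_succ_right_eq]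
          congr 1
          omega
        exact_mod_cast this
      have hr : (r : ℝ) + 1 ≠ 0 := by positivity
      have hy : (y : ℝ) + 1 ≠ 0 := by positivity
      rw [nb, nb]
      have e3 : (Nat.multichoose (r + 1 + 1) y : ℝ) =
          (Nat.multichoose (r + 1) (y + 1) : ℝ) * (y + 1) / (r + 1) := by
        rw [eq_div_iff hr, e2]
      rw [e3]
      field_simp
      ring
    have e2 : ∑' y, nb p (r + 1) (y + 1) * (1 - x ^ (y + 1)) =
        1 - (p / (1 - (1 - p) * x)) ^ (r + 1) := by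
      have s1 := summ h0 h1 (r + 1) hL
      have h3 := s1.tsum_eq_zero_add
      rw [pow_zero, sub_self, mul_zero, zero_add] at h3
      rw [← h3]
      have h4 : NE p (r + 1) (fun y : ℕ => 1 - x ^ y) = 1 - (p / (1 - (1 - p) * x)) ^ (r + 1) := by
        rw [← hm, ← NE_one h0 h1 (r + 1)]
        have h5 : NE p (r + 1) (fun y : ℕ => 1 + -1 * x ^ y) =
            NE p (r + 1) (fun _ => 1) + -1 * NE p (r + 1) (fun y => x ^ y) := by
          rw [← NE_smul, ← NE_add h0 h1 _ (LG.const 1)]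
          exact LG.smul _ (LG.of_le (fun y => pow_nonneg hx0 y) fun y => pow_le_one₀ hx0 hx1.le)
        rw [NE_one h0 h1] at h5 ⊢
        rw [sub_eq_add_neg, ← neg_one_mul, ← h5]
        congr 1
        funext y
        ring
      exact h4
    rw [e1, e2] at h2
    have h6 : NE p (r + 1 + 1) (ff x) - NE p (r + 1) (ff x) =
        (1 - (p / (1 - (1 - p) * x)) ^ (r + 1)) / (r + 1) := by
      apply mul_left_cancel₀ h0.ne'
      rw [h2]
      ring
    rw [ff_succ]
    linarith

/-- the supermartingale inequality for the harmonic numbers -/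
theorem NE_harm (h0 : 0 < p) (h1 : p < 1) (r : ℕ) :
    ff 0 r + Real.log ((1 - p) / p) ≤ NE p (r + 1) (ff 0) := by
  have h2 := NE_ff h0 h1 le_rfl zero_lt_one r
  have e0 : p / (1 - (1 - p) * 0) = p := by rw [mul_zero, sub_zero, div_one]
  rw [e0] at h2
  rw [h2]
  have h3 := Real.hasSum_pow_div_log_of_abs_lt_one (x := p) (by rw [abs_of_pos h0]; exact h1)
  have h4 : ∑ k ∈ range r, p ^ (k + 1) / ((k : ℝ) + 1) ≤ -Real.log (1 - p) :=
    sum_le_hasSum _ (fun k _ => by positivity) h3
  have h5 : ff 0 r - ff p r = ∑ k ∈ range r, p ^ (k + 1) / ((k : ℝ) + 1) := by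
    rw [ff, ff, ← sum_sub_distrib]
    refine sum_congr rfl fun k _ => ?_
    rw [zero_pow (Nat.succ_ne_zero k)]
    ring
  rw [Real.log_div (by linarith) h0.ne']
  linarith

theorem ff_zero_le (n : ℕ) : ff 0 n ≤ 1 + Real.log (n + 1) := by
  have h1 : ff 0 n = (harmonic n : ℝ) := by
    rw [ff, harmonic]
    push_cast
    refine sum_congr rfl fun k _ => ?_
    rw [zero_pow (Nat.succ_ne_zero k)]
    simp
  rw [h1]
  refine (harmonic_le_one_add_log n).trans ?_
  rcases Nat.eq_zero_or_pos n with h | h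
  · subst h; simp
  · have : Real.log n ≤ Real.log (n + 1) :=
      Real.log_le_log (by exact_mod_cast h) (by linarith)
    linarith


theorem NE_anti (h0 : 0 < p) (h1 : p < 1) (r : ℕ) {f : ℕ → ℝ} (hf : LG f)
    (h : ∀ y, f (y + 1) ≤ f y) : NE p (r + 1) f ≤ NE p r f := by
  have h2 := NE_diff h0 h1 r hf
  have h3 : NE p (r + 1) (fun y => f (y + 1) - f y) ≤ 0 := by
    have h4 : 0 ≤ NE p (r + 1) (fun y => -1 * (f (y + 1) - f y)) :=
      NE_nonneg h0 h1 _ fun y => by linarith [h y]
    rw [NE_smul] at h4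
    linarith
  have hq0 : 0 < 1 - p := by linarith
  nlinarith

theorem NE_lin (h0 : 0 < p) (h1 : p < 1) {x : ℝ} (hx0 : 0 ≤ x) (hx1 : x ≤ 1) (c d : ℝ) (r : ℕ) :
    NE p (r + 1) (fun A => c + -1 * ff x A + d * (A : ℝ)) =
      c - NE p (r + 1) (ff x) + d * (((r : ℝ) + 1) * ((1 - p) / p)) := by
  have h2 := NE_id h0 h1 (r + 1)
  have h3 : NE p (r + 1) (fun y => (y : ℝ)) = ((r : ℝ) + 1) * ((1 - p) / p) := by
    apply mul_left_cancel₀ h0.ne'
    rw [h2]
    push_cast
    field_simp
  have hL := (ff_LG hx0 hx1).smul (-1)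
  rw [NE_add h0 h1 _ ((LG.const c).add hL) (LG.id.smul d), NE_add h0 h1 _ (LG.const c) hL,
    NE_const h0 h1, NE_smul, NE_smul, h3]
  ring

section chain

variable (a b : ℕ) (P : ℕ → ℝ) (κ : ℕ → ℕ)

/-- probability that the final numbers of passages are bad at some level at most `i`, when `A`
further passages happen at level `i` and the walk starts at line `j` -/
noncomputable def bet (j : ℕ) : ℕ → (ℕ → ℕ) → ℕ → ℝ
  | 0, z, A => if a ≤ 0 ∧ 0 ≤ b ∧ z 0 + A < κ 0 then 1 else 0
  | (i + 1), z, A => if a ≤ i + 1 ∧ i + 1 ≤ b ∧ z (i + 1) + A < κ (i + 1) then 1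
      else NE (P (i + 1)) (A + if j ≤ i + 1 then 1 else 0) (bet j i z)

variable {a b P κ} {J : ℕ} (hp : ∀ i, 1 ≤ i → i < J → 0 < P i ∧ P i < 1)
include hp

theorem bet_mem (j : ℕ) (z : ℕ → ℕ) : ∀ i, i < J → ∀ A,
    0 ≤ bet a b P κ j i z A ∧ bet a b P κ j i z A ≤ 1 := by
  intro i
  induction i with
  | zero =>
    intro _ A
    rw [bet]
    split_ifs <;> norm_num
  | succ i ih =>
    intro hi A
    rw [bet]
    have h2 := hp (i + 1) (by omega) hi
    have h3 := ih (by omega)
    generalize (A + if j ≤ i + 1 then 1 else 0) = e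
    split_ifs
    · norm_num
    · refine ⟨NE_nonneg h2.1 h2.2 _ fun y => (h3 y).1, ?_⟩
      rw [← NE_one h2.1 h2.2 e]
      exact NE_mono h2.1 h2.2 _ (LG.of_le (fun y => (h3 y).1) fun y => (h3 y).2) (LG.const 1)
        fun y => (h3 y).2

theorem bet_LG (j : ℕ) (z : ℕ → ℕ) {i : ℕ} (hi : i < J) : LG (bet a b P κ j i z) :=
  LG.of_le (fun A => (bet_mem hp j z i hi A).1) fun A => (bet_mem hp j z i hi A).2

theorem bet_anti (j : ℕ) (z : ℕ → ℕ) : ∀ i, i < J → ∀ A,
    bet a b P κ j i z (A + 1) ≤ bet a b P κ j i z A := by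
  intro i
  induction i with
  | zero =>
    intro _ A
    rw [bet, bet]
    split_ifs with h1 h2
    · exact le_rfl
    · exact absurd ⟨h1.1, h1.2.1, by omega⟩ h2
    · norm_num
    · exact le_rfl
  | succ i ih =>
    intro hi A
    have h2 := hp (i + 1) (by omega) hi
    by_cases hA : a ≤ i + 1 ∧ i + 1 ≤ b ∧ z (i + 1) + A < κ (i + 1)
    · have e1 : bet a b P κ j (i + 1) z A = 1 := by rw [bet, if_pos hA]
      rw [e1]
      exact (bet_mem hp j z (i + 1) hi _).2
    · have hA' : ¬ (a ≤ i + 1 ∧ i + 1 ≤ b ∧ z (i + 1) + (A + 1) < κ (i + 1)) := fun h =>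
        hA ⟨h.1, h.2.1, by omega⟩
      rw [bet, bet, if_neg hA, if_neg hA']
      have e1 : A + 1 + (if j ≤ i + 1 then 1 else 0) = (A + if j ≤ i + 1 then 1 else 0) + 1 := by
        omega
      rw [e1]
      exact NE_anti h2.1 h2.2 _ (bet_LG hp j z (by omega)) (ih (by omega))

omit hp

theorem bet_congr_j {j j' : ℕ} (z : ℕ → ℕ) : ∀ i, i < j → i < j' →
    bet a b P κ j i z = bet a b P κ j' i z := by
  intro i
  induction i with
  | zero => intro _ _; funext A; rw [bet, bet]
  | succ i ih =>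
    intro h1 h2
    funext A
    rw [bet, bet, ih (by omega) (by omega), if_neg (by omega : ¬ j ≤ i + 1),
      if_neg (by omega : ¬ j' ≤ i + 1)]

theorem bet_congr_z (j : ℕ) {z z' : ℕ → ℕ} : ∀ i, (∀ m ≤ i, z m = z' m) →
    bet a b P κ j i z = bet a b P κ j i z' := by
  intro i
  induction i with
  | zero => intro h; funext A; rw [bet, bet, h 0 le_rfl]
  | succ i ih =>
    intro h
    funext A
    rw [bet, bet, ih fun m hm => h m (by omega), h (i + 1) le_rfl]

theorem bet_shift (m : ℕ) (z : ℕ → ℕ) (A : ℕ) :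
    bet a b P κ m m (Function.update z m (z m + 1)) A = bet a b P κ (m + 1) m z (A + 1) := by
  rcases m with _ | m
  · rw [bet, bet, Function.update_self]
    have : z 0 + 1 + A = z 0 + (A + 1) := by omega
    rw [this]
  · rw [bet, bet, Function.update_self]
    have e1 : z (m + 1) + 1 + A = z (m + 1) + (A + 1) := by omega
    have e2 : bet a b P κ (m + 1) m (Function.update z (m + 1) (z (m + 1) + 1)) =
        bet a b P κ (m + 1 + 1) m z := by
      rw [bet_congr_j (j' := m + 1 + 1) _ m (by omega) (by omega)]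
      refine bet_congr_z _ m fun l hl => ?_
      rw [Function.update_of_ne (by omega)]
    rw [e1, e2, if_pos le_rfl, if_neg (by omega : ¬ m + 1 + 1 ≤ m + 1)]

include hp

theorem bet_c (m : ℕ) (z : ℕ → ℕ) (i : ℕ) (hi : m + 1 ≤ i) (hiJ : i < J) (A : ℕ) :
    P (m + 1) * bet a b P κ (m + 2) i z A +
      (1 - P (m + 1)) * bet a b P κ m i (Function.update z m (z m + 1)) A =
      bet a b P κ (m + 1) i z A := by
  induction i, hi using Nat.le_induction generalizing A with
  | base =>
    have h2 := hp (m + 1) (by omega) hiJ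
    rw [bet, bet, bet, Function.update_of_ne (by omega)]
    by_cases hA : a ≤ m + 1 ∧ m + 1 ≤ b ∧ z (m + 1) + A < κ (m + 1)
    · rw [if_pos hA, if_pos hA, if_pos hA]; ring
    · rw [if_neg hA, if_neg hA, if_neg hA]
      have e1 : bet a b P κ (m + 2) m z = bet a b P κ (m + 1) m z :=
        bet_congr_j z m (by omega) (by omega)
      have e2 : bet a b P κ m m (Function.update z m (z m + 1)) =
          fun A => bet a b P κ (m + 1) m z (A + 1) := funext fun A => bet_shift m z A
      rw [e1, e2, if_neg (by omega : ¬ m + 2 ≤ m + 1), if_pos (by omega : m ≤ m + 1),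
        if_pos le_rfl, add_zero]
      exact (NE_succ h2.1 h2.2 A (bet_LG hp (m + 1) z (by omega))).symm
  | succ i hi ih =>
    have h2 := hp (i + 1) (by omega) hiJ
    have ih' := ih (by omega)
    rw [bet, bet, bet, Function.update_of_ne (by omega)]
    by_cases hA : a ≤ i + 1 ∧ i + 1 ≤ b ∧ z (i + 1) + A < κ (i + 1)
    · rw [if_pos hA, if_pos hA, if_pos hA]; ring
    · rw [if_neg hA, if_neg hA, if_neg hA, if_pos (by omega : m + 2 ≤ i + 1),
        if_pos (by omega : m ≤ i + 1), if_pos (by omega : m + 1 ≤ i + 1)]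
      have e1 : bet a b P κ (m + 1) i z = fun A => P (m + 1) * bet a b P κ (m + 2) i z A +
          (1 - P (m + 1)) * bet a b P κ m i (Function.update z m (z m + 1)) A :=
        funext fun A => (ih' A).symm
      rw [e1, NE_add h2.1 h2.2 _ ((bet_LG hp _ _ (by omega)).smul _)
        ((bet_LG hp _ _ (by omega)).smul _), NE_smul, NE_smul]

theorem bet_d (m : ℕ) (z : ℕ → ℕ) (i : ℕ) (hi : m + 1 ≤ i) (hiJ : i < J) (A : ℕ) :
    bet a b P κ m i (Function.update z m (z m + 1)) A ≤ bet a b P κ (m + 2) i z A := by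
  induction i, hi using Nat.le_induction generalizing A with
  | base =>
    have h2 := hp (m + 1) (by omega) hiJ
    rw [bet, bet, Function.update_of_ne (by omega)]
    by_cases hA : a ≤ m + 1 ∧ m + 1 ≤ b ∧ z (m + 1) + A < κ (m + 1)
    · rw [if_pos hA, if_pos hA]
    · rw [if_neg hA, if_neg hA]
      have e1 : bet a b P κ (m + 2) m z = bet a b P κ (m + 1) m z :=
        bet_congr_j z m (by omega) (by omega)
      have e2 : bet a b P κ m m (Function.update z m (z m + 1)) =
          fun A => bet a b P κ (m + 1) m z (A + 1) := funext fun A => bet_shift m z A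
      rw [e1, e2, if_neg (by omega : ¬ m + 2 ≤ m + 1), if_pos (by omega : m ≤ m + 1), add_zero]
      have hL := bet_LG hp (m + 1) z (a := a) (b := b) (κ := κ) (i := m) (by omega)
      have han := bet_anti hp (m + 1) z (a := a) (b := b) (κ := κ) m (by omega)
      exact (NE_mono h2.1 h2.2 _ hL.shift hL han).trans (NE_anti h2.1 h2.2 _ hL han)
  | succ i hi ih =>
    have h2 := hp (i + 1) (by omega) hiJ
    have ih' := ih (by omega)
    rw [bet, bet, Function.update_of_ne (by omega)]
    by_cases hA : a ≤ i + 1 ∧ i + 1 ≤ b ∧ z (i + 1) + A < κ (i + 1)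
    · rw [if_pos hA, if_pos hA]
    · rw [if_neg hA, if_neg hA, if_pos (by omega : m + 2 ≤ i + 1),
        if_pos (by omega : m ≤ i + 1)]
      exact NE_mono h2.1 h2.2 _ (bet_LG hp _ _ (by omega)) (bet_LG hp _ _ (by omega)) ih'

omit hp

theorem bet_e (z : ℕ → ℕ) {i : ℕ} (hai : a ≤ i) (hib : i ≤ b) (hz : z i < κ i) (i' : ℕ)
    (hi : i ≤ i') (hiJ : i' < J) : 1 ≤ bet a b P κ J i' z 0 := by
  induction i', hi using Nat.le_induction with
  | base =>
    rcases i with _ | i
    · rw [bet, if_pos ⟨hai, hib, by simpa using hz⟩]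
    · rw [bet, if_pos ⟨hai, hib, by simpa using hz⟩]
  | succ i' hi' ih =>
    rw [bet]
    split_ifs with h1 h2
    · exact le_rfl
    · omega
    · rw [add_zero, NE_zero]
      exact ih (by omega)

include hp

theorem bet_low : ∀ i, i < a → i < J → ∀ A, bet a b P κ 0 i (fun _ => 0) A = 0 := by
  intro i
  induction i with
  | zero =>
    intro h _ A
    rw [bet, if_neg (by omega)]
  | succ i ih =>
    intro h hJ A
    have h2 := hp (i + 1) (by omega) hJ
    rw [bet, if_neg (by omega)]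
    have e : bet a b P κ 0 i (fun _ => 0) = fun _ => 0 := funext fun A => ih (by omega) (by omega) A
    rw [e]
    exact NE_const h2.1 h2.2 _ 0

theorem bet_base (haJ : a < J) (A : ℕ) (hA : ¬ (a ≤ b ∧ A < κ a)) :
    bet a b P κ 0 a (fun _ => 0) A = 0 := by
  obtain ⟨i, hi⟩ : ∃ i, i = a := ⟨a, rfl⟩
  rcases i with _ | i
  · rw [← hi, bet, if_neg]
    rintro ⟨_, h1, h2⟩
    rw [← hi] at hA
    exact hA ⟨h1, by simpa using h2⟩
  · have h2 := hp (i + 1) (by omega) (by omega)
    have e : bet a b P κ 0 i (fun _ => 0) = fun _ => 0 :=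
      funext fun A => bet_low hp i (by omega) (by omega) A
    rw [← hi, bet, if_neg, hi, e]
    · rw [← hi]
      exact NE_const h2.1 h2.2 _ 0
    · rintro ⟨_, h1, h2⟩
      rw [← hi] at hA
      exact hA ⟨h1, by simpa using h2⟩

end chain


section bound

variable {a b : ℕ} {P : ℕ → ℝ} {κ : ℕ → ℕ} {J : ℕ} {G : ℕ → ℝ} {S η : ℝ}

/-- the sum of the resistances -/
noncomputable def RR (G : ℕ → ℝ) (c i : ℕ) : ℝ := ∑ m ∈ Ico c i, 1 / G m

/-- the supermartingale below level `b` -/
noncomputable def UU (a : ℕ) (G : ℕ → ℝ) (S : ℝ) (i A : ℕ) : ℝ :=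
  (Real.log (G i) + Real.log S + (1 / G i + RR G a i) / S) + -1 * ff 0 A + 1 / (G i * S) * (A : ℝ)

/-- the martingale above level `b` -/
noncomputable def VV (a b : ℕ) (G : ℕ → ℝ) (S : ℝ) (i A : ℕ) : ℝ :=
  (-Real.log (RR G b (i + 1)) + Real.log S + (1 / G i + RR G a i) / S) +
    -1 * ff (RR G b i / RR G b (i + 1)) A + 1 / (G i * S) * (A : ℝ)

theorem RR_succ {c i : ℕ} (h : c ≤ i) : RR G c (i + 1) = RR G c i + 1 / G i := by
  rw [RR, sum_Ico_succ_top h]; rfl

theorem RR_self (c : ℕ) : RR G c c = 0 := by simp [RR]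

variable (hp : ∀ i, 1 ≤ i → i < J → 0 < P i ∧ P i < 1)
  (hG : ∀ i, 1 ≤ i → i < J → G i * (1 - P i) = G (i - 1) * P i) (hGp : ∀ i, i < J → 0 < G i)
  (hS : 0 < S)

include hG hGp in
theorem ratio {i : ℕ} (hi : i + 1 < J) (h0 : 0 < P (i + 1)) :
    (1 - P (i + 1)) / P (i + 1) = G i / G (i + 1) := by
  have h1 := hG (i + 1) (by omega) hi
  rw [Nat.add_sub_cancel] at h1
  have h2 := hGp (i + 1) hi
  rw [div_eq_div_iff h0.ne' h2.ne']
  linarith

theorem UU_LG (i : ℕ) : LG (UU a G S i) :=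
  ((LG.const _).add ((ff_LG le_rfl zero_le_one).smul (-1))).add (LG.id.smul _)

include hp hG hGp hS in
theorem UU_step {i : ℕ} (hai : a ≤ i) (hi : i + 1 < J) (A : ℕ) :
    NE (P (i + 1)) (A + 1) (UU a G S i) ≤ UU a G S (i + 1) A := by
  have h2 := hp (i + 1) (by omega) hi
  have h3 := ratio hG hGp hi h2.1
  have h4 := NE_harm h2.1 h2.2 A
  have g0 := hGp i (by omega)
  have g1 := hGp (i + 1) hi
  have e1 : NE (P (i + 1)) (A + 1) (UU a G S i) = _ :=
    NE_lin h2.1 h2.2 le_rfl zero_le_one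
      (Real.log (G i) + Real.log S + (1 / G i + RR G a i) / S) (1 / (G i * S)) A
  rw [e1, h3, UU, RR_succ hai]
  rw [h3, Real.log_div g0.ne' g1.ne'] at h4
  have e2 : 1 / (G i * S) * (((A : ℝ) + 1) * (G i / G (i + 1))) =
      1 / (G (i + 1) * S) * A + 1 / G (i + 1) / S := by
    field_simp
  rw [e2]
  have e3 : (1 / G (i + 1) + (RR G a i + 1 / G i)) / S =
      1 / G (i + 1) / S + (1 / G i + RR G a i) / S := by ring
  rw [e3]
  linarith

include hGp hS in
theorem UU_ge {i : ℕ} (hi : i < J) (A : ℕ) :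
    -1 - Real.log (((A : ℝ) + 1) / (G i * S)) + ((A : ℝ) + 1) / (G i * S) ≤ UU a G S i A := by
  have g0 := hGp i hi
  have hA : (0 : ℝ) < (A : ℝ) + 1 := by positivity
  rw [UU, Real.log_div hA.ne' (by positivity), Real.log_mul g0.ne' hS.ne']
  have h1 := ff_zero_le A
  by_cases hai : a ≤ i
  · have h2 : 0 ≤ RR G a i := sum_nonneg fun m hm => by
      rw [mem_Ico] at hm
      have := hGp m (by omega)
      positivity
    have h3 : (1 / G i + RR G a i) / S = 1 / G i / S + RR G a i / S := by ring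
    have h4 : 0 ≤ RR G a i / S := by positivity
    have h5 : ((A : ℝ) + 1) / (G i * S) = 1 / (G i * S) * A + 1 / G i / S := by
      field_simp
    rw [h3, h5]
    linarith
  · have h2 : RR G a i = 0 := by
      rw [RR, Ico_eq_empty (by omega), sum_empty]
    have h5 : ((A : ℝ) + 1) / (G i * S) = 1 / (G i * S) * A + 1 / G i / S := by
      field_simp
    rw [h2, h5, add_zero]
    linarith

include hp hG hGp hS in
/-- the bound below level `b` -/
theorem claim2 (hη : 0 < η) (hη1 : η < Real.exp (-1)) (hbJ : b < J)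
    (hκ : ∀ i, a ≤ i → i ≤ b → (κ i : ℝ) ≤ η * S * G i) (i : ℕ) (hai : a ≤ i) (hib : i ≤ b)
    (A : ℕ) :
    (Real.log (1 / η) - 1) * bet a b P κ 0 i (fun _ => 0) A ≤ UU a G S i A := by
  have hlη : Real.log η < -1 := (Real.log_lt_iff_lt_exp hη).2 hη1
  have hlam : 0 ≤ Real.log (1 / η) - 1 := by
    rw [one_div, Real.log_inv]; linarith
  have hbad : ∀ i, a ≤ i → i ≤ b → ∀ A : ℕ, A < κ i → Real.log (1 / η) - 1 ≤ UU a G S i A := by
    intro i hai hib A hA
    have g0 := hGp i (by omega)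
    have h1 := UU_ge (a := a) hGp hS (i := i) (by omega) A
    have h2 := hκ i hai hib
    have h3 : ((A : ℝ) + 1) ≤ κ i := by exact_mod_cast hA
    have hA0 : (0 : ℝ) < (A : ℝ) + 1 := by positivity
    have h4 : ((A : ℝ) + 1) / (G i * S) ≤ η := by
      rw [div_le_iff₀ (by positivity)]
      linarith
    have h5 : Real.log (((A : ℝ) + 1) / (G i * S)) ≤ Real.log η :=
      Real.log_le_log (by positivity) h4
    have h6 : 0 ≤ ((A : ℝ) + 1) / (G i * S) := by positivity
    rw [one_div, Real.log_inv]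
    linarith
  have hnn : ∀ i, i ≤ b → ∀ A : ℕ, 0 ≤ UU a G S i A := by
    intro i hib A
    have g0 := hGp i (by omega)
    have h1 := UU_ge (a := a) hGp hS (i := i) (by omega) A
    have hA0 : (0 : ℝ) < ((A : ℝ) + 1) / (G i * S) := by positivity
    have h2 := Real.log_le_sub_one_of_pos hA0
    linarith
  induction i, hai using Nat.le_induction generalizing A with
  | base =>
    by_cases hA : A < κ a
    · have h1 := (bet_mem hp (a := a) (b := b) (κ := κ) 0 (fun _ => 0) a (by omega) A).2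
      exact (mul_le_of_le_one_right hlam h1).trans (hbad a le_rfl hib A hA)
    · rw [bet_base hp (by omega) A fun h => hA h.2, mul_zero]
      exact hnn a hib A
  | succ i hai ih =>
    by_cases hA : A < κ (i + 1)
    · have h1 := (bet_mem hp (a := a) (b := b) (κ := κ) 0 (fun _ => 0) (i + 1) (by omega) A).2
      exact (mul_le_of_le_one_right hlam h1).trans (hbad (i + 1) (by omega) hib A hA)
    · have h2 := hp (i + 1) (by omega) (by omega)
      rw [bet, if_neg (by rintro ⟨_, _, h⟩; exact hA (by simpa using h)), if_pos (Nat.zero_le _),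
        ← NE_smul]
      refine (NE_mono h2.1 h2.2 _ ((bet_LG hp _ _ (by omega)).smul _) (UU_LG i)
        (ih (by omega))).trans ?_
      exact UU_step hp hG hGp hS hai (by omega) A

include hp hG hGp hS in
theorem VV_step {i : ℕ} (hab : a ≤ b) (hbi : b ≤ i) (hi : i + 1 < J) (A : ℕ) :
    NE (P (i + 1)) (A + 1) (VV a b G S i) = VV a b G S (i + 1) A := by
  have h2 := hp (i + 1) (by omega) hi
  have h3 := ratio hG hGp hi h2.1
  have g0 := hGp i (by omega)
  have g1 := hGp (i + 1) hi
  have r0 : 0 ≤ RR G b i := sum_nonneg fun m hm => by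
      rw [mem_Ico] at hm
      have := hGp m (by omega)
      positivity
  have r1 : RR G b (i + 1) = RR G b i + 1 / G i := RR_succ hbi
  have r2 : RR G b (i + 1 + 1) = RR G b (i + 1) + 1 / G (i + 1) := RR_succ (by omega)
  have r1p : 0 < RR G b (i + 1) := by rw [r1]; positivity
  have r2p : 0 < RR G b (i + 1 + 1) := by rw [r2]; positivity
  have x0 : 0 ≤ RR G b i / RR G b (i + 1) := by positivity
  have x1 : RR G b i / RR G b (i + 1) < 1 := by
    rw [div_lt_one r1p, r1]
    have : 0 < 1 / G i := by positivity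
    linarith
  have e1 : NE (P (i + 1)) (A + 1) (VV a b G S i) = _ :=
    NE_lin h2.1 h2.2 x0 x1.le
      (-Real.log (RR G b (i + 1)) + Real.log S + (1 / G i + RR G a i) / S) (1 / (G i * S)) A
  have e2 := NE_ff h2.1 h2.2 x0 x1 A
  have hm : P (i + 1) / (1 - (1 - P (i + 1)) * (RR G b i / RR G b (i + 1))) =
      RR G b (i + 1) / RR G b (i + 1 + 1) := by
    have h4 : (1 - P (i + 1)) * G (i + 1) = G i * P (i + 1) := by
      rw [div_eq_div_iff h2.1.ne' g1.ne'] at h3
      exact h3
    have h5 : P (i + 1) * (G i + G (i + 1)) = G (i + 1) := by linear_combination -h4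
    have h6 : P (i + 1) = G (i + 1) / (G i + G (i + 1)) := by
      rw [eq_div_iff (by positivity), h5]
    have h7 : RR G b i = RR G b (i + 1) - 1 / G i := by rw [r1]; ring
    rw [h6, r2, h7]
    have h8 : (1 - (1 - G (i + 1) / (G i + G (i + 1))) *
        ((RR G b (i + 1) - 1 / G i) / RR G b (i + 1))) =
        (G (i + 1) + 1 / RR G b (i + 1)) / (G i + G (i + 1)) := by
      field_simp
      ring
    rw [h8]
    field_simp
  rw [e1, e2, hm, h3, VV, RR_succ (by omega : a ≤ i), Real.log_div r1p.ne' r2p.ne']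
  have e3 : 1 / (G i * S) * (((A : ℝ) + 1) * (G i / G (i + 1))) =
      1 / (G (i + 1) * S) * A + 1 / G (i + 1) / S := by
    field_simp
  rw [e3]
  ring

theorem VV_LG {i : ℕ} (hx0 : 0 ≤ RR G b i / RR G b (i + 1))
    (hx1 : RR G b i / RR G b (i + 1) ≤ 1) : LG (VV a b G S i) :=
  ((LG.const _).add ((ff_LG hx0 hx1).smul (-1))).add (LG.id.smul _)

include hp hG hGp hS in
/-- the bound above level `b` -/
theorem claim3 (hη : 0 < η) (hη1 : η < Real.exp (-1)) (hab : a ≤ b)
    (hκ : ∀ i, a ≤ i → i ≤ b → (κ i : ℝ) ≤ η * S * G i) (i : ℕ) (hbi : b ≤ i) (hiJ : i < J)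
    (A : ℕ) :
    (Real.log (1 / η) - 1) * bet a b P κ 0 i (fun _ => 0) A ≤ VV a b G S i A := by
  induction i, hbi using Nat.le_induction generalizing A with
  | base =>
    refine (claim2 hp hG hGp hS hη hη1 hiJ hκ b hab le_rfl A).trans (le_of_eq ?_)
    have g0 := hGp b hiJ
    rw [UU, VV, RR_succ le_rfl, RR_self, zero_add, zero_div, one_div, Real.log_inv, neg_neg]
  | succ i hbi ih =>
    have h2 := hp (i + 1) (by omega) (by omega)
    have r0 : 0 ≤ RR G b i := sum_nonneg fun m hm => by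
      rw [mem_Ico] at hm
      have := hGp m (by omega)
      positivity
    have g0 := hGp i (by omega)
    have r1 : RR G b (i + 1) = RR G b i + 1 / G i := RR_succ hbi
    have r1p : 0 < RR G b (i + 1) := by rw [r1]; positivity
    have x0 : 0 ≤ RR G b i / RR G b (i + 1) := by positivity
    have x1 : RR G b i / RR G b (i + 1) ≤ 1 := by
      rw [div_le_one r1p, r1]
      have : 0 < 1 / G i := by positivity
      linarith
    rw [bet, if_neg (by rintro ⟨_, h, _⟩; omega), if_pos (Nat.zero_le _), ← NE_smul]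
    refine (NE_mono h2.1 h2.2 _ ((bet_LG hp _ _ (by omega)).smul _) (VV_LG x0 x1)
      (ih (by omega))).trans (le_of_eq ?_)
    exact VV_step hp hG hGp hS hab hbi hiJ A

end bound

end NB

open NB in
theorem piece_nb : S_nb := by
  intro J a b p κ G S η θ hab hbJ hp hG0 hG hS hS1 hS2 hη hη1 hκ
  have hGp : ∀ i, i < J → 0 < G i := by
    intro i
    induction i with
    | zero => intro _; exact hG0
    | succ i ih =>
      intro hi
      have h1 := ih (by omega)
      have h2 := hG (i + 1) (by omega) hi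
      have h3 := hp (i + 1) (by omega) hi
      rw [Nat.add_sub_cancel] at h2
      have h4 : 0 < G (i + 1) * (1 - p (i + 1)) := by
        rw [h2]
        exact mul_pos h1 h3.1
      have h5 : 0 < 1 - p (i + 1) := by linarith
      exact (pos_iff_pos_of_mul_pos h4).2 h5
  refine ⟨fun j z => bet a b p κ (min j J) (J - 1) z 0, fun j z => ?_, fun z => ?_,
    fun j hj hjJ z => ?_, fun j hj hjJ z => ?_, fun z hz => ?_, ?_⟩
  · exact (bet_mem hp _ z (J - 1) (by omega) 0).1
  · -- start at line 0 or 1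
    have key : ∀ i, i < J → ∀ A, bet a b p κ 1 i z A = bet a b p κ 0 i z A := by
      intro i
      induction i with
      | zero => intro _ A; rw [bet, bet]
      | succ i ih =>
        intro hi A
        have e : bet a b p κ 1 i z = bet a b p κ 0 i z := funext (ih (by omega))
        rw [bet, bet, e, if_pos (by omega : 1 ≤ i + 1), if_pos (by omega : 0 ≤ i + 1)]
    have h1 : min 1 J = 1 := by omega
    have h2 : min 0 J = 0 := by omega
    beta_reduce
    rw [h1, h2, key (J - 1) (by omega)]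
  · obtain ⟨m, rfl⟩ : ∃ m, j = m + 1 := ⟨j - 1, by omega⟩
    have h1 := bet_c hp (a := a) (b := b) (κ := κ) m z (J - 1) (by omega) (by omega) 0
    have e1 : min (m + 1 + 1) J = m + 2 := by omega
    have e2 : min (m + 1) J = m + 1 := by omega
    have e3 : min (m + 1 - 1) J = m := by omega
    beta_reduce
    rw [e1, e2, e3, Nat.add_sub_cancel]
    exact h1.le
  · obtain ⟨m, rfl⟩ : ∃ m, j = m + 1 := ⟨j - 1, by omega⟩
    have h1 := bet_d hp (a := a) (b := b) (κ := κ) m z (J - 1) (by omega) (by omega) 0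
    have e1 : min (m + 1 + 1) J = m + 2 := by omega
    have e3 : min (m + 1 - 1) J = m := by omega
    beta_reduce
    rw [e1, e3, Nat.add_sub_cancel]
    exact h1
  · obtain ⟨i, hai, hib, hzi⟩ := hz
    beta_reduce
    rw [min_self]
    exact bet_e z hai hib hzi (J - 1) (by omega) (by omega)
  · beta_reduce
    have h2 : min 0 J = 0 := by omega
    rw [h2]
    have hlη : Real.log η < -1 := (Real.log_lt_iff_lt_exp hη).2 hη1
    have hlam : 0 < Real.log (1 / η) - 1 := by
      rw [one_div, Real.log_inv]; linarith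
    rw [le_div_iff₀ hlam, mul_comm]
    refine (claim3 hp hG hGp hS hη hη1 hab hκ (J - 1) (by omega) (by omega) 0).trans ?_
    have e1 : J - 1 + 1 = J := by omega
    have hRa : RR G a J = RR G a (J - 1) + 1 / G (J - 1) := by
      have := RR_succ (G := G) (c := a) (i := J - 1) (by omega)
      rwa [e1] at this
    have hRa1 : RR G a J ≤ S := hS1
    have hRb : S ≤ θ * RR G b J := hS2
    have hRbp : 0 < RR G b J := by
      rw [RR]
      refine sum_pos (fun m hm => ?_) ⟨b, by rw [mem_Ico]; omega⟩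
      rw [mem_Ico] at hm
      have := hGp m hm.2
      positivity
    have h3 : S / RR G b J ≤ θ := by rwa [div_le_iff₀ hRbp]
    have h4 : Real.log (S / RR G b J) ≤ Real.log θ := Real.log_le_log (by positivity) h3
    rw [Real.log_div hS.ne' hRbp.ne'] at h4
    rw [VV, ff_zero, e1, Nat.cast_zero, mul_zero, mul_zero, add_zero, add_zero]
    have h5 : (1 / G (J - 1) + RR G a (J - 1)) / S ≤ 1 := by
      rw [div_le_one hS, add_comm, ← hRa]
      exact hRa1
    linarith

end Pool.Agent.R812.TC
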