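import Pool.Agent.R812.TC.Stm

/-! Project TC, piece NUM: birth and death sequence from the line conductances. -/

namespace Pool.Agent.R812.TC
open Finset

lemma num_qq_pos {F : ℕ → ℝ} (hF : Good F) {n : ℕ → ℕ} (hn : StrictMono n) (j : ℕ) :
    0 < qq F n j := by
  unfold qq
  apply Finset.sum_pos
  · intro m _
    have := hF.1 (m + 1)
    positivity
  · rw [Finset.nonempty_Ico]
    exact hn (Nat.lt_succ_self j)

lemma num_nrm (k : ℕ) : nrm ((k : ℤ), 0) = k := by
  simp [nrm]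

/-- the algebra of one step -/
lemma num_alg {pp pm s c r0 r1 q0 q1 T τ : ℝ} (hs : 0 < s) (hc : 0 < c) (hq0 : 0 < q0)
    (hq1 : 0 < q1) (hr0 : 1 ≤ r0 * s) (hr1 : 1 ≤ r1 * c) (hs1 : s * q0 ≤ 1) (hc1 : c * q1 ≤ 1)
    (hT0 : 0 ≤ T) (hpm0 : 0 ≤ pm) (hpp : pp ≤ 1) (hpmpp : pm ≤ pp)
    (h1 : (1 - pp) * c ≤ pp * s) (h2 : pm * s ≤ (1 - pm) * c) (h3 : (pp - pm) ^ 2 ≤ T * c)
    (hτ : Real.sqrt (T / q1) * (1 + r1 / q0 + r0 / q1) ≤ τ) (hτ1 : τ ≤ 1 / 100) :
    0 < pp ∧ pp < 1 ∧ pp * s * (1 - τ) ≤ (1 - pp) * c * (1 + τ) := by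
  have hr0' : 0 < r0 := by
    by_contra hneg
    have : r0 * s ≤ 0 := mul_nonpos_of_nonpos_of_nonneg (not_lt.1 hneg) hs.le
    linarith
  have hr1' : 0 < r1 := by
    by_contra hneg
    have : r1 * c ≤ 0 := mul_nonpos_of_nonpos_of_nonneg (not_lt.1 hneg) hc.le
    linarith
  set δ := pp - pm with hδ
  have hδ0 : 0 ≤ δ := by linarith
  have hcq : c ≤ 1 / q1 := by rw [le_div_iff₀ hq1]; exact hc1
  have hsq : s ≤ 1 / q0 := by rw [le_div_iff₀ hq0]; exact hs1
  have hδT : δ ^ 2 ≤ T / q1 := by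
    refine h3.trans ?_
    rw [div_eq_mul_one_div]
    exact mul_le_mul_of_nonneg_left hcq hT0
  have hδs : δ ≤ Real.sqrt (T / q1) := Real.le_sqrt_of_sq_le hδT
  have hA0 : 0 ≤ r1 / q0 := by positivity
  have hA1 : 0 ≤ r0 / q1 := by positivity
  have hδA : δ * (1 + r1 / q0 + r0 / q1) ≤ τ :=
    (mul_le_mul_of_nonneg_right hδs (by linarith)).trans hτ
  -- s ≤ (r1/q0) c
  have hsc : s ≤ r1 / q0 * c := by
    have : s * 1 ≤ (1 / q0) * (r1 * c) := mul_le_mul hsq hr1 (by norm_num) (by positivity)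
    calc s = s * 1 := by ring
      _ ≤ (1 / q0) * (r1 * c) := this
      _ = r1 / q0 * c := by ring
  have hcs : c ≤ r0 / q1 * s := by
    have : c * 1 ≤ (1 / q1) * (r0 * s) := mul_le_mul hcq hr0 (by norm_num) (by positivity)
    calc c = c * 1 := by ring
      _ ≤ (1 / q1) * (r0 * s) := this
      _ = r0 / q1 * s := by ring
  have hτ0 : 0 ≤ τ := le_trans (mul_nonneg hδ0 (by linarith)) hδA
  have e1 : δ * (s + c) ≤ τ * s := by
    calc δ * (s + c) ≤ δ * ((1 + r1 / q0 + r0 / q1) * s) := by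
          apply mul_le_mul_of_nonneg_left _ hδ0
          nlinarith [mul_nonneg hA0 hs.le]
      _ = δ * (1 + r1 / q0 + r0 / q1) * s := by ring
      _ ≤ τ * s := mul_le_mul_of_nonneg_right hδA hs.le
  have e2 : δ * (s + c) ≤ τ * c := by
    calc δ * (s + c) ≤ δ * ((1 + r1 / q0 + r0 / q1) * c) := by
          apply mul_le_mul_of_nonneg_left _ hδ0
          nlinarith [mul_nonneg hA1 hc.le]
      _ = δ * (1 + r1 / q0 + r0 / q1) * c := by ring
      _ ≤ τ * c := mul_le_mul_of_nonneg_right hδA hc.le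
  have hpmc : pm * (s + c) ≤ c := by nlinarith
  have hppc : c ≤ pp * (s + c) := by nlinarith
  have hpp0 : 0 < pp := by
    by_contra hneg
    have : pp * (s + c) ≤ 0 := mul_nonpos_of_nonpos_of_nonneg (not_lt.1 hneg) (by linarith)
    linarith
  have f1 : s * (1 - τ) ≤ (1 - pp) * (s + c) := by
    have : pp = pm + δ := by rw [hδ]; ring
    rw [this]
    nlinarith
  have f2 : pp * (s + c) ≤ c * (1 + τ) := by
    have : pp = pm + δ := by rw [hδ]; ring
    rw [this]
    nlinarith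
  have hpp1 : pp < 1 := by
    by_contra hneg
    have : (1 - pp) * (s + c) ≤ 0 :=
      mul_nonpos_of_nonpos_of_nonneg (by linarith [not_lt.1 hneg]) (by linarith)
    have h5 : 0 < s * (1 - τ) := mul_pos hs (by linarith)
    linarith
  refine ⟨hpp0, hpp1, ?_⟩
  have hsc0 : 0 < s + c := by linarith
  have key : (pp * (s + c)) * (s * (1 - τ)) ≤ (c * (1 + τ)) * ((1 - pp) * (s + c)) :=
    mul_le_mul f2 f1 (mul_nonneg hs.le (by linarith)) (mul_nonneg hc.le (by linarith))
  have : (s + c) * (pp * s * (1 - τ)) ≤ (s + c) * ((1 - pp) * c * (1 + τ)) := by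
    calc (s + c) * (pp * s * (1 - τ)) = (pp * (s + c)) * (s * (1 - τ)) := by ring
      _ ≤ (c * (1 + τ)) * ((1 - pp) * (s + c)) := key
      _ = (s + c) * ((1 - pp) * c * (1 + τ)) := by ring
  exact le_of_mul_le_mul_left this hsc0

theorem piece_num (hcond : S_cond) (hcap0 : S_cap0) (hcap2 : S_cap2) (hcap3 : S_cap3) :
    S_num := by
  intro F n hF hn _hn0 hyp
  set C : ℕ → ℝ := fun j => Cap F (n j) (n (j + 1)) with hCdef
  have hlt : ∀ j, n j < n (j + 1) := fun j => hn (Nat.lt_succ_self j)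
  have hC0 : ∀ j, 0 < C j := fun j => hcap0 F hF _ _ (hlt j)
  have hCq : ∀ j, C j * qq F n j ≤ 1 := fun j => hcap2 F hF _ _ (hlt j)
  have hCr : ∀ j, 1 ≤ rr F n j * C j := by
    intro j
    have h := hcap3 F hF _ _ (hlt j)
    unfold rr
    rw [div_mul_eq_mul_div, le_div_iff₀ (by positivity), one_mul]
    exact h
  have step : ∀ j, ∃ p : ℝ, 1 ≤ j → (0 < p ∧ p < 1 ∧
      (∀ x, nrm x = n j → uu F (n (j - 1)) (n (j + 1)) x ≤ p) ∧
      (1 - p) * C j ≤ p * C (j - 1) ∧
      p * C (j - 1) * (1 - 1 / (100 * (j : ℝ) ^ 2)) ≤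
        (1 - p) * C j * (1 + 1 / (100 * (j : ℝ) ^ 2))) := by
    intro j
    by_cases hj : 1 ≤ j
    · have hjj : j - 1 + 1 = j := by omega
      have ha : n (j - 1) < n j := by
        have := hlt (j - 1)
        rwa [hjj] at this
      obtain ⟨pp, pm, hpm0, hpp1, hu, h1, h2, h3⟩ :=
        hcond F hF (n (j - 1)) (n j) (n (j + 1)) ha (hlt j)
      have hCj : Cap F (n (j - 1)) (n j) = C (j - 1) := by
        simp only [hCdef, hjj]
      rw [hCj] at h1 h2
      have hpmpp : pm ≤ pp := by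
        have := hu ((n j : ℤ), 0) (num_nrm (n j))
        linarith [this.1, this.2]
      have hFn := hF.1 (n j)
      have hj2 : (1 : ℝ) ≤ (j : ℝ) ^ 2 := by
        have : (1 : ℝ) ≤ j := by exact_mod_cast hj
        nlinarith
      have hτ1 : 1 / (100 * (j : ℝ) ^ 2) ≤ 1 / 100 := by
        apply one_div_le_one_div_of_le (by norm_num)
        linarith
      have key := num_alg (pp := pp) (pm := pm) (s := C (j - 1)) (c := C j)
        (r0 := rr F n (j - 1)) (r1 := rr F n j) (q0 := qq F n (j - 1)) (q1 := qq F n j)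
        (T := 8 * (n j : ℝ) / F (n j)) (τ := 1 / (100 * (j : ℝ) ^ 2))
        (hC0 _) (hC0 _) (num_qq_pos hF hn _) (num_qq_pos hF hn _) (hCr _) (hCr _) (hCq _) (hCq _)
        (by positivity) hpm0 hpp1 hpmpp h1 h2 h3 (hyp j hj) hτ1
      exact ⟨pp, fun _ => ⟨key.1, key.2.1, fun x hx => (hu x hx).2, h1, key.2.2⟩⟩
    · exact ⟨0, fun h => absurd h hj⟩
  choose p hp using step
  let G : ℕ → ℝ := fun j => Nat.rec (C 0) (fun k g => g * (p (k + 1) / (1 - p (k + 1)))) j
  have hG0 : G 0 = C 0 := rfl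
  have hGs : ∀ k, G (k + 1) = G k * (p (k + 1) / (1 - p (k + 1))) := fun k => rfl
  have hGpos : ∀ k, 0 < G k := by
    intro k
    induction k with
    | zero => rw [hG0]; exact hC0 0
    | succ k ih =>
      obtain ⟨h1, h2, _⟩ := hp (k + 1) (by omega)
      rw [hGs]
      exact mul_pos ih (div_pos h1 (by linarith))
  have hrec : ∀ k, G (k + 1) * (1 - p (k + 1)) = G k * p (k + 1) := by
    intro k
    obtain ⟨h1, h2, _⟩ := hp (k + 1) (by omega)
    rw [hGs]
    have : (1 - p (k + 1)) ≠ 0 := by linarith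
    field_simp
  have hlow : ∀ k, C k ≤ G k := by
    intro k
    induction k with
    | zero => rw [hG0]
    | succ k ih =>
      obtain ⟨h1, h2, _, h4, _⟩ := hp (k + 1) (by omega)
      have h2' : 0 < 1 - p (k + 1) := by linarith
      rw [Nat.add_sub_cancel] at h4
      have h5 := hrec k
      have : C (k + 1) * (1 - p (k + 1)) ≤ G (k + 1) * (1 - p (k + 1)) := by
        rw [h5]
        nlinarith [mul_le_mul_of_nonneg_left ih h1.le]
      exact le_of_mul_le_mul_right this h2'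
  have hup : ∀ k : ℕ, G k ≤ (2 - 1 / ((k : ℝ) + 1)) * C k := by
    intro k
    induction k with
    | zero => rw [hG0]; norm_num
    | succ k ih =>
      obtain ⟨h1, h2, _, _, h4⟩ := hp (k + 1) (by omega)
      have h2' : 0 < 1 - p (k + 1) := by linarith
      rw [Nat.add_sub_cancel] at h4
      have h5 := hrec k
      push_cast at h4 ⊢
      set x : ℝ := (k : ℝ) + 1 with hx
      have hx1 : 1 ≤ x := by rw [hx]; linarith [(Nat.cast_nonneg k : (0 : ℝ) ≤ k)]
      set τ := 1 / (100 * x ^ 2) with hτ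
      have hx2 : 1 ≤ x ^ 2 := by nlinarith
      have hτ1 : τ ≤ 1 / 100 := by
        apply one_div_le_one_div_of_le (by norm_num)
        linarith
      have hτ0 : 0 < τ := by positivity
      have hK : 0 ≤ 2 - 1 / x := by
        have : 1 / x ≤ 1 := by
          rw [div_le_one (by linarith)]
          exact hx1
        linarith
      have hK2 : 2 - 1 / x ≤ 2 := by
        have : 0 ≤ 1 / x := by positivity
        linarith
      -- p s ≤ (1-p) c (1 + 3 τ)
      have h6 : p (k + 1) * C k ≤ (1 - p (k + 1)) * C (k + 1) * (1 + 3 * τ) := by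
        have hpc : 0 < (1 - p (k + 1)) * C (k + 1) := mul_pos h2' (hC0 _)
        have h7 : (1 + τ) ≤ (1 + 3 * τ) * (1 - τ) := by nlinarith
        have h8 : p (k + 1) * C k * (1 - τ) ≤
            (1 - p (k + 1)) * C (k + 1) * (1 + 3 * τ) * (1 - τ) := by
          calc p (k + 1) * C k * (1 - τ) ≤ (1 - p (k + 1)) * C (k + 1) * (1 + τ) := h4
            _ ≤ (1 - p (k + 1)) * C (k + 1) * ((1 + 3 * τ) * (1 - τ)) :=
              mul_le_mul_of_nonneg_left h7 hpc.le
            _ = _ := by ring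
        exact le_of_mul_le_mul_right h8 (by linarith)
      have h9 : (2 - 1 / x) * (1 + 3 * τ) ≤ 2 - 1 / (x + 1) := by
        have h10 : (2 - 1 / x) * (1 + 3 * τ) ≤ 2 - 1 / x + 6 * τ := by nlinarith
        have h11 : 6 * τ ≤ 1 / x - 1 / (x + 1) := by
          rw [hτ, div_sub_div _ _ (by positivity) (by positivity), mul_one_div,
            div_le_div_iff₀ (by positivity) (by positivity)]
          nlinarith
        linarith
      have h12 : G (k + 1) * (1 - p (k + 1)) ≤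
          (2 - 1 / (x + 1)) * C (k + 1) * (1 - p (k + 1)) := by
        rw [h5]
        calc G k * p (k + 1) ≤ (2 - 1 / x) * C k * p (k + 1) :=
              mul_le_mul_of_nonneg_right ih h1.le
          _ = (2 - 1 / x) * (p (k + 1) * C k) := by ring
          _ ≤ (2 - 1 / x) * ((1 - p (k + 1)) * C (k + 1) * (1 + 3 * τ)) :=
              mul_le_mul_of_nonneg_left h6 hK
          _ = ((2 - 1 / x) * (1 + 3 * τ)) * ((1 - p (k + 1)) * C (k + 1)) := by ring
          _ ≤ (2 - 1 / (x + 1)) * ((1 - p (k + 1)) * C (k + 1)) :=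
              mul_le_mul_of_nonneg_right h9 (mul_pos h2' (hC0 _)).le
          _ = _ := by ring
      exact le_of_mul_le_mul_right h12 h2'
  refine ⟨p, G, ?_, hGpos 0, ?_, ?_⟩
  · intro j hj
    obtain ⟨h1, h2, h3, _⟩ := hp j hj
    exact ⟨h1, h2, h3⟩
  · intro j hj
    obtain ⟨k, rfl⟩ : ∃ k, j = k + 1 := ⟨j - 1, by omega⟩
    rw [Nat.add_sub_cancel]
    exact hrec k
  · intro j
    refine ⟨hlow j, (hup j).trans ?_⟩
    apply mul_le_mul_of_nonneg_right _ (hC0 j).le
    have : 0 ≤ 1 / ((j : ℝ) + 1) := by positivity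
    linarith

end Pool.Agent.R812.TC
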