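import Pool.Agent.R812.TC.Stm

/-! Project TC (MP_e14847_pr), piece PATH: spreading estimate. -/

set_option autoImplicit false

namespace Pool.Agent.R812.TC

namespace PathP

open Finset

/-! ### symmetries -/

theorem mem_box {N : ℕ} {x : V} : x ∈ box N ↔ nrm x ≤ N := by
  simp only [box, nrm, Finset.mem_product, Finset.mem_Icc]
  omega

theorem cc_nonneg {F : ℕ → ℝ} (hF : Good F) (x : V) (d : Fin 4) : 0 ≤ cc F x d := (hF.1 _).le

theorem En_symm (F : ℕ → ℝ) (N : ℕ) (φ : V → ℝ) (T : V → V) (π : Fin 4 → Fin 4)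
    (hT : ∀ x, T (T x) = x) (hπ : ∀ d, π (π d) = d) (hn : ∀ x, nrm (T x) = nrm x)
    (hadd : ∀ x d, T (x + dir d) = T x + dir (π d)) :
    En F N (fun x => φ (T x)) = En F N φ := by
  have h1 : ∀ x, ∑ d, cc F x d * (φ (T (x + dir d)) - φ (T x)) ^ 2 =
      ∑ d, cc F (T x) d * (φ (T x + dir d) - φ (T x)) ^ 2 := by
    intro x
    have hb : Function.Bijective π := Function.Involutive.bijective hπ
    rw [← hb.sum_comp (fun d => cc F (T x) d * (φ (T x + dir d) - φ (T x)) ^ 2)]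
    refine Finset.sum_congr rfl fun d _ => ?_
    have h2 : cc F x d = cc F (T x) (π d) := by
      unfold cc
      rw [← hadd, hn, hn]
    rw [h2, hadd]
  unfold En
  simp only [h1]
  refine Finset.sum_nbij' T T ?_ ?_ ?_ ?_ ?_
  · intro x hx
    rw [mem_box, hn]
    exact mem_box.1 hx
  · intro x hx
    rw [mem_box, hn]
    exact mem_box.1 hx
  · intro x _
    exact hT x
  · intro x _
    exact hT x
  · intro x _
    rfl

/-! ### windows -/

theorem window (y : ℕ → ℝ) (n : ℕ) (hn : 1 ≤ n) :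
    |(1 / (n : ℝ)) * ∑ k ∈ range n, y (k + 2) - (1 / ((n : ℝ) + 1)) * ∑ k ∈ range (n + 1), y k| ≤
      (2 / (n : ℝ)) * ∑ k ∈ range (n + 1), |y (k + 1) - y k| := by
  have hn0 : (0 : ℝ) < n := by exact_mod_cast hn
  set T : ℝ := ∑ k ∈ range (n + 1), |y (k + 1) - y k| with hT
  have hT0 : 0 ≤ T := Finset.sum_nonneg fun _ _ => abs_nonneg _
  have h1 : |∑ k ∈ range n, y (k + 2) - ∑ k ∈ range n, y (k + 1)| ≤ T := by
    rw [← Finset.sum_sub_distrib]
    refine (Finset.abs_sum_le_sum_abs _ _).trans ?_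
    rw [hT, Finset.sum_range_succ' (fun k => |y (k + 1) - y k|) n]
    exact le_add_of_nonneg_right (abs_nonneg _)
  have h2 : ∀ k, k < n → |y (k + 1) - y 0| ≤ T := by
    intro k hk
    have e : y (k + 1) - y 0 = ∑ l ∈ range (k + 1), (y (l + 1) - y l) :=
      (Finset.sum_range_sub y (k + 1)).symm
    rw [e]
    refine (Finset.abs_sum_le_sum_abs _ _).trans ?_
    rw [hT]
    refine Finset.sum_le_sum_of_subset_of_nonneg ?_ (fun _ _ _ => abs_nonneg _)
    intro l hl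
    rw [Finset.mem_range] at hl ⊢
    omega
  have h3 : |∑ k ∈ range n, (y (k + 1) - y 0)| ≤ n * T := by
    refine (Finset.abs_sum_le_sum_abs _ _).trans ?_
    have := Finset.sum_le_card_nsmul (range n) (fun k => |y (k + 1) - y 0|) T
      (fun k hk => h2 k (Finset.mem_range.1 hk))
    rwa [Finset.card_range, nsmul_eq_mul] at this
  have e1 : ∑ k ∈ range (n + 1), y k = ∑ k ∈ range n, y (k + 1) + y 0 :=
    Finset.sum_range_succ' y n
  have e2 : ∑ k ∈ range n, (y (k + 1) - y 0) = ∑ k ∈ range n, y (k + 1) - n * y 0 := by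
    rw [Finset.sum_sub_distrib, Finset.sum_const, Finset.card_range, nsmul_eq_mul]
  rw [e1]
  rw [e2] at h3
  set S2 := ∑ k ∈ range n, y (k + 2)
  set S1 := ∑ k ∈ range n, y (k + 1)
  have e3 : (1 / (n : ℝ)) * S2 - (1 / ((n : ℝ) + 1)) * (S1 + y 0) =
      (1 / (n : ℝ)) * (S2 - S1) + (1 / ((n : ℝ) * (n + 1))) * (S1 - n * y 0) := by
    field_simp
    ring
  rw [e3]
  refine (abs_add_le _ _).trans ?_
  rw [abs_mul, abs_mul, abs_of_pos (by positivity : (0 : ℝ) < 1 / n),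
    abs_of_pos (by positivity : (0 : ℝ) < 1 / ((n : ℝ) * (n + 1)))]
  have h4 : 1 / (n : ℝ) * |S2 - S1| ≤ 1 / n * T := mul_le_mul_of_nonneg_left h1 (by positivity)
  have h5 : 1 / ((n : ℝ) * (n + 1)) * |S1 - n * y 0| ≤ 1 / ((n : ℝ) * (n + 1)) * (n * T) :=
    mul_le_mul_of_nonneg_left h3 (by positivity)
  have h6 : 1 / ((n : ℝ) * (n + 1)) * (n * T) ≤ 1 / n * T := by
    have : 1 / ((n : ℝ) * (n + 1)) * (n * T) = 1 / ((n : ℝ) + 1) * T := by
      field_simp
    rw [this]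
    apply mul_le_mul_of_nonneg_right _ hT0
    apply one_div_le_one_div_of_le hn0
    linarith
  have h7 : 2 / (n : ℝ) * T = 1 / n * T + 1 / n * T := by ring
  rw [h7]
  linarith

/-! ### Cauchy-Schwarz on a triangle of indices -/

/-- the index set -/
def tri (D0 : ℕ) : Finset (Σ _ : ℕ, ℕ) := (range D0).sigma fun d => range (d + 2)

theorem mem_tri {D0 : ℕ} {e : Σ _ : ℕ, ℕ} : e ∈ tri D0 ↔ e.1 < D0 ∧ e.2 < e.1 + 2 := by
  simp [tri]

theorem sum_tri (D0 : ℕ) (f : ℕ → ℕ → ℝ) :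
    ∑ d ∈ range D0, ∑ k ∈ range (d + 2), f d k = ∑ e ∈ tri D0, f e.1 e.2 := by
  rw [tri, Finset.sum_sigma]

theorem cs_tri (D0 : ℕ) (c : ℕ → ℝ) (δ : ℕ → ℕ → ℝ) :
    (∑ d ∈ range D0, ∑ k ∈ range (d + 2), c d * |δ d k|) ^ 2 ≤
      (∑ d ∈ range D0, ((d : ℝ) + 2) * c d ^ 2) * ∑ e ∈ tri D0, (δ e.1 e.2) ^ 2 := by
  rw [sum_tri D0 (fun d k => c d * |δ d k|)]
  refine (Finset.sum_mul_sq_le_sq_mul_sq (tri D0) (fun e => c e.1) (fun e => |δ e.1 e.2|)).trans ?_
  rw [← sum_tri D0 (fun d _ => c d ^ 2)]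
  simp only [sq_abs, Finset.sum_const, Finset.card_range, nsmul_eq_mul]
  push_cast
  exact le_rfl

theorem inj_sum (N D0 : ℕ) (f : V → ℝ) (hf : ∀ x, 0 ≤ f x) (X : ℕ → ℕ → V)
    (hX : ∀ e ∈ tri D0, X e.1 e.2 ∈ box N)
    (hinj : ∀ e ∈ tri D0, ∀ e' ∈ tri D0, X e.1 e.2 = X e'.1 e'.2 → e = e') :
    ∑ e ∈ tri D0, f (X e.1 e.2) ≤ ∑ x ∈ box N, f x := by
  classical
  rw [← Finset.sum_image (s := tri D0) (g := fun e => X e.1 e.2) (f := f)
    (fun e he e' he' h => hinj e he e' he' h)]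
  refine Finset.sum_le_sum_of_subset_of_nonneg ?_ (fun x _ _ => hf x)
  intro x hx
  obtain ⟨e, he, rfl⟩ := Finset.mem_image.1 hx
  exact hX e he

theorem core (F : ℕ → ℝ) (hF : Good F) (hline : S_line) (a D N : ℕ) (g : ℝ) (φ : V → ℝ)
    (m i : ℕ) (x : V) (ha : 1 ≤ a) (hD : 4 * D ≤ a) (ham : a ≤ m) (hmD : m ≤ a + D) (hg : 0 < g)
    (hgF : ∀ n, a ≤ n → n ≤ m → g ≤ F n) (hN : m < N) (hi : i ≤ m) (hx : nrm x = a) :
    (φ ((m : ℤ), (i : ℤ)) - φ x) ^ 2 ≤
      (40 * (1 + Real.log (D + 1)) / g + 40 * a / F a) * En F N φ := by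
  obtain ⟨D0, rfl⟩ : ∃ D0, m = a + D0 := ⟨m - a, by omega⟩
  set m := a + D0 with hm
  have hD0 : D0 ≤ D := by omega
  set y : ℕ → ℕ → ℝ := fun d k => φ ((m : ℤ) - d, (i : ℤ) - 2 * d - 2 + k) with hy
  set A : ℕ → ℝ := fun d => (1 / ((d : ℝ) + 1)) * ∑ k ∈ range (d + 1), y d (k + 2) with hA
  set lat : ℕ → ℕ → ℝ := fun d k => y d (k + 1) - y d k with hlat
  set rad : ℕ → ℕ → ℝ := fun d k => y d k - y (d + 1) (k + 2) with hrad
  have hE0 : ∀ (x : V) (d : Fin 4), 0 ≤ cc F x d * (φ (x + dir d) - φ x) ^ 2 := fun x d =>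
    mul_nonneg (cc_nonneg hF x d) (sq_nonneg _)
  -- one step
  have hstep : ∀ d, |A d - A (d + 1)| ≤ ∑ k ∈ range (d + 2), (2 / ((d : ℝ) + 1)) * |lat d k| +
      ∑ k ∈ range (d + 2), (1 / ((d : ℝ) + 2)) * |rad d k| := by
    intro d
    set B : ℝ := (1 / ((d : ℝ) + 2)) * ∑ k ∈ range (d + 2), y d k with hB
    have h1 := window (y d) (d + 1) (by omega)
    have e1 : (((d + 1 : ℕ) : ℝ)) = (d : ℝ) + 1 := by push_cast; ring
    have e2 : (d : ℝ) + 1 + 1 = (d : ℝ) + 2 := by ring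
    rw [e1, e2] at h1
    have h2 : |A d - B| ≤ (2 / ((d : ℝ) + 1)) * ∑ k ∈ range (d + 2), |lat d k| := h1
    have h3 : B - A (d + 1) = (1 / ((d : ℝ) + 2)) * ∑ k ∈ range (d + 2), rad d k := by
      rw [hB, hA, hrad]
      simp only
      rw [Finset.sum_sub_distrib, mul_sub]
      have e3 : (((d + 1 : ℕ) : ℝ)) + 1 = (d : ℝ) + 2 := by push_cast; ring
      rw [e3]
    have h4 : |B - A (d + 1)| ≤ (1 / ((d : ℝ) + 2)) * ∑ k ∈ range (d + 2), |rad d k| := by
      rw [h3, abs_mul, abs_of_pos (by positivity : (0 : ℝ) < 1 / ((d : ℝ) + 2))]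
      exact mul_le_mul_of_nonneg_left (Finset.abs_sum_le_sum_abs _ _) (by positivity)
    rw [← Finset.mul_sum, ← Finset.mul_sum]
    have h5 : A d - A (d + 1) = (A d - B) + (B - A (d + 1)) := by ring
    rw [h5]
    exact (abs_add_le _ _).trans (add_le_add h2 h4)
  set SL : ℝ := ∑ d ∈ range D0, ∑ k ∈ range (d + 2), (2 / ((d : ℝ) + 1)) * |lat d k| with hSL
  set SR : ℝ := ∑ d ∈ range D0, ∑ k ∈ range (d + 2), (1 / ((d : ℝ) + 2)) * |rad d k| with hSR
  have htel : |A 0 - A D0| ≤ SL + SR := by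
    have e : A 0 - A D0 = ∑ d ∈ range D0, (A d - A (d + 1)) := by
      rw [Finset.sum_range_sub']
    rw [e, hSL, hSR, ← Finset.sum_add_distrib]
    exact (Finset.abs_sum_le_sum_abs _ _).trans (Finset.sum_le_sum fun d _ => hstep d)
  -- the harmonic sum
  set H : ℝ := ∑ d ∈ range D0, 1 / ((d : ℝ) + 1) with hH
  have hHle : H ≤ 1 + Real.log (D + 1) := by
    have h1 := harmonic_le_one_add_log D0
    have h2 : ((harmonic D0 : ℚ) : ℝ) = H := by
      rw [harmonic, hH]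
      push_cast
      refine Finset.sum_congr rfl fun d _ => ?_
      rw [one_div]
    rw [h2] at h1
    refine h1.trans ?_
    rcases Nat.eq_zero_or_pos D0 with h0 | h0
    · rw [h0]
      simp only [Nat.cast_zero, Real.log_zero, add_zero]
      have : 0 ≤ Real.log ((D : ℝ) + 1) := Real.log_nonneg (by
        have : (0 : ℝ) ≤ D := Nat.cast_nonneg D
        linarith)
      linarith
    · have h3 : (0 : ℝ) < D0 := by exact_mod_cast h0
      have h4 : (D0 : ℝ) ≤ D := by exact_mod_cast hD0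
      have := Real.log_le_log h3 (by linarith : (D0 : ℝ) ≤ (D : ℝ) + 1)
      linarith
  have hH0 : 0 ≤ H := Finset.sum_nonneg fun d _ => by positivity
  -- energies
  set EL : ℝ := ∑ x ∈ box N, cc F x 2 * (φ (x + dir 2) - φ x) ^ 2 with hEL
  set ER : ℝ := ∑ x ∈ box N, cc F x 0 * (φ (x + dir 0) - φ x) ^ 2 with hER
  have hEL0 : 0 ≤ EL := Finset.sum_nonneg fun x _ => hE0 x 2
  have hER0 : 0 ≤ ER := Finset.sum_nonneg fun x _ => hE0 x 0
  have hEn : EL + ER ≤ En F N φ := by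
    unfold En
    rw [hEL, hER, ← Finset.sum_add_distrib]
    refine Finset.sum_le_sum fun x _ => ?_
    rw [Fin.sum_univ_four]
    have := hE0 x 1
    have := hE0 x 3
    linarith
  have hdir2 : ∀ p q : ℤ, ((p, q) : V) + dir 2 = (p, q + 1) := by
    intro p q
    simp [dir]
  have hdir0 : ∀ p q : ℤ, ((p, q) : V) + dir 0 = (p + 1, q) := by
    intro p q
    simp [dir]
  have hLe : g * ∑ e ∈ tri D0, (lat e.1 e.2) ^ 2 ≤ EL := by
    have h1 := inj_sum N D0 (fun x => cc F x 2 * (φ (x + dir 2) - φ x) ^ 2) (fun x => hE0 x 2)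
      (fun d k => (((m : ℤ) - d, (i : ℤ) - 2 * d - 2 + k) : V)) (fun e he => by
        rw [mem_tri] at he
        rw [mem_box]
        simp only [nrm]
        omega) (fun e he e' he' h => by
        simp only [Prod.mk.injEq] at h
        have h1 : e.1 = e'.1 := by omega
        have h2 : e.2 = e'.2 := by omega
        exact Sigma.ext h1 (heq_of_eq h2))
    refine le_trans ?_ h1
    rw [Finset.mul_sum]
    refine Finset.sum_le_sum fun e he => ?_
    rw [mem_tri] at he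
    rw [hdir2]
    have e1 : lat e.1 e.2 = φ ((m : ℤ) - e.1, (i : ℤ) - 2 * e.1 - 2 + e.2 + 1) -
        φ ((m : ℤ) - e.1, (i : ℤ) - 2 * e.1 - 2 + e.2) := by
      show φ ((m : ℤ) - e.1, (i : ℤ) - 2 * e.1 - 2 + ((e.2 + 1 : ℕ) : ℤ)) - _ = _
      push_cast
      rw [← add_assoc]
    rw [e1]
    apply mul_le_mul_of_nonneg_right _ (sq_nonneg _)
    have e2 : cc F ((m : ℤ) - e.1, (i : ℤ) - 2 * e.1 - 2 + e.2) 2 = F (m - e.1) := by
      unfold cc
      rw [hdir2]
      congr 1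
      simp only [nrm]
      omega
    rw [e2]
    exact hgF _ (by omega) (by omega)
  have hRe : g * ∑ e ∈ tri D0, (rad e.1 e.2) ^ 2 ≤ ER := by
    have h1 := inj_sum N D0 (fun x => cc F x 0 * (φ (x + dir 0) - φ x) ^ 2) (fun x => hE0 x 0)
      (fun d k => (((m : ℤ) - d - 1, (i : ℤ) - 2 * d - 2 + k) : V)) (fun e he => by
        rw [mem_tri] at he
        rw [mem_box]
        simp only [nrm]
        omega) (fun e he e' he' h => by
        simp only [Prod.mk.injEq] at h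
        have h1 : e.1 = e'.1 := by omega
        have h2 : e.2 = e'.2 := by omega
        exact Sigma.ext h1 (heq_of_eq h2))
    refine le_trans ?_ h1
    rw [Finset.mul_sum]
    refine Finset.sum_le_sum fun e he => ?_
    rw [mem_tri] at he
    rw [hdir0]
    have e1 : rad e.1 e.2 = φ ((m : ℤ) - e.1 - 1 + 1, (i : ℤ) - 2 * e.1 - 2 + e.2) -
        φ ((m : ℤ) - e.1 - 1, (i : ℤ) - 2 * e.1 - 2 + e.2) := by
      show φ ((m : ℤ) - e.1, (i : ℤ) - 2 * e.1 - 2 + e.2) -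
        φ ((m : ℤ) - ((e.1 + 1 : ℕ) : ℤ), (i : ℤ) - 2 * ((e.1 + 1 : ℕ) : ℤ) - 2 +
          ((e.2 + 2 : ℕ) : ℤ)) = _
      have e2 : (m : ℤ) - e.1 - 1 + 1 = (m : ℤ) - e.1 := by ring
      have e3 : (m : ℤ) - ((e.1 + 1 : ℕ) : ℤ) = (m : ℤ) - e.1 - 1 := by push_cast; ring
      have e4 : (i : ℤ) - 2 * ((e.1 + 1 : ℕ) : ℤ) - 2 + ((e.2 + 2 : ℕ) : ℤ) =
        (i : ℤ) - 2 * e.1 - 2 + e.2 := by push_cast; ring
      rw [e2, e3, e4]
    rw [e1]
    apply mul_le_mul_of_nonneg_right _ (sq_nonneg _)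
    have e2 : cc F ((m : ℤ) - e.1 - 1, (i : ℤ) - 2 * e.1 - 2 + e.2) 0 = F (m - e.1) := by
      unfold cc
      rw [hdir0]
      congr 1
      simp only [nrm]
      omega
    rw [e2]
    exact hgF _ (by omega) (by omega)
  have hSL2 : SL ^ 2 ≤ 8 * H / g * EL := by
    have h1 := cs_tri D0 (fun d => 2 / ((d : ℝ) + 1)) lat
    have h2 : ∑ d ∈ range D0, ((d : ℝ) + 2) * (2 / ((d : ℝ) + 1)) ^ 2 ≤ 8 * H := by
      rw [hH, Finset.mul_sum]
      refine Finset.sum_le_sum fun d _ => ?_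
      have hd : (0 : ℝ) ≤ d := Nat.cast_nonneg d
      rw [div_pow, mul_one_div, ← mul_div_assoc, div_le_div_iff₀ (by positivity) (by positivity)]
      nlinarith
    have h3 : ∑ e ∈ tri D0, (lat e.1 e.2) ^ 2 ≤ EL / g := by
      rw [le_div_iff₀ hg, mul_comm]
      exact hLe
    have h4 : 0 ≤ ∑ e ∈ tri D0, (lat e.1 e.2) ^ 2 := Finset.sum_nonneg fun _ _ => sq_nonneg _
    refine h1.trans ((mul_le_mul h2 h3 h4 (by positivity)).trans (le_of_eq ?_))
    ring
  have hSR2 : SR ^ 2 ≤ 8 * H / g * ER := by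
    have h1 := cs_tri D0 (fun d => 1 / ((d : ℝ) + 2)) rad
    have h2 : ∑ d ∈ range D0, ((d : ℝ) + 2) * (1 / ((d : ℝ) + 2)) ^ 2 ≤ 8 * H := by
      rw [hH, Finset.mul_sum]
      refine Finset.sum_le_sum fun d _ => ?_
      have hd : (0 : ℝ) ≤ d := Nat.cast_nonneg d
      rw [div_pow, mul_one_div, ← mul_div_assoc, div_le_div_iff₀ (by positivity) (by positivity)]
      nlinarith
    have h3 : ∑ e ∈ tri D0, (rad e.1 e.2) ^ 2 ≤ ER / g := by
      rw [le_div_iff₀ hg, mul_comm]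
      exact hRe
    have h4 : 0 ≤ ∑ e ∈ tri D0, (rad e.1 e.2) ^ 2 := Finset.sum_nonneg fun _ _ => sq_nonneg _
    refine h1.trans ((mul_le_mul h2 h3 h4 (by positivity)).trans (le_of_eq ?_))
    ring
  have hAA : (A 0 - A D0) ^ 2 ≤ 16 * (1 + Real.log (D + 1)) / g * En F N φ := by
    have hS0 : 0 ≤ SL + SR := (abs_nonneg _).trans htel
    have h1 : (A 0 - A D0) ^ 2 ≤ (SL + SR) ^ 2 := by
      rw [← sq_abs (A 0 - A D0)]
      exact pow_le_pow_left₀ (abs_nonneg _) htel 2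
    have h2 : (SL + SR) ^ 2 ≤ 2 * SL ^ 2 + 2 * SR ^ 2 := by nlinarith [sq_nonneg (SL - SR)]
    have h3 : 2 * SL ^ 2 + 2 * SR ^ 2 ≤ 16 * H / g * (EL + ER) := by
      have : 16 * H / g * (EL + ER) = 2 * (8 * H / g * EL) + 2 * (8 * H / g * ER) := by ring
      rw [this]
      linarith
    have h4 : 16 * H / g * (EL + ER) ≤ 16 * (1 + Real.log (D + 1)) / g * En F N φ := by
      apply mul_le_mul _ hEn (by linarith) (by
        have : 0 ≤ 1 + Real.log ((D : ℝ) + 1) := hH0.trans hHle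
        positivity)
      apply div_le_div_of_nonneg_right _ hg.le
      linarith
    linarith
  -- the last ring
  set Q : ℝ := 4 * a / F a * En F N φ with hQ
  have hlast : (A D0 - φ x) ^ 2 ≤ Q := by
    have hpt : ∀ k ∈ range (D0 + 1), (y D0 (k + 2) - φ x) ^ 2 ≤ Q := by
      intro k hk
      rw [Finset.mem_range] at hk
      refine hline F hF a N φ _ x ha (by omega) ?_ hx
      simp only [nrm]
      omega
    have e1 : A D0 - φ x = (1 / ((D0 : ℝ) + 1)) * ∑ k ∈ range (D0 + 1), (y D0 (k + 2) - φ x) := by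
      rw [Finset.sum_sub_distrib, Finset.sum_const, Finset.card_range, nsmul_eq_mul, mul_sub]
      push_cast
      have : (D0 : ℝ) + 1 ≠ 0 := by positivity
      field_simp
      rw [hA]
      field_simp
    have h1 := sq_sum_le_card_mul_sum_sq (s := range (D0 + 1)) (f := fun k => y D0 (k + 2) - φ x)
    have h2 := Finset.sum_le_card_nsmul (range (D0 + 1)) (fun k => (y D0 (k + 2) - φ x) ^ 2) Q hpt
    rw [Finset.card_range, nsmul_eq_mul] at h2
    rw [Finset.card_range] at h1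
    push_cast at h1 h2
    rw [e1, mul_pow]
    have hD1 : (0 : ℝ) < (D0 : ℝ) + 1 := by positivity
    have h3 : (∑ k ∈ range (D0 + 1), (y D0 (k + 2) - φ x)) ^ 2 ≤
        ((D0 : ℝ) + 1) * (((D0 : ℝ) + 1) * Q) :=
      h1.trans (mul_le_mul_of_nonneg_left h2 hD1.le)
    calc (1 / ((D0 : ℝ) + 1)) ^ 2 * (∑ k ∈ range (D0 + 1), (y D0 (k + 2) - φ x)) ^ 2
        ≤ (1 / ((D0 : ℝ) + 1)) ^ 2 * (((D0 : ℝ) + 1) * (((D0 : ℝ) + 1) * Q)) :=
          mul_le_mul_of_nonneg_left h3 (by positivity)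
      _ = Q := by field_simp
  have hA0 : A 0 = φ ((m : ℤ), (i : ℤ)) := by
    rw [hA, hy]
    simp
  rw [← hA0]
  have e1 : A 0 - φ x = (A 0 - A D0) + (A D0 - φ x) := by ring
  have h1 : (A 0 - φ x) ^ 2 ≤ 2 * (A 0 - A D0) ^ 2 + 2 * (A D0 - φ x) ^ 2 := by
    rw [e1]
    nlinarith [sq_nonneg ((A 0 - A D0) - (A D0 - φ x))]
  have hEn0 : 0 ≤ En F N φ := (add_nonneg hEL0 hER0).trans hEn
  have hL0 : 0 ≤ (1 + Real.log ((D : ℝ) + 1)) / g * En F N φ := by
    have : 0 ≤ 1 + Real.log ((D : ℝ) + 1) := hH0.trans hHle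
    positivity
  have hFa : 0 < F a := hF.1 a
  have hL1 : 0 ≤ (a : ℝ) / F a * En F N φ := by positivity
  have e2 : (40 * (1 + Real.log ((D : ℝ) + 1)) / g + 40 * a / F a) * En F N φ =
      40 * ((1 + Real.log ((D : ℝ) + 1)) / g * En F N φ) + 40 * ((a : ℝ) / F a * En F N φ) := by
    ring
  have e3 : 16 * (1 + Real.log ((D : ℝ) + 1)) / g * En F N φ =
      16 * ((1 + Real.log ((D : ℝ) + 1)) / g * En F N φ) := by ring
  have e4 : Q = 4 * ((a : ℝ) / F a * En F N φ) := by rw [hQ]; ring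
  rw [e2]
  rw [e3] at hAA
  rw [e4] at hlast
  linarith

/-! ### reduction by symmetry -/

/-- the claim for the vertex `v` -/
def St (F : ℕ → ℝ) (a N : ℕ) (C : ℝ) (v : V) : Prop :=
  ∀ (φ : V → ℝ) (x : V), nrm x = a → (φ v - φ x) ^ 2 ≤ C * En F N φ

theorem St_symm (F : ℕ → ℝ) (a N : ℕ) (C : ℝ) (T : V → V) (π : Fin 4 → Fin 4)
    (hT : ∀ x, T (T x) = x) (hπ : ∀ d, π (π d) = d) (hn : ∀ x, nrm (T x) = nrm x)
    (hadd : ∀ x d, T (x + dir d) = T x + dir (π d)) (v : V) (h : St F a N C (T v)) :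
    St F a N C v := by
  intro φ x hx
  have h1 := h (fun z => φ (T z)) (T x) (by rw [hn]; exact hx)
  rw [En_symm F N φ T π hT hπ hn hadd] at h1
  simp only [hT] at h1
  exact h1

theorem St_swap (F : ℕ → ℝ) (a N : ℕ) (C : ℝ) (p q : ℤ) (h : St F a N C (q, p)) :
    St F a N C (p, q) := by
  refine St_symm F a N C (fun x => (x.2, x.1)) ![2, 3, 0, 1] (fun _ => rfl) (by decide) ?_ ?_
    (p, q) h
  · intro x
    simp only [nrm]
    exact max_comm _ _
  · intro x d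
    fin_cases d <;> simp [dir]

theorem St_neg1 (F : ℕ → ℝ) (a N : ℕ) (C : ℝ) (p q : ℤ) (h : St F a N C (-p, q)) :
    St F a N C (p, q) := by
  refine St_symm F a N C (fun x => (-x.1, x.2)) ![1, 0, 2, 3] (fun x => by simp) (by decide) ?_ ?_
    (p, q) h
  · intro x
    simp only [nrm, Int.natAbs_neg]
  · intro x d
    fin_cases d <;> simp [dir] <;> ring

theorem St_neg2 (F : ℕ → ℝ) (a N : ℕ) (C : ℝ) (p q : ℤ) (h : St F a N C (p, -q)) :
    St F a N C (p, q) := by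
  refine St_symm F a N C (fun x => (x.1, -x.2)) ![0, 1, 3, 2] (fun x => by simp) (by decide) ?_ ?_
    (p, q) h
  · intro x
    simp only [nrm, Int.natAbs_neg]
  · intro x d
    fin_cases d <;> simp [dir] <;> ring

theorem St_abs (F : ℕ → ℝ) (a N : ℕ) (C : ℝ) (p q : ℤ)
    (h : St F a N C ((p.natAbs : ℤ), (q.natAbs : ℤ))) : St F a N C (p, q) := by
  have h1 : St F a N C ((p.natAbs : ℤ), q) := by
    rcases Int.natAbs_eq q with hq | hq
    · rw [hq]
      exact h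
    · apply St_neg2
      have : -q = (q.natAbs : ℤ) := by omega
      rw [this]
      exact h
  rcases Int.natAbs_eq p with hp | hp
  · rw [hp]
    exact h1
  · apply St_neg1
    have : -p = (p.natAbs : ℤ) := by omega
    rw [this]
    exact h1

end PathP

open PathP in
theorem piece_path (hP : S_P) (hline : S_line) : S_path := by
  intro F hF a D N g φ v x ha hD hav hvD hg hgF hvN hx
  have key : ∀ m i : ℕ, i ≤ m → a ≤ m → m ≤ a + D → m < N → (∀ n, a ≤ n → n ≤ m → g ≤ F n) →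
      St F a N (40 * (1 + Real.log (D + 1)) / g + 40 * a / F a) ((m : ℤ), (i : ℤ)) := by
    intro m i hi h1 h2 h3 h4 φ x hx
    exact core F hF hline a D N g φ m i x ha hD h1 h2 hg h4 h3 hi hx
  have hfin : St F a N (40 * (1 + Real.log (D + 1)) / g + 40 * a / F a) v := by
    obtain ⟨p, q⟩ := v
    apply St_abs
    have hn : nrm (p, q) = max p.natAbs q.natAbs := rfl
    rw [hn] at hav hvD hvN hgF
    rcases le_total q.natAbs p.natAbs with hpq | hpq
    · rw [max_eq_left hpq] at hav hvD hvN hgF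
      exact key _ _ hpq hav hvD hvN hgF
    · rw [max_eq_right hpq] at hav hvD hvN hgF
      apply St_swap
      exact key _ _ hpq hav hvD hvN hgF
  exact hfin φ x hx

end Pool.Agent.R812.TC
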