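import Pool.Agent.R812.TC.Stm

set_option autoImplicit false

/-! Project TC, piece TIME: absorption in finite time. -/

namespace Pool.Agent.R812.TC
open Finset

namespace TimeAux

theorem nrm_step (x : V) (d : Fin 4) : nrm (x + dir d) ≤ nrm x + 1 := by
  fin_cases d <;> simp [dir, nrm] <;> omega

section ex

variable {F : ℕ → ℝ}

theorem Ex_mono (h : ∀ x d, 0 ≤ P F x d) {Φ Ψ : List (Fin 4) → ℝ} (hΦ : ∀ w, Φ w ≤ Ψ w) :
    ∀ (t : ℕ) (w : List (Fin 4)), Ex F t Φ w ≤ Ex F t Ψ w := by
  intro t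
  induction t with
  | zero => intro w; exact hΦ w
  | succ t ih =>
    intro w
    exact sum_le_sum fun d _ => mul_le_mul_of_nonneg_left (ih (d :: w)) (h _ _)

theorem Ex_smul (c : ℝ) (Φ : List (Fin 4) → ℝ) :
    ∀ (t : ℕ) (w : List (Fin 4)), Ex F t (fun v => c * Φ v) w = c * Ex F t Φ w := by
  intro t
  induction t with
  | zero => intro w; rfl
  | succ t ih =>
    intro w
    show ∑ d, P F (pos w) d * Ex F t (fun v => c * Φ v) (d :: w) =
      c * ∑ d, P F (pos w) d * Ex F t Φ (d :: w)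
    rw [mul_sum]
    refine sum_congr rfl fun d _ => ?_
    rw [ih]; ring

theorem Ex_add (s : ℕ) (Φ : List (Fin 4) → ℝ) :
    ∀ (t : ℕ) (w : List (Fin 4)), Ex F (t + s) Φ w = Ex F t (fun v => Ex F s Φ v) w := by
  intro t
  induction t with
  | zero => intro w; rw [Nat.zero_add]; rfl
  | succ t ih =>
    intro w
    rw [Nat.add_right_comm]
    show ∑ d, P F (pos w) d * Ex F (t + s) Φ (d :: w) =
      ∑ d, P F (pos w) d * Ex F t (fun v => Ex F s Φ v) (d :: w)
    exact sum_congr rfl fun d _ => by rw [ih]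

/-- lower bound of the loss by the all-right continuation -/
theorem Ex_right (h8 : ∀ x d, 1 / 8 ≤ P F x d) (h1 : ∀ x, ∑ d, P F x d = 1)
    {Φ : List (Fin 4) → ℝ} (hΦ : ∀ w, Φ w ≤ 1) :
    ∀ (t : ℕ) (w : List (Fin 4)),
      Ex F t Φ w ≤ 1 - (1 / 8) ^ t * (1 - Φ (List.replicate t 0 ++ w)) := by
  intro t
  induction t with
  | zero =>
    intro w
    have : Ex F 0 Φ w = Φ w := rfl
    rw [this]; simp
  | succ t ih =>
    intro w
    have hP0 : ∀ x d, 0 ≤ P F x d := fun x d => le_trans (by norm_num) (h8 x d)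
    have hle : ∀ d : Fin 4, Ex F t Φ (d :: w) ≤ 1 := fun d => by
      refine (ih (d :: w)).trans ?_
      have : 0 ≤ (1 / 8 : ℝ) ^ t * (1 - Φ (List.replicate t 0 ++ d :: w)) :=
        mul_nonneg (by positivity) (sub_nonneg.2 (hΦ _))
      linarith
    have e1 : List.replicate (t + 1) (0 : Fin 4) ++ w = List.replicate t 0 ++ 0 :: w := by
      rw [List.replicate_succ', List.append_assoc]; rfl
    rw [e1]
    have hr := ih (0 :: w)
    set g := 1 - Φ (List.replicate t 0 ++ 0 :: w) with hg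
    have hg0 : 0 ≤ g := sub_nonneg.2 (hΦ _)
    show ∑ d, P F (pos w) d * Ex F t Φ (d :: w) ≤ 1 - (1 / 8) ^ (t + 1) * g
    have h1' := h1 (pos w)
    rw [Fin.sum_univ_succ] at h1' ⊢
    have h2 : ∑ i : Fin 3, P F (pos w) i.succ * Ex F t Φ (i.succ :: w) ≤
        ∑ i : Fin 3, P F (pos w) i.succ :=
      sum_le_sum fun i _ => by
        have := mul_le_mul_of_nonneg_left (hle i.succ) (hP0 (pos w) i.succ)
        rwa [mul_one] at this
    have h3 : P F (pos w) 0 * Ex F t Φ (0 :: w) ≤
        P F (pos w) 0 * (1 - (1 / 8) ^ t * g) :=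
      mul_le_mul_of_nonneg_left hr (hP0 _ _)
    have h4 : 1 / 8 * ((1 / 8) ^ t * g) ≤ P F (pos w) 0 * ((1 / 8 : ℝ) ^ t * g) :=
      mul_le_mul_of_nonneg_right (h8 _ _) (mul_nonneg (by positivity) hg0)
    have h5 : (1 / 8 : ℝ) ^ (t + 1) * g = 1 / 8 * ((1 / 8) ^ t * g) := by
      rw [pow_succ]; ring
    rw [h5]
    have h6 : P F (pos w) 0 * (1 - (1 / 8) ^ t * g) =
      P F (pos w) 0 - P F (pos w) 0 * ((1 / 8 : ℝ) ^ t * g) := by ring
    linarith

end ex

section path

variable {n : ℕ → ℕ} {J : ℕ}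

theorem ls_abs (d : Fin 4) (w : List (Fin 4)) (h : J ≤ (ls n J w).1) :
    ls n J (d :: w) = ls n J w := by
  rw [ls, if_pos h]

theorem lt_of_cons (d : Fin 4) (w : List (Fin 4)) (h : (ls n J (d :: w)).1 < J) :
    (ls n J w).1 < J := by
  by_contra hc
  rw [ls_abs d w (not_lt.1 hc)] at h
  exact hc h

theorem lt_of_append (v w : List (Fin 4)) (h : (ls n J (v ++ w)).1 < J) :
    (ls n J w).1 < J := by
  induction v with
  | nil => exact h
  | cons d v ih => exact ih (lt_of_cons d (v ++ w) h)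

theorem inv_norm (hn : StrictMono n) (h0 : n 0 = 0) (w : List (Fin 4)) :
    (ls n J w).1 < J → nrm (pos w) < n ((ls n J w).1 + 1) := by
  induction w with
  | nil =>
    intro _
    have h1 : n 0 < n 1 := hn Nat.zero_lt_one
    have h2 : nrm (pos []) = 0 := rfl
    rw [h2]
    show 0 < n (0 + 1)
    rw [h0] at h1
    exact h1
  | cons d w ih =>
    intro h
    have hw := lt_of_cons d w h
    have h1 := ih hw
    have h2 : nrm (pos (d :: w)) ≤ nrm (pos w) + 1 := nrm_step (pos w) d
    rw [ls, if_neg (not_le.2 hw)]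
    by_cases hA : nrm (pos (d :: w)) = n ((ls n J w).1 + 1)
    · rw [if_pos hA, hA]
      exact hn (Nat.lt_succ_self _)
    · rw [if_neg hA]
      by_cases hB : 1 ≤ (ls n J w).1 ∧ nrm (pos (d :: w)) = n ((ls n J w).1 - 1)
      · rw [if_pos hB, hB.2]
        exact hn (Nat.lt_succ_self _)
      · rw [if_neg hB]
        omega

theorem inv_J (hn : StrictMono n) (h0 : n 0 = 0) (w : List (Fin 4)) (h : (ls n J w).1 < J) :
    nrm (pos w) < n J :=
  lt_of_lt_of_le (inv_norm hn h0 w h) (hn.monotone h)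

theorem pos_right (t : ℕ) (w : List (Fin 4)) :
    (pos (List.replicate t 0 ++ w)).1 = (pos w).1 + t := by
  induction t with
  | zero => simp
  | succ t ih =>
    rw [List.replicate_succ, List.cons_append]
    show (pos (List.replicate t 0 ++ w) + dir 0).1 = _
    rw [Prod.fst_add, ih]
    simp [dir]
    ring

theorem absorbed (hn : StrictMono n) (h0 : n 0 = 0) (w : List (Fin 4)) :
    ¬ (ls n J (List.replicate (2 * n J + 1) 0 ++ w)).1 < J := by
  intro h
  have hw := lt_of_append _ w h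
  have h1 := inv_J hn h0 w hw
  have h2 := inv_J hn h0 _ h
  have h3 := pos_right (2 * n J + 1) w
  unfold nrm at h1 h2
  rw [h3] at h2
  omega

end path

end TimeAux

open TimeAux in
theorem piece_time (hP : S_P) : S_time := by
  intro F hF n hn h0 J ε hε
  have h8 : ∀ x d, 1 / 8 ≤ P F x d := fun x d => (hP F hF x).1 d
  have h1 : ∀ x, ∑ d, P F x d = 1 := fun x => (hP F hF x).2.1
  have hP0 : ∀ x d, 0 ≤ P F x d := fun x d => le_trans (by norm_num) (h8 x d)
  set f : List (Fin 4) → ℝ := fun w => ind ((ls n J w).1 < J) with hf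
  have hf1 : ∀ w, f w ≤ 1 := fun w => by
    simp only [hf, ind]; split_ifs <;> norm_num
  have hf0 : ∀ w, 0 ≤ f w := fun w => by
    simp only [hf, ind]; split_ifs <;> norm_num
  have hfc : ∀ d w, f (d :: w) ≤ f w := fun d w => by
    by_cases h : (ls n J (d :: w)).1 < J
    · have h' := lt_of_cons d w h
      simp only [hf, ind, if_pos h, if_pos h', le_refl]
    · have : f (d :: w) = 0 := by simp only [hf, ind, if_neg h]
      rw [this]; exact hf0 w
  have hle : ∀ t w, Ex F t f w ≤ f w := by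
    intro t
    induction t with
    | zero => intro w; exact le_rfl
    | succ t ih =>
      intro w
      have : Ex F (t + 1) f w = ∑ d, P F (pos w) d * Ex F t f (d :: w) := rfl
      rw [this]
      calc ∑ d, P F (pos w) d * Ex F t f (d :: w) ≤ ∑ d, P F (pos w) d * f w :=
            sum_le_sum fun d _ => mul_le_mul_of_nonneg_left
              ((ih (d :: w)).trans (hfc d w)) (hP0 _ _)
        _ = f w := by rw [← sum_mul, h1, one_mul]
  set L := 2 * n J + 1 with hL
  set c : ℝ := 1 - (1 / 8) ^ L with hc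
  have hc1 : c < 1 := by
    have : (0 : ℝ) < (1 / 8) ^ L := by positivity
    linarith
  have hc0 : 0 ≤ c := by
    have : (1 / 8 : ℝ) ^ L ≤ 1 := pow_le_one₀ (by norm_num) (by norm_num)
    linarith
  have key : ∀ w, Ex F L f w ≤ c * f w := by
    intro w
    by_cases h : (ls n J w).1 < J
    · have e1 : f w = 1 := by simp only [hf, ind, if_pos h]
      have e2 : f (List.replicate L 0 ++ w) = 0 := by
        have ha : ¬ (ls n J (List.replicate L 0 ++ w)).1 < J := absorbed hn h0 w
        simp only [hf, ind, if_neg ha]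
      have := Ex_right h8 h1 hf1 L w
      rw [e2, sub_zero, mul_one] at this
      rw [e1, mul_one]; exact this
    · have e1 : f w = 0 := by simp only [hf, ind, if_neg h]
      have := hle L w
      rw [e1] at this ⊢
      rw [mul_zero]; exact this
  have iter : ∀ k w, Ex F (k * L) f w ≤ c ^ k * f w := by
    intro k
    induction k with
    | zero => intro w; rw [Nat.zero_mul, pow_zero, one_mul]; exact le_rfl
    | succ k ih =>
      intro w
      rw [Nat.succ_mul, Ex_add]
      calc Ex F (k * L) (fun v => Ex F L f v) w ≤ Ex F (k * L) (fun v => c * f v) w :=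
            Ex_mono hP0 key _ _
        _ = c * Ex F (k * L) f w := Ex_smul _ _ _ _
        _ ≤ c * (c ^ k * f w) := mul_le_mul_of_nonneg_left (ih w) hc0
        _ = c ^ (k + 1) * f w := by rw [pow_succ]; ring
  obtain ⟨k, hk⟩ := exists_pow_lt_of_lt_one hε hc1
  refine ⟨k * L, fun t ht => ?_⟩
  obtain ⟨r, rfl⟩ := Nat.exists_eq_add_of_le ht
  rw [Ex_add]
  calc Ex F (k * L) (fun v => Ex F r f v) [] ≤ Ex F (k * L) f [] :=
        Ex_mono hP0 (hle r) _ _
    _ ≤ c ^ k * f [] := iter k []
    _ ≤ c ^ k * 1 := mul_le_mul_of_nonneg_left (hf1 _) (pow_nonneg hc0 _)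
    _ ≤ ε := by rw [mul_one]; exact hk.le

end Pool.Agent.R812.TC
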