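import Pool.Agent.R812.TC.EN
import Pool.Agent.R812.TC.LINE

set_option autoImplicit false

namespace Pool.Agent.R812.TC
open Finset

namespace Trans1
open Energy

/-- energy term -/
noncomputable def T (F : ℕ → ℝ) (φ : V → ℝ) (q : V × Fin 4) : ℝ :=
  cc F q.1 q.2 * (φ (q.1 + dir q.2) - φ q.1) ^ 2

/-- energy attached to the vertices of norm a -/
noncomputable def W (F : ℕ → ℝ) (φ : V → ℝ) (a : ℕ) : ℝ :=
  ∑ q ∈ rng a ×ˢ (univ : Finset (Fin 4)), T F φ q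

theorem T_nonneg {F : ℕ → ℝ} (hF : Good F) (φ : V → ℝ) (q : V × Fin 4) : 0 ≤ T F φ q :=
  mul_nonneg (cc_pos hF _ _).le (sq_nonneg _)

theorem W_nonneg {F : ℕ → ℝ} (hF : Good F) (φ : V → ℝ) (a : ℕ) : 0 ≤ W F φ a :=
  Finset.sum_nonneg fun q _ => T_nonneg hF φ q

theorem En_eq_W (F : ℕ → ℝ) (φ : V → ℝ) (M : ℕ) :
    ∑ a ∈ range (M + 1), W F φ a = En F M φ := by
  have e1 : ∀ a, W F φ a = ∑ x ∈ rng a, ∑ d, cc F x d * (φ (x + dir d) - φ x) ^ 2 := by
    intro a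
    rw [W, Finset.sum_product]
    rfl
  simp only [e1, En]
  rw [← Finset.sum_fiberwise_of_maps_to (s := box M) (t := range (M + 1)) (g := nrm)
    (fun x hx => Finset.mem_range.2 (Nat.lt_succ_of_le ((mem_box x M).1 hx)))]
  refine Finset.sum_congr rfl fun a ha => ?_
  rw [box_filter M a (Nat.le_of_lt_succ (Finset.mem_range.1 ha))]

theorem En_mono_eq (F : ℕ → ℝ) (φ : V → ℝ) (N M : ℕ) (hNM : N ≤ M)
    (hφ : ∀ x, N ≤ nrm x → φ x = 0) : En F M φ = En F N φ := by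
  symm
  unfold En
  refine Finset.sum_subset (fun x hx => ?_) (fun x _ hx => ?_)
  · rw [mem_box] at hx ⊢
    omega
  · rw [mem_box] at hx
    refine Finset.sum_eq_zero fun d _ => ?_
    rw [hφ x (by omega), hφ (x + dir d) (by have := nrm_le_add_dir x d; omega)]
    ring

theorem En_nonneg {F : ℕ → ℝ} (hF : Good F) (φ : V → ℝ) (N : ℕ) : 0 ≤ En F N φ := by
  rw [← En_eq_W]
  exact Finset.sum_nonneg fun a _ => W_nonneg hF φ a

theorem edge_le {F : ℕ → ℝ} (hF : Good F) (φ : V → ℝ) (N : ℕ) (hφ : ∀ x, N ≤ nrm x → φ x = 0)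
    (x : V) (d : Fin 4) : cc F x d * (φ (x + dir d) - φ x) ^ 2 ≤ En F N φ := by
  by_cases hx : x ∈ box N
  · calc cc F x d * (φ (x + dir d) - φ x) ^ 2
        ≤ ∑ d, cc F x d * (φ (x + dir d) - φ x) ^ 2 :=
          Finset.single_le_sum (f := fun d => cc F x d * (φ (x + dir d) - φ x) ^ 2)
            (fun d _ => mul_nonneg (cc_pos hF x d).le (sq_nonneg _)) (Finset.mem_univ d)
      _ ≤ En F N φ :=
          Finset.single_le_sum (f := fun x => ∑ d, cc F x d * (φ (x + dir d) - φ x) ^ 2)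
            (fun x _ => Finset.sum_nonneg fun d _ =>
              mul_nonneg (cc_pos hF x d).le (sq_nonneg _)) hx
  · rw [mem_box] at hx
    rw [hφ x (by omega), hφ (x + dir d) (by have := nrm_le_add_dir x d; omega)]
    simpa using En_nonneg hF φ N

/-- oscillation on a ring -/
theorem osc {F : ℕ → ℝ} (hF : Good F) (φ : V → ℝ) (a : ℕ) (x y : V) (hx : nrm x = a)
    (hy : nrm y = a) : (φ x - φ y) ^ 2 ≤ 8 * (a / F a) * W F φ a := by
  have hFa : 0 < F a := hF.1 a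
  have hRE : ∑ k ∈ range (8 * a), F a * (φ (lgam a (k + 1)) - φ (lgam a k)) ^ 2 ≤ W F φ a := by
    rcases Nat.eq_zero_or_pos a with rfl | ha
    · simpa using W_nonneg hF φ 0
    have e : ∀ k ∈ range (8 * a), F a * (φ (lgam a (k + 1)) - φ (lgam a k)) ^ 2 =
        T F φ (lgam a k, ldr a k) := by
      intro k hk
      have hk' := Finset.mem_range.1 hk
      simp only [T, cc]
      rw [← lgam_succ hk', nrm_lgam hk'.le, nrm_lgam (Nat.succ_le_of_lt hk'), max_self]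
    rw [Finset.sum_congr rfl e]
    have hinj : Set.InjOn (fun k => (lgam a k, ldr a k)) (range (8 * a) : Finset ℕ) := by
      intro k hk k' hk' h
      rw [Finset.mem_coe, Finset.mem_range] at hk hk'
      have h1 := lback_ledge (a := a) ha (z := (false, k)) hk
      have h2 := lback_ledge (a := a) ha (z := (false, k')) hk'
      have h3 : ledge a (false, k) = ledge a (false, k') := by
        simpa [ledge] using h
      rw [h3, h2] at h1
      exact (Prod.mk.inj h1).2.symm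
    rw [← Finset.sum_image (f := T F φ) hinj]
    refine Finset.sum_le_sum_of_subset_of_nonneg ?_ fun q _ _ => T_nonneg hF φ q
    intro q hq
    obtain ⟨k, hk, rfl⟩ := Finset.mem_image.1 hq
    rw [Finset.mem_product]
    exact ⟨(mem_rng _ _).2 (nrm_lgam (Finset.mem_range.1 hk).le), Finset.mem_univ _⟩
  have key : ∀ k1 k2 : ℕ, k1 ≤ k2 → k2 ≤ 8 * a →
      (φ (lgam a k2) - φ (lgam a k1)) ^ 2 ≤ 8 * (a / F a) * W F φ a := by
    intro k1 k2 h12 h2
    have e1 : φ (lgam a k2) - φ (lgam a k1) =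
        ∑ k ∈ Finset.Ico k1 k2, (φ (lgam a (k + 1)) - φ (lgam a k)) := by
      rw [Finset.sum_Ico_sub (fun k => φ (lgam a k)) h12]
    rw [e1]
    refine (sq_sum_le_card_mul_sum_sq).trans ?_
    rw [Nat.card_Ico]
    have h3 : ∑ k ∈ Finset.Ico k1 k2, (φ (lgam a (k + 1)) - φ (lgam a k)) ^ 2 ≤
        ∑ k ∈ range (8 * a), (φ (lgam a (k + 1)) - φ (lgam a k)) ^ 2 := by
      refine Finset.sum_le_sum_of_subset_of_nonneg ?_ fun _ _ _ => sq_nonneg _
      intro k hk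
      rw [Finset.mem_Ico] at hk
      exact Finset.mem_range.2 (by omega)
    have h4 : ((k2 - k1 : ℕ) : ℝ) ≤ 8 * a := by
      have : k2 - k1 ≤ 8 * a := by omega
      exact_mod_cast this
    have h5 : ∑ k ∈ range (8 * a), (φ (lgam a (k + 1)) - φ (lgam a k)) ^ 2 ≤ W F φ a / F a := by
      rw [le_div_iff₀ hFa, mul_comm, Finset.mul_sum]
      exact hRE
    calc ((k2 - k1 : ℕ) : ℝ) * ∑ k ∈ Finset.Ico k1 k2, (φ (lgam a (k + 1)) - φ (lgam a k)) ^ 2
        ≤ (8 * a) * (W F φ a / F a) :=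
          mul_le_mul h4 (h3.trans h5) (Finset.sum_nonneg fun _ _ => sq_nonneg _) (by positivity)
      _ = 8 * (a / F a) * W F φ a := by ring
  obtain ⟨k1, hk1, rfl⟩ := exists_lgam hx
  obtain ⟨k2, hk2, rfl⟩ := exists_lgam hy
  rcases le_total k1 k2 with h | h
  · rw [← neg_sq, neg_sub]
    exact key k1 k2 h hk2
  · exact key k2 k1 h hk1

/-- columns starting on the ring a -/
noncomputable def col (a : ℕ) : Finset (Fin 4 × ℤ) :=
  (univ : Finset (Fin 4)) ×ˢ Finset.Icc (-(a : ℤ)) a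

/-- point of norm m on a column -/
def pt (m : ℕ) (c : Fin 4 × ℤ) : V :=
  ![((m : ℤ), c.2), (-(m : ℤ), c.2), (c.2, (m : ℤ)), (c.2, -(m : ℤ))] c.1

theorem card_col (a : ℕ) : ((col a).card : ℝ) = 8 * a + 4 := by
  rw [col, Finset.card_product, Int.card_Icc]
  have : ((a : ℤ) + 1 - -(a : ℤ)).toNat = 2 * a + 1 := by omega
  rw [this]
  simp
  ring

theorem pt_succ (m : ℕ) (c : Fin 4 × ℤ) : pt (m + 1) c = pt m c + dir c.1 := by
  obtain ⟨d, i⟩ := c
  fin_cases d <;> simp [pt, dir] <;> ring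

theorem nrm_pt (a m : ℕ) (h : a ≤ m) (c : Fin 4 × ℤ) (hc : c ∈ col a) : nrm (pt m c) = m := by
  obtain ⟨d, i⟩ := c
  rw [col, Finset.mem_product, Finset.mem_Icc] at hc
  have h2 := hc.2
  simp only at h2
  fin_cases d <;> simp [pt, nrm] <;> omega

theorem pt_inj (m : ℕ) : Function.Injective (fun c : Fin 4 × ℤ => (pt m c, c.1)) := by
  rintro ⟨d, i⟩ ⟨d', i'⟩ h
  obtain ⟨h1, h2⟩ := Prod.mk.inj h
  simp only at h2
  subst h2
  have : i = i' := by
    fin_cases d <;> simpa [pt] using h1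
  rw [this]

theorem col_energy {F : ℕ → ℝ} (hF : Good F) (φ : V → ℝ) (a m : ℕ) (h : a ≤ m) :
    ∑ c ∈ col a, F (m + 1) * (φ (pt (m + 1) c) - φ (pt m c)) ^ 2 ≤ W F φ m := by
  have e : ∀ c ∈ col a, F (m + 1) * (φ (pt (m + 1) c) - φ (pt m c)) ^ 2 =
      T F φ (pt m c, c.1) := by
    intro c hc
    simp only [T, cc]
    rw [← pt_succ, nrm_pt a m h c hc, nrm_pt a (m + 1) (by omega) c hc, max_eq_right (by omega)]
  rw [Finset.sum_congr rfl e, ← Finset.sum_image (f := T F φ) (g := fun c => (pt m c, c.1))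
    ((pt_inj m).injOn)]
  refine Finset.sum_le_sum_of_subset_of_nonneg ?_ fun q _ _ => T_nonneg hF φ q
  intro q hq
  obtain ⟨c, hc, rfl⟩ := Finset.mem_image.1 hq
  rw [Finset.mem_product]
  exact ⟨(mem_rng _ _).2 (nrm_pt a m h c hc), Finset.mem_univ _⟩

/-- column sums -/
noncomputable def CS (φ : V → ℝ) (a m : ℕ) : ℝ := ∑ c ∈ col a, φ (pt m c)

theorem col_step {F : ℕ → ℝ} (hF : Good F) (φ : V → ℝ) (a b : ℕ) (hab : a ≤ b) :
    ((CS φ a b - CS φ a a) / (8 * a + 4)) ^ 2 ≤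
      (∑ m ∈ Finset.Ico a b, 1 / F (m + 1)) / (8 * a + 4) * ∑ m ∈ Finset.Ico a b, W F φ m := by
  have hK : (0 : ℝ) < 8 * a + 4 := by positivity
  have e1 : CS φ a b - CS φ a a = ∑ m ∈ Finset.Ico a b, (CS φ a (m + 1) - CS φ a m) := by
    rw [Finset.sum_Ico_sub (fun m => CS φ a m) hab]
  have hm : ∀ m ∈ Finset.Ico a b, F (m + 1) * (CS φ a (m + 1) - CS φ a m) ^ 2 ≤
      (8 * a + 4) * W F φ m := by
    intro m hm
    have hma := (Finset.mem_Ico.1 hm).1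
    have e2 : CS φ a (m + 1) - CS φ a m = ∑ c ∈ col a, (φ (pt (m + 1) c) - φ (pt m c)) := by
      unfold CS
      rw [Finset.sum_sub_distrib]
    have h1 : (CS φ a (m + 1) - CS φ a m) ^ 2 ≤
        (8 * a + 4) * ∑ c ∈ col a, (φ (pt (m + 1) c) - φ (pt m c)) ^ 2 := by
      rw [e2, ← card_col a]
      exact sq_sum_le_card_mul_sum_sq
    have h2 := col_energy hF φ a m hma
    rw [← Finset.mul_sum] at h2
    have hFm := (hF.1 (m + 1)).le
    calc F (m + 1) * (CS φ a (m + 1) - CS φ a m) ^ 2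
        ≤ F (m + 1) * ((8 * a + 4) * ∑ c ∈ col a, (φ (pt (m + 1) c) - φ (pt m c)) ^ 2) :=
          mul_le_mul_of_nonneg_left h1 hFm
      _ = (8 * a + 4) * (F (m + 1) * ∑ c ∈ col a, (φ (pt (m + 1) c) - φ (pt m c)) ^ 2) := by ring
      _ ≤ (8 * a + 4) * W F φ m := mul_le_mul_of_nonneg_left h2 hK.le
  have hcs : (CS φ a b - CS φ a a) ^ 2 ≤ (∑ m ∈ Finset.Ico a b, 1 / F (m + 1)) *
      ∑ m ∈ Finset.Ico a b, F (m + 1) * (CS φ a (m + 1) - CS φ a m) ^ 2 := by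
    rw [e1]
    have h := Finset.sum_mul_sq_le_sq_mul_sq (Finset.Ico a b)
      (fun m => 1 / Real.sqrt (F (m + 1)))
      (fun m => Real.sqrt (F (m + 1)) * (CS φ a (m + 1) - CS φ a m))
    have e3 : ∀ m ∈ Finset.Ico a b, 1 / Real.sqrt (F (m + 1)) *
        (Real.sqrt (F (m + 1)) * (CS φ a (m + 1) - CS φ a m)) = CS φ a (m + 1) - CS φ a m := by
      intro m _
      have : Real.sqrt (F (m + 1)) ≠ 0 := (Real.sqrt_pos.2 (hF.1 _)).ne'
      field_simp
    have e4 : ∀ m ∈ Finset.Ico a b, (1 / Real.sqrt (F (m + 1))) ^ 2 = 1 / F (m + 1) := by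
      intro m _
      rw [div_pow, one_pow, Real.sq_sqrt (hF.1 _).le]
    have e5 : ∀ m ∈ Finset.Ico a b, (Real.sqrt (F (m + 1)) * (CS φ a (m + 1) - CS φ a m)) ^ 2 =
        F (m + 1) * (CS φ a (m + 1) - CS φ a m) ^ 2 := by
      intro m _
      rw [mul_pow, Real.sq_sqrt (hF.1 _).le]
    rw [Finset.sum_congr rfl e3, Finset.sum_congr rfl e4, Finset.sum_congr rfl e5] at h
    exact h
  have hr : 0 ≤ ∑ m ∈ Finset.Ico a b, 1 / F (m + 1) :=
    Finset.sum_nonneg fun m _ => div_nonneg zero_le_one (hF.1 _).le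
  rw [div_pow, div_mul_eq_mul_div, div_le_div_iff₀ (by positivity) hK]
  calc (CS φ a b - CS φ a a) ^ 2 * (8 * a + 4)
      ≤ ((∑ m ∈ Finset.Ico a b, 1 / F (m + 1)) *
        ∑ m ∈ Finset.Ico a b, F (m + 1) * (CS φ a (m + 1) - CS φ a m) ^ 2) * (8 * a + 4) :=
        mul_le_mul_of_nonneg_right hcs hK.le
    _ ≤ ((∑ m ∈ Finset.Ico a b, 1 / F (m + 1)) *
        ∑ m ∈ Finset.Ico a b, (8 * a + 4) * W F φ m) * (8 * a + 4) := by
        refine mul_le_mul_of_nonneg_right ?_ hK.le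
        exact mul_le_mul_of_nonneg_left (Finset.sum_le_sum hm) hr
    _ = (∑ m ∈ Finset.Ico a b, 1 / F (m + 1)) * (∑ m ∈ Finset.Ico a b, W F φ m) *
        (8 * a + 4) ^ 2 := by
        rw [← Finset.mul_sum]
        ring

/-- an average over points of a ring is close to the value at any point of it -/
theorem avg_close {F : ℕ → ℝ} (hF : Good F) (φ : V → ℝ) (a m : ℕ) (h : a ≤ m) (x : V)
    (hx : nrm x = m) :
    |CS φ a m / (8 * a + 4) - φ x| ≤ Real.sqrt (8 * (m / F m)) * Real.sqrt (W F φ m) := by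
  have hK : (0 : ℝ) < 8 * a + 4 := by positivity
  have hFm := hF.1 m
  rw [← Real.sqrt_mul (by positivity)]
  have h1 : ∀ c ∈ col a, |φ (pt m c) - φ x| ≤ Real.sqrt (8 * (m / F m) * W F φ m) := by
    intro c hc
    exact Real.abs_le_sqrt (osc hF φ m _ x (nrm_pt a m h c hc) hx)
  have e1 : CS φ a m / (8 * a + 4) - φ x = (∑ c ∈ col a, (φ (pt m c) - φ x)) / (8 * a + 4) := by
    rw [Finset.sum_sub_distrib, Finset.sum_const, nsmul_eq_mul, card_col, sub_div]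
    rw [mul_div_cancel_left₀ _ hK.ne']
    rfl
  rw [e1, abs_div, abs_of_pos hK, div_le_iff₀ hK]
  calc |∑ c ∈ col a, (φ (pt m c) - φ x)| ≤ ∑ c ∈ col a, |φ (pt m c) - φ x| :=
        Finset.abs_sum_le_sum_abs _ _
    _ ≤ ∑ c ∈ col a, Real.sqrt (8 * (m / F m) * W F φ m) := Finset.sum_le_sum h1
    _ = Real.sqrt (8 * (m / F m) * W F φ m) * (8 * a + 4) := by
        rw [Finset.sum_const, nsmul_eq_mul, card_col, mul_comm]

theorem rr_nonneg {F : ℕ → ℝ} (hF : Good F) (n : ℕ → ℕ) (j : ℕ) : 0 ≤ rr F n j := by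
  unfold rr
  refine div_nonneg (Finset.sum_nonneg fun m _ => div_nonneg zero_le_one (hF.1 _).le) ?_
  positivity

/-- energy between two lines -/
noncomputable def U (F : ℕ → ℝ) (n : ℕ → ℕ) (φ : V → ℝ) (j : ℕ) : ℝ :=
  ∑ m ∈ Finset.Ico (n j) (n (j + 1)), W F φ m

theorem U_nonneg {F : ℕ → ℝ} (hF : Good F) (n : ℕ → ℕ) (φ : V → ℝ) (j : ℕ) : 0 ≤ U F n φ j :=
  Finset.sum_nonneg fun m _ => W_nonneg hF φ m

theorem W_le_U {F : ℕ → ℝ} (hF : Good F) (n : ℕ → ℕ) (hn : StrictMono n) (φ : V → ℝ) (j : ℕ) :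
    W F φ (n j) ≤ U F n φ j :=
  Finset.single_le_sum (f := W F φ) (fun m _ => W_nonneg hF φ m)
    (Finset.mem_Ico.2 ⟨le_rfl, hn (Nat.lt_succ_self j)⟩)

theorem sum_U (F : ℕ → ℝ) (n : ℕ → ℕ) (hn : StrictMono n) (h0 : n 0 = 0) (φ : V → ℝ) (J : ℕ) :
    ∑ j ∈ range J, U F n φ j = ∑ m ∈ Finset.Ico 0 (n J), W F φ m := by
  induction J with
  | zero => simp [h0]
  | succ J ih =>
    rw [Finset.sum_range_succ, ih, U,
      Finset.sum_Ico_consecutive _ (Nat.zero_le _) (hn (Nat.lt_succ_self J)).le]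

theorem step_bound {F : ℕ → ℝ} (hF : Good F) (n : ℕ → ℕ) (hn : StrictMono n) (φ : V → ℝ) (j : ℕ) :
    |φ (((n j : ℕ) : ℤ), 0) - φ (((n (j + 1) : ℕ) : ℤ), 0)| ≤
      Real.sqrt (8 * (n j / F (n j))) * Real.sqrt (U F n φ j) +
      Real.sqrt (rr F n j) * Real.sqrt (U F n φ j) +
      Real.sqrt (8 * (n (j + 1) / F (n (j + 1)))) * Real.sqrt (U F n φ (j + 1)) := by
  have hlt := hn (Nat.lt_succ_self j)
  have hnx : ∀ m : ℕ, nrm ((m : ℤ), (0 : ℤ)) = m := by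
    intro m
    simp [nrm]
  have h1 := avg_close hF φ (n j) (n j) le_rfl _ (hnx (n j))
  have h2 := avg_close hF φ (n j) (n (j + 1)) hlt.le _ (hnx (n (j + 1)))
  have h3 := Real.abs_le_sqrt (col_step hF φ (n j) (n (j + 1)) hlt.le)
  have e3 : Real.sqrt ((∑ m ∈ Finset.Ico (n j) (n (j + 1)), 1 / F (m + 1)) / (8 * (n j : ℝ) + 4) *
      ∑ m ∈ Finset.Ico (n j) (n (j + 1)), W F φ m) =
      Real.sqrt (rr F n j) * Real.sqrt (U F n φ j) := by
    rw [← Real.sqrt_mul (rr_nonneg hF n j)]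
    rfl
  rw [e3] at h3
  have h1' : Real.sqrt (8 * (n j / F (n j))) * Real.sqrt (W F φ (n j)) ≤
      Real.sqrt (8 * (n j / F (n j))) * Real.sqrt (U F n φ j) :=
    mul_le_mul_of_nonneg_left (Real.sqrt_le_sqrt (W_le_U hF n hn φ j)) (Real.sqrt_nonneg _)
  have h2' : Real.sqrt (8 * (n (j + 1) / F (n (j + 1)))) * Real.sqrt (W F φ (n (j + 1))) ≤
      Real.sqrt (8 * (n (j + 1) / F (n (j + 1)))) * Real.sqrt (U F n φ (j + 1)) :=
    mul_le_mul_of_nonneg_left (Real.sqrt_le_sqrt (W_le_U hF n hn φ (j + 1))) (Real.sqrt_nonneg _)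
  rw [sub_div] at h3
  rw [abs_le] at h1 h2 h3 ⊢
  constructor <;> linarith [h1.1, h1.2, h2.1, h2.2, h3.1, h3.2]

theorem cs_bound (f g : ℕ → ℝ) (hf : ∀ i, 0 ≤ f i) (hg : ∀ i, 0 ≤ g i) (S E : ℝ) (J : ℕ)
    (hS : ∑ i ∈ range J, f i ≤ S) (hE : ∑ i ∈ range J, g i ≤ E) :
    ∑ i ∈ range J, Real.sqrt (f i) * Real.sqrt (g i) ≤ Real.sqrt S * Real.sqrt E := by
  refine (Real.sum_sqrt_mul_sqrt_le (range J) hf hg).trans ?_
  exact mul_le_mul (Real.sqrt_le_sqrt hS) (Real.sqrt_le_sqrt hE) (Real.sqrt_nonneg _)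
    (Real.sqrt_nonneg _)

theorem origin {F : ℕ → ℝ} (hF : Good F) (n : ℕ → ℕ) (hn : StrictMono n) (h0 : n 0 = 0)
    (hr : Summable (rr F n)) (ha : Summable (fun j => (n j : ℝ) / F (n j))) :
    ∃ R : ℝ, 0 ≤ R ∧ ∀ (N : ℕ) (φ : V → ℝ), (∀ x, N ≤ nrm x → φ x = 0) →
      (φ 0) ^ 2 ≤ R * En F N φ := by
  set S1 := ∑' j, 8 * ((n j : ℝ) / F (n j)) with hS1
  set S2 := ∑' j, rr F n j with hS2
  refine ⟨(2 * Real.sqrt S1 + Real.sqrt S2) ^ 2, sq_nonneg _, fun N φ hφ => ?_⟩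
  have ha0 : ∀ j, 0 ≤ 8 * ((n j : ℝ) / F (n j)) := fun j => by
    have := hF.1 (n j)
    positivity
  have hE0 := En_nonneg hF φ N
  have hU : ∀ J, ∑ j ∈ range J, U F n φ j ≤ En F N φ := by
    intro J
    rw [sum_U F n hn h0 φ J, ← En_mono_eq F φ N (max N (n J)) (le_max_left _ _) hφ, ← En_eq_W]
    refine Finset.sum_le_sum_of_subset_of_nonneg ?_ fun m _ _ => W_nonneg hF φ m
    intro m hm
    rw [Finset.mem_Ico] at hm
    rw [Finset.mem_range]
    have := le_max_right N (n J)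
    omega
  have hA : ∀ J, ∑ j ∈ range J, 8 * ((n j : ℝ) / F (n j)) ≤ S1 := fun J =>
    (ha.mul_left 8).sum_le_tsum _ fun j _ => ha0 j
  have hR : ∀ J, ∑ j ∈ range J, rr F n j ≤ S2 := fun J =>
    hr.sum_le_tsum _ fun j _ => rr_nonneg hF n j
  have hlast : φ (((n N : ℕ) : ℤ), 0) = 0 := by
    apply hφ
    have : nrm (((n N : ℕ) : ℤ), (0 : ℤ)) = n N := by simp [nrm]
    rw [this]
    exact hn.id_le N
  have hsum : |φ 0| ≤ ∑ j ∈ range N,
      |φ (((n j : ℕ) : ℤ), 0) - φ (((n (j + 1) : ℕ) : ℤ), 0)| := by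
    have e1 : φ 0 = ∑ j ∈ range N, (φ (((n j : ℕ) : ℤ), 0) - φ (((n (j + 1) : ℕ) : ℤ), 0)) := by
      rw [Finset.sum_range_sub' (fun j => φ (((n j : ℕ) : ℤ), 0)), hlast, h0]
      simp
      rfl
    conv_lhs => rw [e1]
    exact Finset.abs_sum_le_sum_abs _ _
  have hb : |φ 0| ≤ (2 * Real.sqrt S1 + Real.sqrt S2) * Real.sqrt (En F N φ) := by
    refine hsum.trans ((Finset.sum_le_sum fun j _ => step_bound hF n hn φ j).trans ?_)
    rw [Finset.sum_add_distrib, Finset.sum_add_distrib]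
    have b1 := cs_bound _ _ ha0 (U_nonneg hF n φ) S1 (En F N φ) N (hA N) (hU N)
    have b2 := cs_bound _ _ (rr_nonneg hF n) (U_nonneg hF n φ) S2 (En F N φ) N (hR N) (hU N)
    have b3 : ∑ j ∈ range N, Real.sqrt (8 * (n (j + 1) / F (n (j + 1)))) *
        Real.sqrt (U F n φ (j + 1)) ≤ Real.sqrt S1 * Real.sqrt (En F N φ) := by
      have b4 := cs_bound _ _ ha0 (U_nonneg hF n φ) S1 (En F N φ) (N + 1) (hA _) (hU _)
      rw [Finset.sum_range_succ'] at b4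
      have b5 : 0 ≤ Real.sqrt (8 * ((n 0 : ℝ) / F (n 0))) * Real.sqrt (U F n φ 0) := by
        positivity
      linarith
    nlinarith
  have h4 := pow_le_pow_left₀ (abs_nonneg _) hb 2
  rw [sq_abs, mul_pow, Real.sq_sqrt hE0] at h4
  exact h4

end Trans1

open Trans1 Energy in
theorem piece_trans1 (_hline : S_line) : S_trans1 := by
  intro F n hF hn h0 hr ha
  have step : ∀ (x : V) (d : Fin 4),
      (∃ R : ℝ, 0 ≤ R ∧ ∀ (N : ℕ) (φ : V → ℝ), (∀ x, N ≤ nrm x → φ x = 0) →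
        (φ x) ^ 2 ≤ R * En F N φ) →
      ∃ R : ℝ, 0 ≤ R ∧ ∀ (N : ℕ) (φ : V → ℝ), (∀ x, N ≤ nrm x → φ x = 0) →
        (φ (x + dir d)) ^ 2 ≤ R * En F N φ := by
    rintro x d ⟨R, hR0, hR⟩
    have hc := cc_pos hF x d
    refine ⟨2 * R + 2 / cc F x d, by positivity, fun N φ hφ => ?_⟩
    have h1 := hR N φ hφ
    have h2 := edge_le hF φ N hφ x d
    have h3 : (φ (x + dir d) - φ x) ^ 2 ≤ En F N φ / cc F x d := by
      rw [le_div_iff₀ hc, mul_comm]
      exact h2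
    have h4 : (φ (x + dir d)) ^ 2 ≤ 2 * φ x ^ 2 + 2 * (φ (x + dir d) - φ x) ^ 2 := by
      nlinarith [sq_nonneg (φ (x + dir d) - 2 * φ x)]
    calc (φ (x + dir d)) ^ 2 ≤ 2 * (R * En F N φ) + 2 * (En F N φ / cc F x d) := by linarith
      _ = (2 * R + 2 / cc F x d) * En F N φ := by ring
  have h00 := origin hF n hn h0 hr ha
  have hx : ∀ a : ℤ, ∃ R : ℝ, 0 ≤ R ∧ ∀ (N : ℕ) (φ : V → ℝ), (∀ x, N ≤ nrm x → φ x = 0) →
        (φ (a, 0)) ^ 2 ≤ R * En F N φ := by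
    intro a
    induction a using Int.induction_on with
    | zero => exact h00
    | succ a ih =>
      have := step _ 0 ih
      simpa [dir] using this
    | pred a ih =>
      have := step _ 1 ih
      simpa [dir, sub_eq_add_neg] using this
  have hxy : ∀ a b : ℤ, ∃ R : ℝ, 0 ≤ R ∧ ∀ (N : ℕ) (φ : V → ℝ), (∀ x, N ≤ nrm x → φ x = 0) →
        (φ (a, b)) ^ 2 ≤ R * En F N φ := by
    intro a b
    induction b using Int.induction_on with
    | zero => exact hx a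
    | succ b ih =>
      have := step _ 2 ih
      simpa [dir] using this
    | pred b ih =>
      have := step _ 3 ih
      simpa [dir, sub_eq_add_neg] using this
  intro y
  obtain ⟨R, _, hR⟩ := hxy y.1 y.2
  exact ⟨R, hR⟩

end Pool.Agent.R812.TC
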