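import Pool.Agent.R812.TC.Stm

set_option autoImplicit false

namespace Pool.Agent.R812.TC
open Finset

namespace Trans2

theorem mem_box (x : V) (N : ℕ) : x ∈ box N ↔ nrm x ≤ N := by
  simp only [box, nrm, Finset.mem_product, Finset.mem_Icc]
  omega

theorem nrm_add_dir (x : V) (d : Fin 4) : nrm (x + dir d) ≤ nrm x + 1 := by
  fin_cases d <;> simp only [nrm, dir, Prod.fst_add, Prod.snd_add] <;> simp <;> omega

theorem PP_neg (F : ℕ → ℝ) (g : V → ℝ) (x : V) : PP F (fun z => -g z) x = -PP F g x := by
  simp [PP]

theorem PP_sum (F : ℕ → ℝ) (T : ℕ) (f : ℕ → V → ℝ) (x : V) :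
    PP F (fun z => ∑ t ∈ Finset.range T, f t z) x = ∑ t ∈ Finset.range T, PP F (f t) x := by
  simp only [PP, Finset.mul_sum]
  rw [Finset.sum_comm]

end Trans2

open Trans2

theorem piece_trans2 (hP : S_P) (hmax : S_max) (hdir : S_dir) (hen : S_en) : S_trans2 := by
  classical
  intro F hF hR y
  obtain ⟨R, hR⟩ := hR y
  have hpi : 0 < piW F y := (hP F hF y).2.2
  refine ⟨2 * max R 0 * piW F y, fun x T => ?_⟩
  set N := nrm x + nrm y + T + 1 with hN
  set B : Finset V := (box N).filter (fun z => nrm z < N) with hB
  have hBm : ∀ z, z ∈ B ↔ nrm z < N := by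
    intro z
    rw [hB, Finset.mem_filter, mem_box]
    exact ⟨fun h => h.2, fun h => ⟨h.le, h⟩⟩
  obtain ⟨g, hg0, hg⟩ := hdir F hF B (fun _ => 0) (fun z => if z = y then 1 else 0)
  have hyB : y ∈ B := (hBm y).2 (by omega)
  have hg_nonneg : ∀ z, 0 ≤ g z := by
    intro z
    have := hmax F hF B (fun z => -g z) 0 (fun z hz => by simp [hg0 z hz]) (fun z hz => by
      rw [PP_neg]
      have h1 := hg z hz
      have h2 : (0 : ℝ) ≤ if z = y then 1 else 0 := by split_ifs <;> norm_num
      linarith) z
    linarith
  have hg_le : ∀ z, g z ≤ g y := by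
    refine hmax F hF (B.erase y) g (g y) (fun z hz => ?_) (fun z hz => ?_)
    · by_cases hzy : z = y
      · rw [hzy]
      · have : z ∉ B := fun h => hz (Finset.mem_erase.2 ⟨hzy, h⟩)
        rw [hg0 z this]
        exact hg_nonneg y
    · obtain ⟨hzy, hzB⟩ := Finset.mem_erase.1 hz
      have h1 := hg z hzB
      rw [if_neg hzy, add_zero] at h1
      exact h1.le
  have hsupp : ∀ z, N ≤ nrm z → g z = 0 := by
    intro z hz
    apply hg0
    rw [hBm]
    omega
  have hEn : En F N g = 2 * (piW F y * g y) := by
    rw [hen F hF N g hsupp]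
    congr 1
    rw [Finset.sum_eq_single y]
    · have h1 := hg y hyB
      rw [if_pos rfl] at h1
      have h2 : g y - PP F g y = 1 := by linarith
      rw [h2, mul_one]
    · intro z _ hzy
      by_cases hzB : z ∈ B
      · have h1 := hg z hzB
        rw [if_neg hzy, add_zero] at h1
        rw [← h1]
        ring
      · rw [hg0 z hzB]
        ring
    · intro hy
      exact absurd ((mem_box y N).2 (by omega)) hy
  have hgy : g y ≤ 2 * max R 0 * piW F y := by
    have h1 := hR N g hsupp
    rw [hEn] at h1
    have h2 : (g y) ^ 2 ≤ 2 * max R 0 * piW F y * g y := by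
      refine h1.trans ?_
      have h3 : 0 ≤ 2 * (piW F y * g y) := by
        have := mul_nonneg hpi.le (hg_nonneg y)
        linarith
      calc R * (2 * (piW F y * g y)) ≤ max R 0 * (2 * (piW F y * g y)) :=
            mul_le_mul_of_nonneg_right (le_max_left _ _) h3
        _ = 2 * max R 0 * piW F y * g y := by ring
    rcases (hg_nonneg y).eq_or_lt with h0 | h0
    · rw [← h0]
      have := le_max_right R 0
      positivity
    · rw [pow_two] at h2
      exact le_of_mul_le_mul_right h2 h0
  have key : ∀ T' : ℕ, ∀ z, nrm z + T' ≤ N →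
      ∑ t ∈ Finset.range T', (PP F)^[t] (fun z => if z = y then 1 else 0) z ≤ g z := by
    intro T'
    induction T' with
    | zero =>
      intro z _
      simpa using hg_nonneg z
    | succ T' ih =>
      intro z hz
      rw [Finset.sum_range_succ']
      have e1 : ∑ t ∈ Finset.range T', (PP F)^[t + 1] (fun z => if z = y then 1 else 0) z =
          PP F (fun w => ∑ t ∈ Finset.range T', (PP F)^[t] (fun z => if z = y then 1 else 0) w) z := by
        rw [PP_sum]
        refine Finset.sum_congr rfl fun t _ => ?_
        rw [Function.iterate_succ_apply']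
      rw [e1, Function.iterate_zero, id_eq, hg z ((hBm z).2 (by omega))]
      gcongr
      unfold PP
      refine Finset.sum_le_sum fun d _ => ?_
      have h1 : 0 ≤ P F z d := by
        have := (hP F hF z).1 d
        linarith
      refine mul_le_mul_of_nonneg_left (ih _ ?_) h1
      have := nrm_add_dir z d
      omega
  exact (key T x (by omega)).trans ((hg_le x).trans hgy)

end Pool.Agent.R812.TC
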