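import Pool.Agent.R812.TC.Stm

/-! Project TC: finitely many visits almost surely. -/

set_option autoImplicit false

namespace Pool.Agent.R812.TC

open Finset MeasureTheory

namespace Tr3

lemma P_nonneg (hP : S_P) {F : ℕ → ℝ} (hF : Good F) (x : V) (d : Fin 4) : 0 ≤ P F x d :=
  le_trans (by norm_num) ((hP F hF x).1 d)

lemma pK_nonneg (hP : S_P) {F : ℕ → ℝ} (hF : Good F) (x z : V) : 0 ≤ pK F x z := by
  unfold pK
  refine sum_nonneg fun d _ => ?_
  split_ifs
  · exact P_nonneg hP hF x d
  · exact le_rfl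

lemma PP_nonneg (hP : S_P) {F : ℕ → ℝ} (hF : Good F) (f : V → ℝ) (hf : ∀ z, 0 ≤ f z) (x : V) :
    0 ≤ PP F f x := by
  unfold PP
  exact sum_nonneg fun d _ => mul_nonneg (P_nonneg hP hF x d) (hf _)

lemma it_nonneg (hP : S_P) {F : ℕ → ℝ} (hF : Good F) (y : V) (t : ℕ) (x : V) :
    0 ≤ (PP F)^[t] (fun z => if z = y then 1 else 0) x := by
  induction t generalizing x with
  | zero =>
    rw [Function.iterate_zero, id]
    split_ifs <;> norm_num
  | succ t ih =>
    rw [Function.iterate_succ_apply']
    exact PP_nonneg hP hF _ ih x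

lemma tsum_pK (hP : S_P) {F : ℕ → ℝ} (hF : Good F) (f : V → ℝ) (hf : ∀ z, 0 ≤ f z) (x : V) :
    ∑' z, ENNReal.ofReal (pK F x z) * ENNReal.ofReal (f z) = ENNReal.ofReal (PP F f x) := by
  have h1 : ∀ z, ENNReal.ofReal (pK F x z) * ENNReal.ofReal (f z) =
      ∑ d, (if x + dir d = z then ENNReal.ofReal (P F x d) * ENNReal.ofReal (f z) else 0) := by
    intro z
    unfold pK
    rw [ENNReal.ofReal_sum_of_nonneg (fun d _ => by
      split_ifs
      · exact P_nonneg hP hF x d
      · exact le_rfl), Finset.sum_mul]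
    refine sum_congr rfl fun d _ => ?_
    split_ifs <;> simp
  rw [tsum_congr h1, Summable.tsum_finsetSum (fun _ _ => ENNReal.summable)]
  unfold PP
  rw [ENNReal.ofReal_sum_of_nonneg (fun d _ => mul_nonneg (P_nonneg hP hF x d) (hf _))]
  refine sum_congr rfl fun d _ => ?_
  rw [tsum_eq_single (x + dir d)]
  · rw [if_pos rfl, ENNReal.ofReal_mul (P_nonneg hP hF x d)]
  · intro z hz
    rw [if_neg (fun h => hz h.symm)]

section

variable {Ω : Type} [MeasurableSpace Ω] {μ : Measure Ω} {X : ℕ → Ω → V} {x0 : V} {F : ℕ → ℝ}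

lemma step (hP : S_P) (hF : Good F) (hX : IsChain μ X (pK F) x0) (k : ℕ) (x : ℕ → V) (z : V) :
    μ {ω | ∀ i ≤ k + 1, X i ω = Function.update x (k + 1) z i} =
      μ {ω | ∀ i ≤ k, X i ω = x i} * ENNReal.ofReal (pK F (x k) z) := by
  rw [hX.2, hX.2]
  rw [Function.update_of_ne (by omega : (0 : ℕ) ≠ k + 1)]
  by_cases h : x 0 = x0
  · rw [if_pos h, if_pos h, prod_range_succ, ENNReal.ofReal_mul
      (prod_nonneg fun i _ => pK_nonneg hP hF _ _)]
    congr 1
    · congr 1
      refine prod_congr rfl fun i hi => ?_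
      have := mem_range.1 hi
      rw [Function.update_of_ne (by omega), Function.update_of_ne (by omega)]
    · rw [Function.update_of_ne (by omega), Function.update_self]
  · rw [if_neg h, if_neg h, zero_mul]

lemma main (hP : S_P) (hF : Good F) (hX : IsChain μ X (pK F) x0) (y : V) (t : ℕ) :
    ∀ (k : ℕ) (x : ℕ → V), μ {ω | (∀ i ≤ k, X i ω = x i) ∧ X (k + t) ω = y} =
      μ {ω | ∀ i ≤ k, X i ω = x i} *
        ENNReal.ofReal ((PP F)^[t] (fun z => if z = y then 1 else 0) (x k)) := by
  induction t with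
  | zero =>
    intro k x
    rw [Function.iterate_zero, id]
    by_cases h : x k = y
    · rw [if_pos h, ENNReal.ofReal_one, mul_one]
      congr 1
      ext ω
      simp only [Set.mem_ofPred_eq, add_zero, and_iff_left_iff_imp]
      intro h1
      rw [h1 k le_rfl, h]
    · rw [if_neg h, ENNReal.ofReal_zero, mul_zero]
      refine measure_mono_null (t := ∅) ?_ measure_empty
      rintro ω ⟨h1, h2⟩
      exact h (by rw [← h1 k le_rfl]; exact h2)
  | succ t ih =>
    intro k x
    have hU : {ω | (∀ i ≤ k, X i ω = x i) ∧ X (k + (t + 1)) ω = y} =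
        ⋃ z, {ω | (∀ i ≤ k + 1, X i ω = Function.update x (k + 1) z i) ∧
          X (k + 1 + t) ω = y} := by
      ext ω
      simp only [Set.mem_ofPred_eq, Set.mem_iUnion]
      rw [show k + (t + 1) = k + 1 + t by omega]
      constructor
      · rintro ⟨h1, h2⟩
        refine ⟨X (k + 1) ω, fun i hi => ?_, h2⟩
        rcases eq_or_lt_of_le hi with h | h
        · subst h
          rw [Function.update_self]
        · rw [Function.update_of_ne (by omega)]
          exact h1 i (by omega)
      · rintro ⟨z, h1, h2⟩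
        refine ⟨fun i hi => ?_, h2⟩
        rw [h1 i (by omega), Function.update_of_ne (by omega)]
    have hms : ∀ (j : ℕ) (v : V), MeasurableSet {ω | X j ω = v} := fun j v =>
      (hX.1 j) (measurableSet_singleton v)
    rw [hU, measure_iUnion]
    · have h3 : ∀ z, μ {ω | (∀ i ≤ k + 1, X i ω = Function.update x (k + 1) z i) ∧
          X (k + 1 + t) ω = y} = μ {ω | ∀ i ≤ k, X i ω = x i} *
            (ENNReal.ofReal (pK F (x k) z) * ENNReal.ofReal
              ((PP F)^[t] (fun z => if z = y then 1 else 0) z)) := by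
        intro z
        rw [ih (k + 1) (Function.update x (k + 1) z), step hP hF hX, Function.update_self,
          mul_assoc]
      rw [tsum_congr h3, ENNReal.tsum_mul_left, tsum_pK hP hF _ (it_nonneg hP hF y t),
        Function.iterate_succ_apply']
    · intro z w hzw
      refine Set.disjoint_left.2 ?_
      rintro ω ⟨h1, -⟩ ⟨h2, -⟩
      refine hzw ?_
      have e1 := h1 (k + 1) le_rfl
      have e2 := h2 (k + 1) le_rfl
      rw [Function.update_self] at e1 e2
      exact e1.symm.trans e2
    · intro z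
      refine MeasurableSet.inter ?_ (hms _ _)
      have : {ω | ∀ i ≤ k + 1, X i ω = Function.update x (k + 1) z i} =
          ⋂ i ∈ Finset.range (k + 2), {ω | X i ω = Function.update x (k + 1) z i} := by
        ext ω
        simp only [Set.mem_ofPred_eq, Set.mem_iInter, Finset.mem_range]
        exact forall_congr' fun i => ⟨fun h hi => h (by omega), fun h hi => h (by omega)⟩
      change MeasurableSet {ω | ∀ i ≤ k + 1, X i ω = Function.update x (k + 1) z i}
      rw [this]
      exact Finset.measurableSet_biInter _ fun i _ => hms _ _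

end

end Tr3

open Tr3

theorem piece_trans3 (hP : S_P) : S_trans3 := by
  intro F hF hM Ω _ μ X x0 hμ hX
  rw [ae_all_iff]
  intro y
  obtain ⟨M, hM⟩ := hM y
  have h0 : μ {ω | ∀ i ≤ 0, X i ω = x0} = 1 := by
    have := hX.2 0 (fun _ => x0)
    rw [this, if_pos rfl]
    simp
  have hX0 : μ {ω | X 0 ω = x0} = 1 := by
    rw [← h0]
    congr 1
    ext ω
    simp
  have hc : μ {ω | X 0 ω = x0}ᶜ = 0 := by
    have hm0 : MeasurableSet {ω | X 0 ω = x0} := (hX.1 0) (measurableSet_singleton x0)
    exact (prob_compl_eq_zero_iff hm0).2 hX0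
  have h1 : ∀ t, μ {ω | X t ω = y} ≤
      ENNReal.ofReal ((PP F)^[t] (fun z => if z = y then 1 else 0) x0) := by
    intro t
    have h2 := main hP hF hX y t 0 (fun _ => x0)
    rw [h0, one_mul, zero_add] at h2
    calc μ {ω | X t ω = y} ≤ μ ({ω | (∀ i ≤ 0, X i ω = x0) ∧ X t ω = y} ∪
          {ω | X 0 ω = x0}ᶜ) := by
          refine measure_mono fun ω hω => ?_
          by_cases h : X 0 ω = x0
          · left
            refine ⟨fun i hi => ?_, hω⟩
            rw [Nat.le_zero.1 hi]
            exact h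
          · right
            exact h
      _ ≤ μ {ω | (∀ i ≤ 0, X i ω = x0) ∧ X t ω = y} + μ {ω | X 0 ω = x0}ᶜ :=
          measure_union_le _ _
      _ = ENNReal.ofReal ((PP F)^[t] (fun z => if z = y then 1 else 0) x0) := by
          rw [hc, add_zero, h2]
  refine ae_finite_setOf_mem (s := fun k => {ω | X k ω = y}) ?_
  refine ne_top_of_le_ne_top (b := ENNReal.ofReal M) ENNReal.ofReal_ne_top ?_
  refine ENNReal.tsum_le_of_sum_range_le fun T => ?_
  calc ∑ t ∈ range T, μ {ω | X t ω = y}
      ≤ ∑ t ∈ range T, ENNReal.ofReal ((PP F)^[t] (fun z => if z = y then 1 else 0) x0) :=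
        sum_le_sum fun t _ => h1 t
    _ = ENNReal.ofReal (∑ t ∈ range T, (PP F)^[t] (fun z => if z = y then 1 else 0) x0) :=
        (ENNReal.ofReal_sum_of_nonneg fun t _ => it_nonneg hP hF y t x0).symm
    _ ≤ ENNReal.ofReal M := ENNReal.ofReal_le_ofReal (hM x0 T)

end Pool.Agent.R812.TC
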